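import Pool.Agent.Strip051.LC.E0.O4.Def
import Pool.Agent.Strip051.LC.E0.O3.GeoB
import Pool.Agent.Strip051.LC.E0.O3.Lev
import Pool.Agent.Strip051.LC.E0.O3.SecA
import Pool.Agent.Strip051.LC.E0.O3.SecB
import Pool.Agent.Strip051.LC.E0.O3.SecE1

/-! # Small rests: the side 13 on the curve `b` next to the vertical direction

The excess `e` of the triangle bounds the deviation of the height of the side 13 and the distance
of the triangle to a rotated lattice triangle. For `1 / 250 ≤ s` the triangle is in the window, for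
smaller `s` it is in the window or the gauge of the direction of the side 12 (of the side 23 if
the side 12 is below its lattice direction) gives the estimates. -/

namespace Pool.Agent.Strip051.LC.E0.Out

open Pool.Agent.StripNear Pool.Agent.StripSquare Pool.Agent.Strip051 Pool.Agent.Strip051.Sweep
open Pool.Agent.Strip051.LC.Line (tau)


/-! ### The curve -/

theorem bv_b {T : ℝ} (hT : 1592 / 1000 < T) (h3 : T ^ 2 ≤ 3) :
    c3 T ≤ 683 / 1000 ∧ 15 / 100 * c3 T ≤ seceb T ∧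
      seceb T ≤ 15 / 100 * c3 T + 443 / 1000 * c3 T ^ 2 ∧ T ≤ 2 * h0 := by
  have hh := h0_pos
  have hq := h0_sq'
  obtain ⟨b1, b2⟩ := h0_bd
  have r0 := c3_nonneg T
  have r2 := c3_sq h3
  have hT2 : T ≤ 2 * h0 := by
    refine le_of_sq2 (by positivity) ?_
    rw [mul_pow, hq]
    linarith
  have e : Wc T = √(1 - (T - h0) ^ 2) - 1 / 2 := by
    unfold Wc
    rw [if_neg (by linarith)]
  have e1 : (T - h0) ^ 2 ≤ h0 ^ 2 := pow_le_pow_left₀ (by linarith) (by linarith) 2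
  have e0 : 0 ≤ 1 - (T - h0) ^ 2 := by linarith
  have w := Real.sq_sqrt e0
  have w0 := Real.sqrt_nonneg (1 - (T - h0) ^ 2)
  have W0 : 0 ≤ Wc T := by
    rw [e]
    have : (1 : ℝ) / 2 ≤ √(1 - (T - h0) ^ 2) := by
      refine le_of_sq2 w0 ?_
      rw [w]
      linarith
    linarith
  have W1 : Wc T ≤ 2 * h0 * (2 * h0 - T) := by
    rw [e]
    have : √(1 - (T - h0) ^ 2) ≤ 1 / 2 + 2 * h0 * (2 * h0 - T) := by
      have m0 := mul_nonneg (by linarith : 0 ≤ 2 * h0) (by linarith : 0 ≤ 2 * h0 - T)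
      refine le_of_sq2 (by linarith) ?_
      rw [w]
      have : (1 / 2 + 2 * h0 * (2 * h0 - T)) ^ 2 = 1 - (T - h0) ^ 2 + 4 * (2 * h0 - T) ^ 2 := by
        linear_combination (1 + 4 * (2 * h0 - T) ^ 2) * hq
      linarith [sq_nonneg (2 * h0 - T)]
    linarith
  have hd : (2 * h0 - T) * (2 * h0 + T) = c3 T ^ 2 := by
    linear_combination 4 * hq - r2
  have d0 : 0 ≤ 2 * h0 - T := by linarith
  have hd1 : (2 * h0 - T) * (332404 / 100000) ≤ c3 T ^ 2 := by
    rw [← hd]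
    exact mul_le_mul_of_nonneg_left (by linarith) d0
  have W2 : Wc T ≤ 173206 / 100000 * (2 * h0 - T) :=
    W1.trans (mul_le_mul_of_nonneg_right (by linarith) d0)
  refine ⟨?_, ?_, ?_, hT2⟩
  · refine le_of_sq2 (by norm_num) ?_
    have : (1592 / 1000) ^ 2 ≤ T ^ 2 := pow_le_pow_left₀ (by norm_num) hT.le 2
    linarith
  · unfold seceb
    linarith
  · unfold seceb
    linarith

theorem bv_G {r b R m κ G : ℝ} (hr : 0 ≤ r) (hR : r ≤ R) (hb : 0 ≤ b) (hm : b ≤ m * r)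
    (hκ : 2 * κ = 1 - m ^ 2) (κ0 : 0 ≤ κ) (hG : G ≤ κ * (1 - κ * R ^ 2)) (h1 : r ≤ 1) :
    G * r ^ 2 ≤ (r ^ 2 - b ^ 2) / 2 - (r ^ 2 - b ^ 2) ^ 2 / 4 := by
  have a1 : b ^ 2 ≤ m ^ 2 * r ^ 2 := by
    rw [← mul_pow]
    exact pow_le_pow_left₀ hb hm 2
  have r2 : r ^ 2 ≤ 1 := by nlinarith
  have a2 : r ^ 2 ≤ R ^ 2 := pow_le_pow_left₀ hr hR 2
  have k1 : κ ≤ 1 / 2 := by nlinarith [sq_nonneg m]
  have a3 : κ * r ^ 2 ≤ 1 / 2 := by nlinarith [sq_nonneg r]
  have a4 : κ * r ^ 2 ≤ (r ^ 2 - b ^ 2) / 2 := by nlinarith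
  have a5 := mul_nonneg (by linarith : 0 ≤ (r ^ 2 - b ^ 2) / 2 - κ * r ^ 2)
    (by nlinarith [sq_nonneg b] : 0 ≤ 1 - (r ^ 2 - b ^ 2) / 2 - κ * r ^ 2)
  have a6 : κ * r ^ 2 * (κ * r ^ 2) ≤ κ * r ^ 2 * (κ * R ^ 2) :=
    mul_le_mul_of_nonneg_left (mul_le_mul_of_nonneg_left a2 κ0) (mul_nonneg κ0 (sq_nonneg r))
  have a7 : G * r ^ 2 ≤ κ * (1 - κ * R ^ 2) * r ^ 2 := mul_le_mul_of_nonneg_right hG (sq_nonneg r)
  nlinarith

theorem bv_id {u v t T e : ℝ} (hu : u ^ 2 + t ^ 2 = 1) (hc : u * T - v * t = h0 * (1 + 2 * e)) :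
    3 * e * (1 + e) = (3 - (v ^ 2 + T ^ 2)) / 2 - (3 - (v ^ 2 + T ^ 2)) ^ 2 / 4 +
      ((v ^ 2 + T ^ 2) / 2 - (u * v + t * T)) *
        ((v ^ 2 + T ^ 2) - ((v ^ 2 + T ^ 2) / 2 - (u * v + t * T))) := by
  have e1 : (u * v + t * T) ^ 2 + (u * T - v * t) ^ 2 = v ^ 2 + T ^ 2 := by
    linear_combination (v ^ 2 + T ^ 2) * hu
  rw [hc, mul_pow, h0_sq'] at e1
  linear_combination e1

theorem bv_q {s e η r b p : ℝ} (hs : 0 < s) (hs1 : s ≤ 11 / 400) (he0 : -(1 / 2) ≤ e)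
    (hE : e < (174 / 100 + 3 * s) * s) (η0 : 0 ≤ η) (η1 : η ≤ 1) (r0 : 0 ≤ r)
    (r1 : r ≤ 683 / 1000) (b0 : 15 / 100 * r ≤ b) (b1 : b ≤ 15 / 100 * r + 443 / 1000 * r ^ 2)
    (hp : p = 3 - r ^ 2 + b ^ 2)
    (hq : 3 * e * (1 + e) = (3 - p) / 2 - (3 - p) ^ 2 / 4 + η * (p - η)) :
    0 ≤ e ∧ e ≤ 502 / 10000 ∧ 3 * e * (1 + e) ≤ 5742 / 1000 * s ∧ 243 / 100 * η ≤ η * (p - η) ∧
      (r ^ 2 - b ^ 2) / 2 - (r ^ 2 - b ^ 2) ^ 2 / 4 + 243 / 100 * η ≤ 3 * e * (1 + e) ∧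
      3238 / 10000 * r ^ 2 + 243 / 100 * η ≤ 3 * e * (1 + e) := by
  have bb : 0 ≤ b := by linarith
  have e1 : e ≤ 502 / 10000 := by
    have : (174 / 100 + 3 * s) * s ≤ (174 / 100 + 3 * (11 / 400)) * (11 / 400) :=
      mul_le_mul (by linarith) hs1 hs.le (by norm_num)
    linarith
  have rr : r ^ 2 ≤ 683 / 1000 * r := by
    rw [pow_two]
    exact mul_le_mul_of_nonneg_right r1 r0
  have g := bv_G (R := 683 / 1000) (m := 452569 / 1000000)
    (κ := (1 - (452569 / 1000000) ^ 2) / 2) (G := 3238 / 10000) r0 r1 bb (by linarith) (by ring)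
    (by norm_num) (by norm_num) (by linarith)
  have r2 : r ^ 2 ≤ 466489 / 1000000 := by linarith
  have r20 : 0 ≤ r ^ 2 := sq_nonneg r
  have ep : (3 - p) / 2 - (3 - p) ^ 2 / 4 = (r ^ 2 - b ^ 2) / 2 - (r ^ 2 - b ^ 2) ^ 2 / 4 := by
    rw [hp]
    ring
  have p0 : 253 / 100 ≤ p := by
    rw [hp]
    linarith [sq_nonneg b]
  have g0 : 0 ≤ (r ^ 2 - b ^ 2) / 2 - (r ^ 2 - b ^ 2) ^ 2 / 4 := le_trans (by positivity) g
  rw [ep] at hq
  have hηm : ∀ c : ℝ, c ≤ p - η → c * η ≤ η * (p - η) := by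
    intro c hc
    rw [mul_comm c]
    exact mul_le_mul_of_nonneg_left hc η0
  have η2 := hηm (153 / 100) (by linarith)
  have q1 : 3 * e * (1 + e) ≤ 1582 / 10000 := by
    have := mul_nonneg (by linarith : 0 ≤ 502 / 10000 - e) (by linarith : 0 ≤ 1 + 502 / 10000 + e)
    linarith
  have η3 : η ≤ 104 / 1000 := by linarith
  have η4 := hηm (242 / 100) (by linarith)
  have η5 : η ≤ 66 / 1000 := by linarith
  have η6 := hηm (243 / 100) (by linarith)
  have e0 : 0 ≤ e := by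
    have h1 : 0 ≤ 3 * e * (1 + e) := by linarith
    by_contra hc
    rw [not_le] at hc
    have := mul_neg_of_neg_of_pos hc (by linarith : 0 < 1 + e)
    linarith
  refine ⟨e0, e1, ?_, η6, by linarith, by linarith⟩
  have s0 := mul_le_mul_of_nonneg_left (by linarith : 1 + e ≤ 10502 / 10000) e0
  have s1 : (174 / 100 + 3 * s) * s ≤ 18225 / 10000 * s :=
    mul_le_mul_of_nonneg_right (by linarith) hs.le
  linarith


theorem bv_Y {T Y η b v c p χ : ℝ} (hY : Y * p = T * η + v * c) (hp : 0 < p)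
    (hT0 : 0 ≤ T) (hT : T ≤ 63 / 100 * p) (hc : 0 ≤ c) (hχ : c ≤ χ * p) (hv : |v| = b)
    (η0 : 0 ≤ η) : |Y| ≤ 63 / 100 * η + χ * b := by
  refine le_of_mul_le_mul_right ?_ hp
  have b0 : 0 ≤ b := by rw [← hv]; exact abs_nonneg v
  have e : |Y| * p = |T * η + v * c| := by
    rw [← hY, abs_mul, abs_of_pos hp]
  rw [e]
  refine (abs_add_le _ _).trans ?_
  rw [abs_mul v, hv, abs_of_nonneg hc, abs_of_nonneg (mul_nonneg hT0 η0)]
  have a1 := mul_le_mul_of_nonneg_right hT η0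
  have a2 := mul_le_mul_of_nonneg_left hχ b0
  linarith

/-- The data of the triangle. -/
structure BVd (s u v t t' e η b r p : ℝ) : Prop where
  hs : 0 < s
  hs1 : s ≤ 11 / 400
  hu : u ^ 2 + t ^ 2 = 1
  u0 : 0 ≤ u
  t0 : 0 ≤ t
  t1 : 0 ≤ t'
  hc : u * (t + t') - v * t = h0 * (1 + 2 * e)
  hv : |v| = b
  hT : 1592 / 1000 < t + t'
  hT2 : t + t' ≤ 2 * h0
  hr : r ^ 2 = 3 - (t + t') ^ 2
  r0 : 0 ≤ r
  r1 : r ≤ 683 / 1000
  b0 : 15 / 100 * r ≤ b
  b1 : b ≤ 15 / 100 * r + 443 / 1000 * r ^ 2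
  hp : p = 3 - r ^ 2 + b ^ 2
  hη : η = p / 2 - (u * v + t * (t + t'))
  η0 : 0 ≤ η
  e0 : 0 ≤ e
  e1 : e ≤ 502 / 10000
  hE : e < (174 / 100 + 3 * s) * s
  q1 : 3 * e * (1 + e) ≤ 5742 / 1000 * s
  q2 : (r ^ 2 - b ^ 2) / 2 - (r ^ 2 - b ^ 2) ^ 2 / 4 + 243 / 100 * η ≤ 3 * e * (1 + e)
  q3 : 3238 / 10000 * r ^ 2 + 243 / 100 * η ≤ 3 * e * (1 + e)
  qi : 3 * e * (1 + e) = (3 - p) / 2 - (3 - p) ^ 2 / 4 + η * (p - η)

section

variable {s u v t t' e η b r p : ℝ}

theorem BVd.pv (h : BVd s u v t t' e η b r p) : p = v ^ 2 + (t + t') ^ 2 := by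
  rw [h.hp, ← h.hv, sq_abs, h.hr]
  ring

theorem BVd.mk' (hs : 0 < s) (hs1 : s ≤ 11 / 400) (hS : Sides u v t t')
    (hc : 0 ≤ u * (t + t') - v * t) (h12 : NCir |u| t) (h13 : NB |v| (t + t'))
    (hT : 1592 / 1000 < t + t') (hE : exn u v t t' < (174 / 100 + 3 * s) * s) :
    BVd s u v t t' (exn u v t t') ((v ^ 2 + (t + t') ^ 2) / 2 - (u * v + t * (t + t'))) |v|
      (c3 (t + t')) (v ^ 2 + (t + t') ^ 2) := by
  have hh := h0_pos
  obtain ⟨b1, b2⟩ := h0_bd
  obtain ⟨n1, n2, n3⟩ := h12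
  obtain ⟨m1, m2, m3⟩ := h13
  obtain ⟨k1, k2, k3, k4⟩ := bv_b hT m3
  have hr := c3_sq m3
  have hu : u ^ 2 + t ^ 2 = 1 := by
    rw [← sq_abs u, n1]
    exact c1_sq n2 n3.le
  have ce : u * (t + t') - v * t = h0 * (1 + 2 * exn u v t t') := by
    unfold exn
    field_simp
    ring
  have he0 : -(1 / 2) ≤ exn u v t t' := by
    rw [ce] at hc
    by_contra hcc
    rw [not_le] at hcc
    have := mul_neg_of_pos_of_neg hh (by linarith : 1 + 2 * exn u v t t' < 0)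
    linarith
  have kb : |v| = seceb (t + t') := m1
  have b0 : 15 / 100 * c3 (t + t') ≤ |v| := by rw [kb]; exact k2
  have b1' : |v| ≤ 15 / 100 * c3 (t + t') + 443 / 1000 * c3 (t + t') ^ 2 := by rw [kb]; exact k3
  have r0 := c3_nonneg (t + t')
  have hp : v ^ 2 + (t + t') ^ 2 = 3 - c3 (t + t') ^ 2 + |v| ^ 2 := by
    rw [sq_abs]
    linear_combination hr
  have η0 : 0 ≤ (v ^ 2 + (t + t') ^ 2) / 2 - (u * v + t * (t + t')) := by
    have := hS.b1
    linarith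
  have η1 : (v ^ 2 + (t + t') ^ 2) / 2 - (u * v + t * (t + t')) ≤ 1 := by
    have := hS.b3
    linarith
  have qi := bv_id hu ce
  obtain ⟨q1, q2, q3, q4, q5, q6⟩ := bv_q hs hs1 he0 hE η0 η1 r0 k1 b0 b1' hp qi
  have u0 : 0 ≤ u := by
    by_contra hcc
    rw [not_le] at hcc
    have a0 : c3 (t + t') ^ 2 ≤ 683 / 1000 * c3 (t + t') := by
      rw [pow_two]
      exact mul_le_mul_of_nonneg_right k1 r0
    have a1 : |v| ≤ 31 / 100 := by linarith
    have a2 : -v * t ≤ |v| * t := mul_le_mul_of_nonneg_right (neg_le_abs v) n2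
    have a3 : |v| * t ≤ |v| * 1 := mul_le_mul_of_nonneg_left n3.le (abs_nonneg v)
    have a4 : u * (t + t') ≤ 0 := mul_nonpos_of_nonpos_of_nonneg hcc.le (by linarith)
    have a5 := mul_nonneg hh.le q1
    linarith
  exact ⟨hs, hs1, hu, u0, n2, hS.t1, ce, rfl, hT, k4, by linarith, r0, k1, b0, b1', hp, rfl, η0,
    q1, q2, hE, q3, q5, q6, qi⟩

theorem BVd.bb (h : BVd s u v t t' e η b r p) : 0 ≤ b := by
  rw [← h.hv]
  exact abs_nonneg v

/-- The half difference of the heights. -/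
theorem BVd.Y (h : BVd s u v t t' e η b r p) {χ : ℝ} (hχ : h0 * (1 + 2 * e) ≤ χ * p) :
    |(t + t') / 2 - t| ≤ 63 / 100 * η + χ * b := by
  have hh := h0_pos
  have p1 := h.pv
  have hT := h.hT
  have T2 : (1592 / 1000) * (t + t') ≤ (t + t') ^ 2 := by
    rw [pow_two]
    exact mul_le_mul_of_nonneg_right hT.le (by linarith)
  have pT : (1592 / 1000) * (t + t') ≤ p := by
    rw [p1]
    linarith [sq_nonneg v]
  refine bv_Y (T := t + t') (p := p) (c := u * (t + t') - v * t) ?_ (by linarith) (by linarith)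
    (by linarith) ?_ ?_ h.hv h.η0
  · rw [h.hη, p1]
    ring
  · rw [h.hc]
    exact mul_nonneg hh.le (by linarith [h.e0])
  · rw [h.hc]
    exact hχ

theorem BVd.lo (h : BVd s u v t t' e η b r p) : 3 - 9775 / 10000 * r ^ 2 ≤ p := by
  have := pow_le_pow_left₀ (mul_nonneg (by norm_num) h.r0) h.b0 2
  rw [h.hp]
  linarith

/-- The deviation of the height. -/
theorem BVd.dl (h : BVd s u v t t' e η b r p) :
    (2 * h0 - (t + t')) * (2 * h0 + (t + t')) = r ^ 2 := by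
  rw [h.hr]
  linear_combination 4 * h0_sq'

theorem BVd.tot (h : BVd s u v t t' e η b r p) (h4 : 1 / 250 ≤ s) :
    (2 * h0 - (t + t')) / 2 + |(t + t') / 2 - t| ≤ 8 * s := by
  have hh := h0_pos
  obtain ⟨b1, b2⟩ := h0_bd
  have hd := h.dl
  have hd0 : 0 ≤ 2 * h0 - (t + t') := by linarith [h.hT2]
  have r0 := h.r0
  have r1 := h.r1
  have lo := h.lo
  have e1 := h.e1
  have e0 := h.e0
  have hc : h0 * (1 + 2 * e) ≤ 86603 / 100000 * (11004 / 10000) :=
    mul_le_mul b2.le (by linarith) (by linarith) (by norm_num)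
  have q1 := h.q1
  have q2 := h.q2
  have q3 := h.q3
  have η0 := h.η0
  have bb := h.bb
  have hb := h.b1
  have hT := h.hT
  rcases le_total (42 / 100) r with hr | hr
  · have rr : r ^ 2 ≤ 683 / 1000 * r := by
      rw [pow_two]
      exact mul_le_mul_of_nonneg_right r1 r0
    have r2 : r ^ 2 ≤ 466489 / 1000000 := by linarith
    have y := h.Y (χ := 3746 / 10000) (by linarith)
    have d1 : (2 * h0 - (t + t')) * (332404 / 100000) ≤ r ^ 2 := by
      rw [← hd]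
      exact mul_le_mul_of_nonneg_left (by linarith) hd0
    have k : 42 / 100 * r ≤ r ^ 2 := by
      rw [pow_two]
      exact mul_le_mul_of_nonneg_right hr r0
    linarith
  · have rr : r ^ 2 ≤ 42 / 100 * r := by
      rw [pow_two]
      exact mul_le_mul_of_nonneg_right hr r0
    have r2 : r ^ 2 ≤ 1764 / 10000 := by linarith
    have y := h.Y (χ := 3371 / 10000) (by linarith)
    have T1 : 168 / 100 ≤ t + t' := by
      refine le_of_sq2 (by linarith) ?_
      have := h.hr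
      linarith
    have d1 : (2 * h0 - (t + t')) * (34120 / 10000) ≤ r ^ 2 := by
      rw [← hd]
      exact mul_le_mul_of_nonneg_left (by linarith) hd0
    rcases le_total (19 / 100) r with hr' | hr'
    · have g := bv_G (R := 42 / 100) (m := 33606 / 100000)
        (κ := (1 - (33606 / 100000) ^ 2) / 2) (G := 4088 / 10000) r0 hr bb (by linarith) (by ring)
        (by norm_num) (by norm_num) (by linarith)
      have k : 19 / 100 * r ≤ r ^ 2 := by
        rw [pow_two]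
        exact mul_le_mul_of_nonneg_right hr' r0
      linarith
    · have k : r ^ 2 ≤ (19 / 100) ^ 2 := pow_le_pow_left₀ r0 hr' 2
      have k0 := sq_nonneg r
      linarith

theorem BVd.hgt (h : BVd s u v t t' e η b r p) :
    |(t + t') / 2 - t| ≤ (2 * h0 - (t + t')) / 2 + 10 / 100 := by
  have hh := h0_pos
  obtain ⟨b1, b2⟩ := h0_bd
  have hd := h.dl
  have hd0 : 0 ≤ 2 * h0 - (t + t') := by linarith [h.hT2]
  have r0 := h.r0
  have r1 := h.r1
  have lo := h.lo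
  have e1 := h.e1
  have e0 := h.e0
  have hc : h0 * (1 + 2 * e) ≤ 86603 / 100000 * (11004 / 10000) :=
    mul_le_mul b2.le (by linarith) (by linarith) (by norm_num)
  have q3 := h.q3
  have q4 := mul_le_mul_of_nonneg_left (by linarith : 1 + e ≤ 10502 / 10000) e0
  have η0 := h.η0
  have hb := h.b1
  have rr : r ^ 2 ≤ 683 / 1000 * r := by
    rw [pow_two]
    exact mul_le_mul_of_nonneg_right r1 r0
  have r2 : r ^ 2 ≤ 466489 / 1000000 := by linarith
  have y := h.Y (χ := 3746 / 10000) (by linarith)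
  have d1 : r ^ 2 ≤ (2 * h0 - (t + t')) * (34642 / 10000) := by
    rw [← hd]
    exact mul_le_mul_of_nonneg_left (by linarith [h.hT2]) hd0
  have k0 := sq_nonneg r
  linarith

theorem BVd.win (h : BVd s u v t t' e η b r p)
    (h8 : (2 * h0 - (t + t')) / 2 + |(t + t') / 2 - t| ≤ 8 * s) : WV s t t' := by
  have hh := h0_pos
  obtain ⟨b1, b2⟩ := h0_bd
  have g := h.hgt
  have hd0 : 0 ≤ 2 * h0 - (t + t') := by linarith [h.hT2]
  have a1 := le_abs_self ((t + t') / 2 - t)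
  have a2 := neg_le_abs ((t + t') / 2 - t)
  have d8 : 2 * h0 - (t + t') ≤ 8 * s := by
    have hd := h.dl
    have q1 := h.q1
    have q3 := h.q3
    have η0 := h.η0
    have d1 : (2 * h0 - (t + t')) * (332404 / 100000) ≤ r ^ 2 := by
      rw [← hd]
      exact mul_le_mul_of_nonneg_left (by linarith [h.hT]) hd0
    have k0 := sq_nonneg r
    have := h.hs
    linarith
  refine ⟨?_, ?_, ?_, by linarith, by linarith⟩
  · rw [abs_le]
    constructor <;> linarith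
  · rw [abs_le]
    constructor <;> linarith
  · rw [abs_le]
    constructor <;> linarith

end


/-- A unit direction next to `60` degrees. -/
theorem bv_rot {X t : ℝ} (hX : 0 ≤ X) (h : X ^ 2 + t ^ 2 = 1) (h1 : h0 - 3 / 100 ≤ t)
    (h2 : t ≤ h0 + 3 / 100) :
    Rot (X / 2 + h0 * t) (t / 2 - h0 * X) ∧ |t / 2 - h0 * X| ≤ 7 / 100 ∧
      (X / 2 + h0 * t) / 2 - h0 * (t / 2 - h0 * X) = X ∧
      h0 * (X / 2 + h0 * t) + (t / 2 - h0 * X) / 2 = t ∧ 99 / 100 ≤ X / 2 + h0 * t ∧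
      443 / 1000 ≤ X := by
  have hh := h0_pos
  have hq := h0_sq'
  obtain ⟨b1, b2⟩ := h0_bd
  have t0 : 0 ≤ t := by linarith
  have X1 : 443 / 1000 ≤ X := by
    refine le_of_sq2 hX ?_
    have : t ^ 2 ≤ (89603 / 100000) ^ 2 := pow_le_pow_left₀ t0 (by linarith) 2
    linarith
  have e1 : (t / 2 - h0 * X) * (t / 2 + h0 * X) = (t - h0) * (t + h0) := by
    linear_combination (1 - X ^ 2) * hq - 3 / 4 * h
  have e2 : 8016 / 10000 ≤ t / 2 + h0 * X := by
    have : (86602 / 100000) * (443 / 1000) ≤ h0 * X := mul_le_mul b1.le X1 (by norm_num) hh.le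
    linarith
  have e3 : |(t / 2 - h0 * X)| * (t / 2 + h0 * X) ≤ 3 / 100 * (17621 / 10000) := by
    rw [← abs_of_nonneg (by linarith : 0 ≤ t / 2 + h0 * X), ← abs_mul, e1, abs_mul]
    refine mul_le_mul ?_ ?_ (abs_nonneg _) (by norm_num)
    · rw [abs_le]
      constructor <;> linarith
    · rw [abs_of_nonneg (by linarith)]
      linarith
  have e4 : |t / 2 - h0 * X| ≤ 7 / 100 := by
    have := mul_le_mul_of_nonneg_left e2 (abs_nonneg (t / 2 - h0 * X))
    linarith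
  obtain ⟨e5, e6⟩ := abs_le.1 e4
  have sq : (X / 2 + h0 * t) ^ 2 + (t / 2 - h0 * X) ^ 2 = 1 := by
    linear_combination (X ^ 2 + t ^ 2) * hq + h
  have C0 : 0 ≤ X / 2 + h0 * t := add_nonneg (by linarith) (mul_nonneg hh.le t0)
  refine ⟨⟨C0, sq, by linarith, by linarith⟩, e4, ?_, ?_, ?_, X1⟩
  · linear_combination X * hq
  · linear_combination t * hq
  · refine le_of_sq2 C0 ?_
    have := sq_le_sq' e5 e6
    linarith

section

variable {s u v t t' e η b r p : ℝ}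

/-- The displacement of the long side. -/
theorem BVd.dd (h : BVd s u v t t' e η b r p) :
    (v + 2 * h0 * (t / 2 - h0 * u)) ^ 2 + ((t + t') - 2 * h0 * (u / 2 + h0 * t)) ^ 2 =
      3 * e ^ 2 + ((3 - p) / 2 + η) ^ 2 := by
  have hq := h0_sq'
  have hu := h.hu
  have hc := h.hc
  have hp := h.pv
  have hη := h.hη
  have qi := h.qi
  have e1 : (v + 2 * h0 * (t / 2 - h0 * u)) ^ 2 + ((t + t') - 2 * h0 * (u / 2 + h0 * t)) ^ 2 =
      v ^ 2 + (t + t') ^ 2 + 3 - 3 / 2 * (1 + 2 * e) - 3 * (u * v + t * (t + t')) := by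
    have a1 : h0 * (u * (t + t') - v * t) = 3 / 4 * (1 + 2 * e) := by
      rw [hc]
      linear_combination (1 + 2 * e) * hq
    linear_combination (-2) * a1 + (4 * (u ^ 2 + t ^ 2) * h0 ^ 2 + 4 * (u ^ 2 + t ^ 2) -
      4 * (u * v + t * (t + t'))) * hq + 3 * hu
  rw [e1, ← hp]
  have e2 : u * v + t * (t + t') = p / 2 - η := by linarith
  rw [e2]
  linear_combination -qi

/-- Small scales. -/
structure BVs (s u v t t' e η b r p : ℝ) : Prop extends BVd s u v t t' e η b r p where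
  es : e ≤ 1752 / 1000 * s
  re : r ^ 2 ≤ 67 / 10 * e
  ηe : η ≤ 1244 / 1000 * e
  be : b ^ 2 ≤ 41 / 100 * e
  bu : b ≤ 534 / 10000
  de : 2 * h0 - (t + t') ≤ 195 / 100 * e
  d0 : 0 ≤ 2 * h0 - (t + t')
  dX : |v + 2 * h0 * (t / 2 - h0 * u)| ≤ 18 / 5 * e
  dT : |(t + t') - 2 * h0 * (u / 2 + h0 * t)| ≤ 18 / 5 * e
  dd : (v + 2 * h0 * (t / 2 - h0 * u)) ^ 2 + ((t + t') - 2 * h0 * (u / 2 + h0 * t)) ^ 2 ≤
    (18 / 5 * e) ^ 2
  tt : (2 * h0 - (t + t')) / 2 + |(t + t') / 2 - t| ≤ 3 / 100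

theorem BVd.sm (h : BVd s u v t t' e η b r p) (h4 : s ≤ 1 / 250) :
    BVs s u v t t' e η b r p := by
  have hh := h0_pos
  obtain ⟨b1, b2⟩ := h0_bd
  have hs := h.hs
  have hd := h.dl
  have hd0 : 0 ≤ 2 * h0 - (t + t') := by linarith [h.hT2]
  have r0 := h.r0
  have lo := h.lo
  have e0 := h.e0
  have bb := h.bb
  have hb := h.b1
  have hT := h.hT
  have η0 := h.η0
  have q3 := h.q3
  have es : e ≤ 1752 / 1000 * s := by
    refine h.hE.le.trans (mul_le_mul_of_nonneg_right ?_ hs.le)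
    linarith
  have e1 : e ≤ 701 / 100000 := by linarith
  have q : 3 * e * (1 + e) ≤ 3022 / 1000 * e := by
    have := mul_le_mul_of_nonneg_left (by linarith : 1 + e ≤ 3022 / 3000) e0
    linarith
  have r2 : r ^ 2 ≤ 655 / 10000 := by linarith
  have r1 : r ≤ 256 / 1000 := le_of_sq2 (by norm_num) (r2.trans (by norm_num))
  have rr : r ^ 2 ≤ 256 / 1000 * r := by
    rw [pow_two]
    exact mul_le_mul_of_nonneg_right r1 r0
  have g := bv_G (R := 256 / 1000) (m := 26341 / 100000)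
    (κ := (1 - (26341 / 100000) ^ 2) / 2) (G := 4511 / 10000) r0 r1 bb (by linarith) (by ring)
    (by norm_num) (by norm_num) (by linarith)
  have q2 := h.q2
  have re : r ^ 2 ≤ 67 / 10 * e := by linarith
  have ηe : η ≤ 1244 / 1000 * e := by linarith [sq_nonneg r]
  have r4 : r ^ 2 ≤ 46967 / 1000000 := by linarith
  have r3 : r ≤ 2168 / 10000 := le_of_sq2 (by norm_num) (r4.trans (by norm_num))
  have rr : r ^ 2 ≤ 2168 / 10000 * r := by
    rw [pow_two]
    exact mul_le_mul_of_nonneg_right r3 r0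
  have br : b ≤ 2461 / 10000 * r := by linarith
  have be : b ^ 2 ≤ 41 / 100 * e := by
    have := pow_le_pow_left₀ bb br 2
    rw [mul_pow] at this
    linarith
  have T1 : 171 / 100 ≤ t + t' := by
    refine le_of_sq2 (by linarith) ?_
    have := h.hr
    linarith
  have d1 : (2 * h0 - (t + t')) * (3442 / 1000) ≤ r ^ 2 := by
    rw [← hd]
    exact mul_le_mul_of_nonneg_left (by linarith) hd0
  have de : 2 * h0 - (t + t') ≤ 195 / 100 * e := by linarith
  have bu : b ≤ 534 / 10000 := by linarith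
  have ep : 3 - p = r ^ 2 - b ^ 2 := by linarith [h.hp]
  have rb : b ^ 2 ≤ r ^ 2 := pow_le_pow_left₀ bb (by linarith) 2
  have z0 : 0 ≤ (3 - p) / 2 + η := by linarith
  have z : 976 / 1000 * ((3 - p) / 2 + η) ≤ 3022 / 1000 * e := by
    have a1 : (r ^ 2 - b ^ 2) * (r ^ 2 - b ^ 2) ≤ 47 / 1000 * (r ^ 2 - b ^ 2) :=
      mul_le_mul_of_nonneg_right (by linarith [sq_nonneg b]) (by linarith)
    rw [ep]
    linarith
  have dd : (v + 2 * h0 * (t / 2 - h0 * u)) ^ 2 +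
      ((t + t') - 2 * h0 * (u / 2 + h0 * t)) ^ 2 ≤ (18 / 5 * e) ^ 2 := by
    rw [h.dd]
    have z1 : ((3 - p) / 2 + η) ^ 2 ≤ (3097 / 1000 * e) ^ 2 :=
      pow_le_pow_left₀ z0 (by linarith) 2
    have := sq_nonneg e
    linarith
  have dX : |v + 2 * h0 * (t / 2 - h0 * u)| ≤ 18 / 5 * e := by
    refine le_of_sq2 (by linarith) ?_
    rw [sq_abs]
    linarith [sq_nonneg ((t + t') - 2 * h0 * (u / 2 + h0 * t))]
  have dT : |(t + t') - 2 * h0 * (u / 2 + h0 * t)| ≤ 18 / 5 * e := by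
    refine le_of_sq2 (by linarith) ?_
    rw [sq_abs]
    linarith [sq_nonneg (v + 2 * h0 * (t / 2 - h0 * u))]
  have hc : h0 * (1 + 2 * e) ≤ 86603 / 100000 * (101402 / 100000) :=
    mul_le_mul b2.le (by linarith) (by linarith) (by norm_num)
  have y := h.Y (χ := 3 / 10) (by linarith)
  exact ⟨h, es, re, ηe, be, bu, de, hd0, dX, dT, dd, by linarith⟩

/-- The long side. -/
theorem bv_13 {s v T : ℝ} (hs : 0 < s) (hs1 : s ≤ 11 / 400) (hT : 1592 / 1000 < T)
    (h3 : T ^ 2 ≤ 3) (hv : |v| = seceb T) (hb : seceb T ≤ c3 T) :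
    kA s v T = v / 2 ∧ kR s v T = 0 ∧ |kX s v T| ≤ 1 / 6 * (s * |v|) := by
  have hh := h0_pos
  obtain ⟨b1, b2⟩ := h0_bd
  have h32 : 3 * h0 / 2 ≤ T := by linarith
  have key : ∀ w : ℝ, 0 ≤ w → w = seceb T → kA s w T = w / 2 ∧ kR s w T = 0 ∧
      |kX s w T| ≤ 1 / 6 * (s * w) := by
    intro w w0 hw
    refine ⟨sece_kA_lo h32 h3 w0 hw.le, sece_kR h32 h3 w0 (by linarith), ?_⟩
    rw [sece_kX_lo h32 h3 w0 hw.le, ← hw, sece_XV hs]
    obtain ⟨k, -⟩ := sece_V (w := w / (2 * h0) / s) hs hs1 (by positivity)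
    have a1 : |w / w| ≤ 1 := by
      rcases w0.eq_or_lt with h | h
      · rw [← h]
        norm_num
      · rw [div_self h.ne']
        norm_num
    rw [abs_mul, abs_mul, abs_of_nonneg (sq_nonneg s)]
    have a2 : |seceV s (w / (2 * h0) / s)| * |w / w| ≤ 7 / 25 * (w / (2 * h0) / s) * 1 :=
      mul_le_mul k a1 (abs_nonneg _) (by positivity)
    have a3 : s ^ 2 * (|seceV s (w / (2 * h0) / s)| * |w / w|) ≤
        s ^ 2 * (7 / 25 * (w / (2 * h0) / s) * 1) := mul_le_mul_of_nonneg_left a2 (sq_nonneg s)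
    refine a3.trans ?_
    have a4 : s ^ 2 * (7 / 25 * (w / (2 * h0) / s) * 1) = 7 / 25 * (s * w) / (2 * h0) := by
      field_simp
    rw [a4, div_le_iff₀ (by linarith)]
    have : 0 ≤ s * w := mul_nonneg hs.le w0
    nlinarith
  rcases le_total 0 v with h | h
  · rw [abs_of_nonneg h] at hv ⊢
    exact key v h hv
  · rw [abs_of_nonpos h] at hv ⊢
    obtain ⟨k1, k2, k3⟩ := key (-v) (by linarith) hv
    rw [kA_neg] at k1
    rw [kR_neg] at k2
    rw [kX_neg, abs_neg] at k3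
    exact ⟨by linarith, by linarith, k3⟩

end


section

variable {s u v t t' e η b r p : ℝ}

theorem BVs.near (h : BVs s u v t t' e η b r p) : h0 - 3 / 100 ≤ t ∧ t ≤ h0 + 3 / 100 ∧
    h0 - 3 / 100 ≤ t' ∧ t' ≤ h0 + 3 / 100 := by
  have a := h.tt
  have b := h.d0
  obtain ⟨c, d⟩ := abs_le.1 (le_refl |(t + t') / 2 - t|)
  refine ⟨?_, ?_, ?_, ?_⟩ <;> linarith

/-- The scale against the long side. -/
theorem BVs.sb (h : BVs s u v t t' e η b r p) (hx : 9 * s ≤ |t / 2 - h0 * u|) :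
    s * b ≤ 46 / 1000 * e := by
  have hh := h0_pos
  obtain ⟨b1, b2⟩ := h0_bd
  have hs := h.hs
  have e0 := h.e0
  have es := h.es
  have bb := h.bb
  have be := h.be
  have dX := h.dX
  have k : 2 * h0 * |t / 2 - h0 * u| ≤ b + 18 / 5 * e := by
    rw [← h.hv]
    have a1 : 2 * h0 * |t / 2 - h0 * u| = |(v + 2 * h0 * (t / 2 - h0 * u)) - v| := by
      rw [add_sub_cancel_left, abs_mul, abs_of_pos (by linarith : 0 < 2 * h0)]
    rw [a1]
    have a2 := abs_sub (v + 2 * h0 * (t / 2 - h0 * u)) v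
    linarith
  have k2 : 173204 / 100000 * (9 * s) ≤ 2 * h0 * |t / 2 - h0 * u| :=
    mul_le_mul (by linarith) hx (by linarith) (by linarith)
  have k3 : 9 * s ≤ b := by linarith
  have k4 : 9 * s * b ≤ b * b := mul_le_mul_of_nonneg_right k3 bb
  nlinarith

/-- The cost from its parts. -/
theorem bv_cost {s k u v t t' e b i a g c12 : ℝ} (hs : 0 < s) (h4 : s ≤ 1 / 250) (e0 : 0 ≤ e)
    (he : e = exn u v t t') (hi : s * i ≤ 1 / 9)
    (a12 : |kA s u t - k * tau t| ≤ i * c12)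
    (a23 : |kA s (v - u) t' - k * tau t'| ≤ (i + 5) * a + g)
    (a13 : |kA s v (t + t') - k * tau (t + t')| ≤ b / 2 + i * (195 / 100 * e))
    (r12 : kR s u t = 0) (r23 : s * |kR s (v - u) t'| ≤ 1 / 16 * (a + g))
    (r13 : kR s v (t + t') = 0) (x12 : kX s u t = 0)
    (x23 : |kX s (v - u) t'| ≤ 1 / 64 * (a + g)) (x13 : |kX s v (t + t')| ≤ 1 / 6 * (s * b))
    (sb : s * b ≤ 46 / 1000 * e) (a0 : 0 ≤ a) (g0 : 0 ≤ g) (gg : g ≤ 18 / 5 * e)
    (c0 : 0 ≤ c12) (ac : c12 + a ≤ 46 / 10 * e) : OKC s u v t t' := by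
  refine ⟨k, 0, le_rfl, ?_⟩
  rw [← he]
  unfold cost
  simp only [add_zero]
  rw [r12, r13, x12, abs_zero]
  have m1 : s * (i * c12) ≤ 1 / 9 * c12 := by
    rw [← mul_assoc]
    exact mul_le_mul_of_nonneg_right hi c0
  have m2 : s * ((i + 5) * a) ≤ (1 / 9 + 5 / 250) * a := by
    rw [← mul_assoc]
    exact mul_le_mul_of_nonneg_right (by linarith) a0
  have m3 : s * (i * (195 / 100 * e)) ≤ 1 / 9 * (195 / 100 * e) := by
    rw [← mul_assoc]
    exact mul_le_mul_of_nonneg_right hi (by linarith)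
  have m4 : s * g ≤ 1 / 250 * g := mul_le_mul_of_nonneg_right h4 g0
  have n1 := mul_le_mul_of_nonneg_left a12 hs.le
  have n2 := mul_le_mul_of_nonneg_left a23 hs.le
  have n3 := mul_le_mul_of_nonneg_left a13 hs.le
  have n4 : s ^ 2 * |kR s (v - u) t'| ≤ 1 / 250 * (1 / 16 * (a + g)) := by
    have : s ^ 2 * |kR s (v - u) t'| = s * (s * |kR s (v - u) t'|) := by ring
    rw [this]
    exact mul_le_mul h4 r23 (mul_nonneg hs.le (abs_nonneg _)) (by norm_num)
  linarith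

end


section

variable {s u v t t' e η b r p : ℝ}

theorem bv_C {C x : ℝ} (h : Rot C x) (hC : 99 / 100 ≤ C) (hx : |x| ≤ 7 / 100) :
    h0 * (1 - C) ≤ 31 / 1000 * |x| := by
  have hh := h0_pos
  obtain ⟨b1, b2⟩ := h0_bd
  have c1 := h.C1
  have a1 : (1 - C) * (1 + C) = x ^ 2 := by linear_combination -h.sq
  have a2 : (1 - C) * (199 / 100) ≤ (1 - C) * (1 + C) :=
    mul_le_mul_of_nonneg_left (by linarith) (by linarith)
  have a0 := abs_nonneg x
  have a3 : |x| * |x| ≤ 7 / 100 * |x| := mul_le_mul_of_nonneg_right hx a0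
  have a4 : h0 * (1 - C) ≤ 86603 / 100000 * (1 - C) :=
    mul_le_mul_of_nonneg_right b2.le (by linarith)
  have a5 := abs_mul_abs_self x
  nlinarith

/-- The direction of the side 12, for the lower case. -/
theorem bv_low {C x t s : ℝ} (h : Rot C x) (hs : 0 < s) (hC : 99 / 100 ≤ C)
    (hx : |x| ≤ 7 / 100) (ht : h0 * C + x / 2 = t) (h8 : 8 * s ≤ h0 - t) :
    x ≤ -(14 * s) ∧ h0 - t ≤ -(54 / 100 * x) := by
  have a := bv_C h hC hx
  have e : h0 - t = h0 * (1 - C) - x / 2 := by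
    rw [← ht]
    ring
  rcases le_total 0 x with h0' | h0'
  · rw [abs_of_nonneg h0'] at a
    constructor <;> linarith
  · rw [abs_of_nonpos h0'] at a
    constructor <;> linarith

theorem bv_up {C x t s : ℝ} (h : Rot C x) (ht : h0 * C + x / 2 = t) (h8 : 9 * s ≤ 2 * (t - h0)) :
    9 * s ≤ x := by
  have := mul_le_mul_of_nonneg_left h.C1 h0_pos.le
  linarith

/-- The side 23 next to the circle. -/
theorem bv_23 {z w η e : ℝ} (h : (z - w) * (z + w) = 2 * η) (hz : 389 / 1000 ≤ z)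
    (hw : 443 / 1000 ≤ w) (η0 : 0 ≤ η) (ηe : η ≤ 1244 / 1000 * e) :
    0 ≤ z - w ∧ z - w ≤ 3 * e := by
  have d3 : 0 ≤ z - w := by
    by_contra hcc
    rw [not_le] at hcc
    nlinarith
  refine ⟨d3, ?_⟩
  have := mul_le_mul_of_nonneg_left (by linarith : 832 / 1000 ≤ z + w) d3
  linarith

/-- The residue of the side 13. -/
theorem bv_r13 {s v T i k d b : ℝ} (hT : 3 * h0 / 2 ≤ T) (hA : kA s v T = v / 2)
    (hv : |v| = b) (hk : |k| = i - 2) (i2 : 2 ≤ i) (d0 : 0 ≤ 2 * h0 - T) (hd : 2 * h0 - T ≤ d) :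
    |kA s v T - k * tau T| ≤ b / 2 + i * d := by
  rw [hA, tau_hi hT, show v / 2 - k * (T - 2 * h0) = v / 2 + k * (2 * h0 - T) by ring]
  refine (abs_add_le _ _).trans ?_
  rw [abs_div, abs_of_pos (by norm_num : (0 : ℝ) < 2), abs_mul, hk, abs_of_nonneg d0, hv]
  have a5 : (i - 2) * (2 * h0 - T) ≤ i * d :=
    mul_le_mul (by linarith) hd d0 (by linarith)
  linarith

/-- The residue of the side 12. -/
theorem bv_r12 {s u t x x' e : ℝ} (hs : 0 < s) (x0 : x ≤ -(14 * s)) (x0' : 0 < x')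
    (f1 : kA s u t = (1 - 2 * -x) / x * (t - h0)) (ta : tau t = t - h0) (e0 : 0 ≤ e)
    (hm : h0 - t ≤ -(54 / 100 * x)) (hm0 : 0 ≤ h0 - t) (yy : |x' + x| ≤ 83 / 10 * e) :
    |kA s u t - -(1 / x' - 2) * tau t| ≤ 1 / x' * (54 / 100 * (83 / 10 * e)) := by
  have i0 : 0 ≤ 1 / x' := by positivity
  have xn : x < 0 := by linarith
  have e1 : kA s u t - -(1 / x' - 2) * tau t = 1 / x' * ((x' + x) * ((t - h0) / x)) := by
    rw [f1, ta]
    have := xn.ne
    field_simp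
    ring
  rw [e1, abs_mul, abs_of_nonneg i0]
  refine mul_le_mul_of_nonneg_left ?_ i0
  rw [abs_mul]
  have e2 : |(t - h0) / x| ≤ 54 / 100 := by
    rw [abs_div, abs_of_nonpos (by linarith : t - h0 ≤ 0), abs_of_neg xn,
      div_le_iff₀ (by linarith)]
    linarith
  calc |x' + x| * |(t - h0) / x| ≤ 83 / 10 * e * (54 / 100) :=
        mul_le_mul yy e2 (abs_nonneg _) (by linarith)
    _ = 54 / 100 * (83 / 10 * e) := by ring

theorem BVs.le (h : BVs s u v t t' e η b r p) (hr : r = c3 (t + t'))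
    (hb : |v| = seceb (t + t')) : seceb (t + t') ≤ c3 (t + t') := by
  rw [← hb, ← hr, h.hv]
  have a1 := h.b1
  have a2 := h.r0
  have a3 := h.r1
  have a4 : r ^ 2 ≤ 683 / 1000 * r := by
    rw [pow_two]
    exact mul_le_mul_of_nonneg_right a3 a2
  linarith

theorem BVs.T3 (h : BVs s u v t t' e η b r p) : (t + t') ^ 2 ≤ 3 := by
  have := h.hr
  linarith [sq_nonneg r]

theorem BVs.ann (h : BVs s u v t t' e η b r p) (hS : Sides u v t t') : Ann (u - v) t' := by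
  have e : (u - v) ^ 2 = (v - u) ^ 2 := by ring
  exact ⟨h.t1, by rw [e]; exact hS.b1, by rw [e]; exact hS.b3⟩

theorem BVs.pos (h : BVs s u v t t' e η b r p) (h4 : s ≤ 1 / 250) (hS : Sides u v t t')
    (he : e = exn u v t t') (hb : |v| = seceb (t + t')) (hr : r = c3 (t + t'))
    (hx : 9 * s ≤ t / 2 - h0 * u) : OKC s u v t t' := by
  have hs := h.hs
  have hs1 := h.hs1
  have e0 := h.e0
  obtain ⟨n1, n2, n3, n4⟩ := h.near
  obtain ⟨R, R1, R2, R3, R4, -⟩ := bv_rot h.u0 h.hu n1 n2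
  have hsb := h.sb
  have dX := h.dX
  have dT := h.dT
  have dd := h.dd
  obtain ⟨k1, k2, k3⟩ := bv_13 hs hs1 h.hT h.T3 hb (h.le hr hb)
  have hc := bv_C R R4 R1
  generalize t / 2 - h0 * u = x at *
  generalize u / 2 + h0 * t = C at *
  have x0 : 0 < x := by linarith
  have sb := hsb (by rwa [abs_of_pos x0])
  have hi : 1 / x * x = 1 := by field_simp
  have i0 : 0 ≤ 1 / x := by positivity
  have si : s * (1 / x) ≤ 1 / 9 := by
    have := mul_le_mul_of_nonneg_right hx i0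
    linarith
  have i2 : 2 ≤ 1 / x := by
    rw [le_div_iff₀ x0]
    linarith [(abs_le.1 R1).2]
  have f1 := n60_kA hs hs1 R x0.ne'
  have f2 := n60_kR (s := s) R
  have f3 := n60_kX_up hs hs1 R x0.le
  rw [R2, R3] at f1 f2 f3
  rw [abs_of_pos x0, RA_eq hs (by linarith)] at f1
  rw [xA_far hs (by linarith), lvl_far hs (by linarith), mul_zero, sub_zero] at f3
  have q1 : u - v - (C / 2 + h0 * x) = -(v + 2 * h0 * x) := by
    rw [← R2]
    ring
  have q2 : t' - (h0 * C - x / 2) = (t + t') - 2 * h0 * C := by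
    rw [← R3]
    ring
  have hN : Nr s (C / 2 + h0 * x) (h0 * C - x / 2) (u - v) t' := by
    unfold Nr
    rw [q1, q2, neg_sq]
    have := h.es
    exact dd.trans (pow_le_pow_left₀ (by linarith) (by linarith) 2)
  have hC1 := mul_le_mul_of_nonneg_left R.C1 h0_pos.le
  rw [abs_of_pos x0] at hc
  have w1 : h0 * C - x / 2 - 4 * s ≤ t' := by
    have := h.de
    have := h.es
    linarith
  have w2 : t' ≤ h0 + 3 / 2 * s := by
    have := h.d0
    linarith
  have S := sec_m60 hs hs1 R (by linarith) (h.ann hS) hN w1 w2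
  have S5 := S.L5 (by linarith)
  have SA := S.A
  have SR := S.R
  rw [q1, q2, abs_neg] at SA SR S5
  have ng : u - v = -(v - u) := by ring
  rw [ng, kA_neg] at SA
  rw [ng, kR_neg, abs_neg] at SR
  rw [ng, kX_neg, abs_neg] at S5
  refine bv_cost (k := 1 / x - 2) (b := b) (i := 1 / x)
    (a := |(t + t') - 2 * h0 * C|) (g := |v + 2 * h0 * x|) (c12 := 0) hs h4 e0 he si ?_ ?_ ?_ f2 SR
    k2 f3 S5 (by rw [← h.hv]; exact k3) sb (abs_nonneg _) (abs_nonneg _) dX le_rfl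
    (by linarith)
  · have : kA s u t - (1 / x - 2) * tau t = 0 := by
      rw [f1]
      field_simp
      ring
    rw [this, abs_zero, mul_zero]
  · rw [show kA s (v - u) t' - (1 / x - 2) * tau t' =
      -(-kA s (v - u) t' - -(1 / x - 2) * tau t') by ring, abs_neg]
    linarith
  · have h32 : 3 * h0 / 2 ≤ t + t' := by
      have := h.hT
      have := h0_bd.2
      linarith
    exact bv_r13 h32 k1 h.hv (abs_of_nonneg (by linarith)) i2 h.d0 h.de

theorem bv_yy {C x C' x' e : ℝ} (hC : 99 / 100 ≤ C) (hC' : 99 / 100 ≤ C') (h : C ^ 2 + x ^ 2 = 1)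
    (h' : C' ^ 2 + x' ^ 2 = 1) (hx : |x| ≤ 7 / 100) (hx' : |x'| ≤ 7 / 100)
    (hd : |(h0 * C' + x' / 2) - (h0 * C - x / 2)| ≤ 18 / 5 * e) : |x' + x| ≤ 83 / 10 * e := by
  have hh := h0_pos
  obtain ⟨b1, b2⟩ := h0_bd
  obtain ⟨q1, q2⟩ := abs_le.1 hx
  obtain ⟨q3, q4⟩ := abs_le.1 hx'
  have p : 0 < C + C' := by linarith
  obtain ⟨q, hq⟩ : ∃ q, q = h0 * ((x' - x) / (C + C')) := ⟨_, rfl⟩
  have e1 : (h0 * C' + x' / 2) - (h0 * C - x / 2) = (x' + x) * (1 / 2 - q) := by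
    rw [hq]
    field_simp
    linear_combination (2 * h0) * h' - (2 * h0) * h
  have e2 : |q| ≤ 62 / 1000 := by
    rw [hq, abs_mul, abs_of_pos hh, abs_div, abs_of_pos p]
    have a1 : |x' - x| / (C + C') ≤ 14 / 198 := by
      rw [div_le_iff₀ p]
      have : |x' - x| ≤ 14 / 100 := by
        rw [abs_le]
        constructor <;> linarith
      linarith
    nlinarith [div_nonneg (abs_nonneg (x' - x)) p.le]
  obtain ⟨q5, q6⟩ := abs_le.1 e2
  rw [e1, abs_mul, abs_of_nonneg (by linarith : 0 ≤ 1 / 2 - q)] at hd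
  have := mul_le_mul_of_nonneg_left (by linarith : 438 / 1000 ≤ 1 / 2 - q) (abs_nonneg (x' + x))
  have e0 : 0 ≤ e := by
    have := mul_nonneg (abs_nonneg (x' + x)) (by linarith : 0 ≤ 1 / 2 - q)
    linarith
  linarith

end


section

variable {s u v t t' e η b r p : ℝ}

theorem BVs.neg (h : BVs s u v t t' e η b r p) (h4 : s ≤ 1 / 250) (hS : Sides u v t t')
    (he : e = exn u v t t') (hb : |v| = seceb (t + t')) (hr : r = c3 (t + t'))
    (hx : 8 * s ≤ h0 - t) : OKC s u v t t' := by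
  have hs := h.hs
  have hs1 := h.hs1
  have e0 := h.e0
  obtain ⟨n1, n2, n3, n4⟩ := h.near
  obtain ⟨R, R1, R2, R3, R4, U⟩ := bv_rot h.u0 h.hu n1 n2
  have ww := c1_sq h.t1 (by linarith [h0_bd.2])
  obtain ⟨R', R1', R2', R3', R4', U'⟩ := bv_rot (c1_nonneg t') ww n3 n4
  have hsb := h.sb
  have d1 : (u - v - c1 t') * (u - v + c1 t') = 2 * η := by
    rw [h.hη, h.pv]
    linear_combination -ww + h.hu
  have va : |v| ≤ 534 / 10000 := by rw [h.hv]; exact h.bu
  obtain ⟨d3, d4⟩ := bv_23 d1 (by linarith [(abs_le.1 va).2]) U' h.η0 h.ηe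
  obtain ⟨k1, k2, k3⟩ := bv_13 hs hs1 h.hT h.T3 hb (h.le hr hb)
  have dT := h.dT
  generalize t / 2 - h0 * u = x at *
  generalize u / 2 + h0 * t = C at *
  generalize c1 t' = w at *
  generalize t' / 2 - h0 * w = x' at *
  generalize w / 2 + h0 * t' = C' at *
  obtain ⟨y14, tm⟩ := bv_low R hs R4 R1 R3 hx
  have y9 : 9 * s ≤ x' := bv_up R' R3' (by
    have := h.de
    have := h.es
    linarith)
  have sb := hsb (by
    rw [abs_of_nonpos (by linarith)]
    linarith)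
  have yy := bv_yy R4 R4' R.sq R'.sq R1 R1' (e := e) (by
    rw [R3', show t' - (h0 * C - x / 2) = (t + t') - 2 * h0 * C by rw [← R3]; ring]
    exact dT)
  have f1 := n60_kA hs hs1 R (by linarith)
  have f2 := n60_kR (s := s) R
  have f3 := n60_kX_dn hs hs1 R (by linarith)
  have hh := h0_pos
  have hh2 := h0_bd
  have ta := tau_mi (T := t) (by linarith) (by linarith)
  rw [R2, R3] at f1 f2 f3
  rw [abs_of_neg (by linarith), RA_eq hs (by linarith), ta] at f1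
  rw [lvl_far hs (by linarith)] at f3
  have x0 : 0 < x' := by linarith
  have hi : 1 / x' * x' = 1 := by field_simp
  have i0 : 0 ≤ 1 / x' := by positivity
  have si : s * (1 / x') ≤ 1 / 9 := by
    have := mul_le_mul_of_nonneg_right y9 i0
    linarith
  have i2 : 2 ≤ 1 / x' := by
    rw [le_div_iff₀ x0]
    linarith [(abs_le.1 R1').2]
  have hN : Nr s (C' / 2 - h0 * x') (h0 * C' + x' / 2) (u - v) t' := by
    unfold Nr
    rw [R2', R3', sub_self]
    have := h.es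
    have : (u - v - w) ^ 2 ≤ (79 / 10 * s) ^ 2 := pow_le_pow_left₀ d3 (by linarith) 2
    linarith
  have S := sec_p60 hs hs1 R' (by linarith) (h.ann hS) hN (by rw [R3'])
  have S5 := S.L5 (by linarith)
  have SA := S.A
  have SR := S.R
  rw [R2', R3', sub_self, abs_zero, mul_zero] at SA
  rw [R2', R3', sub_self, abs_zero] at SR S5
  have ng : u - v = -(v - u) := by ring
  rw [ng, kA_neg, ← ng, abs_of_nonneg d3] at SA
  rw [ng, kR_neg, abs_neg, ← ng, abs_of_nonneg d3] at SR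
  rw [ng, kX_neg, abs_neg, ← ng, abs_of_nonneg d3] at S5
  refine bv_cost (k := -(1 / x' - 2)) (b := b) (i := 1 / x')
    (a := 0) (g := u - v - w) (c12 := 54 / 100 * (83 / 10 * e)) hs h4 e0 he si ?_ ?_ ?_ f2 SR
    k2 f3 S5 (by rw [← h.hv]; exact k3) sb le_rfl d3 (by linarith) (by linarith) (by linarith)
  · exact bv_r12 hs y14 x0 f1 ta e0 tm (by linarith) yy
  · rw [show kA s (v - u) t' - -(1 / x' - 2) * tau t' =
      -(-kA s (v - u) t' - (1 / x' - 2) * tau t') by ring, abs_neg]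
    linarith
  · refine bv_r13 (by linarith [h.hT]) k1 h.hv ?_ i2 h.d0 h.de
    rw [abs_neg, abs_of_nonneg (by linarith)]

end

/-- The side 12 on the unit circle, the side 13 on `b`. -/
theorem bv {s X12 X13 t t' : ℝ} (hs : 0 < s) (hs1 : s ≤ 11 / 400) (hS : Sides X12 X13 t t')
    (hc : 0 ≤ X12 * (t + t') - X13 * t) (h12 : NCir |X12| t) (h13 : NB |X13| (t + t'))
    (hT : 1592 / 1000 < t + t') (hE : exn X12 X13 t t' < (174 / 100 + 3 * s) * s) :
    OK2 s X12 X13 t t' ∨ WV s t t' := by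
  have h := BVd.mk' hs hs1 hS hc h12 h13 hT hE
  by_cases h8 : (2 * h0 - (t + t')) / 2 + |(t + t') / 2 - t| ≤ 8 * s
  · exact Or.inr (h.win h8)
  rcases le_total (1 / 250) s with h4 | h4
  · exact Or.inr (h.win (h.tot h4))
  left
  refine ok2_of hs hs1 hS ?_
  have k := h.sm h4
  rw [not_le] at h8
  have d0 := k.d0
  have de := k.de
  have es := k.es
  have hb : |X13| = seceb (t + t') := h13.1
  have hh := h0_pos
  rcases le_total 0 ((t + t') / 2 - t) with hY | hY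
  · rw [abs_of_nonneg hY] at h8
    exact k.neg h4 hS rfl hb rfl (by linarith)
  · rw [abs_of_nonpos hY] at h8
    refine k.pos h4 hS rfl hb rfl ?_
    obtain ⟨n1, n2, n3, n4⟩ := k.near
    obtain ⟨R, R1, R2, R3, R4, U⟩ := bv_rot h.u0 h.hu n1 n2
    have := mul_le_mul_of_nonneg_left R.C1 hh.le
    linarith

end Pool.Agent.Strip051.LC.E0.Out
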