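import Pool.Agent.Strip051.LC.E0.O4.Def

/-! # Small rests: any triangle of the first shape above the window -/

namespace Pool.Agent.Strip051.LC.E0.Out

open Pool.Agent.StripNear Pool.Agent.StripSquare Pool.Agent.Strip051 Pool.Agent.Strip051.Sweep
open Pool.Agent.Strip051.LC.Line (tau)

/-! ### Numbers -/

/-- Below the diagonal, first sign. -/
theorem m1T_cA1 {h X Y a d c : ℝ} (b1 : 86602 / 100000 < h) (b2 : h < 86603 / 100000)
    (a0 : 0 ≤ a) (ad : a ≤ d) (d1 : 1039 / 10000 ≤ d) (d2 : d ≤ 22 / 100)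
    (hX : 1 - 508 / 1000 * a ^ 2 ≤ X) (hY : 1 / 2 - 3733 / 1000 * (d - a) ≤ Y)
    (c1 : a ≤ 11 / 100 → c ≤ 2313 / 1000 * (11 / 100 - a)) (c2 : 11 / 100 ≤ a → c ≤ 0) :
    276 / 10000 * (1 - 13 / 2 * a + c + X + 11 / 400) + 584 / 100000 ≤
      X * (h + d - a) + Y * a - h := by
  have h1 := mul_nonneg (sub_nonneg.2 hX) (by linarith : 0 ≤ h + d - a - 276 / 10000)
  have h2 := mul_nonneg (sub_nonneg.2 hY) a0
  have h4 := mul_nonneg (sq_nonneg a) (by linarith : 0 ≤ 86603 / 100000 - h)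
  have h5 : a ^ 2 ≤ 22 / 100 * a := by nlinarith
  rcases le_total a (1039 / 10000) with h6 | h6
  · have h7 := c1 (by linarith)
    have h3 := mul_nonneg (sub_nonneg.2 d1)
      (by nlinarith : 0 ≤ 1 - 508 / 1000 * a ^ 2 - 3733 / 1000 * a)
    have h8 := sq_nonneg (a - 99 / 1000)
    have h9 := mul_nonneg (sq_nonneg a) a0
    nlinarith
  · have h3 := mul_nonneg (sub_nonneg.2 ad)
      (by nlinarith : 0 ≤ 1 - 508 / 1000 * a ^ 2 - 3733 / 1000 * a)
    have h7 : c ≤ 142 / 10000 := by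
      rcases le_total a (11 / 100) with h8 | h8
      · linarith [c1 h8]
      · linarith [c2 h8]
    nlinarith

/-- Below the diagonal, second sign. -/
theorem m1T_cA2 {h X Y a d c : ℝ} (b1 : 86602 / 100000 < h) (b2 : h < 86603 / 100000)
    (a0 : 0 ≤ a) (ad : a ≤ d) (d1 : 1039 / 10000 ≤ d) (d2 : d ≤ 22 / 100)
    (hX : 1 - 508 / 1000 * a ^ 2 ≤ X) (hY : 1 / 2 - 3733 / 1000 * (d - a) ≤ Y) (hYX : Y ≤ X)
    (c1 : a ≤ 11 / 100 → c ≤ 2313 / 1000 * (11 / 100 - a)) (c2 : 11 / 100 ≤ a → c ≤ 0) :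
    276 / 10000 * (1 - 2 * a + c + Y + 11 / 800 + 9 / 2 * (d - a)) + 584 / 100000 ≤
      X * (h + d - a) + Y * a - h := by
  have h4 := mul_nonneg (sq_nonneg a) (by linarith : 0 ≤ 86603 / 100000 - h)
  have h5 : a ^ 2 ≤ 22 / 100 * a := by nlinarith
  rcases le_total a (276 / 10000) with g | g
  · have h1 := mul_nonneg (sub_nonneg.2 hX) (by linarith : 0 ≤ h + d - 276 / 10000)
    have h2 := mul_nonneg (sub_nonneg.2 hYX) (sub_nonneg.2 g)
    have h7 := c1 (by linarith)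
    have h8 : a ^ 2 ≤ 276 / 10000 * a := by nlinarith
    have h3 := mul_nonneg (sub_nonneg.2 d1)
      (by nlinarith : 0 ≤ 1 - 508 / 1000 * a ^ 2 - 1242 / 10000)
    nlinarith
  · have h1 := mul_nonneg (sub_nonneg.2 hX) (by linarith : 0 ≤ h + d - a)
    have h2 := mul_nonneg (sub_nonneg.2 hY) (sub_nonneg.2 g)
    rcases le_total a (1039 / 10000) with h6 | h6
    · have h7 := c1 (by linarith)
      have h3 := mul_nonneg (sub_nonneg.2 d1)
        (by nlinarith : 0 ≤ 1 - 508 / 1000 * a ^ 2 - 3733 / 1000 * (a - 276 / 10000) -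
          1242 / 10000)
      have h8 := sq_nonneg (a - 115 / 1000)
      have h9 := mul_nonneg (sq_nonneg a) a0
      nlinarith
    · have h3 := mul_nonneg (sub_nonneg.2 ad)
        (by nlinarith : 0 ≤ 1 - 508 / 1000 * a ^ 2 - 3733 / 1000 * (a - 276 / 10000) -
          1242 / 10000)
      have h7 : c ≤ 142 / 10000 := by
        rcases le_total a (11 / 100) with h8 | h8
        · linarith [c1 h8]
        · linarith [c2 h8]
      nlinarith

/-- Just above the diagonal. -/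
theorem m1T_cB {h X Y a d c : ℝ} (b1 : 86602 / 100000 < h) (b2 : h < 86603 / 100000)
    (d1 : 1039 / 10000 ≤ d) (ad : d ≤ a) (a1 : a ≤ 11 / 100)
    (hX : 1 - 508 / 1000 * a ^ 2 ≤ X) (hY : 1 / 2 ≤ Y)
    (c1 : c ≤ 2313 / 1000 * (11 / 100 - a)) :
    276 / 10000 * (1 - 13 / 2 * a + c + X + 11 / 400) + 584 / 100000 ≤
        X * (h + d - a) + Y * a - h ∧
      276 / 10000 * (1 - 2 * a + c + Y + 11 / 800 + 9 / 2 * (d - a)) + 584 / 100000 ≤
        X * (h + d - a) + Y * a - h := by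
  have a0 : 0 ≤ a := by linarith
  have h4 := mul_nonneg (sq_nonneg a) (by linarith : 0 ≤ 86603 / 100000 - h)
  have h5 : a ^ 2 ≤ 11 / 100 * a := by nlinarith
  have h1 := mul_nonneg (sub_nonneg.2 hX) (by linarith : 0 ≤ h + d - a - 276 / 10000)
  have h1' := mul_nonneg (sub_nonneg.2 hX) (by linarith : 0 ≤ h + d - a)
  have h2 := mul_nonneg (sub_nonneg.2 hY) a0
  have h2' := mul_nonneg (sub_nonneg.2 hY) (by linarith : 0 ≤ a - 276 / 10000)
  have h3 := mul_nonneg (sub_nonneg.2 d1) (by nlinarith : 0 ≤ 1 - 508 / 1000 * a ^ 2)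
  have h3' := mul_nonneg (sub_nonneg.2 d1)
    (by nlinarith : 0 ≤ 1 - 508 / 1000 * a ^ 2 - 1242 / 10000)
  have h9 := mul_nonneg (sq_nonneg a) a0
  constructor <;> nlinarith

/-- Far above the diagonal, the side 13 beyond `W`. -/
theorem m1T_cC {h V Y a d : ℝ} (b1 : 86602 / 100000 < h) (b2 : h < 86603 / 100000)
    (d1 : 1039 / 10000 ≤ d) (ad : d ≤ a) (a1 : 11 / 100 ≤ a) (a2 : a ≤ 22 / 100)
    (hV : 1 / 2 - d ^ 2 ≤ V) (hY : 1 / 2 + 139 / 100 * (a - d) ≤ Y) :
    276 / 10000 * (1 - 13 / 2 * a + 0 + (V + Y) + 11 / 400) + 584 / 100000 ≤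
        V * (h + d - a) + Y * (h + d) - h ∧
      276 / 10000 * (1 - 2 * a + 0 + Y + 11 / 800 + 9 / 2 * (d - a)) + 584 / 100000 ≤
        V * (h + d - a) + Y * (h + d) - h := by
  obtain ⟨u, rfl⟩ : ∃ u, a = d + u := ⟨a - d, by ring⟩
  have u0 : 0 ≤ u := by linarith
  rw [add_sub_cancel_left] at hY
  have h1 := mul_nonneg (sub_nonneg.2 hV) (by linarith : 0 ≤ h + d - (d + u) - 276 / 10000)
  have h1' := mul_nonneg (sub_nonneg.2 hV) (by linarith : 0 ≤ h + d - (d + u))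
  have h2 := mul_nonneg (sub_nonneg.2 hY) (by linarith : 0 ≤ h + d - 276 / 10000)
  have h4 := mul_nonneg (sq_nonneg d) (by linarith : 0 ≤ 86603 / 100000 - h)
  have h5 := mul_nonneg u0 (by linarith : 0 ≤ h - 86602 / 100000)
  have h6 := mul_nonneg (sub_nonneg.2 d1) (by linarith : 0 ≤ 22 / 100 - d)
  have h7 := mul_nonneg u0 (sq_nonneg d)
  have h8 := mul_nonneg u0 (sub_nonneg.2 d1)
  constructor <;> nlinarith

/-- Far above the diagonal, the side 13 inside `W`, first sign. -/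
theorem m1T_cDa {h X Y a d : ℝ} (b1 : 86602 / 100000 < h) (b2 : h < 86603 / 100000)
    (d1 : 1039 / 10000 ≤ d) (ad : d ≤ a) (a1 : 11 / 100 ≤ a) (a2 : a ≤ 22 / 100)
    (hX : 1 - 508 / 1000 * a ^ 2 ≤ X) (hY : 1 / 2 + 139 / 100 * (a - d) ≤ Y) :
    2 * (276 / 10000) * (1 - 13 / 2 * a - 2 * d + 11 / 800 + 268 / 1000 +
        53592 / 100000 * Y + 46412 / 100000 * X + 514 / 100 * (11 / 400)) ≤
      X * (h + d - a) + Y * a - h + 10392 / 10000 * (11 / 400) := by
  have a0 : 0 ≤ a := by linarith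
  have h1 := mul_nonneg (sub_nonneg.2 hX)
    (by linarith : 0 ≤ h + d - a - 2 * (276 / 10000) * (46412 / 100000))
  have h2 := mul_nonneg (sub_nonneg.2 hY)
    (by linarith : 0 ≤ a - 2 * (276 / 10000) * (53592 / 100000))
  have h5 : a ^ 2 ≤ 22 / 100 * a := by nlinarith
  have h3 := mul_nonneg (sub_nonneg.2 d1)
    (by nlinarith : 0 ≤ 1 - 508 / 1000 * a ^ 2 - 139 / 100 * a)
  have h4 := mul_nonneg (sq_nonneg a) (by linarith : 0 ≤ 86603 / 100000 - h)
  have h6 := mul_nonneg (sub_nonneg.2 a1) (sub_nonneg.2 a2)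
  have h7 := sq_nonneg (a - 158 / 1000)
  have h8 := mul_nonneg (sq_nonneg a) (sub_nonneg.2 a1)
  nlinarith

/-- The side 13 inside `W`, second sign, below `1`. -/
theorem m1T_cDb {h X Y a d : ℝ} (b1 : 86602 / 100000 < h) (b2 : h < 86603 / 100000)
    (d1 : 1039 / 10000 ≤ d) (ad : d ≤ a) (a1 : 11 / 100 ≤ a) (a2 : a ≤ 22 / 100)
    (hX : 1 - 508 / 1000 * a ^ 2 ≤ X) (hY : 1 / 2 + 139 / 100 * (a - d) ≤ Y) :
    2 * (276 / 10000) * (1 - 13 / 2 * a + 13 / 2 * d + 11 / 800 - 2654 / 10000 +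
        146412 / 100000 * Y - 46408 / 100000 * X + 514 / 100 * (11 / 400)) ≤
      X * (h + d - a) + Y * a - h + 10392 / 10000 * (11 / 400) := by
  have a0 : 0 ≤ a := by linarith
  have h1 := mul_nonneg (sub_nonneg.2 hX)
    (by linarith : 0 ≤ h + d - a + 2 * (276 / 10000) * (46408 / 100000))
  have h2 := mul_nonneg (sub_nonneg.2 hY)
    (by linarith : 0 ≤ a - 2 * (276 / 10000) * (146412 / 100000))
  have h5 : a ^ 2 ≤ 22 / 100 * a := by nlinarith
  have h3 := mul_nonneg (sub_nonneg.2 d1)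
    (by nlinarith : 0 ≤ 1 - 508 / 1000 * a ^ 2 - 139 / 100 * a - 22 / 100)
  have h4 := mul_nonneg (sq_nonneg a) (by linarith : 0 ≤ 86603 / 100000 - h)
  have h6 := mul_nonneg (sub_nonneg.2 a1) (sub_nonneg.2 a2)
  have h7 := sq_nonneg (a - 193 / 1000)
  have h8 := mul_nonneg (sq_nonneg a) (sub_nonneg.2 a1)
  nlinarith

/-- The side 13 inside `W`, second sign, above `1`. -/
theorem m1T_cDc {h X Y a d : ℝ} (b1 : 86602 / 100000 < h) (b2 : h < 86603 / 100000)
    (d1 : 133 / 1000 ≤ d) (ad : d ≤ a) (a2 : a ≤ 22 / 100)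
    (hX : 1 - 508 / 1000 * a ^ 2 ≤ X) (hY : 1 / 2 + 139 / 100 * (a - d) ≤ Y) :
    2 * (276 / 10000) * (1 - 13 / 2 * a + 9 / 2 * d + 11 / 800 +
        146412 / 100000 * Y - 46408 / 100000 * X + 514 / 100 * (11 / 400)) ≤
      X * (h + d - a) + Y * a - h + 10392 / 10000 * (11 / 400) := by
  have a0 : 0 ≤ a := by linarith
  have h1 := mul_nonneg (sub_nonneg.2 hX)
    (by linarith : 0 ≤ h + d - a + 2 * (276 / 10000) * (46408 / 100000))
  have h2 := mul_nonneg (sub_nonneg.2 hY)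
    (by linarith : 0 ≤ a - 2 * (276 / 10000) * (146412 / 100000))
  have h5 : a ^ 2 ≤ 22 / 100 * a := by nlinarith
  have h3 := mul_nonneg (sub_nonneg.2 d1)
    (by nlinarith : 0 ≤ 1 - 508 / 1000 * a ^ 2 - 139 / 100 * a - 22 / 100)
  have h4 := mul_nonneg (sq_nonneg a) (by linarith : 0 ≤ 86603 / 100000 - h)
  have h6 := mul_nonneg (by linarith : 0 ≤ a - 133 / 1000) (sub_nonneg.2 a2)
  have h7 := sq_nonneg (a - 213 / 1000)
  have h8 := mul_nonneg (sq_nonneg a) (by linarith : 0 ≤ a - 133 / 1000)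
  nlinarith

/-! ### The final steps -/

/-- The crude step. -/
theorem m1T_dir {h s A R Z E A1 : ℝ} (b1 : 86602 / 100000 < h) (b2 : h < 86603 / 100000)
    (hs : 0 < s) (hs1 : s ≤ 11 / 400) (hA0 : 0 ≤ A) (hA : A ≤ A1) (hR : R ≤ 6)
    (hZ : Z ≤ 192 / 25 * s ^ 2) (key : 276 / 10000 * A1 + 584 / 100000 ≤ E - h) :
    57736 / 100000 * s * A + 101 / 1000 * s ^ 2 * R + 1 / 2 * Z ≤ E / (2 * h) - 1 / 2 := by
  have k1 : s * A ≤ 11 / 400 * A1 := mul_le_mul hs1 hA hA0 (by norm_num)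
  have k0 : 0 ≤ s * A := mul_nonneg hs.le hA0
  have k2 : s ^ 2 ≤ 121 / 160000 := by nlinarith
  have k3 : s ^ 2 * R ≤ s ^ 2 * 6 := mul_le_mul_of_nonneg_left hR (sq_nonneg s)
  have k4 : 57736 / 100000 * s * A + 101 / 1000 * s ^ 2 * R + 1 / 2 * Z ≤
      57736 / 100000 * (11 / 400 * A1) + 4446 / 1000 * (121 / 160000) := by nlinarith
  have k5 : 0 ≤ 57736 / 100000 * (11 / 400 * A1) + 4446 / 1000 * (121 / 160000) := by nlinarith
  rw [le_sub_iff_add_le, le_div_iff₀ (by linarith)]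
  nlinarith

/-- The step with the lower bound of the excess. -/
theorem m1T_flo {h s A R Z E A1 : ℝ} (b1 : 86602 / 100000 < h) (b2 : h < 86603 / 100000)
    (hs : 0 < s) (hs1 : s ≤ 11 / 400) (hA0 : 0 ≤ A) (hA : A ≤ A1) (hR : R ≤ 4)
    (hZ : Z ≤ 128 / 25 * s ^ 2) (hE : 6 / 10 * s ≤ E / (2 * h) - 1 / 2)
    (key : 2 * (276 / 10000) * (A1 + 514 / 100 * (11 / 400)) ≤
      E - h + 10392 / 10000 * (11 / 400)) :
    57736 / 100000 * s * A + 101 / 1000 * s ^ 2 * R + 1 / 2 * Z ≤ E / (2 * h) - 1 / 2 := by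
  rw [le_sub_iff_add_le, le_div_iff₀ (by linarith)] at hE ⊢
  have e0 : 10392 / 10000 * s ≤ E - h := by nlinarith
  have k0 : 0 ≤ s * A := mul_nonneg hs.le hA0
  have k1 : s * A ≤ s * A1 := mul_le_mul_of_nonneg_left hA hs.le
  have k2 : s ^ 2 ≤ 11 / 400 * s := by nlinarith
  have k3 : s ^ 2 * R ≤ s ^ 2 * 4 := mul_le_mul_of_nonneg_left hR (sq_nonneg s)
  have k4 := mul_le_mul_of_nonneg_left key hs.le
  have k6 : s * (E - h) ≤ 11 / 400 * (E - h) :=
    mul_le_mul_of_nonneg_right hs1 (by linarith)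
  have k5 : 57736 / 100000 * s * A + 101 / 1000 * s ^ 2 * R + 1 / 2 * Z ≤
      57736 / 100000 * (s * A1) + 2964 / 1000 * s ^ 2 := by nlinarith
  have k7 : (57736 / 100000 * (s * A1) + 2964 / 1000 * s ^ 2) * (2 * h) ≤
      (57736 / 100000 * (s * A1) + 2964 / 1000 * s ^ 2) * (173206 / 100000) :=
    mul_le_mul_of_nonneg_left (by linarith) (by nlinarith [sq_nonneg s])
  have k8 := mul_le_mul_of_nonneg_right k5 (by linarith : 0 ≤ 2 * h)
  nlinarith

/-! ### The sides -/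

/-- A side next to the horizontal direction. -/
theorem m1T_X {X a : ℝ} (hX : 0 ≤ X) (n1 : 1 ≤ X ^ 2 + a ^ 2) (a0 : 0 ≤ a)
    (a1 : a ≤ 22 / 100) : c1 a ≤ X ∧ 1 - 508 / 1000 * a ^ 2 ≤ X := by
  constructor
  · refine le_of_sq2 hX ?_
    have e := c1_sq a0 (by linarith)
    linarith
  · refine le_of_sq2 hX ?_
    have h1 : a ^ 2 ≤ 484 / 10000 := by nlinarith
    have h2 := mul_nonneg (sq_nonneg a) (sub_nonneg.2 h1)
    nlinarith

/-- The side 23, above `h0`. -/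
theorem m1T_Yup {Y b : ℝ} (hY : 0 ≤ Y) (n1 : 1 ≤ Y ^ 2 + b ^ 2) (hb : h0 ≤ b) :
    1 / 2 - 3733 / 1000 * (b - h0) ≤ Y := by
  obtain ⟨b1, b2⟩ := h0_bd
  have hq := h0_sq'
  rcases le_or_gt (1 / 2 - 3733 / 1000 * (b - h0)) 0 with h | h
  · linarith
  · obtain ⟨v, rfl⟩ : ∃ v, b = h0 + v := ⟨b - h0, by ring⟩
    rw [add_sub_cancel_left] at h ⊢
    have v0 : 0 ≤ v := by linarith
    have v1 : v ≤ 13395 / 100000 := by linarith
    refine le_of_sq2 hY ?_
    have h1 := mul_nonneg v0 (sub_nonneg.2 v1)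
    have h2 := mul_nonneg v0 (by linarith : 0 ≤ 86603 / 100000 - h0)
    nlinarith

/-- The side 23, below `h0`. -/
theorem m1T_Ydn {Y b : ℝ} (hY : 0 ≤ Y) (n1 : 1 ≤ Y ^ 2 + b ^ 2) (hb : b ≤ h0)
    (hb' : h0 - b ≤ 1162 / 10000) : 1 / 2 + 139 / 100 * (h0 - b) ≤ Y := by
  obtain ⟨b1, b2⟩ := h0_bd
  have hq := h0_sq'
  obtain ⟨v, rfl⟩ : ∃ v, b = h0 - v := ⟨h0 - b, by ring⟩
  rw [sub_sub_cancel] at hb' ⊢
  have v0 : 0 ≤ v := by linarith
  refine le_of_sq2 hY ?_
  have h1 := mul_nonneg v0 (sub_nonneg.2 hb')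
  have h2 := mul_nonneg v0 (by linarith : 0 ≤ h0 - 86602 / 100000)
  nlinarith

/-- The curve `W` next to the horizontal direction. -/
theorem m1T_low {T : ℝ} (hT : 0 ≤ T) (h1 : T ≤ 1 / 4) : 1 + 23 / 20 * T ≤ Wc T := by
  obtain ⟨b1, b2⟩ := h0_bd
  obtain ⟨C, C0, eC, eW, -, -⟩ := low_sq hT (by linarith)
  have hq := h0_sq'
  have : 1 / 2 + 23 / 20 * T ≤ C := by
    refine le_of_sq2 C0 ?_
    have e1 : C ^ 2 = 1 / 4 + 2 * h0 * T - T ^ 2 := by linear_combination eC - hq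
    have e2 := mul_nonneg hT (by linarith : 0 ≤ h0 - 86602 / 100000)
    have e3 := mul_nonneg hT (by linarith : 0 ≤ 1 / 4 - T)
    rw [e1]
    linarith
  linarith

/-- The side 12 is inside `W`. -/
theorem m1T_XW {X Y a d : ℝ} (a0 : 0 ≤ a) (a1 : a ≤ 22 / 100) (d1 : 1039 / 10000 ≤ d)
    (Y0 : 0 ≤ Y) (hY : d ≤ a → 1 / 2 ≤ Y) (hc : X * (h0 + d - a) + Y * a ≤ 9534 / 10000) :
    X ≤ Wc a := by
  obtain ⟨b1, b2⟩ := h0_bd
  have w := m1T_low a0 (by linarith)
  by_contra hW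
  have h1 : 1 + 23 / 20 * a ≤ X := by linarith
  have h2 := mul_nonneg (sub_nonneg.2 h1) (by linarith : 0 ≤ h0 + d - a)
  rcases le_total a d with h | h
  · have h3 := mul_nonneg Y0 a0
    rcases le_total a (1039 / 10000) with h4 | h4
    · have h5 := mul_nonneg a0 (sub_nonneg.2 h4)
      have h6 := mul_nonneg a0 (by linarith : 0 ≤ h0 - 86602 / 100000)
      have h7 := mul_nonneg a0 (sub_nonneg.2 d1)
      nlinarith
    · have h6 := mul_nonneg a0 (by linarith : 0 ≤ h0 - 86602 / 100000)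
      have h7 := mul_nonneg a0 (sub_nonneg.2 h)
      nlinarith
  · have h3 := mul_nonneg (sub_nonneg.2 (hY h)) a0
    have h6 := mul_nonneg a0 (by linarith : 0 ≤ h0 - 86602 / 100000)
    have h7 := mul_nonneg a0 (sub_nonneg.2 d1)
    have h8 := mul_nonneg a0 (sub_nonneg.2 a1)
    nlinarith

/-! ### The kernels -/

/-- A kernel with nonnegative values at the nodes. -/
theorem m1T_nonneg {v : ℝ → Fin 4 → ℝ} (hv : K.adm v) {X T : ℝ} (hT : 0 ≤ T) (hX : 0 ≤ X)
    (h1 : 1 ≤ X ^ 2 + T ^ 2) (h3 : X ^ 2 + T ^ 2 ≤ 3) (hp : ∀ j, 0 ≤ v T j) :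
    0 ≤ ker K.nodes v (fun _ _ => 0) X T := by
  have hT3 : T ^ 2 ≤ 3 := by nlinarith [sq_nonneg X]
  obtain ⟨i, g1, g2⟩ := K.seg_pos hT hX h1 h3
  have e := K.ker_lin hv (Or.inl rfl : (1 : ℝ) = 1 ∨ (1 : ℝ) = -1) hT hT3 g1 g2
  rw [one_mul, one_mul] at e
  rw [one_mul] at g1 g2
  rw [e]
  unfold Cur.lin
  have o0 := hp (K.tg i.castSucc)
  have o1 := hp (K.tg i.succ)
  have l0 : 0 ≤ (X - K.cv i.castSucc T) / (K.cv i.succ T - K.cv i.castSucc T) :=
    div_nonneg (by linarith) (by linarith)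
  have l1 : (X - K.cv i.castSucc T) / (K.cv i.succ T - K.cv i.castSucc T) ≤ 1 :=
    div_le_one_of_le₀ (by linarith) (by linarith)
  generalize (X - K.cv i.castSucc T) / (K.cv i.succ T - K.cv i.castSucc T) = l at *
  nlinarith [mul_nonneg l0 o1, mul_nonneg (by linarith : 0 ≤ 1 - l) o0]

/-- The kernel up to `W` below `h0` if the first three values agree. -/
theorem m1T_flat {v : ℝ → Fin 4 → ℝ} (hv : K.adm v) {X T m : ℝ} (hT : 0 ≤ T) (h : T < h0)
    (a : c1 T ≤ X) (b : X ≤ Wc T) (v0 : v T 0 = m) (v1 : v T 1 = m) (v2 : v T 2 = m) :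
    ker K.nodes v (fun _ _ => 0) X T = m := by
  have hq := h0_sq'
  have hT3 : T ^ 2 ≤ 3 := by
    have := pow_le_pow_left₀ hT h.le 2
    linarith
  have e1 : pos.cv 1 T = c1 T + 1 / 3 * (Wc T - c1 T) := cv_one_low h
  rcases le_total X (c1 T + 1 / 3 * (Wc T - c1 T)) with h1 | h1
  · have e0 : pos.cv 0 T = c1 T := cv_zero T
    have e := K.seg v hv 0 X T hT hT3 (by
      change pos.cv 0 T ≤ X
      rwa [e0]) (by
      change X ≤ pos.cv 1 T
      rwa [e1])
    rw [e]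
    change v T 0 + (v T 1 - v T 0) * ((X - pos.cv 0 T) / (pos.cv 1 T - pos.cv 0 T)) = _
    rw [v0, v1, sub_self, zero_mul, add_zero]
  · have e2 : pos.cv 2 T = Wc T := cv_two_low h
    have e := K.seg v hv 1 X T hT hT3 (by
      change pos.cv 1 T ≤ X
      rwa [e1]) (by
      change X ≤ pos.cv 2 T
      rwa [e2])
    rw [e]
    change v T 1 + (v T 2 - v T 1) * ((X - pos.cv 1 T) / (pos.cv 2 T - pos.cv 1 T)) = _
    rw [v1, v2, sub_self, zero_mul, add_zero]

/-- The bounds of the three kernels. -/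
theorem m1T_bd {s X T : ℝ} (hs : 0 < s) (hs1 : s ≤ 11 / 400) (hT : 0 ≤ T) (hX : 0 ≤ X)
    (h1 : 1 ≤ X ^ 2 + T ^ 2) (h3 : X ^ 2 + T ^ 2 ≤ 3) :
    |kA s X T| ≤ X + s / 2 ∧ |kR s X T| ≤ 2 ∧ |kX s X T| ≤ 64 / 25 * s ^ 2 := by
  have hT3 : T ^ 2 ≤ 3 := by nlinarith [sq_nonneg X]
  have bR : Bnd (vR par s) T 0 0 0 2 :=
    ⟨fun j => by linarith [vR_abs hs hs1 hT j], fun j => by linarith [vR_abs hs hs1 hT j]⟩
  have a := (ker_bnd (adm_vA par s) hT h1 h3 (bnd_vA hs hs1 hT hT3)).1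
  have b := (ker_bnd (adm_vR s) hT h1 h3 bR).1
  have c := (ker_bnd (adm_vX par s) hT h1 h3 (bnd_vX hs hs1 hT hT3)).1
  rw [abs_of_nonneg hX] at a
  unfold kA kR kX
  refine ⟨by linarith, by linarith, by linarith⟩

/-- The kernels of the side 12. -/
theorem m1T_k12 {s X a : ℝ} (hs : 0 < s) (a0 : 0 ≤ a) (a1 : a ≤ 22 / 100) (h1 : c1 a ≤ X)
    (h2 : X ≤ Wc a) :
    |kA s X a - 9 / 4 * tau a| ≤ 1 - 17 / 4 * a + 2313 / 1000 * max (4 * s - a) 0 ∧
      (4 * s ≤ a → kR s X a = 0 ∧ kX s X a = 0) := by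
  obtain ⟨b1, b2⟩ := h0_bd
  have h : a < h0 / 2 := by linarith
  have nT : a < 1 := by linarith
  have nh : a ≤ 1 / 2 := by linarith
  constructor
  · have A : kA s X a = RA par s a := by
      unfold kA
      refine m1T_flat (adm_vA par s) a0 (by linarith) h1 h2 ?_ ?_ ?_
      · simp only [vA, Matrix.cons_val_zero]
        rw [if_pos nT]
        unfold R1
        rw [if_pos h]
      · simp only [vA, Matrix.cons_val_one, Matrix.cons_val_zero]
        rw [if_pos h]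
      · simp only [vA, Matrix.cons_val]
        rw [if_pos (by linarith)]
        unfold RW
        rw [if_pos h]
    obtain ⟨r1, r2⟩ := RA_bd (s := s) hs a0
    have m0 := le_max_right (4 * s - a) 0
    rw [A, tau_lo h, abs_le]
    constructor <;> linarith
  · intro h4
    have tp : taper (a / s) = 0 := by
      have h4 : 4 ≤ a / s := by rwa [le_div_iff₀ hs]
      unfold taper
      rw [if_neg (by linarith)]
      split_ifs with h5
      · rw [le_antisymm h5 h4, pl_right (by norm_num)]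
      · rfl
    have xa := xA_far hs h4
    constructor
    · unfold kR
      refine m1T_flat (adm_vR s) a0 (by linarith) h1 h2 ?_ ?_ ?_
      · simp only [vR, Matrix.cons_val_zero]
        rw [if_pos h, tp, mul_zero]
      · simp only [vR, Matrix.cons_val_one, Matrix.cons_val_zero]
        rw [if_pos h, tp, mul_zero]
      · simp only [vR, Matrix.cons_val]
        rw [if_pos h, tp, mul_zero]
    · unfold kX
      refine m1T_flat (adm_vX par s) a0 (by linarith) h1 h2 ?_ ?_ ?_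
      · simp only [vX, vx, Matrix.cons_val_zero]
        rw [if_pos nT]
        unfold X1
        rw [if_pos nh, xa, mul_zero]
      · simp only [vX, vx, Matrix.cons_val_one, Matrix.cons_val_zero]
        rw [if_pos h, xa, mul_zero]
      · simp only [vX, vx, Matrix.cons_val]
        rw [if_pos h, xa, mul_zero]

/-- The side 23 just below `h0`. -/
theorem m1T_n23 {s Y b : ℝ} (hs : 0 < s) (hs1 : s ≤ 11 / 400) (h1 : h0 - 1162 / 10000 ≤ b)
    (h2 : b < h0) (hY : 0 ≤ Y) (n1 : 1 ≤ Y ^ 2 + b ^ 2) (n3 : Y ^ 2 + b ^ 2 ≤ 3) :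
    0 ≤ kA s Y b := by
  obtain ⟨b1, b2⟩ := h0_bd
  have hq := h0_sq'
  have hh := h0_pos
  have T0 : 0 ≤ b := by linarith
  have T1 : b < 1 := by linarith
  have T3 : b ^ 2 ≤ 3 := by nlinarith
  have n1' : ¬b < h0 / 2 := by
    rw [not_lt]
    linarith
  obtain ⟨o1, o2, o3, o4, o5⟩ := order5 T0 T3
  have oW : c1 b ≤ Wc b := by linarith
  have r1 : 0 ≤ R1 par s b := by
    have e := c1_sq T0 T1.le
    have c0 := c1_nonneg b
    have cu : c1 b ≤ 7 / 10 := by
      refine le_of_sq2 (by norm_num) ?_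
      nlinarith
    have cl := (c1_half T0 T1.le).1 h2.le
    have x1 : b / 2 - h0 * c1 b ≤ 0 := by nlinarith
    have x0 : -(1 / 2) ≤ b / 2 - h0 * c1 b := by nlinarith
    unfold R1
    rw [if_neg n1', if_neg (by linarith)]
    refine mul_nonneg (RA_nonneg hs (abs_nonneg _) (abs_le.2 ⟨x0, by linarith⟩)) ?_
    have : h0 * (b / 2 - h0 * c1 b) / (1 + (c1 b / 2 + h0 * b)) ≤ 0 :=
      div_nonpos_of_nonpos_of_nonneg (mul_nonpos_of_nonneg_of_nonpos hh.le x1) (by positivity)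
    linarith
  have r3 : 1 ≤ R3 par s b := by
    obtain ⟨C, y, y0, y1, C0, eC, eh, eR⟩ := low_rot (by linarith : h0 / 2 ≤ b) h2
    have C1 : C ≤ 1 := by nlinarith [sq_nonneg y]
    have y2 : y ≤ 8 / 100 := by nlinarith
    rw [eR]
    have g := RA_ge (s := s) hs y0
    have k : 0 ≤ h0 * y / (1 + C) := by positivity
    have := mul_le_mul (by linarith : 84 / 100 ≤ RA par s y)
      (by linarith : 3 / 2 ≤ 3 / 2 + h0 * y / (1 + C)) (by norm_num) (by linarith)
    linarith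
  unfold kA
  refine m1T_nonneg (adm_vA par s) T0 hY n1 n3 fun j => ?_
  fin_cases j
  · simp only [vA, Fin.zero_eta, Matrix.cons_val_zero]
    rw [if_pos T1]
    exact r1
  · simp only [vA, Fin.mk_one, Matrix.cons_val_one, Matrix.cons_val_zero]
    rw [if_neg n1', if_pos h2]
    have e : par.l2 = 353 / 500 := rfl
    rw [e]
    have := mul_nonneg (by norm_num : (0 : ℝ) ≤ 353 / 500)
      (by linarith : 0 ≤ 1 / 3 * (Wc b - c1 b))
    linarith
  · simp only [vA, Fin.reduceFinMk, Matrix.cons_val]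
    rw [if_pos h2]
    unfold RW
    rw [if_neg n1', if_pos h2]
    have := (slL_small hs hs1 (by linarith : h0 / 2 ≤ b) h2).2
    linarith
  · simp only [vA, Fin.reduceFinMk, Matrix.cons_val]
    linarith

/-- The side 13 above the window. -/
theorem m1T_n13 {s X T : ℝ} (hs : 0 < s) (hs1 : s ≤ 11 / 400) (h1 : 28 / 25 * h0 ≤ T)
    (h2 : T < 3 * h0 / 2) (hX : 0 ≤ X) (n1 : 1 ≤ X ^ 2 + T ^ 2) (n3 : X ^ 2 + T ^ 2 ≤ 3) :
    0 ≤ kA s X T := by
  obtain ⟨b1, b2⟩ := h0_bd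
  have hq := h0_sq'
  have hh := h0_pos
  have T0 : 0 ≤ T := by linarith
  have T3 : T ^ 2 ≤ 3 := by nlinarith
  have m1 : ¬T < h0 / 2 := by
    rw [not_lt]
    linarith
  have m2 : ¬T < h0 := by
    rw [not_lt]
    linarith
  obtain ⟨o1, o2, o3, o4, o5⟩ := order5 T0 T3
  have oW : c1 T ≤ Wc T := by linarith
  have oW3 : Wc T ≤ c3 T := by linarith
  have r1 : 0 ≤ if T < 1 then R1 par s T else 0 := by
    split_ifs with hT
    · obtain ⟨F0, F1, F2, F3, F4, F5, F6, F7, F8, F9, F10⟩ := tu_facts (not_lt.1 m2) hT.le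
      have eR : R1 par s T = RA par s (T / 2 - h0 * c1 T) * (1 / 2 - h0 * tu T) := by
        unfold R1
        rw [if_neg m1, if_neg (by linarith), abs_of_nonneg F2]
        unfold tu
        ring
      rw [eR]
      refine mul_nonneg (RA_nonneg hs F2 F3) ?_
      nlinarith
    · exact le_rfl
  have z : 2 < (T - h0) / s := by
    rw [lt_div_iff₀ hs]
    linarith
  have rw0 : 0 ≤ RW par s T := by
    unfold RW
    rw [if_neg m1, if_neg m2]
    have e : slU par s ((T - h0) / s) = 4 * h0 - 3 := by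
      unfold slU
      rw [if_neg (by linarith), if_neg (by linarith)]
    rw [e]
    have := mul_nonneg (by linarith : 0 ≤ 4 * h0 - 3) (by linarith : 0 ≤ Wc T - c1 T)
    linarith
  have r3 : 0 ≤ R3 par s T := by
    have e3 := c3_sq T3
    have c0 := c3_nonneg T
    have cu := (c3_half T0 T3).2 (not_lt.1 m2)
    have x1 : T / 2 - c3 T / (4 * h0) ≤ 1 / 2 := by
      have : 1 ≤ c3 T := by
        refine le_of_sq2 c0 ?_
        nlinarith
      have : 1 / 4 ≤ c3 T / (4 * h0) := by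
        rw [le_div_iff₀ (by positivity)]
        linarith
      linarith
    have x0 : 0 ≤ T / 2 - c3 T / (4 * h0) := by
      have : c3 T / (4 * h0) ≤ 44 / 100 := by
        rw [div_le_iff₀ (by positivity)]
        linarith
      linarith
    unfold R3
    rw [if_neg m1, if_pos h2, abs_of_nonneg x0]
    refine mul_nonneg (RA_nonneg hs x0 x1) ?_
    have c0 : 0 ≤ c3 T / 2 + T / (4 * h0) := by positivity
    have : h0 * (T / 2 - c3 T / (4 * h0)) / (1 + (c3 T / 2 + T / (4 * h0))) ≤ 1 := by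
      rw [div_le_one (by linarith)]
      nlinarith
    linarith
  unfold kA
  refine m1T_nonneg (adm_vA par s) T0 hX n1 n3 fun j => ?_
  fin_cases j
  · simp only [vA, Fin.zero_eta, Matrix.cons_val_zero]
    exact r1
  · simp only [vA, Fin.mk_one, Matrix.cons_val_one, Matrix.cons_val_zero]
    rw [if_neg m1, if_neg m2, if_pos h2]
    exact rw0
  · simp only [vA, Fin.reduceFinMk, Matrix.cons_val]
    rw [if_neg m2, if_pos h2]
    have e : par.l1 = 353 / 500 := rfl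
    rw [e]
    have := mul_nonneg (by norm_num : (0 : ℝ) ≤ 353 / 500)
      (by linarith : 0 ≤ 3 / 20 * (c3 T - Wc T))
    linarith
  · simp only [vA, Fin.reduceFinMk, Matrix.cons_val]
    exact r3

/-- The side 23. -/
theorem m1T_k23 {s Y b : ℝ} (hs : 0 < s) (hs1 : s ≤ 11 / 400) (h1 : h0 - 1162 / 10000 ≤ b)
    (h2 : b < 3 * h0 / 2) (hY : 0 ≤ Y) (n1 : 1 ≤ Y ^ 2 + b ^ 2) (n3 : Y ^ 2 + b ^ 2 ≤ 3) :
    |-kA s Y b - 9 / 4 * tau b| ≤ Y + s / 2 + 9 / 4 * (b - h0) := by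
  obtain ⟨b1, b2⟩ := h0_bd
  have T0 : 0 ≤ b := by linarith
  have k := abs_le.1 (m1T_bd hs hs1 T0 hY n1 n3).1
  rw [tau_mi (by linarith) h2, abs_le]
  rcases lt_or_ge b h0 with h | h
  · have n := m1T_n23 hs hs1 h1 h hY n1 n3
    have l := m1T_Ydn hY n1 h.le (by linarith)
    constructor <;> linarith [k.1, k.2]
  · constructor <;> linarith [k.1, k.2]

/-- The affine form of the kernel of the side 13 inside `W`. -/
theorem m1T_aff {s X T : ℝ} (hs : 0 < s) (hs1 : s ≤ 11 / 400) (h1 : 28 / 25 * h0 ≤ T)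
    (h2 : T < 3 * h0 / 2) (hX : 0 ≤ X) (n1 : 1 ≤ X ^ 2 + T ^ 2) (hW : X ≤ Wc T) :
    kA s X T = Gx T - 2 * (T - h0) + (4 * h0 - 3) * X := by
  obtain ⟨b1, b2⟩ := h0_bd
  have hh := h0_pos
  have T0 : 0 ≤ T := by linarith
  have cT : T ≤ 1 → c1 T ≤ 25 / 100 := fun h => by
    have e := c1_sq T0 h
    refine le_of_sq2 (by norm_num) ?_
    nlinarith
  have cX : c1 T ≤ X := by
    rcases le_or_gt T 1 with h | h
    · have e := c1_sq T0 h
      refine le_of_sq2 hX ?_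
      linarith
    · rw [c1_zero h.le]
      exact hX
  refine ker_c1W_aff hs (by linarith) h2 (fun h => ?_) cX hW
  have := cT h.le
  have := c1_nonneg T
  nlinarith

/-- The gauge `9 / 4`. -/
theorem m1T {s X12 X13 t t' : ℝ} (hs : 0 < s) (hs1 : s ≤ 11 / 400) (hS : Sides X12 X13 t t')
    (ht : t ≤ 8 * s) (ht' : |t' - h0| ≤ 8 * s) (hT : 28 / 25 * h0 ≤ t + t')
    (hT' : t + t' ≤ h0 + 8 * s) (h0' : 0 ≤ X13) (h1 : X13 ≤ X12)
    (hE : 6 / 10 * s ≤ exn X12 X13 t t') (hE' : exn X12 X13 t t' < thr s) :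
    cost s (9 / 4) 0 X12 X13 t t' ≤ exn X12 X13 t t' := by
  obtain ⟨b1, b2⟩ := h0_bd
  have hh := h0_pos
  obtain ⟨d, hd⟩ : ∃ d, t + t' = h0 + d := ⟨t + t' - h0, by ring⟩
  obtain ⟨Y, hY⟩ : ∃ Y, Y = X12 - X13 := ⟨_, rfl⟩
  have eY : X13 - X12 = -Y := by linarith
  have e13 : X13 = X12 - Y := by linarith
  have et : t' = h0 + d - t := by linarith
  have a0 := hS.t0
  have a1 : t ≤ 22 / 100 := by linarith
  have d1 : 1039 / 10000 ≤ d := by linarith
  have d2 : d ≤ 22 / 100 := by linarith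
  have hv := abs_le.1 ht'
  have X0 : 0 ≤ X12 := by linarith
  have Y0 : 0 ≤ Y := by linarith
  have T0 : 0 ≤ t + t' := by linarith
  have Th : t + t' < 3 * h0 / 2 := by linarith
  have n23 : 1 ≤ Y ^ 2 + t' ^ 2 := by
    have := hS.b1
    rwa [eY, neg_sq] at this
  have n23' : Y ^ 2 + t' ^ 2 ≤ 3 := by
    have := hS.b3
    rwa [eY, neg_sq] at this
  obtain ⟨cx, xl⟩ := m1T_X X0 hS.a1 a0 a1
  have eC : X12 * (t + t') - X13 * t = X12 * (h0 + d - t) + Y * t := by
    rw [hd, e13]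
    ring
  have cr : X12 * (h0 + d - t) + Y * t ≤ 9534 / 10000 := by
    rw [← eC]
    have := thr_le hs hs1
    by_contra hc
    have := thr_of_cross (s := s) (X12 := X12) (X13 := X13) (t := t) (t' := t') (by linarith)
    linarith
  have yl : d ≤ t → 1 / 2 + 139 / 100 * (t - d) ≤ Y := fun h => by
    have := m1T_Ydn Y0 n23 (by linarith) (by linarith)
    rw [et] at this
    linarith
  have hW := m1T_XW a0 a1 d1 Y0 (fun h => by linarith [yl h]) cr
  obtain ⟨k12, z12⟩ := m1T_k12 hs a0 a1 cx hW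
  have k23 := m1T_k23 hs hs1 (by linarith) (by linarith) Y0 n23 n23'
  obtain ⟨-, r12, x12⟩ := m1T_bd hs hs1 a0 X0 hS.a1 hS.a3
  obtain ⟨-, r23, x23⟩ := m1T_bd hs hs1 hS.t1 Y0 n23 n23'
  obtain ⟨m13, r13, x13⟩ := m1T_bd hs hs1 T0 h0' hS.c1 hS.c3
  have N13 := m1T_n13 hs hs1 hT Th h0' hS.c1 hS.c3
  rw [abs_of_nonneg N13] at m13
  have tm : tau (t + t') = d := by
    rw [tau_mi (by linarith) Th, hd]
    ring
  have vv : t' - h0 = d - t := by linarith
  rw [vv] at k23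
  unfold cost
  rw [eY, kA_neg, kR_neg, kX_neg, add_zero, add_zero, abs_neg (kR s Y t'),
    abs_neg (kX s Y t'), tm]
  unfold exn at hE ⊢
  rw [eC] at hE ⊢
  have g0 := abs_nonneg (kA s X12 t - 9 / 4 * tau t)
  have g1 := abs_nonneg (-kA s Y t' - 9 / 4 * tau t')
  have g2 := abs_nonneg (kA s X13 (t + t') - 9 / 4 * d)
  obtain ⟨c, hc⟩ : ∃ c, c = 2313 / 1000 * max (4 * s - t) 0 := ⟨_, rfl⟩
  rw [← hc] at k12
  have c1' : t ≤ 11 / 100 → c ≤ 2313 / 1000 * (11 / 100 - t) := fun h => by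
    rw [hc]
    exact mul_le_mul_of_nonneg_left (max_le (by linarith) (by linarith)) (by norm_num)
  have c2' : 11 / 100 ≤ t → c ≤ 0 := fun h => by
    rw [hc]
    have := mul_le_mul_of_nonneg_left (max_le (by linarith) le_rfl : max (4 * s - t) 0 ≤ 0)
      (by norm_num : (0 : ℝ) ≤ 2313 / 1000)
    linarith
  have crude : ∀ c' : ℝ, c ≤ c' → (276 / 10000 * (1 - 13 / 2 * t + c' + X12 + 11 / 400) +
      584 / 100000 ≤ X12 * (h0 + d - t) + Y * t - h0 ∧
      276 / 10000 * (1 - 2 * t + c' + Y + 11 / 800 + 9 / 2 * (d - t)) + 584 / 100000 ≤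
      X12 * (h0 + d - t) + Y * t - h0) →
      57736 / 100000 * s * (|kA s X12 t - 9 / 4 * tau t| + |-kA s Y t' - 9 / 4 * tau t'| +
        |kA s X13 (t + t') - 9 / 4 * d|) +
      101 / 1000 * s ^ 2 * (|kR s X12 t| + |kR s Y t'| + |kR s X13 (t + t')|) +
      1 / 2 * (|kX s X12 t| + |kX s Y t'| + |kX s X13 (t + t')|) ≤
      (X12 * (h0 + d - t) + Y * t) / (2 * h0) - 1 / 2 := by
    rintro c' hc' ⟨q1, q2⟩
    rcases abs_cases (kA s X13 (t + t') - 9 / 4 * d) with ⟨w, -⟩ | ⟨w, -⟩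
    · exact m1T_dir b1 b2 hs hs1 (by linarith) (by linarith) (by linarith) (by linarith) q1
    · exact m1T_dir b1 b2 hs hs1 (by linarith) (by linarith) (by linarith) (by linarith) q2
  rcases le_total t d with A | A
  · have yu : 1 / 2 - 3733 / 1000 * (d - t) ≤ Y := by
      have := m1T_Yup Y0 n23 (by linarith)
      rwa [vv] at this
    exact crude c le_rfl ⟨m1T_cA1 b1 b2 a0 A d1 d2 xl yu c1' c2',
      m1T_cA2 b1 b2 a0 A d1 d2 xl yu (by linarith) c1' c2'⟩
  · have yl' := yl A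
    rcases le_total t (11 / 100) with B | B
    · exact crude c le_rfl (m1T_cB b1 b2 d1 A B xl (by linarith) (c1' B))
    · rcases le_or_gt X13 (Wc (t + t')) with C | C
      · obtain ⟨z1, z2⟩ := z12 (by linarith)
        have af := m1T_aff hs hs1 hT Th h0' hS.c1 C
        have td : t + t' - h0 = d := by linarith
        rw [td] at af
        have c0 := c2' B
        have y1 := mul_nonneg Y0 (by linarith : 0 ≤ h0 - 86602 / 100000)
        have y2 := mul_nonneg Y0 (by linarith : 0 ≤ 86603 / 100000 - h0)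
        have x1 := mul_nonneg X0 (by linarith : 0 ≤ h0 - 86602 / 100000)
        have x2 := mul_nonneg X0 (by linarith : 0 ≤ 86603 / 100000 - h0)
        have eV : (4 * h0 - 3) * X13 = (4 * h0 - 3) * X12 - (4 * h0 - 3) * Y := by
          rw [e13]
          ring
        rw [eV] at af
        rw [z1, z2, abs_zero]
        rcases le_or_gt (t + t') 1 with D | D
        · have eG : Gx (t + t') = Gu (t + t') := if_pos D
          obtain ⟨G1, G2⟩ := Gu_bd (by linarith : h0 ≤ t + t') D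
          rw [eG] at af
          rcases abs_cases (kA s X13 (t + t') - 9 / 4 * d) with ⟨w, -⟩ | ⟨w, -⟩
          · refine m1T_flo b1 b2 hs hs1 (by linarith) ?_ (by linarith) (by linarith) hE
              (m1T_cDa b1 b2 d1 A B a1 xl yl')
            rw [w, af]
            linarith
          · refine m1T_flo b1 b2 hs hs1 (by linarith) ?_ (by linarith) (by linarith) hE
              (m1T_cDb b1 b2 d1 A B a1 xl yl')
            rw [w, af]
            linarith
        · have eG : Gx (t + t') = 2 * (t + t' - h0) := if_neg D.not_ge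
          rw [eG, td] at af
          have hT3 : (t + t') ^ 2 ≤ 3 := by nlinarith [sq_nonneg X13, hS.c3]
          have wh := W_le_half (by linarith : h0 ≤ t + t') hT3
          have v0 : (4 * h0 - 3) * X13 ≤ 46412 / 100000 * (1 / 2) :=
            mul_le_mul (by linarith) (by linarith) h0' (by norm_num)
          have w : |kA s X13 (t + t') - 9 / 4 * d| = -(kA s X13 (t + t') - 9 / 4 * d) := by
            refine abs_of_nonpos ?_
            rw [af, ← eV]
            linarith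
          refine m1T_flo b1 b2 hs hs1 (by linarith) ?_ (by linarith) (by linarith) hE
            (m1T_cDc b1 b2 (by linarith) A a1 xl yl')
          rw [w, af]
          linarith
      · have hT3 : (t + t') ^ 2 ≤ 3 := by nlinarith [sq_nonneg X13, hS.c3]
        have u := (upp_bd (by linarith : h0 ≤ t + t') hT3).2.2
        have td : t + t' - h0 = d := by linarith
        rw [td] at u
        have q := m1T_cC b1 b2 d1 A B a1 (by linarith : 1 / 2 - d ^ 2 ≤ X13) yl'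
        have e1 : X13 + Y = X12 := by linarith
        have e2 : X13 * (h0 + d - t) + Y * (h0 + d) = X12 * (h0 + d - t) + Y * t := by
          rw [e13]
          ring
        rw [e1, e2] at q
        exact crude 0 (c2' B) q

end Pool.Agent.Strip051.LC.E0.Out
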