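import Pool.Agent.Strip051.LC.E0.O4.Def
import Pool.Agent.Strip051.LC.E0.O3.Zer1
import Pool.Agent.Strip051.LC.E0.O3.Zer2

/-! # Small rests: the points where the kernels vanish -/

namespace Pool.Agent.Strip051.LC.E0.Out

open Pool.Agent.StripNear Pool.Agent.StripSquare Pool.Agent.Strip051 Pool.Agent.Strip051.Sweep
open Pool.Agent.Strip051.LC.Line (tau)

variable {s X T d : ℝ}

theorem ann_neg {X T : ℝ} (h : Ann X T) : Ann (-X) T :=
  ⟨h.T0, by rw [neg_sq]; exact h.lo, by rw [neg_sq]; exact h.hi⟩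

private theorem nr4 {X0 T0 : ℝ} (hs : 0 < s) (hd : 0 ≤ d) (hd' : d ≤ 79 / 10 * s)
    (h : (X - X0) ^ 2 + (T - T0) ^ 2 ≤ d ^ 2) : Nr s X0 T0 X T := by
  unfold Nr
  have : d ^ 2 ≤ (79 / 10 * s) ^ 2 := by
    have := mul_le_mul hd' hd' hd (by linarith)
    nlinarith
  linarith

/-- The point at 30 degrees on the unit circle. -/
theorem znA (hs : 0 < s) (hs1 : s ≤ 11 / 400) (hA : Ann X T) (hd : 0 ≤ d) (hd' : d ≤ 79 / 10 * s)
    (h : (X - h0) ^ 2 + (T - 1 / 2) ^ 2 ≤ d ^ 2) : Zn s X T d := by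
  obtain ⟨a, b, c⟩ := zero_c30 hs hs1 hA (nr4 hs hd hd' h)
  have n := add_nonneg (abs_nonneg (X - h0)) (abs_nonneg (T - 1 / 2))
  refine zn_of hd h a ?_ ?_
  · rw [b, abs_zero, mul_zero]
    linarith
  · rw [c, abs_zero]
    linarith

theorem znA' (hs : 0 < s) (hs1 : s ≤ 11 / 400) (hA : Ann X T) (hd : 0 ≤ d) (hd' : d ≤ 79 / 10 * s)
    (h : (X + h0) ^ 2 + (T - 1 / 2) ^ 2 ≤ d ^ 2) : Zn s X T d := by
  have := (znA hs hs1 (ann_neg hA) hd hd' (by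
    rw [show (-X - h0) ^ 2 = (X + h0) ^ 2 by ring]
    exact h)).neg
  rwa [neg_neg] at this

/-- The point at 90 degrees on the unit circle. -/
theorem znB (hs : 0 < s) (hs1 : s ≤ 11 / 400) (hA : Ann X T) (hd : 0 ≤ d) (hd' : d ≤ 79 / 10 * s)
    (h : X ^ 2 + (T - 1) ^ 2 ≤ d ^ 2) : Zn s X T d := by
  obtain ⟨a, b, c⟩ := zero_c90 hs hs1 hA (nr4 hs hd hd' (by rwa [sub_zero]))
  have n := add_nonneg (abs_nonneg X) (abs_nonneg (T - 1))
  refine zn_of hd h a ?_ ?_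
  · rw [b, abs_zero, mul_zero]
    linarith
  · rw [c, abs_zero]
    linarith

/-- The point at 60 degrees on the circle of radius `√3`. -/
theorem znC (hs : 0 < s) (hs1 : s ≤ 11 / 400) (hA : Ann X T) (hd : 0 ≤ d) (hd' : d ≤ 79 / 10 * s)
    (h : (X - h0) ^ 2 + (T - 3 / 2) ^ 2 ≤ d ^ 2) : Zn s X T d := by
  obtain ⟨a, b, c⟩ := zero_l60 hs hs1 hA (nr4 hs hd hd' h)
  have n := add_nonneg (abs_nonneg (X - h0)) (abs_nonneg (T - 3 / 2))
  refine zn_of hd h a ?_ ?_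
  · rw [b, abs_zero, mul_zero]
    linarith
  · rw [c, abs_zero]
    linarith

theorem znC' (hs : 0 < s) (hs1 : s ≤ 11 / 400) (hA : Ann X T) (hd : 0 ≤ d) (hd' : d ≤ 79 / 10 * s)
    (h : (X + h0) ^ 2 + (T - 3 / 2) ^ 2 ≤ d ^ 2) : Zn s X T d := by
  have := (znC hs hs1 (ann_neg hA) hd hd' (by
    rw [show (-X - h0) ^ 2 = (X + h0) ^ 2 by ring]
    exact h)).neg
  rwa [neg_neg] at this

/-- The point at 0 degrees on the circle of radius `√3`. -/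
theorem znD (hs : 0 < s) (hs1 : s ≤ 11 / 400) (hA : Ann X T) (hd : 0 ≤ d) (hd' : d ≤ 79 / 10 * s)
    (h : (X - 2 * h0) ^ 2 + T ^ 2 ≤ d ^ 2) : Zn s X T d := by
  obtain ⟨a, b, c⟩ := zero_l0 hs hs1 hA (nr4 hs hd hd' (by rwa [sub_zero]))
  have n := add_nonneg (abs_nonneg (X - 2 * h0)) (abs_nonneg T)
  exact zn_of hd h (by linarith) b c

theorem znD' (hs : 0 < s) (hs1 : s ≤ 11 / 400) (hA : Ann X T) (hd : 0 ≤ d) (hd' : d ≤ 79 / 10 * s)
    (h : (X + 2 * h0) ^ 2 + T ^ 2 ≤ d ^ 2) : Zn s X T d := by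
  have := (znD hs hs1 (ann_neg hA) hd hd' (by
    rw [show (-X - 2 * h0) ^ 2 = (X + 2 * h0) ^ 2 by ring]
    exact h)).neg
  rwa [neg_neg] at this

/-- **The crossing criterion for both vertices.** -/
theorem ok2_cross {s X12 X13 t t' d12 d23 d13 : ℝ} (hs : 0 < s) (hs1 : s ≤ 11 / 400)
    (hS : Sides X12 X13 t t')
    (z1 : Zn s X12 t d12) (z2 : Zn s (X13 - X12) t' d23) (z3 : Zn s X13 (t + t') d13)
    (hE : 7 / 100 * (d12 + d23 + d13) ≤ exn X12 X13 t t') : OK2 s X12 X13 t t' :=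
  ok2_of hs hs1 hS (cross_ok hs hs1 z1 z2 z3 hE)

/-- Two displacements. -/
theorem disp_add {a b c d p q : ℝ} (hp : 0 ≤ p) (hq : 0 ≤ q) (h : a ^ 2 + b ^ 2 ≤ p ^ 2)
    (h' : c ^ 2 + d ^ 2 ≤ q ^ 2) : (a + c) ^ 2 + (b + d) ^ 2 ≤ (p + q) ^ 2 := by
  have h1 : (a * c + b * d) ^ 2 ≤ (p * q) ^ 2 := by
    have h2 : (a * c + b * d) ^ 2 ≤ (a ^ 2 + b ^ 2) * (c ^ 2 + d ^ 2) := by
      nlinarith [sq_nonneg (a * d - b * c)]
    have h3 := mul_le_mul h h' (by positivity) (by positivity)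
    nlinarith
  have h4 : a * c + b * d ≤ p * q := by
    have := abs_le_of_sq_le_sq' h1 (mul_nonneg hp hq)
    exact this.2
  nlinarith

end Pool.Agent.Strip051.LC.E0.Out
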