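import Pool.Agent.Strip051.LC.E0.O3.StrA
import Pool.Agent.Strip051.LC.E0.O3.GeoB
import Pool.Agent.Strip051.LC.E0.O4.Zn4
import Pool.Agent.Strip051.LC.E0.O4.M1T

/-! # Small rests: the directions 0 and 120, sides 12 and 23 -/

namespace Pool.Agent.Strip051.LC.E0.Out

open Pool.Agent.StripNear Pool.Agent.StripSquare Pool.Agent.Strip051 Pool.Agent.Strip051.Sweep
open Pool.Agent.Strip051.LC.Line (tau)

variable {s C x C' x' : ℝ}

theorem a02_cos (h : Rot C x) : 0 ≤ 1 - C ∧ 1 - C ≤ 54 / 100 * x ^ 2 := by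
  have a := h.Ch
  have b := h.C1
  have e : (1 - C) * (1 + C) = x ^ 2 := by linear_combination -h.sq
  obtain ⟨b1, -⟩ := h0_bd
  have n : 0 ≤ 1 - C := by linarith
  refine ⟨n, ?_⟩
  have := mul_le_mul_of_nonneg_left (by linarith : 186 / 100 ≤ 1 + C) n
  linarith

/-- The two thresholds. -/
theorem a02_thr {s : ℝ} (h : 113 / 10000 ≤ s) : (174 / 100 + 3 * s) * s ≤ thr s := by
  unfold thr
  have := mul_le_mul_of_nonneg_right h (by linarith : 0 ≤ s)
  linarith

/-- The lower bound of the excess. -/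
theorem a02_E1 {s a : ℝ} (hs1 : s ≤ 11 / 400) (h1 : 2078 / 10000 - 5 * s ≤ a)
    (h2 : a ≤ 79 / 10 * s) : 6 / 10 * s ≤ E1 a := by
  unfold E1
  have h3 : a ≤ 22 / 100 := by linarith
  have h4 : 703 / 10000 ≤ a := by linarith
  have h5 : a * (2308 / 10000) ≤ a * (288 / 1000 - 26 / 100 * a) :=
    mul_le_mul_of_nonneg_left (by linarith) (by linarith)
  have h6 : 0 ≤ (a - 703 / 10000) * (22 / 100 - a) :=
    mul_nonneg (by linarith) (by linarith)
  linarith

/-- The directions 0 and 120, sides 12 and 23: a strip, the crossing or a small rotation. -/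
theorem a02_core (hs : 0 < s) (hs1 : s ≤ 11 / 400) (h : Rot C x) (h' : Rot C' x') (hx : 0 ≤ x)
    (hS : Sides C (C + (-(C' / 2) - h0 * x')) x
      (h0 * C' - x' / 2))
    (hc : 0 ≤ C * (x + (h0 * C' - x' / 2)) -
      (C + (-(C' / 2) - h0 * x')) * x)
    (hE : exn C (C + (-(C' / 2) - h0 * x')) x
      (h0 * C' - x' / 2) < (174 / 100 + 3 * s) * s) :
    OK2 s C (C + (-(C' / 2) - h0 * x')) x (h0 * C' - x' / 2) ∨
      (x < 5 * s ∧ x' ≤ x ∧ (C - C') ^ 2 + (x - x') ^ 2 ≤ (79 / 10 * s) ^ 2 ∧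
        E1 (x - x') ≤ exn C (C + (-(C' / 2) - h0 * x')) x (h0 * C' - x' / 2)) := by
  have hh := h0_pos
  have hq := h0_sq'
  obtain ⟨b1, b2⟩ := h0_bd
  have ho : x' ≤ x := by
    refine geo_ord h h' ?_
    have c1 := hS.c1
    have e : (C + (-(C' / 2) - h0 * x')) ^ 2 + (x + (h0 * C' - x' / 2)) ^ 2 =
        2 - (C * C' + x * x' - 2 * h0 * (x * C' - C * x')) := by
      linear_combination (C' ^ 2 + x' ^ 2) * hq + h.sq + h'.sq
    rw [e] at c1
    linarith
  have eE : exn C (C + (-(C' / 2) - h0 * x')) x (h0 * C' - x' / 2) =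
      (h0 * (C * C' + x * x') + 1 / 2 * (x * C' - C * x')) / (2 * h0) - 1 / 2 := by
    unfold exn
    congr 2
    ring
  rcases geo_S hs hs1 h h' ho eE hE with ⟨hn, hE1⟩ | ⟨p, p', p0, p0', hp, hp', hpp, hcE⟩
  · rcases le_or_gt (5 * s) x with h4 | h4
    · exact Or.inl (strip_UA hs hs1 h h' h4 ho hn hS hE1)
    exact Or.inr ⟨h4, ho, hn, hE1⟩
  · left
    have k1 : p ≤ 79 / 10 * s := by linarith
    have k2 : p' ≤ 79 / 10 * s := by linarith
    have z1 := znA hs hs1 (⟨hS.t0, hS.a1, hS.a3⟩ : Ann C x) p0 k1 hp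
    have hp2 : (C + (-(C' / 2) - h0 * x') - C) ^ 2 + (h0 * C' - x' / 2 - 1) ^ 2 ≤ p' ^ 2 := by
      refine le_trans (le_of_eq ?_) hp'
      linear_combination (C' ^ 2 + x' ^ 2 - 1) * hq
    have z2 := znB hs hs1 (⟨hS.t1, hS.b1, hS.b3⟩ : Ann (C + (-(C' / 2) - h0 * x') - C)
      (h0 * C' - x' / 2)) p0' k2 hp2
    have z3 := znC hs hs1 (⟨add_nonneg hS.t0 hS.t1, hS.c1, hS.c3⟩ :
      Ann (C + (-(C' / 2) - h0 * x')) (x + (h0 * C' - x' / 2))) (add_nonneg p0 p0') hpp (by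
        refine le_trans (le_of_eq ?_) (disp_add p0 p0' hp hp2)
        ring)
    refine ok2_cross hs hs1 hS z1 z2 z3 ?_
    linarith

/-- The directions 0 and 120, sides 12 and 23. -/
theorem a02 (hs : 0 < s) (hs1 : s ≤ 11 / 400) (h : Rot C x) (h' : Rot C' x') (hx : 0 ≤ x)
    (hS : Sides C (C + (-(C' / 2) - h0 * x')) x
      (h0 * C' - x' / 2))
    (hc : 0 ≤ C * (x + (h0 * C' - x' / 2)) -
      (C + (-(C' / 2) - h0 * x')) * x)
    (hE : exn C (C + (-(C' / 2) - h0 * x')) x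
      (h0 * C' - x' / 2) < (174 / 100 + 3 * s) * s) :
    Fin3 s C (C + (-(C' / 2) - h0 * x')) x
      (h0 * C' - x' / 2) := by
  have hh := h0_pos
  have hq := h0_sq'
  obtain ⟨b1, b2⟩ := h0_bd
  rcases a02_core hs hs1 h h' hx hS hc hE with h0' | ⟨h4, ho, hn, hE1⟩
  · exact Or.inl h0'
  have a1 : x - x' ≤ 79 / 10 * s := by
    refine le_of_sq2 (by linarith) ?_
    linarith [sq_nonneg (C - C')]
  -- the height of the side 23
  obtain ⟨c0, c1⟩ := a02_cos h'
  have x2 : x' ^ 2 ≤ 174 / 100 * s := by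
    have e1 : x' ^ 2 ≤ (79 / 10 * s) ^ 2 := by
      rw [sq_le_sq, abs_of_nonneg (by linarith : 0 ≤ 79 / 10 * s), abs_le]
      constructor <;> linarith
    have e2 : s * s ≤ 11 / 400 * s := mul_le_mul_of_nonneg_right hs1 hs.le
    linarith
  have c2 : h0 * (1 - C') ≤ 82 / 100 * s := by
    have := mul_le_mul b2.le (c1.trans (mul_le_mul_of_nonneg_left x2 (by norm_num))) c0
      (by norm_num)
    linarith
  have c3 : 0 ≤ h0 * (1 - C') := mul_nonneg hh.le c0
  have e1 : h0 * C' - x' / 2 - h0 = -(x' / 2) - h0 * (1 - C') := by ring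
  have e2 : |h0 * C' - x' / 2 - h0| ≤ 8 * s := by
    rw [e1, abs_le]
    constructor <;> linarith
  have u1 : x + (h0 * C' - x' / 2) ≤ h0 + 8 * s := by linarith
  rcases le_or_gt (28 / 25 * h0) (x + (h0 * C' - x' / 2)) with h5 | h5
  · left
    refine ok2_of hs hs1 hS ⟨9 / 4, 0, le_rfl, m1T hs hs1 hS (by linarith) e2 h5 u1 ?_ ?_ ?_
        (hE.trans_le (a02_thr ?_))⟩
    · have := mul_le_mul_of_nonneg_left (by linarith : x' ≤ 1375 / 10000) hh.le
      linarith [h.Ch, h'.C1]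
    · have := mul_le_mul_of_nonneg_left (by linarith : -(22 / 100) ≤ x') hh.le
      linarith [h'.Ch]
    · refine (a02_E1 hs1 ?_ a1).trans hE1
      linarith
    · linarith
  · right
    left
    refine ⟨by linarith, e2, ?_, by linarith, h5.le⟩
    rw [abs_le]
    constructor <;> linarith

end Pool.Agent.Strip051.LC.E0.Out
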