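import Pool.Agent.Strip051.LC.E0.O3.StrA
import Pool.Agent.Strip051.LC.E0.O3.GeoB
import Pool.Agent.Strip051.LC.E0.O4.Zn4

/-! # Small rests: the directions 60 and 120, sides 12 and 23 -/

namespace Pool.Agent.Strip051.LC.E0.Out

open Pool.Agent.StripNear Pool.Agent.StripSquare Pool.Agent.Strip051 Pool.Agent.Strip051.Sweep
open Pool.Agent.Strip051.LC.Line (tau)

variable {s C x C' x' : ℝ}

private theorem a12_one {C x : ℝ} (h : Rot C x) : 1 - C ≤ 54 / 100 * x ^ 2 := by
  obtain ⟨b1, b2⟩ := h0_bd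
  have a := h.Ch
  have c := h.C1
  have e : (1 - C) * (1 + C) = x ^ 2 := by linear_combination (-1) * h.sq
  nlinarith

private theorem a12_win {s C x : ℝ} (hs : 0 < s) (hs1 : s ≤ 11 / 400) (h : Rot C x)
    (h1 : -(5 * s) ≤ x) (h2 : x ≤ 5 * s) :
    h0 - 2 / 5 * s ≤ h0 * C ∧ h0 * C ≤ h0 := by
  obtain ⟨b1, b2⟩ := h0_bd
  have hh := h0_pos
  have c := h.C1
  have e := a12_one h
  have e1 : x ^ 2 ≤ (5 * s) ^ 2 := sq_le_sq' h1 h2
  constructor
  · nlinarith
  · nlinarith

/-- The directions 60 and 120, sides 12 and 23. -/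
theorem a12 (hs : 0 < s) (hs1 : s ≤ 11 / 400) (h : Rot C x) (h' : Rot C' x')
    (hS : Sides (C / 2 - h0 * x) (C / 2 - h0 * x + (-(C' / 2) - h0 * x')) (h0 * C + x / 2)
      (h0 * C' - x' / 2))
    (hc : 0 ≤ (C / 2 - h0 * x) * ((h0 * C + x / 2) + (h0 * C' - x' / 2)) -
      (C / 2 - h0 * x + (-(C' / 2) - h0 * x')) * (h0 * C + x / 2))
    (hE : exn (C / 2 - h0 * x) (C / 2 - h0 * x + (-(C' / 2) - h0 * x')) (h0 * C + x / 2)
      (h0 * C' - x' / 2) < (174 / 100 + 3 * s) * s) :
    Fin3 s (C / 2 - h0 * x) (C / 2 - h0 * x + (-(C' / 2) - h0 * x')) (h0 * C + x / 2)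
      (h0 * C' - x' / 2) := by
  have hh := h0_pos
  have hq' := h0_sq'
  obtain ⟨b1, b2⟩ := h0_bd
  have ho : x ≤ x' := by
    refine geo_ord h' h ?_
    have c3 := hS.c3
    have e : (C / 2 - h0 * x + (-(C' / 2) - h0 * x')) ^ 2 +
        (h0 * C + x / 2 + (h0 * C' - x' / 2)) ^ 2 =
        2 + (C' * C + x' * x) - 2 * h0 * (x' * C - C' * x) := by
      linear_combination (C ^ 2 + 2 * C * C' + C' ^ 2 + x ^ 2 + 2 * x * x' + x' ^ 2) * hq' +
        h.sq + h'.sq
    linarith
  have eE : exn (C / 2 - h0 * x) (C / 2 - h0 * x + (-(C' / 2) - h0 * x')) (h0 * C + x / 2)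
      (h0 * C' - x' / 2) =
      (h0 * (C' * C + x' * x) + 1 / 2 * (x' * C - C' * x)) / (2 * h0) - 1 / 2 := by
    unfold exn
    congr 2
    linear_combination (-(x * C') + x' * C) * hq'
  rcases geo_S hs hs1 h' h ho eE hE with ⟨n1, n2⟩ | ⟨p, p', p0, p0', g1, g2, g3, g4⟩
  · by_cases k1 : x ≤ -(5 * s)
    · left
      have hs' := strip_LAm hs hs1 h.neg h'.neg (by linarith) (by linarith) (by nlinarith)
        (by
          rw [show C / 2 + h0 * -x = C / 2 - h0 * x by ring,
            show -(C' / 2) + h0 * -x' = -(C' / 2) - h0 * x' by ring,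
            show h0 * C - -x / 2 = h0 * C + x / 2 by ring,
            show h0 * C' + -x' / 2 = h0 * C' - x' / 2 by ring]
          exact hS)
        (by
          rw [show C / 2 + h0 * -x = C / 2 - h0 * x by ring,
            show -(C' / 2) + h0 * -x' = -(C' / 2) - h0 * x' by ring,
            show h0 * C - -x / 2 = h0 * C + x / 2 by ring,
            show h0 * C' + -x' / 2 = h0 * C' - x' / 2 by ring,
            show -x - -x' = x' - x by ring]
          exact n2)
      rw [show C / 2 + h0 * -x = C / 2 - h0 * x by ring,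
        show -(C' / 2) + h0 * -x' = -(C' / 2) - h0 * x' by ring,
        show h0 * C - -x / 2 = h0 * C + x / 2 by ring,
        show h0 * C' + -x' / 2 = h0 * C' - x' / 2 by ring] at hs'
      exact hs'
    · rw [not_le] at k1
      by_cases k2 : 5 * s ≤ x'
      · left
        refine ok2_mir hs.le (by linarith) ?_
        have m := sides_mir hS
        have me := exn_mir (C / 2 - h0 * x) (C / 2 - h0 * x + (-(C' / 2) - h0 * x'))
          (h0 * C + x / 2) (h0 * C' - x' / 2)
        rw [← me] at n2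
        rw [show C / 2 - h0 * x - (C / 2 - h0 * x + (-(C' / 2) - h0 * x')) =
            C' / 2 + h0 * x' by ring,
          show -(C / 2 - h0 * x + (-(C' / 2) - h0 * x')) =
            C' / 2 + h0 * x' + (-(C / 2) + h0 * x) by ring] at m n2 ⊢
        exact strip_LAm hs hs1 h' h k2 ho n1 m n2
      · rw [not_le] at k2
        right
        right
        right
        left
        obtain ⟨u1, u2⟩ := a12_win hs hs1 h k1.le (by linarith)
        obtain ⟨v1, v2⟩ := a12_win hs hs1 h' (by linarith) k2.le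
        refine ⟨?_, ?_, ?_, ?_, ?_⟩
        · rw [abs_le]
          constructor <;> linarith
        · rw [abs_le]
          constructor <;> linarith
        · rw [abs_le]
          constructor <;> linarith
        · linarith
        · linarith
  · left
    have q1 : (C / 2 - h0 * x - h0) ^ 2 + (h0 * C + x / 2 - 1 / 2) ^ 2 ≤ p' ^ 2 := by
      refine le_trans (le_of_eq ?_) g2
      linear_combination (C ^ 2 + x ^ 2 + 2 * x) * hq'
    have q2 : (-(C' / 2) - h0 * x' + h0) ^ 2 + (h0 * C' - x' / 2 - 1 / 2) ^ 2 ≤ p ^ 2 := by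
      refine le_trans (le_of_eq ?_) g1
      linear_combination (C' ^ 2 + x' ^ 2 - 2 * x') * hq'
    have q3 := disp_add p0' p0 q1 q2
    refine ok2_cross hs hs1 hS (znA hs hs1 (ann12 hS) p0' (by linarith) q1)
      (znA' hs hs1 (ann23 hS) p0 (by linarith) ?_)
      (znB hs hs1 (ann13 hS) (add_nonneg p0' p0) (by linarith) ?_) ?_
    · rw [show C / 2 - h0 * x + (-(C' / 2) - h0 * x') - (C / 2 - h0 * x) + h0 =
        -(C' / 2) - h0 * x' + h0 by ring]
      exact q2
    · refine le_trans (le_of_eq ?_) q3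
      ring
    · linarith

end Pool.Agent.Strip051.LC.E0.Out
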