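import Pool.Agent.Strip051.LC.E0.O4.A01
import Pool.Agent.Strip051.LC.E0.O4.A02
import Pool.Agent.Strip051.LC.E0.O4.A12

/-! # Small rests: unit sides 12 and 23 -/

namespace Pool.Agent.Strip051.LC.E0.Out

open Pool.Agent.StripNear Pool.Agent.StripSquare Pool.Agent.Strip051 Pool.Agent.Strip051.Sweep
open Pool.Agent.Strip051.LC.Line (tau)

variable {s C x C' x' X12 X13 t t' : ℝ}

/-- The bounds of the sine of the angle between two directions. -/
private theorem famA11_M (h : Rot C x) (h' : Rot C' x') :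
    -h0 ≤ x * C' - C * x' ∧ x * C' - C * x' ≤ h0 := by
  have q := geo_sq h h'
  have d := geo_half h h'
  have hq := h0_sq'
  refine abs_le_of_sq_le_sq' ?_ h0_pos.le
  rw [hq]
  nlinarith

private theorem famA11_cross (h : Sides X12 X13 t t') (hc : 0 ≤ X12 * (t + t') - X13 * t) :
    h0 ≤ X12 * t' - (X13 - X12) * t := by
  have := cross_ge h hc
  linarith

private theorem famA11_dot (h : Sides X12 X13 t t') (h1 : X12 ^ 2 + t ^ 2 = 1)
    (h2 : (X13 - X12) ^ 2 + t' ^ 2 = 1) :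
    -(1 / 2) ≤ X12 * (X13 - X12) + t * t' ∧ X12 * (X13 - X12) + t * t' ≤ 1 / 2 := by
  have c1 := h.c1
  have c3 := h.c3
  constructor <;> nlinarith

private theorem famA11_exn (h : Sides X12 X13 t t') (hc : 0 ≤ X12 * (t + t') - X13 * t) :
    0 ≤ exn X12 X13 t t' := by
  have := cross_ge h hc
  have hh := h0_pos
  unfold exn
  have : 1 / 2 ≤ (X12 * (t + t') - X13 * t) / (2 * h0) := by
    rw [le_div_iff₀ (by positivity)]
    linarith
  linarith

private theorem famA11_01 (hs : 0 < s) (hs1 : s ≤ 11 / 400) (h : Rot C x)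
    (h' : Rot C' x') (hS : Sides X12 X13 t t') (hc : 0 ≤ X12 * (t + t') - X13 * t)
    (hE : exn X12 X13 t t' < (174 / 100 + 3 * s) * s) (d : D1 0 C x X12 t)
    (d' : D1 1 C' x' (X13 - X12) t') : Fin3 s X12 X13 t t' := by
  obtain ⟨hx, e1, e2⟩ := d
  obtain ⟨e3, e4⟩ := d'
  obtain rfl : X13 = C + (C' / 2 - h0 * x') := by rw [← e3, ← e1]; ring
  subst e1 e2 e4
  exact a01 hs hs1 h h' hx hS hc hE

private theorem famA11_02 (hs : 0 < s) (hs1 : s ≤ 11 / 400) (h : Rot C x)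
    (h' : Rot C' x') (hS : Sides X12 X13 t t') (hc : 0 ≤ X12 * (t + t') - X13 * t)
    (hE : exn X12 X13 t t' < (174 / 100 + 3 * s) * s) (d : D1 0 C x X12 t)
    (d' : D1 2 C' x' (X13 - X12) t') : Fin3 s X12 X13 t t' := by
  obtain ⟨hx, e1, e2⟩ := d
  obtain ⟨e3, e4⟩ := d'
  obtain rfl : X13 = C + (-(C' / 2) - h0 * x') := by rw [← e3, ← e1]; ring
  subst e1 e2 e4
  exact a02 hs hs1 h h' hx hS hc hE

private theorem famA11_12 (hs : 0 < s) (hs1 : s ≤ 11 / 400) (h : Rot C x)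
    (h' : Rot C' x') (hS : Sides X12 X13 t t') (hc : 0 ≤ X12 * (t + t') - X13 * t)
    (hE : exn X12 X13 t t' < (174 / 100 + 3 * s) * s) (d : D1 1 C x X12 t)
    (d' : D1 2 C' x' (X13 - X12) t') : Fin3 s X12 X13 t t' := by
  obtain ⟨e1, e2⟩ := d
  obtain ⟨e3, e4⟩ := d'
  obtain rfl : X13 = C / 2 - h0 * x + (-(C' / 2) - h0 * x') := by rw [← e3, ← e1]; ring
  subst e1 e2 e4
  exact a12 hs hs1 h h' hS hc hE

private theorem famA11_03 (hs : 0 < s) (hs1 : s ≤ 11 / 400) (h : Rot C x)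
    (h' : Rot C' x') (hS : Sides X12 X13 t t') (hc : 0 ≤ X12 * (t + t') - X13 * t)
    (d : D1 0 C x X12 t) (d' : D1 3 C' x' (X13 - X12) t') : Fin3 s X12 X13 t t' := by
  have hq := h0_sq'
  obtain ⟨hx, e1, e2⟩ := d
  obtain ⟨hx', e3, e4⟩ := d'
  have dd := famA11_dot hS (by rw [e1, e2]; exact h.sq)
    (by rw [e3, e4]; linear_combination h'.sq)
  rw [e3, e1, e2, e4] at dd
  obtain ⟨rfl, rfl, ⟨rfl, rfl⟩ | ⟨f1, -⟩⟩ := geo_ex h h' (by linarith [dd.1])
  · refine Or.inl (ok2_cross hs hs1 hS (znA hs hs1 ⟨hS.t0, hS.a1, hS.a3⟩ le_rfl (by positivity) ?_)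
      (znA' hs hs1 ⟨hS.t1, hS.b1, hS.b3⟩ le_rfl (by positivity) ?_)
      (znB hs hs1 ⟨add_nonneg hS.t0 hS.t1, hS.c1, hS.c3⟩ le_rfl (by positivity) ?_) ?_)
    · rw [e1, e2]
      norm_num
    · rw [e3, e4]
      norm_num
    · have e5 : X13 = 0 := by linarith
      rw [e5, e2, e4]
      norm_num
    · have := famA11_exn hS hc
      linarith
  · exact absurd hx (by rw [f1]; norm_num)

private theorem famA11_11 (hs : 0 < s) (hs1 : s ≤ 11 / 400) (h : Rot C x)
    (h' : Rot C' x') (hS : Sides X12 X13 t t') (hc : 0 ≤ X12 * (t + t') - X13 * t)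
    (d : D1 1 C x X12 t) (d' : D1 1 C' x' (X13 - X12) t') : Fin3 s X12 X13 t t' := by
  have hh := h0_pos
  have hq := h0_sq'
  obtain ⟨e1, e2⟩ := d
  obtain ⟨e3, e4⟩ := d'
  have dd := famA11_dot hS (by rw [e1, e2]; linear_combination h.sq + (C ^ 2 + x ^ 2) * hq)
    (by rw [e3, e4]; linear_combination h'.sq + (C' ^ 2 + x' ^ 2) * hq)
  have cr := famA11_cross hS hc
  rw [e3, e1, e2, e4] at dd cr
  have hD : C * C' + x * x' ≤ 1 / 2 := by
    have := dd.2
    have e : (C / 2 - h0 * x) * (C' / 2 - h0 * x') + (h0 * C + x / 2) * (h0 * C' + x' / 2) =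
        C * C' + x * x' := by linear_combination (x * x' + C * C') * hq
    rwa [e] at this
  obtain ⟨f1, f2, ⟨f3, f4⟩ | ⟨f3, f4⟩⟩ := geo_ex h h' hD
  · rw [f1, f2, f3, f4] at cr
    exfalso
    nlinarith
  · rw [f1, f3] at e1 e2
    rw [f2, f4] at e3 e4
    refine Or.inl (ok2_cross hs hs1 hS (znA hs hs1 ⟨hS.t0, hS.a1, hS.a3⟩ le_rfl (by positivity) ?_)
      (znB hs hs1 ⟨hS.t1, hS.b1, hS.b3⟩ le_rfl (by positivity) ?_)
      (znC hs hs1 ⟨add_nonneg hS.t0 hS.t1, hS.c1, hS.c3⟩ le_rfl (by positivity) ?_) ?_)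
    · have g1 : X12 = h0 := by rw [e1]; ring
      have g2 : t = 1 / 2 := by rw [e2]; linear_combination hq
      rw [g1, g2]
      norm_num
    · have g1 : X13 - X12 = 0 := by rw [e3]; ring
      have g2 : t' = 1 := by rw [e4]; linear_combination hq
      rw [g1, g2]
      norm_num
    · have g1 : X13 = h0 := by
        have : X13 = (X13 - X12) + X12 := by ring
        rw [this, e3, e1]
        ring
      have g2 : t + t' = 3 / 2 := by
        rw [e2, e4]
        linear_combination 2 * hq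
      rw [g1, g2]
      norm_num
    · have := famA11_exn hS hc
      linarith

/-- Unit sides 12 and 23. -/
theorem famA11 (hs : 0 < s) (hs1 : s ≤ 11 / 400) (i : Fin 4) (j : Fin 4) (h : Rot C x)
    (h' : Rot C' x') (hS : Sides X12 X13 t t') (hc : 0 ≤ X12 * (t + t') - X13 * t)
    (hE : exn X12 X13 t t' < (174 / 100 + 3 * s) * s) (d : D1 i C x X12 t)
    (d' : D1 j C' x' (X13 - X12) t') : Fin3 s X12 X13 t t' := by
  have hh := h0_pos
  have hq := h0_sq'
  have g1 := h0_gt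
  have sh : s < h0 := by linarith
  have cr := famA11_cross hS hc
  obtain ⟨m1, m2⟩ := famA11_M h h'
  have dh := geo_half h h'
  have mS := sides_mir hS
  have mc : 0 ≤ (X12 - X13) * (t' + t) - (-X13) * t' := by linarith
  have mE : exn (X12 - X13) (-X13) t' t < (174 / 100 + 3 * s) * s := by rwa [exn_mir]
  fin_cases i <;> fin_cases j
  · -- (0,0)
    obtain ⟨hx, e1, e2⟩ := d
    obtain ⟨hx', e3, e4⟩ := d'
    have dd := famA11_dot hS (by rw [e1, e2]; exact h.sq) (by rw [e3, e4]; exact h'.sq)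
    rw [e3, e1, e2, e4] at dd
    exfalso
    obtain ⟨-, -, ⟨-, f⟩ | ⟨f, -⟩⟩ := geo_ex h h' dd.2
    · rw [f] at hx'
      norm_num at hx'
    · rw [f] at hx
      norm_num at hx
  · exact famA11_01 hs hs1 h h' hS hc hE d d'
  · exact famA11_02 hs hs1 h h' hS hc hE d d'
  · exact famA11_03 hs hs1 h h' hS hc d d'
  · -- (1,0)
    obtain ⟨e1, e2⟩ := d
    obtain ⟨hx', e3, e4⟩ := d'
    rw [e3, e1, e2, e4] at cr
    exfalso
    nlinarith
  · exact famA11_11 hs hs1 h h' hS hc d d'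
  · exact famA11_12 hs hs1 h h' hS hc hE d d'
  · -- (1,3)
    obtain ⟨e1, e2⟩ := d
    obtain ⟨hx', e3, e4⟩ := d'
    refine fin3_mir hs.le sh (famA11_02 hs hs1 h'.neg h.neg mS mc mE
      ⟨by linarith, by linarith, e4⟩ ⟨?_, ?_⟩)
    · rw [show -X13 - (X12 - X13) = -X12 by ring, e1]
      ring
    · rw [e2]
      ring
  · -- (2,0)
    obtain ⟨e1, e2⟩ := d
    obtain ⟨hx', e3, e4⟩ := d'
    rw [e3, e1, e2, e4] at cr
    exfalso
    nlinarith
  · -- (2,1)
    obtain ⟨e1, e2⟩ := d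
    obtain ⟨e3, e4⟩ := d'
    rw [e3, e1, e2, e4] at cr
    exfalso
    nlinarith
  · -- (2,2)
    obtain ⟨e1, e2⟩ := d
    obtain ⟨e3, e4⟩ := d'
    refine fin3_mir hs.le sh (famA11_11 hs hs1 h'.neg h.neg mS mc ⟨?_, ?_⟩ ⟨?_, ?_⟩)
    · rw [show X12 - X13 = -(X13 - X12) by ring, e3]
      ring
    · rw [e4]
      ring
    · rw [show -X13 - (X12 - X13) = -X12 by ring, e1]
      ring
    · rw [e2]
      ring
  · -- (2,3)
    obtain ⟨e1, e2⟩ := d
    obtain ⟨hx', e3, e4⟩ := d'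
    refine fin3_mir hs.le sh (famA11_01 hs hs1 h'.neg h.neg mS mc mE
      ⟨by linarith, by linarith, e4⟩ ⟨?_, ?_⟩)
    · rw [show -X13 - (X12 - X13) = -X12 by ring, e1]
      ring
    · rw [e2]
      ring
  · -- (3,0)
    obtain ⟨hx, e1, e2⟩ := d
    obtain ⟨hx', e3, e4⟩ := d'
    rw [e3, e1, e2, e4] at cr
    exfalso
    have a1 := mul_nonneg h.C0 hx'
    have a2 := mul_nonneg h'.C0 (by linarith : 0 ≤ -x)
    linarith
  · -- (3,1)
    obtain ⟨hx, e1, e2⟩ := d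
    obtain ⟨e3, e4⟩ := d'
    rw [e3, e1, e2, e4] at cr
    exfalso
    nlinarith
  · -- (3,2)
    obtain ⟨hx, e1, e2⟩ := d
    obtain ⟨e3, e4⟩ := d'
    rw [e3, e1, e2, e4] at cr
    exfalso
    nlinarith
  · -- (3,3)
    obtain ⟨hx, e1, e2⟩ := d
    obtain ⟨hx', e3, e4⟩ := d'
    have dd := famA11_dot hS (by rw [e1, e2]; linear_combination h.sq)
      (by rw [e3, e4]; linear_combination h'.sq)
    rw [e3, e1, e2, e4] at dd
    exfalso
    obtain ⟨-, -, ⟨f, -⟩ | ⟨-, f⟩⟩ := geo_ex h h' (by linarith [dd.2])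
    · rw [f] at hx
      norm_num at hx
    · rw [f] at hx'
      norm_num at hx'

end Pool.Agent.Strip051.LC.E0.Out
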