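import Pool.Agent.Strip051.LC.E0.O3.StrA
import Pool.Agent.Strip051.LC.E0.O3.GeoB
import Pool.Agent.Strip051.LC.E0.O4.Zn4

/-! # Small rests: the directions 60 and 150, sides 12 and 23 -/

namespace Pool.Agent.Strip051.LC.E0.Out

open Pool.Agent.StripNear Pool.Agent.StripSquare Pool.Agent.Strip051 Pool.Agent.Strip051.Sweep
open Pool.Agent.Strip051.LC.Line (tau)

variable {s C x C' x' : ℝ}

private theorem e12_ord (h : Rot C x) (h' : Rot C' x') (hM : x * C' - C * x' ≤ 0) : x ≤ x' := by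
  by_contra hx
  rw [not_le] at hx
  have := geo_neg h' h hx
  linarith

/-- The directions 60 and 150, sides 12 and 23. -/
theorem e12 (hs : 0 < s) (hs1 : s ≤ 11 / 400) (h : Rot C x) (h' : Rot C' x')
    (hS : Sides (C / 2 - h0 * x) (C / 2 - h0 * x + (-(3 / 2 * C') - h0 * x')) (h0 * C + x / 2)
      (h0 * C' - 3 / 2 * x'))
    (hc : 0 ≤ (C / 2 - h0 * x) * ((h0 * C + x / 2) + (h0 * C' - 3 / 2 * x')) -
      (C / 2 - h0 * x + (-(3 / 2 * C') - h0 * x')) * (h0 * C + x / 2))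
    (hE : exn (C / 2 - h0 * x) (C / 2 - h0 * x + (-(3 / 2 * C') - h0 * x')) (h0 * C + x / 2)
      (h0 * C' - 3 / 2 * x') < (174 / 100 + 3 * s) * s) :
    Fin3 s (C / 2 - h0 * x) (C / 2 - h0 * x + (-(3 / 2 * C') - h0 * x')) (h0 * C + x / 2)
      (h0 * C' - 3 / 2 * x') := by
  obtain ⟨b1, b2⟩ := h0_bd
  have hh := h0_pos
  have hq := h0_sq'
  have hM : x * C' - C * x' ≤ 0 := by
    have e : (C / 2 - h0 * x + (-(3 / 2 * C') - h0 * x')) ^ 2 +
        (h0 * C + x / 2 + (h0 * C' - 3 / 2 * x')) ^ 2 =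
        4 + 4 * h0 * (x * C' - C * x') := by
      linear_combination (x' ^ 2 + C' ^ 2 + x ^ 2 + C ^ 2 + 2 * x * x' + 2 * C * C') * hq +
        3 * h'.sq + h.sq
    have e1 := hS.c3
    rw [e] at e1
    by_contra hn
    rw [not_le] at hn
    nlinarith
  have ho := e12_ord h h' hM
  have eE : exn (C / 2 - h0 * x) (C / 2 - h0 * x + (-(3 / 2 * C') - h0 * x')) (h0 * C + x / 2)
      (h0 * C' - 3 / 2 * x') = C' * C + x' * x - 1 / 2 := by
    unfold exn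
    congr 1
    rw [div_eq_iff (by positivity)]
    linear_combination (x' * C - x * C') * hq
  obtain ⟨q, p, q0, p0, hq2, hp, hr, hcr⟩ := geo_3c hs hs1 h' h ho eE hE
  have hp2 : (C / 2 - h0 * x - h0) ^ 2 + (h0 * C + x / 2 - 1 / 2) ^ 2 ≤ p ^ 2 := by
    have e : (C / 2 - h0 * x - h0) ^ 2 + (h0 * C + x / 2 - 1 / 2) ^ 2 =
        (C - h0) ^ 2 + (x + 1 / 2) ^ 2 := by
      linear_combination (x ^ 2 + C ^ 2 + 2 * x) * hq
    rwa [e]
  have hq3 : (-(3 / 2 * C') - h0 * x' + 2 * h0) ^ 2 + (h0 * C' - 3 / 2 * x') ^ 2 ≤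
      (2 * h0 * q) ^ 2 := by
    have e : (-(3 / 2 * C') - h0 * x' + 2 * h0) ^ 2 + (h0 * C' - 3 / 2 * x') ^ 2 =
        3 * ((C' - h0) ^ 2 + (x' - 1 / 2) ^ 2) := by
      linear_combination (x' ^ 2 + C' ^ 2 - 4 * x' + 1) * hq
    have e2 : (2 * h0 * q) ^ 2 = 3 * q ^ 2 := by
      linear_combination 4 * q ^ 2 * hq
    rw [e, e2]
    linarith
  have hk : 2 * h0 * q ≤ 1733 / 1000 * q := mul_le_mul_of_nonneg_right (by linarith) q0
  have hk0 : 0 ≤ 2 * h0 * q := mul_nonneg (by linarith) q0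
  have z1 : Zn s (C / 2 - h0 * x) (h0 * C + x / 2) p :=
    znA hs hs1 (ann12 hS) p0 (by linarith) hp2
  have z2 : Zn s (C / 2 - h0 * x + (-(3 / 2 * C') - h0 * x') - (C / 2 - h0 * x))
      (h0 * C' - 3 / 2 * x') (2 * h0 * q) :=
    znD' hs hs1 (ann23 hS) hk0 (by linarith) (by rwa [add_sub_cancel_left])
  have z3 : Zn s (C / 2 - h0 * x + (-(3 / 2 * C') - h0 * x'))
      ((h0 * C + x / 2) + (h0 * C' - 3 / 2 * x')) (2 * h0 * q + p) := by
    refine znA' hs hs1 (ann13 hS) (by linarith) (by linarith) ?_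
    have := disp_add (a := -(3 / 2 * C') - h0 * x' + 2 * h0) (b := h0 * C' - 3 / 2 * x')
      (c := C / 2 - h0 * x - h0) (d := h0 * C + x / 2 - 1 / 2) hk0 p0 hq3 hp2
    rwa [show -(3 / 2 * C') - h0 * x' + 2 * h0 + (C / 2 - h0 * x - h0) =
        C / 2 - h0 * x + (-(3 / 2 * C') - h0 * x') + h0 by ring,
      show h0 * C' - 3 / 2 * x' + (h0 * C + x / 2 - 1 / 2) =
        h0 * C + x / 2 + (h0 * C' - 3 / 2 * x') - 1 / 2 by ring] at this
  exact Or.inl (ok2_cross hs hs1 hS z1 z2 z3 (by linarith))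

end Pool.Agent.Strip051.LC.E0.Out
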