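import Pool.Agent.Strip051.LC.E0.O4.E02
import Pool.Agent.Strip051.LC.E0.O4.E12

/-! # Small rests: the unit side 12 and the side 23 of length `√3` -/

namespace Pool.Agent.Strip051.LC.E0.Out

open Pool.Agent.StripNear Pool.Agent.StripSquare Pool.Agent.Strip051 Pool.Agent.Strip051.Sweep
open Pool.Agent.Strip051.LC.Line (tau)

variable {s C x C' x' X12 X13 t t' : ℝ}

/-- The bounds of the sine of the angle between two directions. -/
private theorem famA13_M (h : Rot C x) (h' : Rot C' x') :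
    -h0 ≤ x * C' - C * x' ∧ x * C' - C * x' ≤ h0 := by
  have q := geo_sq h h'
  have d := geo_half h h'
  have hq := h0_sq'
  refine abs_le_of_sq_le_sq' ?_ h0_pos.le
  rw [hq]
  nlinarith

private theorem famA13_cross (h : Sides X12 X13 t t') (hc : 0 ≤ X12 * (t + t') - X13 * t) :
    h0 ≤ X12 * t' - (X13 - X12) * t := by
  have := cross_ge h hc
  linarith

private theorem famA13_dot (h : Sides X12 X13 t t') (h1 : X12 ^ 2 + t ^ 2 = 1)
    (h2 : (X13 - X12) ^ 2 + t' ^ 2 = 3) : X12 * (X13 - X12) + t * t' ≤ -(1 / 2) := by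
  have c3 := h.c3
  nlinarith

/-- The angle between the sides is at most 90 degrees. -/
private theorem famA13_dot_pos (h : Rot C x) (h' : Rot C' x') :
    0 ≤ 3 / 2 * (C * C' + x * x') + h0 * (x * C' - C * x') ∧
      0 ≤ 3 / 2 * (C * C' + x * x') - h0 * (x * C' - C * x') := by
  obtain ⟨m1, m2⟩ := famA13_M h h'
  have dh := geo_half h h'
  have hh := h0_pos
  have hq := h0_sq'
  constructor <;> nlinarith

private theorem famA13_n1 (h : Rot C x) :
    (C / 2 - h0 * x) ^ 2 + (h0 * C + x / 2) ^ 2 = 1 := by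
  linear_combination h.sq + (C ^ 2 + x ^ 2) * h0_sq'

private theorem famA13_n2 (h : Rot C x) :
    (-(C / 2) - h0 * x) ^ 2 + (h0 * C - x / 2) ^ 2 = 1 := by
  linear_combination h.sq + (C ^ 2 + x ^ 2) * h0_sq'

private theorem famA13_l0 (h : Rot C x) :
    (3 / 2 * C - h0 * x) ^ 2 + (h0 * C + 3 / 2 * x) ^ 2 = 3 := by
  linear_combination 3 * h.sq + (C ^ 2 + x ^ 2) * h0_sq'

private theorem famA13_l1 (h : Rot C x) : (-(2 * h0 * x)) ^ 2 + (2 * h0 * C) ^ 2 = 3 := by
  linear_combination 3 * h.sq + 4 * (C ^ 2 + x ^ 2) * h0_sq'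

private theorem famA13_l2 (h : Rot C x) :
    (-(3 / 2 * C) - h0 * x) ^ 2 + (h0 * C - 3 / 2 * x) ^ 2 = 3 := by
  linear_combination 3 * h.sq + (C ^ 2 + x ^ 2) * h0_sq'

private theorem famA13_01 (hs : 0 < s) (hs1 : s ≤ 11 / 400) (h : Rot C x)
    (h' : Rot C' x') (hx : 0 ≤ x) (hE : exn X12 X13 t t' < (174 / 100 + 3 * s) * s)
    (e1 : X12 = C) (e2 : t = x) (e3 : X13 - X12 = -(2 * h0 * x')) (e4 : t' = 2 * h0 * C') 
    (dd : X12 * (X13 - X12) + t * t' ≤ -(1 / 2)) : False := by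
  have hh := h0_pos
  have hq := h0_sq'
  obtain ⟨b1, b2⟩ := h0_bd
  have d := geo_half h h'
  have q := geo_sq h h'
  -- the excess is `D - 1 / 2`
  have e5 : exn X12 X13 t t' = C * C' + x * x' - 1 / 2 := by
    have e6 : X13 = C - 2 * h0 * x' := by rw [← e1]; linarith
    unfold exn
    rw [e6, e1, e2, e4]
    field_simp
    ring
  rw [e3, e1, e2, e4] at dd
  -- the sine is negative, at least `-1 / 2`
  have m0 : x * C' - C * x' ≤ 0 := by nlinarith
  have m1 : -(1 / 2) ≤ x * C' - C * x' := by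
    have a1 := mul_nonneg hx h'.C0
    have a2 : C * x' ≤ 1 * (1 / 2) := by
      have := h.C1
      have := h.C0
      have := h'.hi
      nlinarith
    linarith
  have k1 : (174 / 100 + 3 * s) * s ≤ 6 / 100 := by nlinarith
  rw [e5] at hE
  generalize C * C' + x * x' = D at *
  generalize x * C' - C * x' = M at *
  have m2 : M ^ 2 ≤ 1 / 4 := by nlinarith
  nlinarith

/-- The unit side 12 and the side 23 of length `√3`. -/
theorem famA13 (hs : 0 < s) (hs1 : s ≤ 11 / 400) (i : Fin 4) (j : Fin 3) (h : Rot C x)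
    (h' : Rot C' x') (hS : Sides X12 X13 t t') (hc : 0 ≤ X12 * (t + t') - X13 * t)
    (hE : exn X12 X13 t t' < (174 / 100 + 3 * s) * s) (d : D1 i C x X12 t)
    (d' : D3 j C' x' (X13 - X12) t') : Fin3 s X12 X13 t t' := by
  have hh := h0_pos
  have hq := h0_sq'
  obtain ⟨b1, b2⟩ := h0_bd
  have cr := famA13_cross hS hc
  have dot := famA13_dot hS
  obtain ⟨m1, m2⟩ := famA13_M h h'
  obtain ⟨p1, p2⟩ := famA13_dot_pos h h'
  have dh := geo_half h h'
  fin_cases i <;> fin_cases j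
  · -- (0,0)
    obtain ⟨hx, e1, e2⟩ := d
    obtain ⟨e3, e4⟩ := d'
    have dd := dot (by rw [e1, e2]; exact h.sq) (by rw [e3, e4]; exact famA13_l0 h')
    rw [e3, e1, e2, e4] at dd
    exfalso
    nlinarith
  · -- (0,1)
    obtain ⟨hx, e1, e2⟩ := d
    obtain ⟨e3, e4⟩ := d'
    have dd := dot (by rw [e1, e2]; exact h.sq) (by rw [e3, e4]; exact famA13_l1 h')
    exact (famA13_01 hs hs1 h h' hx hE e1 e2 e3 e4 dd).elim
  · -- (0,2)
    obtain ⟨hx, e1, e2⟩ := d
    obtain ⟨e3, e4⟩ := d'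
    obtain rfl : X13 = C + (-(3 / 2 * C') - h0 * x') := by rw [← e3, ← e1]; ring
    subst e1 e2 e4
    exact e02 hs hs1 h h' hx hS hc hE
  · -- (1,0)
    obtain ⟨e1, e2⟩ := d
    obtain ⟨e3, e4⟩ := d'
    have dd := dot (by rw [e1, e2]; exact famA13_n1 h) (by rw [e3, e4]; exact famA13_l0 h')
    rw [e3, e1, e2, e4] at dd
    exfalso
    have e : (C / 2 - h0 * x) * (3 / 2 * C' - h0 * x') +
        (h0 * C + x / 2) * (h0 * C' + 3 / 2 * x') =
        3 / 2 * (C * C' + x * x') - h0 * (x * C' - C * x') := by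
      linear_combination (C * C' + x * x') * hq
    linarith
  · -- (1,1)
    obtain ⟨e1, e2⟩ := d
    obtain ⟨e3, e4⟩ := d'
    have dd := dot (by rw [e1, e2]; exact famA13_n1 h) (by rw [e3, e4]; exact famA13_l1 h')
    rw [e3, e1, e2, e4] at dd
    exfalso
    have e : (C / 2 - h0 * x) * (-(2 * h0 * x')) + (h0 * C + x / 2) * (2 * h0 * C') =
        3 / 2 * (C * C' + x * x') + h0 * (x * C' - C * x') := by
      linear_combination 2 * (C * C' + x * x') * hq
    linarith
  · -- (1,2)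
    obtain ⟨e1, e2⟩ := d
    obtain ⟨e3, e4⟩ := d'
    obtain rfl : X13 = C / 2 - h0 * x + (-(3 / 2 * C') - h0 * x') := by rw [← e3, ← e1]; ring
    subst e1 e2 e4
    exact e12 hs hs1 h h' hS hc hE
  · -- (2,0)
    obtain ⟨e1, e2⟩ := d
    obtain ⟨e3, e4⟩ := d'
    rw [e3, e1, e2, e4] at cr
    exfalso
    have e : (-(C / 2) - h0 * x) * (h0 * C' + 3 / 2 * x') -
        (3 / 2 * C' - h0 * x') * (h0 * C - x / 2) = -(2 * h0 * (C * C' + x * x')) := by
      linear_combination (C * x' - x * C') * hq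
    nlinarith
  · -- (2,1)
    obtain ⟨e1, e2⟩ := d
    obtain ⟨e3, e4⟩ := d'
    have dd := dot (by rw [e1, e2]; exact famA13_n2 h) (by rw [e3, e4]; exact famA13_l1 h')
    rw [e3, e1, e2, e4] at dd
    exfalso
    have e : (-(C / 2) - h0 * x) * (-(2 * h0 * x')) + (h0 * C - x / 2) * (2 * h0 * C') =
        3 / 2 * (C * C' + x * x') - h0 * (x * C' - C * x') := by
      linear_combination 2 * (C * C' + x * x') * hq
    linarith
  · -- (2,2)
    obtain ⟨e1, e2⟩ := d
    obtain ⟨e3, e4⟩ := d'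
    have dd := dot (by rw [e1, e2]; exact famA13_n2 h) (by rw [e3, e4]; exact famA13_l2 h')
    rw [e3, e1, e2, e4] at dd
    exfalso
    have e : (-(C / 2) - h0 * x) * (-(3 / 2 * C') - h0 * x') +
        (h0 * C - x / 2) * (h0 * C' - 3 / 2 * x') =
        3 / 2 * (C * C' + x * x') + h0 * (x * C' - C * x') := by
      linear_combination (C * C' + x * x') * hq
    linarith
  · -- (3,0)
    obtain ⟨hx, e1, e2⟩ := d
    obtain ⟨e3, e4⟩ := d'
    rw [e3, e1, e2, e4] at cr
    exfalso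
    have a1 := mul_nonneg h'.C0 (by linarith : 0 ≤ -x)
    have a2 : -(C * x') ≤ 1 / 2 := by
      have := h.C1
      have := h.C0
      have := h'.lo
      nlinarith
    nlinarith
  · -- (3,1)
    obtain ⟨hx, e1, e2⟩ := d
    obtain ⟨e3, e4⟩ := d'
    rw [e3, e1, e2, e4] at cr
    exfalso
    nlinarith
  · -- (3,2)
    obtain ⟨hx, e1, e2⟩ := d
    obtain ⟨e3, e4⟩ := d'
    have dd := dot (by rw [e1, e2]; linear_combination h.sq)
      (by rw [e3, e4]; exact famA13_l2 h')
    rw [e3, e1, e2, e4] at dd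
    exfalso
    nlinarith

end Pool.Agent.Strip051.LC.E0.Out
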