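import Pool.Agent.Strip051.LC.E0.O4.Def

/-! # Small rests: triangles with a side at one third -/

namespace Pool.Agent.Strip051.LC.E0.Out

open Pool.Agent.StripNear Pool.Agent.StripSquare Pool.Agent.Strip051 Pool.Agent.Strip051.Sweep
open Pool.Agent.Strip051.LC.Line (tau)

/-- The abscissa at one third. -/
theorem f_any_nums {T : ℝ} (h1 : h0 / 2 ≤ T) (h2 : T < h0) :
    (13278 / 10000 ≤ (c1 T + 1 / 3 * (Wc T - c1 T)) ^ 2 + T ^ 2 ∧
      (c1 T + 1 / 3 * (Wc T - c1 T)) ^ 2 + T ^ 2 ≤ 5 / 2) ∧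
    (61 / 100 ≤ T → 13966 / 10000 ≤ (c1 T + 1 / 3 * (Wc T - c1 T)) ^ 2 + T ^ 2) ∧
    (T ≤ 61 / 100 → 1017 / 1000 ≤ c1 T + 1 / 3 * (Wc T - c1 T) ∧
      c1 T + 1 / 3 * (Wc T - c1 T) ≤ 11 / 10 ∧ 7923 / 10000 ≤ c1 T ∧ 1 / 2 ≤ Wc T - c1 T ∧
      Wc T - c1 T ≤ 6746 / 10000) := by
  obtain ⟨b1, b2⟩ := h0_bd
  have hh := h0_pos
  have hq := h0_sq'
  have T0 : 0 ≤ T := by linarith
  have T1 : T ≤ 1 := by linarith
  have ea := c1_sq T0 T1
  have a0 := c1_nonneg T
  obtain ⟨eC, C0⟩ := W_dn T0 h2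
  obtain ⟨C, hC⟩ : ∃ C, Wc T = C + 1 / 2 := ⟨Wc T - 1 / 2, by ring⟩
  rw [hC, add_sub_cancel_right] at eC C0
  rw [hC]
  generalize c1 T = a at *
  have a1 : a ≤ 9015 / 10000 := by
    refine le_of_sq2 (by norm_num) ?_
    nlinarith
  have C1 : C ≤ 1 := by
    refine le_of_sq2 (by norm_num) ?_
    nlinarith [sq_nonneg (h0 - T)]
  have X0 : 0 ≤ a + 1 / 3 * (C + 1 / 2 - a) := by linarith
  have up : (a + 1 / 3 * (C + 1 / 2 - a)) ^ 2 + T ^ 2 ≤ 5 / 2 := by
    have u : a + 1 / 3 * (C + 1 / 2 - a) ≤ 12 / 10 := by linarith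
    have u2 := pow_le_pow_left₀ X0 u 2
    have u3 := pow_le_pow_left₀ T0 T1 2
    linarith
  have small : T ≤ 61 / 100 → 119253 / 100000 - 28767 / 100000 * T ≤
      a + 1 / 3 * (C + 1 / 2 - a) := by
    intro h
    have p := mul_nonneg (by linarith : 0 ≤ T - 43301 / 100000) (by linarith : 0 ≤ 61 / 100 - T)
    have k1 : 1168 / 1000 - 6159 / 10000 * T ≤ a := by
      refine le_of_sq2 a0 ?_
      nlinarith
    have k2 : 7416 / 10000 + 3688 / 10000 * T ≤ C := by
      refine le_of_sq2 C0 ?_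
      have e : C ^ 2 = 1 / 4 + 2 * h0 * T - T ^ 2 := by linear_combination eC - hq
      have e2 := mul_nonneg T0 (by linarith : 0 ≤ h0 - 86602 / 100000)
      nlinarith
    linarith
  have big : 61 / 100 ≤ T → 13966 / 10000 ≤ (a + 1 / 3 * (C + 1 / 2 - a)) ^ 2 + T ^ 2 := by
    intro h
    have p := mul_nonneg (by linarith : 0 ≤ T - 61 / 100) (by linarith : 0 ≤ 86603 / 100000 - T)
    have k1 : 14889 / 10000 - 1142 / 1000 * T ≤ a := by
      refine le_of_sq2 a0 ?_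
      nlinarith
    have k2 : 8873 / 10000 + 13 / 100 * T ≤ C := by
      refine le_of_sq2 C0 ?_
      have e : C ^ 2 = 1 / 4 + 2 * h0 * T - T ^ 2 := by linear_combination eC - hq
      have e2 := mul_nonneg T0 (by linarith : 0 ≤ h0 - 86602 / 100000)
      nlinarith
    have k3 : 145503 / 100000 - 718 / 1000 * T ≤ a + 1 / 3 * (C + 1 / 2 - a) := by linarith
    have k4 := pow_le_pow_left₀ (by linarith : 0 ≤ 145503 / 100000 - 718 / 1000 * T) k3 2
    nlinarith [sq_nonneg (T - 68934 / 100000)]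
  refine ⟨⟨?_, up⟩, big, fun h => ?_⟩
  · rcases le_total T (61 / 100) with h | h
    · have k3 := small h
      have k4 := pow_le_pow_left₀ (by linarith : 0 ≤ 119253 / 100000 - 28767 / 100000 * T) k3 2
      have k5 := mul_nonneg (by linarith : 0 ≤ T - 43301 / 100000)
        (by linarith : 0 ≤ 1082 / 1000 * (T + 43301 / 100000) - 6862 / 10000)
      nlinarith
    · linarith [big h]
  · have k3 := small h
    have a2 : 7923 / 10000 ≤ a := by
      refine le_of_sq2 a0 ?_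
      nlinarith
    have C2 : C ≤ 96689 / 100000 := by
      refine le_of_sq2 (by norm_num) ?_
      nlinarith
    have C3 : a ≤ C := by
      refine le_of_sq2 C0 ?_
      have e : C ^ 2 = 1 / 4 + 2 * h0 * T - T ^ 2 := by linear_combination eC - hq
      nlinarith
    refine ⟨by linarith, by linarith, a2, by linarith, by linarith⟩

/-- The kernel at one third. -/
theorem f_any_ker {s X T : ℝ} (hs : 0 < s) (hs1 : s ≤ 11 / 400) (h : NF |X| T)
    (h61 : T ≤ 61 / 100) : |kA s X T| ≤ |X| - 6 / 10 ∧ |kA s X T| + |X| ≤ 8 / 5 := by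
  obtain ⟨hX, h1, h2⟩ := h
  obtain ⟨b1, b2⟩ := h0_bd
  have hh := h0_pos
  have hq := h0_sq'
  have T0 : 0 ≤ T := by linarith
  obtain ⟨-, -, k⟩ := f_any_nums h1 h2
  obtain ⟨k1, k2, k3, k4, k5⟩ := k h61
  have e1 : |kA s X T| = |kA s |X| T| := by
    rcases abs_cases X with ⟨h3, -⟩ | ⟨h3, -⟩
    · rw [h3]
    · rw [h3, kA_neg, abs_neg]
  have e2 : kA s |X| T = R1 par s T + 353 / 500 * (1 / 3 * (Wc T - c1 T)) := by
    have hd : pos.dm 1 T := dm_one.2 ⟨h1, by linarith, h2.ne⟩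
    have := K.val (vA par s) (adm_vA par s) 1 T T0 hd
    have e3 : K.cv 1 T = c1 T + 1 / 3 * (Wc T - c1 T) := cv_one_low h2
    rw [e3, ← hX] at this
    unfold kA
    rw [this]
    have e4 : vA par s T 1 = if T < h0 / 2 then RA par s T
      else if T < h0 then R1 par s T + par.l2 * (1 / 3 * (Wc T - c1 T))
      else if T < 3 * h0 / 2 then RW par s T else Wc T / 2 := rfl
    change vA par s T 1 = _
    rw [e4, if_neg h1.not_gt, if_pos h2]
    rfl
  have key : |R1 par s T| ≤ 223 / 1000 := by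
    unfold R1
    rw [if_neg h1.not_gt]
    split_ifs with h3
    · rw [RA_eq hs (by linarith), abs_mul, abs_of_nonneg (by linarith : 0 ≤ 1 - 2 * T)]
      have : |(T - h0) / T| ≤ 1 := by
        rw [abs_div, abs_of_neg (by linarith), abs_of_pos (by linarith : 0 < T),
          div_le_one (by linarith)]
        linarith
      have := mul_le_mul_of_nonneg_left this (by linarith : 0 ≤ 1 - 2 * T)
      linarith
    · rw [not_le] at h3
      have ea := c1_sq T0 (by linarith)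
      have x1 : T / 2 - h0 * c1 T ≤ -(381 / 1000) := by nlinarith
      have x2 : -(1 / 2) ≤ T / 2 - h0 * c1 T := by
        have : c1 T ≤ h0 := by
          refine le_of_sq2 hh.le ?_
          nlinarith
        nlinarith
      have c0 := c1_nonneg T
      generalize T / 2 - h0 * c1 T = x at *
      have ax : |x| = -x := abs_of_neg (by linarith)
      rw [ax, RA_eq hs (by linarith), abs_mul,
        abs_of_nonneg (by linarith : 0 ≤ 1 - 2 * -x)]
      have d0 : 0 < 1 + (c1 T / 2 + h0 * T) := by positivity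
      have d1 : 0 ≤ h0 * -x / (1 + (c1 T / 2 + h0 * T)) :=
        div_nonneg (mul_nonneg hh.le (by linarith)) d0.le
      have d2 : h0 * -x / (1 + (c1 T / 2 + h0 * T)) ≤ 434 / 1000 := by
        rw [div_le_iff₀ d0]
        have : 0 ≤ c1 T / 2 + h0 * T := by positivity
        nlinarith
      have e3 : 1 / 2 - h0 * x / (1 + (c1 T / 2 + h0 * T)) =
          1 / 2 + h0 * -x / (1 + (c1 T / 2 + h0 * T)) := by ring
      rw [e3, abs_of_nonneg (by linarith)]
      generalize h0 * -x / (1 + (c1 T / 2 + h0 * T)) = y at *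
      nlinarith
  have k6 : |R1 par s T + 353 / 500 * (1 / 3 * (Wc T - c1 T))| ≤ 382 / 1000 := by
    have := abs_le.1 key
    rw [abs_le]
    constructor <;> linarith [this.1, this.2]
  rw [e1, e2, hX]
  constructor <;> linarith

theorem f_any_sum {s x y z rx ry rz : ℝ} (hs : 0 < s)
    (hc : |z| = |x| + |y| ∨ |x| = |z| + |y| ∨ |y| = |x| + |z|)
    (hF : |rx| ≤ |x| - 6 / 10 ∧ |rx| + |x| ≤ 8 / 5)
    (hy : |ry| ≤ |y| + s / 2 ∧ |ry| + |y| ≤ 3 + 5 / 4 * s)
    (hz : |rz| ≤ |z| + s / 2 ∧ |rz| + |z| ≤ 3 + 5 / 4 * s) :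
    |rx| + |ry| + |rz| ≤ 24 / 10 + 7 / 4 * s := by
  obtain ⟨f1, f2⟩ := hF
  obtain ⟨y1, y2⟩ := hy
  obtain ⟨z1, z2⟩ := hz
  rcases hc with h | h | h <;> linarith

theorem f_any_cases (X12 X13 : ℝ) : |X13| = |X12| + |X13 - X12| ∨
    |X12| = |X13| + |X13 - X12| ∨ |X13 - X12| = |X12| + |X13| := by
  rcases abs_cases X13 with ⟨h1, h1'⟩ | ⟨h1, h1'⟩ <;>
  rcases abs_cases X12 with ⟨h2, h2'⟩ | ⟨h2, h2'⟩ <;>
  rcases abs_cases (X13 - X12) with ⟨h3, h3'⟩ | ⟨h3, h3'⟩ <;> rw [h1, h2, h3]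
  · left; ring
  · right; left; ring
  · right; right; ring
  · exfalso; linarith
  · exfalso; linarith
  · right; right; ring
  · right; left; ring
  · left; ring

/-- From the squared length of the side at one third. -/
theorem f_any_fin {s X12 X13 t t' p T : ℝ} (hs : 0 < s) (hs1 : s ≤ 11 / 400)
    (hS : Sides X12 X13 t t') (hc : 0 ≤ X12 * (t + t') - X13 * t)
    (hp : p * (4 - p) ≤ 4 * (X12 * (t + t') - X13 * t) ^ 2) (p1 : 13278 / 10000 ≤ p)
    (p2 : p ≤ 5 / 2) (p3 : 61 / 100 ≤ T → 13966 / 10000 ≤ p)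
    (hr : T ≤ 61 / 100 → |kA s X12 t| + |kA s (X13 - X12) t'| + |kA s X13 (t + t')| ≤
      24 / 10 + 7 / 4 * s) : OK2 s X12 X13 t t' := by
  obtain ⟨b1, b2⟩ := h0_bd
  have hh := h0_pos
  rcases le_total T (61 / 100) with h | h
  · have r := hr h
    have hT : 0 ≤ t + t' := add_nonneg hS.t0 hS.t1
    have q1 : t ^ 2 ≤ 3 := by nlinarith [sq_nonneg X12, hS.a3]
    have q2 : t' ^ 2 ≤ 3 := by nlinarith [sq_nonneg (X13 - X12), hS.b3]
    have q3 : (t + t') ^ 2 ≤ 3 := by nlinarith [sq_nonneg X13, hS.c3]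
    have hB : ∀ T, 0 ≤ T → Bnd (vR par s) T 0 0 0 2 := fun T hT =>
      ⟨fun j => by linarith [vR_abs hs hs1 hT j], fun j => by linarith [vR_abs hs hs1 hT j]⟩
    have g1 := (ker_bnd (adm_vR s) hS.t0 hS.a1 hS.a3 (hB _ hS.t0)).1
    have g2 := (ker_bnd (adm_vR s) hS.t1 hS.b1 hS.b3 (hB _ hS.t1)).1
    have g3 := (ker_bnd (adm_vR s) hT hS.c1 hS.c3 (hB _ hT)).1
    rw [zero_mul, zero_add] at g1 g2 g3
    obtain ⟨l1, l2, l3⟩ := hS.lev hs hs1
    refine ok2_of hs hs1 hS ⟨0, 0, le_rfl, ?_⟩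
    have c0 : 9418 / 10000 ≤ X12 * (t + t') - X13 * t := by
      refine le_of_sq2 hc ?_
      nlinarith
    have e0 : 435 / 10000 ≤ exn X12 X13 t t' := by
      unfold exn
      have : 5435 / 10000 ≤ (X12 * (t + t') - X13 * t) / (2 * h0) := by
        rw [le_div_iff₀ (by positivity)]
        linarith
      linarith
    refine le_trans ?_ e0
    unfold cost
    simp only [zero_mul, sub_zero, add_zero]
    change |kR s X12 t| ≤ 2 at g1
    change |kR s (X13 - X12) t'| ≤ 2 at g2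
    change |kR s X13 (t + t')| ≤ 2 at g3
    change |kX s X12 t| ≤ 64 / 25 * s ^ 2 at l1
    change |kX s (X13 - X12) t'| ≤ 64 / 25 * s ^ 2 at l2
    change |kX s X13 (t + t')| ≤ 64 / 25 * s ^ 2 at l3
    have m1 := mul_le_mul_of_nonneg_left r (by linarith : 0 ≤ 57736 / 100000 * s)
    have m2 := mul_le_mul_of_nonneg_left (add_le_add (add_le_add g1 g2) g3)
      (by positivity : 0 ≤ 101 / 1000 * s ^ 2)
    have m3 : s ^ 2 ≤ 11 / 400 * s := by nlinarith
    nlinarith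
  · have := thr_of_cross (of_side hs hs1 hc hp (p3 h) (by linarith))
    unfold thr at this
    exact ⟨far_triv hs hs1 hS this, near_triv hs hs1 hS this⟩

/-- A side on the curve at one third between the unit circle and `W`. -/
theorem f_any {s X12 X13 t t' : ℝ} (hs : 0 < s) (hs1 : s ≤ 11 / 400) (hS : Sides X12 X13 t t')
    (hc : 0 ≤ X12 * (t + t') - X13 * t)
    (hn : NF |X12| t ∨ NF |X13 - X12| t' ∨ NF |X13| (t + t')) : OK2 s X12 X13 t t' := by
  have hT : 0 ≤ t + t' := add_nonneg hS.t0 hS.t1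
  have q1 : t ^ 2 ≤ 3 := by nlinarith [sq_nonneg X12, hS.a3]
  have q2 : t' ^ 2 ≤ 3 := by nlinarith [sq_nonneg (X13 - X12), hS.b3]
  have q3 : (t + t') ^ 2 ≤ 3 := by nlinarith [sq_nonneg X13, hS.c3]
  have k1 := ker_bnd (adm_vA par s) hS.t0 hS.a1 hS.a3 (bnd_vA hs hs1 hS.t0 q1)
  have k2 := ker_bnd (adm_vA par s) hS.t1 hS.b1 hS.b3 (bnd_vA hs hs1 hS.t1 q2)
  have k3 := ker_bnd (adm_vA par s) hT hS.c1 hS.c3 (bnd_vA hs hs1 hT q3)
  rw [one_mul, one_mul, one_mul, add_zero, add_zero] at k1 k2 k3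
  have hk := f_any_cases X12 X13
  rcases hn with h | h | h
  · obtain ⟨⟨n1, n2⟩, n3, -⟩ := f_any_nums h.2.1 h.2.2
    rw [← h.1, sq_abs] at n1 n2 n3
    refine f_any_fin hs hs1 hS hc (side12 hS hc) n1 n2 n3 fun h61 => ?_
    exact f_any_sum hs hk (f_any_ker hs hs1 h h61) k2 k3
  · obtain ⟨⟨n1, n2⟩, n3, -⟩ := f_any_nums h.2.1 h.2.2
    rw [← h.1, sq_abs] at n1 n2 n3
    refine f_any_fin hs hs1 hS hc (side23 hS hc) n1 n2 n3 fun h61 => ?_
    have := f_any_sum (x := X13 - X12) (y := X12) (z := X13) hs (by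
      rcases hk with g | g | g
      · left; linarith
      · right; right; linarith
      · right; left; linarith) (f_any_ker hs hs1 h h61) k1 k3
    change |kA s (X13 - X12) t'| + |kA s X12 t| + |kA s X13 (t + t')| ≤ _ at this
    linarith
  · obtain ⟨⟨n1, n2⟩, n3, -⟩ := f_any_nums h.2.1 h.2.2
    rw [← h.1, sq_abs] at n1 n2 n3
    refine f_any_fin hs hs1 hS hc (side13 hS hc) n1 n2 n3 fun h61 => ?_
    have := f_any_sum (x := X13) (y := X12) (z := X13 - X12) hs (by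
      rcases hk with g | g | g
      · right; left; linarith
      · right; right; linarith
      · left; linarith) (f_any_ker hs hs1 h h61) k1 k2
    change |kA s X13 (t + t')| + |kA s X12 t| + |kA s (X13 - X12) t'| ≤ _ at this
    linarith

end Pool.Agent.Strip051.LC.E0.Out
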