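import Pool.Agent.Strip051.LC.E0.O3.StrA
import Pool.Agent.Strip051.LC.E0.O3.GeoB
import Pool.Agent.Strip051.LC.E0.O4.Zn4
import Pool.Agent.Strip051.LC.E0.O3.StrC

/-! # Small rests: the directions 0 and 120, sides 12 and 13 -/

namespace Pool.Agent.Strip051.LC.E0.Out

open Pool.Agent.StripNear Pool.Agent.StripSquare Pool.Agent.Strip051 Pool.Agent.Strip051.Sweep
open Pool.Agent.Strip051.LC.Line (tau)

variable {s C x C' x' : ℝ}

theorem b02_core (hs : 0 < s) (hs1 : s ≤ 11 / 400) (h : Rot C x) (h' : Rot C' x')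
    (hS : Sides C (-(C' / 2) - h0 * x') x (h0 * C' - x' / 2 - x))
    (hE : exn C (-(C' / 2) - h0 * x') x (h0 * C' - x' / 2 - x) < (174 / 100 + 3 * s) * s) :
    OK2 s C (-(C' / 2) - h0 * x') x (h0 * C' - x' / 2 - x) ∨
      ((x < 4 * s ∨ (x < 6 * s ∧ x + x' / 2 + h0 * (1 - C') < 6 * s)) ∧ x' ≤ x ∧
        (C - C') ^ 2 + (x - x') ^ 2 ≤ (79 / 10 * s) ^ 2 ∧
        E1 (x - x') ≤ exn C (-(C' / 2) - h0 * x') x (h0 * C' - x' / 2 - x)) := by
  have hh := h0_pos
  have hq := h0_sq'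
  have ho : x' ≤ x := by
    refine geo_ord h h' ?_
    have k := hS.b3
    have e : (-(C' / 2) - h0 * x' - C) ^ 2 + (h0 * C' - x' / 2 - x) ^ 2 =
        2 + (C * C' + x * x') - 2 * h0 * (x * C' - C * x') := by
      linear_combination (C' ^ 2 + x' ^ 2) * hq + h'.sq + h.sq
    rw [e] at k
    linarith
  rcases geo_S hs hs1 h h' ho (E := exn C (-(C' / 2) - h0 * x') x (h0 * C' - x' / 2 - x))
    (by unfold exn; ring) hE with h1 | h1
  · obtain ⟨h2, h3⟩ := h1
    by_cases h4 : 4 * s ≤ x ∧ (6 * s ≤ x ∨ 6 * s ≤ x + x' / 2 + h0 * (1 - C'))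
    · exact Or.inl (strip_L2B hs hs1 h h' h4.1 ho h4.2 h2 hS h3)
    · refine Or.inr ⟨?_, ho, h2, h3⟩
      rcases lt_or_ge x (4 * s) with h5 | h5
      · exact Or.inl h5
      · refine Or.inr ?_
        by_contra h6
        refine h4 ⟨h5, ?_⟩
        rcases lt_or_ge x (6 * s) with h7 | h7
        · refine Or.inr ?_
          by_contra h8
          exact h6 ⟨h7, not_le.1 h8⟩
        · exact Or.inl h7
  · obtain ⟨p, p', p0, p0', k1, k2, k3, k4⟩ := h1
    have m1 : (-(C' / 2) - h0 * x') ^ 2 + (h0 * C' - x' / 2 - 1) ^ 2 ≤ p' ^ 2 := by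
      have e : (-(C' / 2) - h0 * x') ^ 2 + (h0 * C' - x' / 2 - 1) ^ 2 =
          (C' - h0) ^ 2 + (x' + 1 / 2) ^ 2 := by
        linear_combination (C' ^ 2 + x' ^ 2 - 1) * hq
      rw [e]
      exact k2
    have m2 := disp_add p0' p0 m1 (by
      rw [neg_sq, neg_sq]
      exact k1 : (-(C - h0)) ^ 2 + (-(x - 1 / 2)) ^ 2 ≤ p ^ 2)
    refine Or.inl (ok2_cross hs hs1 hS (d12 := p) (d23 := p' + p) (d13 := p') ?_ ?_ ?_ ?_)
    · exact znA hs hs1 (ann12 hS) p0 (by linarith) k1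
    · refine znA' hs hs1 (ann23 hS) (by linarith) (by linarith) ?_
      convert m2 using 1
      ring
    · refine znB hs hs1 (ann13 hS) p0' (by linarith) ?_
      convert m1 using 1
      ring
    · refine le_trans ?_ k4
      linarith

/-- The directions 0 and 120, sides 12 and 13. -/
theorem b02 (hs : 0 < s) (hs1 : s ≤ 11 / 400) (h : Rot C x) (h' : Rot C' x') (hx : 0 ≤ x)
    (hS : Sides C (-(C' / 2) - h0 * x') x
      (h0 * C' - x' / 2 - x))
    (hc : 0 ≤ C * (x + (h0 * C' - x' / 2 - x)) -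
      (-(C' / 2) - h0 * x') * x)
    (hE : exn C (-(C' / 2) - h0 * x') x
      (h0 * C' - x' / 2 - x) < (174 / 100 + 3 * s) * s) :
    Fin3 s C (-(C' / 2) - h0 * x') x
      (h0 * C' - x' / 2 - x) := by
  obtain ⟨b1, b2⟩ := h0_bd
  have hh := h0_pos
  rcases b02_core hs hs1 h h' hS hE with k | ⟨h5, ho, h2, -⟩
  · exact Or.inl k
  have aq : |x - x'| ≤ 79 / 10 * s :=
    abs_le_of_sq_le_sq (by nlinarith [sq_nonneg (C - C')]) (by linarith)
  have a2 := (abs_le.1 aq).2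
  have x6 : x < 6 * s := by
    rcases h5 with h5 | h5
    · linarith
    · exact h5.1
  have xp : x' ^ 2 ≤ (79 / 10 * s) ^ 2 := by
    refine sq_le_sq' (by linarith) (by linarith)
  have s2 : s ^ 2 ≤ 11 / 400 * s := by nlinarith
  -- the cosine
  have cc : 1 - 536 / 1000 * x' ^ 2 ≤ C' ∧ C' ≤ 1 - x' ^ 2 / 2 := by
    rcases le_total 0 x' with u | u
    · obtain ⟨-, -, c3, c4⟩ := half_bd h'.Ch u h'.sq
      exact ⟨c3, c4⟩
    · obtain ⟨-, -, c3, c4⟩ := half_bd h'.neg.Ch (by linarith) h'.neg.sq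
      rw [neg_sq] at c3 c4
      exact ⟨c3, c4⟩
  have y1 : h0 * (1 - C') ≤ 465 / 1000 * x' ^ 2 := by
    have k1 : h0 * (1 - C') ≤ h0 * (536 / 1000 * x' ^ 2) :=
      mul_le_mul_of_nonneg_left (by linarith [cc.1]) hh.le
    nlinarith [sq_nonneg x']
  have y2 : 433 / 1000 * x' ^ 2 ≤ h0 * (1 - C') := by
    have k1 : h0 * (x' ^ 2 / 2) ≤ h0 * (1 - C') :=
      mul_le_mul_of_nonneg_left (by linarith [cc.2]) hh.le
    nlinarith [sq_nonneg x']
  have eT : x + (h0 * C' - x' / 2 - x) = h0 - x' / 2 - h0 * (1 - C') := by ring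
  have et' : h0 * C' - x' / 2 - x - h0 = -(x + x' / 2 + h0 * (1 - C')) := by ring
  -- the height of the side 13
  have hT : x + (h0 * C' - x' / 2 - x) ≤ 28 / 25 * h0 := by
    rw [eT]
    have k1 : -x' ≤ 2173 / 10000 := by linarith
    nlinarith [sq_nonneg (x' + 2173 / 10000)]
  have y3 : 465 / 1000 * x' ^ 2 ≤ 8 / 10 * s := by nlinarith
  refine Or.inr (Or.inl ⟨by linarith, ?_, ?_, by linarith, hT⟩)
  · rw [et', abs_neg, abs_le]
    constructor
    · have : 0 ≤ h0 * (1 - C') := mul_nonneg hh.le (by linarith [h'.C1])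
      linarith
    · rcases h5 with h5 | h5
      · linarith
      · linarith [h5.2]
  · rw [eT, abs_le]
    constructor
    · linarith
    · have : 0 ≤ h0 * (1 - C') := mul_nonneg hh.le (by linarith [h'.C1])
      linarith

end Pool.Agent.Strip051.LC.E0.Out
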