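import Pool.Agent.Strip051.LC.E0.O3.StrA
import Pool.Agent.Strip051.LC.E0.O3.GeoB
import Pool.Agent.Strip051.LC.E0.O4.Zn4
import Pool.Agent.Strip051.LC.E0.O3.StrD

/-! # Small rests: the directions 60 and 120, sides 12 and 13 -/

namespace Pool.Agent.Strip051.LC.E0.Out

open Pool.Agent.StripNear Pool.Agent.StripSquare Pool.Agent.Strip051 Pool.Agent.Strip051.Sweep
open Pool.Agent.Strip051.LC.Line (tau)

variable {s C x C' x' : ℝ}

private theorem b12_one {C x : ℝ} (h : Rot C x) : 1 - C ≤ 54 / 100 * x ^ 2 := by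
  obtain ⟨b1, b2⟩ := h0_bd
  have a := h.Ch
  have c := h.C1
  have e : (1 - C) * (1 + C) = x ^ 2 := by linear_combination (-1) * h.sq
  nlinarith

private theorem b12_win {s C x : ℝ} (hs : 0 < s) (hs1 : s ≤ 11 / 400) (h : Rot C x)
    (h1 : -(9 * s) ≤ x) (h2 : x ≤ 9 * s) :
    h0 - 105 / 100 * s ≤ h0 * C ∧ h0 * C ≤ h0 := by
  obtain ⟨b1, b2⟩ := h0_bd
  have hh := h0_pos
  have c := h.C1
  have e := b12_one h
  have e1 : x ^ 2 ≤ (9 * s) ^ 2 := sq_le_sq' h1 h2
  constructor
  · nlinarith
  · nlinarith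

/-- The directions 60 and 120, sides 12 and 13. -/
theorem b12 (hs : 0 < s) (hs1 : s ≤ 11 / 400) (h : Rot C x) (h' : Rot C' x')
    (hS : Sides (C / 2 - h0 * x) (-(C' / 2) - h0 * x') (h0 * C + x / 2)
      (h0 * C' - x' / 2 - (h0 * C + x / 2)))
    (hc : 0 ≤ (C / 2 - h0 * x) * ((h0 * C + x / 2) + (h0 * C' - x' / 2 - (h0 * C + x / 2))) -
      (-(C' / 2) - h0 * x') * (h0 * C + x / 2))
    (hE : exn (C / 2 - h0 * x) (-(C' / 2) - h0 * x') (h0 * C + x / 2)
      (h0 * C' - x' / 2 - (h0 * C + x / 2)) < (174 / 100 + 3 * s) * s) :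
    Fin3 s (C / 2 - h0 * x) (-(C' / 2) - h0 * x') (h0 * C + x / 2)
      (h0 * C' - x' / 2 - (h0 * C + x / 2)) := by
  have hh := h0_pos
  have hq' := h0_sq'
  obtain ⟨b1, b2⟩ := h0_bd
  have ho : x ≤ x' := by
    refine geo_ord h' h ?_
    have c3 := hS.b1
    have e : (-(C' / 2) - h0 * x' - (C / 2 - h0 * x)) ^ 2 +
        (h0 * C' - x' / 2 - (h0 * C + x / 2)) ^ 2 =
        2 - (C' * C + x' * x) + 2 * h0 * (x' * C - C' * x) := by
      linear_combination (C ^ 2 - 2 * C * C' + C' ^ 2 + x ^ 2 - 2 * x * x' + x' ^ 2) * hq' +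
        h.sq + h'.sq
    linarith
  have eE : exn (C / 2 - h0 * x) (-(C' / 2) - h0 * x') (h0 * C + x / 2)
      (h0 * C' - x' / 2 - (h0 * C + x / 2)) =
      (h0 * (C' * C + x' * x) + 1 / 2 * (x' * C - C' * x)) / (2 * h0) - 1 / 2 := by
    unfold exn
    congr 2
    linear_combination (-(x * C') + x' * C) * hq'
  rcases geo_S hs hs1 h' h ho eE hE with ⟨n1, n2⟩ | ⟨p, p', p0, p0', g1, g2, g3, g4⟩
  · by_cases k1 : 5 * s ≤ h0 * C' - x' / 2 - (h0 * C + x / 2)
    · left
      have hs' := strip_UBm hs hs1 h.neg h'.neg (by linarith) (by nlinarith) (by linarith)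
        (by
          rw [show C / 2 + h0 * -x = C / 2 - h0 * x by ring,
            show -(C' / 2) + h0 * -x' = -(C' / 2) - h0 * x' by ring,
            show h0 * C - -x / 2 = h0 * C + x / 2 by ring,
            show h0 * C' + -x' / 2 = h0 * C' - x' / 2 by ring]
          exact hS)
        (by
          rw [show C / 2 + h0 * -x = C / 2 - h0 * x by ring,
            show -(C' / 2) + h0 * -x' = -(C' / 2) - h0 * x' by ring,
            show h0 * C - -x / 2 = h0 * C + x / 2 by ring,
            show h0 * C' + -x' / 2 = h0 * C' - x' / 2 by ring,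
            show -x - -x' = x' - x by ring]
          exact n2)
      rw [show C / 2 + h0 * -x = C / 2 - h0 * x by ring,
        show -(C' / 2) + h0 * -x' = -(C' / 2) - h0 * x' by ring,
        show h0 * C - -x / 2 = h0 * C + x / 2 by ring,
        show h0 * C' + -x' / 2 = h0 * C' - x' / 2 by ring] at hs'
      exact hs'
    · rw [not_le] at k1
      have t1 := hS.t1
      have dx : x' - x ≤ 79 / 10 * s := by
        refine le_of_sq2 (by linarith) ?_
        nlinarith [sq_nonneg (C' - C)]
      have cp : 2 * h0 ≤ C + C' := by linarith [h.Ch, h'.Ch]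
      have ck : (C' - C) * (C + C') = (x - x') * (x + x') := by
        linear_combination h'.sq - h.sq
      -- the sum of the sines
      have S0 : x + x' ≤ 0 := by
        by_contra hn
        rw [not_le] at hn
        have e1 : (C' - C) * (C + C') ≤ 0 := by
          rw [ck]
          exact mul_nonpos_of_nonpos_of_nonneg (by linarith) hn.le
        have e2 : C' - C ≤ 0 := by
          by_contra h3
          rw [not_le] at h3
          have := mul_pos h3 (by linarith : 0 < C + C')
          linarith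
        nlinarith
      have S1 : -(10 * s) < x + x' := by
        have e1 : 0 ≤ (C' - C) * (C + C') := by
          rw [ck]
          exact mul_nonneg_of_nonpos_of_nonpos (by linarith) S0
        have e2 : 0 ≤ C' - C := nonneg_of_mul_nonneg_left e1 (by linarith)
        have e3 := mul_nonneg hh.le e2
        linarith
      right
      right
      left
      obtain ⟨u1, u2⟩ := b12_win hs hs1 h (by linarith) (by linarith)
      obtain ⟨v1, v2⟩ := b12_win hs hs1 h' (by linarith) (by linarith)
      refine ⟨by linarith, ?_, ?_, by linarith, by linarith⟩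
      · rw [abs_le]
        constructor <;> linarith
      · rw [abs_le]
        constructor <;> linarith
  · left
    have q1 : (C / 2 - h0 * x - h0) ^ 2 + (h0 * C + x / 2 - 1 / 2) ^ 2 ≤ p' ^ 2 := by
      refine le_trans (le_of_eq ?_) g2
      linear_combination (C ^ 2 + x ^ 2 + 2 * x) * hq'
    have q2 : (-(C' / 2) - h0 * x' + h0) ^ 2 + (h0 * C' - x' / 2 - 1 / 2) ^ 2 ≤ p ^ 2 := by
      refine le_trans (le_of_eq ?_) g1
      linear_combination (C' ^ 2 + x' ^ 2 - 2 * x') * hq'
    have q1' : (-(C / 2 - h0 * x - h0)) ^ 2 + (-(h0 * C + x / 2 - 1 / 2)) ^ 2 ≤ p' ^ 2 := by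
      rw [neg_sq, neg_sq]
      exact q1
    have q3 := disp_add p0 p0' q2 q1'
    refine ok2_cross hs hs1 hS (znA hs hs1 (ann12 hS) p0' (by linarith) q1)
      (znD' hs hs1 (ann23 hS) (add_nonneg p0 p0') (by linarith) ?_)
      (znA' hs hs1 (ann13 hS) p0 (by linarith) ?_) ?_
    · refine le_trans (le_of_eq ?_) q3
      ring
    · rw [show h0 * C + x / 2 + (h0 * C' - x' / 2 - (h0 * C + x / 2)) = h0 * C' - x' / 2 by ring]
      exact q2
    · linarith

end Pool.Agent.Strip051.LC.E0.Out
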