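import Pool.Agent.Strip051.LC.E0.O4.B01
import Pool.Agent.Strip051.LC.E0.O4.B02
import Pool.Agent.Strip051.LC.E0.O4.B12
import Pool.Agent.Strip051.LC.E0.OutG

/-! # Small rests: unit sides 12 and 13 -/

namespace Pool.Agent.Strip051.LC.E0.Out

open Pool.Agent.StripNear Pool.Agent.StripSquare Pool.Agent.Strip051 Pool.Agent.Strip051.Sweep
open Pool.Agent.Strip051.LC.Line (tau)

variable {s C x C' x' X12 X13 t t' : ℝ}

private theorem famB11_exn (hS : Sides X12 X13 t t') (hc : 0 ≤ X12 * (t + t') - X13 * t) :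
    0 ≤ exn X12 X13 t t' := by
  have hh := h0_pos
  have := cross_ge hS hc
  unfold exn
  rw [sub_nonneg, le_div_iff₀ (by positivity)]
  linarith

private theorem famB11_zero (hs : 0 < s) (hs1 : s ≤ 11 / 400) (hS : Sides X12 X13 t t')
    (hc : 0 ≤ X12 * (t + t') - X13 * t) (z1 : Zn s X12 t 0) (z2 : Zn s (X13 - X12) t' 0)
    (z3 : Zn s X13 (t + t') 0) : Fin3 s X12 X13 t t' := by
  have := famB11_exn hS hc
  exact Or.inl (ok2_cross hs hs1 hS z1 z2 z3 (by linarith))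

/-- The lattice triangle with the horizontal side. -/
private theorem famB11_hor (hs : 0 < s) (hs1 : s ≤ 11 / 400) (hS : Sides X12 X13 t t')
    (hc : 0 ≤ X12 * (t + t') - X13 * t) (e1 : X12 = h0) (e2 : t = 1 / 2) (e3 : X13 = -h0)
    (e4 : t + t' = 1 / 2) : Fin3 s X12 X13 t t' := by
  have hT : 0 ≤ t + t' := add_nonneg hS.t0 hS.t1
  have e5 : t' = 0 := by linarith
  refine famB11_zero hs hs1 hS hc ?_ ?_ ?_
  · refine znA hs hs1 ⟨hS.t0, hS.a1, hS.a3⟩ le_rfl (by linarith) ?_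
    rw [e1, e2]
    norm_num
  · refine znD' hs hs1 ⟨hS.t1, hS.b1, hS.b3⟩ le_rfl (by linarith) ?_
    rw [e1, e3, e5, show -h0 - h0 + 2 * h0 = 0 by ring]
    norm_num
  · refine znA' hs hs1 ⟨hT, hS.c1, hS.c3⟩ le_rfl (by linarith) ?_
    rw [e3, e4]
    norm_num

/-- The lattice triangle with the vertical side. -/
private theorem famB11_ver (hs : 0 < s) (hs1 : s ≤ 11 / 400) (hS : Sides X12 X13 t t')
    (hc : 0 ≤ X12 * (t + t') - X13 * t) (e1 : X12 = h0) (e2 : t = 1 / 2) (e3 : X13 = 0)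
    (e4 : t + t' = 1) : Fin3 s X12 X13 t t' := by
  have hT : 0 ≤ t + t' := add_nonneg hS.t0 hS.t1
  have e5 : t' = 1 / 2 := by linarith
  refine famB11_zero hs hs1 hS hc ?_ ?_ ?_
  · refine znA hs hs1 ⟨hS.t0, hS.a1, hS.a3⟩ le_rfl (by linarith) ?_
    rw [e1, e2]
    norm_num
  · refine znA' hs hs1 ⟨hS.t1, hS.b1, hS.b3⟩ le_rfl (by linarith) ?_
    rw [e1, e3, e5, show 0 - h0 + h0 = 0 by ring]
    norm_num
  · refine znB hs hs1 ⟨hT, hS.c1, hS.c3⟩ le_rfl (by linarith) ?_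
    rw [e3, e4]
    norm_num

private theorem famB11_abs (hS : Sides X12 X13 t t') (hc : 0 ≤ X12 * (t + t') - X13 * t)
    (h : X12 * (t + t') - X13 * t < h0) : Fin3 s X12 X13 t t' :=
  absurd (cross_ge hS hc) (not_le.2 h)

/-- The coordinates of the directions next to 60 degrees. -/
private theorem famB11_60 (h : Rot C x) : 0 ≤ C / 2 - h0 * x ∧ C / 2 - h0 * x ≤ h0 ∧
    1 / 2 ≤ h0 * C + x / 2 := by
  have hh := h0_pos
  have hq := h0_sq'
  have a := h.Ch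
  have l := h.lo
  have u := h.hi
  have e1 : h0 * h0 ≤ h0 * C := mul_le_mul_of_nonneg_left a hh.le
  have e2 : h0 * x ≤ h0 * (1 / 2) := mul_le_mul_of_nonneg_left u hh.le
  have e3 : 1 / 2 ≤ h0 * C + x / 2 := by nlinarith
  refine ⟨by linarith, ?_, e3⟩
  refine le_of_sq2 hh.le ?_
  have e4 : (C / 2 - h0 * x) ^ 2 + (h0 * C + x / 2) ^ 2 = 1 := by
    linear_combination (C ^ 2 + x ^ 2) * hq + h.sq
  nlinarith

/-- The coordinates of the directions next to 120 degrees. -/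
private theorem famB11_120 (h : Rot C x) : -h0 ≤ -(C / 2) - h0 * x ∧ -(C / 2) - h0 * x ≤ 0 ∧
    1 / 2 ≤ h0 * C - x / 2 := by
  obtain ⟨a, b, c⟩ := famB11_60 h.neg
  exact ⟨by linarith, by linarith, by linarith⟩

/-- Unit sides 12 and 13. -/
theorem famB11 (hs : 0 < s) (hs1 : s ≤ 11 / 400) (i : Fin 4) (j : Fin 4) (h : Rot C x)
    (h' : Rot C' x') (hS : Sides X12 X13 t t') (hc : 0 ≤ X12 * (t + t') - X13 * t)
    (hE : exn X12 X13 t t' < (174 / 100 + 3 * s) * s) (d : D1 i C x X12 t)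
    (d' : D1 j C' x' X13 (t + t')) : Fin3 s X12 X13 t t' := by
  have hh := h0_pos
  have hq := h0_sq'
  obtain ⟨b1, b2⟩ := h0_bd
  have a := h.Ch
  have a' := h'.Ch
  have o := h.C1
  have o' := h'.C1
  have l := h.lo
  have l' := h'.lo
  have u := h.hi
  have u' := h'.hi
  have t0 := hS.t0
  have t1 := hS.t1
  have T0 : 0 ≤ t + t' := add_nonneg t0 t1
  match i, j, d, d' with
  | 0, 0, d, d' =>
    obtain ⟨hx, e1, e2⟩ := d
    obtain ⟨hx', e3, e4⟩ := d'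
    refine famB11_abs hS hc ?_
    rw [e4, e1, e2, e3]
    have m1 : C * x' ≤ 1 * (1 / 2) := mul_le_mul o u' hx' zero_le_one
    have m2 : 0 ≤ C' * x := mul_nonneg h'.C0 hx
    linarith
  | 0, 1, d, d' =>
    obtain ⟨hx, e1, e2⟩ := d
    obtain ⟨e3, e4⟩ := d'
    have e5 : t' = h0 * C' + x' / 2 - x := by linarith
    rw [e1, e2, e3, e5] at hS hc hE ⊢
    exact b01 hs hs1 h h' hx hS hc hE
  | 0, 2, d, d' =>
    obtain ⟨hx, e1, e2⟩ := d
    obtain ⟨e3, e4⟩ := d'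
    have e5 : t' = h0 * C' - x' / 2 - x := by linarith
    rw [e1, e2, e3, e5] at hS hc hE ⊢
    exact b02 hs hs1 h h' hx hS hc hE
  | 0, 3, d, d' =>
    obtain ⟨hx, e1, e2⟩ := d
    obtain ⟨hx', e3, e4⟩ := d'
    have e5 : t' = -x' - x := by linarith
    have k := hS.b3
    rw [e1, e3, e5] at k
    have hD : C * C' + x * x' ≤ 1 / 2 := by nlinarith [h.sq, h'.sq]
    obtain ⟨c1, c2, ⟨c3, c4⟩ | ⟨c3, c4⟩⟩ := geo_ex h h' hD
    · exact famB11_hor hs hs1 hS hc (by rw [e1, c1]) (by rw [e2, c3]) (by rw [e3, c2])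
        (by rw [e4, c4]; norm_num)
    · linarith
  | 1, 0, d, d' =>
    obtain ⟨e1, e2⟩ := d
    obtain ⟨hx', e3, e4⟩ := d'
    obtain ⟨f1, f2, f3⟩ := famB11_60 h
    refine famB11_abs hS hc ?_
    rw [e4, e3]
    have m1 : X12 * x' ≤ h0 * (1 / 2) := mul_le_mul (by rw [e1]; exact f2) u' hx' hh.le
    have m2 : h0 * (1 / 2) ≤ C' * t := mul_le_mul a' (by rw [e2]; exact f3) (by norm_num) h'.C0
    linarith
  | 1, 1, d, d' =>
    obtain ⟨e1, e2⟩ := d
    obtain ⟨e3, e4⟩ := d'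
    have e5 : t' = h0 * C' + x' / 2 - (h0 * C + x / 2) := by linarith
    have k := hS.b1
    rw [e1, e3, e5] at k
    have e6 : (C' / 2 - h0 * x' - (C / 2 - h0 * x)) ^ 2 +
        (h0 * C' + x' / 2 - (h0 * C + x / 2)) ^ 2 = 2 - 2 * (C * C' + x * x') := by
      linear_combination ((C - C') ^ 2 + (x - x') ^ 2) * hq + h.sq + h'.sq
    rw [e6] at k
    obtain ⟨c1, c2, ⟨c3, c4⟩ | ⟨c3, c4⟩⟩ := geo_ex h h' (by linarith)
    · rw [c1, c2, c3, c4] at e5
      linarith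
    · refine famB11_ver hs hs1 hS hc ?_ ?_ ?_ ?_
      · rw [e1, c1, c3]
        ring
      · rw [e2, c1, c3]
        linear_combination hq
      · rw [e3, c2, c4]
        ring
      · rw [e4, c2, c4]
        linear_combination hq
  | 1, 2, d, d' =>
    obtain ⟨e1, e2⟩ := d
    obtain ⟨e3, e4⟩ := d'
    have e5 : t' = h0 * C' - x' / 2 - (h0 * C + x / 2) := by linarith
    rw [e1, e2, e3, e5] at hS hc hE ⊢
    exact b12 hs hs1 h h' hS hc hE
  | 1, 3, d, d' =>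
    obtain ⟨e1, e2⟩ := d
    obtain ⟨hx', e3, e4⟩ := d'
    have m1 : h0 * h0 ≤ h0 * C := mul_le_mul_of_nonneg_left a hh.le
    have c4 : x' = -(1 / 2) := by nlinarith
    have c3 : x = -(1 / 2) := by nlinarith
    have c1 : C = h0 := by
      have : h0 * C ≤ h0 * h0 := by nlinarith
      exact le_antisymm (le_of_mul_le_mul_left this hh) a
    have c2 : C' = h0 := by
      refine le_antisymm (le_of_sq2 hh.le ?_) a'
      nlinarith [h'.sq]
    refine famB11_hor hs hs1 hS hc ?_ ?_ ?_ ?_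
    · rw [e1, c1, c3]
      ring
    · rw [e2, c1, c3]
      linear_combination hq
    · rw [e3, c2]
    · rw [e4, c4]
      norm_num
  | 2, 0, d, d' =>
    obtain ⟨e1, e2⟩ := d
    obtain ⟨hx', e3, e4⟩ := d'
    obtain ⟨f1, f2, f3⟩ := famB11_120 h
    refine famB11_abs hS hc ?_
    have m1 : X12 * (t + t') ≤ 0 := mul_nonpos_of_nonpos_of_nonneg (by rw [e1]; exact f2) T0
    have m2 : 0 ≤ X13 * t := mul_nonneg (by rw [e3]; exact h'.C0) t0
    linarith
  | 2, 1, d, d' =>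
    obtain ⟨e1, e2⟩ := d
    obtain ⟨e3, e4⟩ := d'
    obtain ⟨f1, f2, f3⟩ := famB11_120 h
    obtain ⟨g1, g2, g3⟩ := famB11_60 h'
    refine famB11_abs hS hc ?_
    have m1 : X12 * (t + t') ≤ 0 := mul_nonpos_of_nonpos_of_nonneg (by rw [e1]; exact f2) T0
    have m2 : 0 ≤ X13 * t := mul_nonneg (by rw [e3]; exact g1) t0
    linarith
  | 2, 2, d, d' =>
    obtain ⟨e1, e2⟩ := d
    obtain ⟨e3, e4⟩ := d'
    have e5 : t' = h0 * C' - x' / 2 - (h0 * C - x / 2) := by linarith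
    have k := hS.b1
    rw [e1, e3, e5] at k
    have e6 : (-(C' / 2) - h0 * x' - (-(C / 2) - h0 * x)) ^ 2 +
        (h0 * C' - x' / 2 - (h0 * C - x / 2)) ^ 2 = 2 - 2 * (C * C' + x * x') := by
      linear_combination ((C - C') ^ 2 + (x - x') ^ 2) * hq + h.sq + h'.sq
    rw [e6] at k
    obtain ⟨c1, c2, ⟨c3, c4⟩ | ⟨c3, c4⟩⟩ := geo_ex h h' (by linarith)
    · exfalso
      rw [e4, e1, e2, e3, c1, c2, c3, c4] at hc
      nlinarith
    · rw [c1, c2, c3, c4] at e5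
      linarith
  | 2, 3, d, d' =>
    obtain ⟨e1, e2⟩ := d
    obtain ⟨hx', e3, e4⟩ := d'
    obtain ⟨f1, f2, f3⟩ := famB11_120 h
    refine famB11_abs hS hc ?_
    have m1 : h0 * h0 ≤ h0 * C := mul_le_mul_of_nonneg_left a hh.le
    have c4 : x' = -(1 / 2) := by nlinarith
    have c3 : x = 1 / 2 := by nlinarith
    have c1 : C = h0 := by
      have : h0 * C ≤ h0 * h0 := by nlinarith
      exact le_antisymm (le_of_mul_le_mul_left this hh) a
    have c2 : C' = h0 := by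
      refine le_antisymm (le_of_sq2 hh.le ?_) a'
      nlinarith [h'.sq]
    rw [e4, e1, e2, e3, c1, c2, c3, c4]
    nlinarith
  | 3, 0, d, d' =>
    obtain ⟨hx, e1, e2⟩ := d
    obtain ⟨hx', e3, e4⟩ := d'
    refine famB11_abs hS hc ?_
    have m1 : X12 * (t + t') ≤ 0 :=
      mul_nonpos_of_nonpos_of_nonneg (by rw [e1]; linarith) T0
    have m2 : 0 ≤ X13 * t := mul_nonneg (by rw [e3]; exact h'.C0) t0
    linarith
  | 3, 1, d, d' =>
    obtain ⟨hx, e1, e2⟩ := d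
    obtain ⟨e3, e4⟩ := d'
    obtain ⟨g1, g2, g3⟩ := famB11_60 h'
    refine famB11_abs hS hc ?_
    have m1 : X12 * (t + t') ≤ 0 :=
      mul_nonpos_of_nonpos_of_nonneg (by rw [e1]; linarith) T0
    have m2 : 0 ≤ X13 * t := mul_nonneg (by rw [e3]; exact g1) t0
    linarith
  | 3, 2, d, d' =>
    obtain ⟨hx, e1, e2⟩ := d
    obtain ⟨e3, e4⟩ := d'
    obtain ⟨g1, g2, g3⟩ := famB11_120 h'
    refine famB11_abs hS hc ?_
    have m1 : h0 * (1 / 2) ≤ C * (t + t') :=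
      mul_le_mul a (by rw [e4]; exact g3) (by norm_num) h.C0
    have m2 : (-X13) * t ≤ h0 * (1 / 2) :=
      mul_le_mul (by rw [e3]; linarith) (by rw [e2]; linarith) t0 hh.le
    rw [e1]
    nlinarith
  | 3, 3, d, d' =>
    obtain ⟨hx, e1, e2⟩ := d
    obtain ⟨hx', e3, e4⟩ := d'
    refine famB11_abs hS hc ?_
    rw [e4, e1, e2, e3]
    have m1 : C' * (-x) ≤ 1 * (1 / 2) :=
      mul_le_mul o' (by linarith) (by linarith) zero_le_one
    have m2 : C * x' ≤ 0 := mul_nonpos_of_nonneg_of_nonpos h.C0 hx'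
    nlinarith

end Pool.Agent.Strip051.LC.E0.Out
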