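import Pool.Agent.Strip051.LC.E0.O3.StrA
import Pool.Agent.Strip051.LC.E0.O3.GeoB
import Pool.Agent.Strip051.LC.E0.O4.Zn4

/-! # Small rests: the directions 0 and 90, sides 12 and 13 -/

namespace Pool.Agent.Strip051.LC.E0.Out

open Pool.Agent.StripNear Pool.Agent.StripSquare Pool.Agent.Strip051 Pool.Agent.Strip051.Sweep
open Pool.Agent.Strip051.LC.Line (tau)

variable {s C x C' x' : ℝ}

private theorem c01_ord (h : Rot C x) (h' : Rot C' x') (hM : 0 ≤ x * C' - C * x') : x' ≤ x := by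
  by_contra hx
  rw [not_le] at hx
  linarith [geo_neg h h' hx]

/-- The directions 0 and 90, sides 12 and 13. -/
theorem c01 (hs : 0 < s) (hs1 : s ≤ 11 / 400) (h : Rot C x) (h' : Rot C' x') (hx : 0 ≤ x)
    (hS : Sides C (-(2 * h0 * x')) x
      (2 * h0 * C' - x))
    (hc : 0 ≤ C * (x + (2 * h0 * C' - x)) -
      (-(2 * h0 * x')) * x)
    (hE : exn C (-(2 * h0 * x')) x
      (2 * h0 * C' - x) < (174 / 100 + 3 * s) * s) :
    Fin3 s C (-(2 * h0 * x')) x
      (2 * h0 * C' - x) := by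
  obtain ⟨b1, b2⟩ := h0_bd
  have hh := h0_pos
  have hq := h0_sq'
  have hM : 0 ≤ x * C' - C * x' := by
    have e : (-(2 * h0 * x') - C) ^ 2 + (2 * h0 * C' - x) ^ 2 =
        4 - 4 * h0 * (x * C' - C * x') := by
      linear_combination 4 * (C' ^ 2 + x' ^ 2) * hq + 3 * h'.sq + h.sq
    have e1 := hS.b3
    rw [e] at e1
    by_contra hn
    rw [not_le] at hn
    nlinarith
  have ho := c01_ord h h' hM
  have eE : exn C (-(2 * h0 * x')) x (2 * h0 * C' - x) = C * C' + x * x' - 1 / 2 := by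
    unfold exn
    field_simp
    ring
  obtain ⟨p, q, p0, q0, hp, hq2, hr, hcr⟩ := geo_3c hs hs1 h h' ho eE hE
  have hq3 : (-(2 * h0 * x') - h0) ^ 2 + (2 * h0 * C' - 3 / 2) ^ 2 ≤ (2 * h0 * q) ^ 2 := by
    have e : (-(2 * h0 * x') - h0) ^ 2 + (2 * h0 * C' - 3 / 2) ^ 2 =
        3 * ((C' - h0) ^ 2 + (x' + 1 / 2) ^ 2) := by
      linear_combination (4 * (C' ^ 2 + x' ^ 2) + 4 * x' - 2) * hq
    have e2 : (2 * h0 * q) ^ 2 = 3 * q ^ 2 := by
      linear_combination 4 * q ^ 2 * hq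
    rw [e, e2]
    linarith
  have hk : 2 * h0 * q ≤ 1733 / 1000 * q := mul_le_mul_of_nonneg_right (by linarith) q0
  have hk0 : 0 ≤ 2 * h0 * q := mul_nonneg (by linarith) q0
  have z1 : Zn s C x p := znA hs hs1 (ann12 hS) p0 (by linarith) hp
  have z3 : Zn s (-(2 * h0 * x')) (x + (2 * h0 * C' - x)) (2 * h0 * q) :=
    znC hs hs1 (ann13 hS) hk0 (by linarith) (by rwa [add_sub_cancel])
  have z2 : Zn s (-(2 * h0 * x') - C) (2 * h0 * C' - x) (2 * h0 * q + p) := by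
    refine znB hs hs1 (ann23 hS) (by linarith) (by linarith) ?_
    have := disp_add (a := -(2 * h0 * x') - h0) (b := 2 * h0 * C' - 3 / 2) (c := h0 - C)
      (d := 1 / 2 - x) hk0 p0 hq3 (by
        rw [show (h0 - C) ^ 2 + (1 / 2 - x) ^ 2 = (C - h0) ^ 2 + (x - 1 / 2) ^ 2 by ring]
        exact hp)
    rwa [show -(2 * h0 * x') - h0 + (h0 - C) = -(2 * h0 * x') - C by ring,
      show 2 * h0 * C' - 3 / 2 + (1 / 2 - x) = 2 * h0 * C' - x - 1 by ring] at this
  exact Or.inl (ok2_cross hs hs1 hS z1 z2 z3 (by linarith))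

end Pool.Agent.Strip051.LC.E0.Out
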