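import Pool.Agent.Strip051.LC.E0.O3.StrA
import Pool.Agent.Strip051.LC.E0.O3.GeoB
import Pool.Agent.Strip051.LC.E0.O4.Zn4

/-! # Small rests: the directions 60 and 90, sides 12 and 13 -/

namespace Pool.Agent.Strip051.LC.E0.Out

open Pool.Agent.StripNear Pool.Agent.StripSquare Pool.Agent.Strip051 Pool.Agent.Strip051.Sweep
open Pool.Agent.Strip051.LC.Line (tau)

variable {s C x C' x' : ℝ}

private theorem c11_one (h : Rot C x) : 1866 / 1000 * (1 - C) ≤ x ^ 2 := by
  obtain ⟨b1, b2⟩ := h0_bd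
  have a := h.Ch
  have b := h.C1
  have c : 0 ≤ (1 - C) * (C - 866 / 1000) := mul_nonneg (by linarith) (by linarith)
  linarith [h.sq]

/-- The directions 60 and 90, sides 12 and 13. -/
theorem c11 (hs : 0 < s) (hs1 : s ≤ 11 / 400) (h : Rot C x) (h' : Rot C' x')
    (hS : Sides (C / 2 - h0 * x) (-(2 * h0 * x')) (h0 * C + x / 2)
      (2 * h0 * C' - (h0 * C + x / 2)))
    (hc : 0 ≤ (C / 2 - h0 * x) * ((h0 * C + x / 2) + (2 * h0 * C' - (h0 * C + x / 2))) -
      (-(2 * h0 * x')) * (h0 * C + x / 2))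
    (hE : exn (C / 2 - h0 * x) (-(2 * h0 * x')) (h0 * C + x / 2)
      (2 * h0 * C' - (h0 * C + x / 2)) < (174 / 100 + 3 * s) * s) :
    Fin3 s (C / 2 - h0 * x) (-(2 * h0 * x')) (h0 * C + x / 2)
      (2 * h0 * C' - (h0 * C + x / 2)) := by
  have hh := h0_pos
  have hq := h0_sq'
  obtain ⟨b1, b2⟩ := h0_bd
  have eP : (C / 2 - h0 * x) * ((h0 * C + x / 2) + (2 * h0 * C' - (h0 * C + x / 2))) -
      (-(2 * h0 * x')) * (h0 * C + x / 2) =
      h0 * (C' * C + x' * x) + 3 / 2 * (x' * C - C' * x) := by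
    linear_combination (2 * (x' * C - C' * x)) * hq
  have eN : (-(2 * h0 * x') - (C / 2 - h0 * x)) ^ 2 + (2 * h0 * C' - (h0 * C + x / 2)) ^ 2 =
      4 - 3 * (C' * C + x' * x) + 2 * h0 * (x' * C - C' * x) := by
    linear_combination (4 * (C' ^ 2 + x' ^ 2) + (C ^ 2 + x ^ 2) - 4 * (C' * C + x' * x)) * hq +
      3 * h'.sq + h.sq
  have ho : x ≤ x' := by
    refine geo_ord3 h' h ?_ ?_
    · have := hS.b1
      rw [eN] at this
      linarith
    · rwa [eP] at hc
  obtain ⟨q1, q2⟩ := geo_3 hs hs1 h' h ho (by unfold exn; rw [eP]) hE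
  have q1' : (C - C') ^ 2 + (x - x') ^ 2 ≤ (22 / 10 * s) ^ 2 := by nlinarith
  rcases le_total (5 * s) (-x) with hx | hx
  · left
    have := strip_L3B2 (C := C) (x := -x) (C' := C') (x' := -x') hs hs1 h.neg h'.neg hx
      (by linarith) (by nlinarith)
    simp only [mul_neg, neg_div, sub_neg_eq_add, ← sub_eq_add_neg] at this
    exact this hS (by linarith)
  rcases le_total (5 * s) x with hx1 | hx1
  · left
    exact strip_L3B3 hs hs1 h h' hx1 ho q1' hS q2
  right
  refine Or.inr (Or.inr (Or.inl ?_))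
  have xx : x' - x ≤ 22 / 10 * s := by
    refine le_of_sq2 (by linarith) ?_
    nlinarith [sq_nonneg (C - C')]
  have o1 := c11_one h
  have o2 := c11_one h'
  have p1 := h.C1
  have p2 := h'.C1
  have k1 : x ^ 2 ≤ 6875 / 10000 * s := by
    have : x ^ 2 ≤ (5 * s) ^ 2 := by
      rw [sq_le_sq]
      rw [abs_of_nonneg (by linarith : 0 ≤ 5 * s), abs_le]
      constructor <;> linarith
    nlinarith
  have k2 : x' ^ 2 ≤ 14256 / 10000 * s := by
    have : x' ^ 2 ≤ (72 / 10 * s) ^ 2 := by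
      rw [sq_le_sq]
      rw [abs_of_nonneg (by linarith : 0 ≤ 72 / 10 * s), abs_le]
      constructor <;> linarith
    nlinarith
  have g1 : 0 ≤ h0 * (1 - C) := mul_nonneg hh.le (by linarith)
  have g2 : 0 ≤ h0 * (1 - C') := mul_nonneg hh.le (by linarith)
  have g3 : h0 * (1 - C) ≤ 35 / 100 * s := by nlinarith
  have g4 : h0 * (1 - C') ≤ 70 / 100 * s := by nlinarith
  unfold WV
  refine ⟨?_, ?_, ?_, ?_, ?_⟩
  · rw [abs_le]
    constructor <;> linarith
  · rw [abs_le]
    constructor <;> linarith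
  · rw [abs_le]
    constructor <;> linarith
  · linarith
  · linarith

end Pool.Agent.Strip051.LC.E0.Out
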