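import Pool.Agent.Strip051.LC.E0.O4.Def
import Pool.Agent.Strip051.LC.E0.O3.GeoB
import Pool.Agent.Strip051.LC.E0.O3.Lev
import Pool.Agent.Strip051.LC.E0.O3.H_L3B4

/-! # Small rests: a unit side and a side of length `√3`, above the window -/

namespace Pool.Agent.Strip051.LC.E0.Out

open Pool.Agent.StripNear Pool.Agent.StripSquare Pool.Agent.Strip051 Pool.Agent.Strip051.Sweep
open Pool.Agent.Strip051.LC.Line (tau)

variable {s C x C' x' : ℝ}

/-! ### Lipschitz bounds for the tables -/

/-- Bounds for the slopes on an interval. -/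
def M1cL (f : ℝ → ℝ) (l u a b : ℝ) : Prop := ∀ w w' : ℝ, a ≤ w → w ≤ w' → w' ≤ b →
  l * (w' - w) ≤ f w' - f w ∧ f w' - f w ≤ u * (w' - w)

theorem M1cL.chain {f : ℝ → ℝ} {l u a b c : ℝ} (h : M1cL f l u a b) (h' : M1cL f l u b c) :
    M1cL f l u a c := by
  intro w w' h1 h2 h3
  rcases le_total w' b with h4 | h4
  · exact h w w' h1 h2 h4
  · rcases le_total b w with h5 | h5
    · exact h' w w' h5 h2 h3
    · obtain ⟨a1, a2⟩ := h w b h1 h5 le_rfl
      obtain ⟨b1, b2⟩ := h' b w' le_rfl h4 h3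
      constructor <;> linarith

theorem m1c_lin {f : ℝ → ℝ} {l u a b m c : ℝ} (hf : ∀ w, a ≤ w → w ≤ b → f w = m * w + c)
    (hl : l ≤ m) (hu : m ≤ u) : M1cL f l u a b := by
  intro w w' h1 h2 h3
  rw [hf w h1 (h2.trans h3), hf w' (h1.trans h2) h3]
  have e : m * w' + c - (m * w + c) = m * (w' - w) := by ring
  rw [e]
  exact ⟨mul_le_mul_of_nonneg_right hl (by linarith),
    mul_le_mul_of_nonneg_right hu (by linarith)⟩

theorem m1c_dc : M1cL (dc par) (-(3 / 2)) (5 / 2) 1 8 := by
  have a := par_d0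
  have b := par_d1
  have c := par_d2
  have d := par_d3
  have p1 : M1cL (dc par) (-(3 / 2)) (5 / 2) 1 (3 / 2) := by
    refine m1c_lin (m := 2 * (par.d2 - (par.d0 + par.d1)))
      (c := par.d0 + par.d1 - 2 * (par.d2 - (par.d0 + par.d1))) ?_ (by linarith) (by linarith)
    intro w h1 h2
    rcases h1.eq_or_lt with h3 | h3
    · rw [← h3]
      unfold dc
      rw [if_pos le_rfl]
      ring
    · unfold dc
      rw [if_neg (by linarith), if_pos h2]
      unfold pl
      ring
  have p2 : M1cL (dc par) (-(3 / 2)) (5 / 2) (3 / 2) (5 / 2) := by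
    refine m1c_lin (m := par.d3 - par.d2) (c := par.d2 - 3 / 2 * (par.d3 - par.d2)) ?_
      (by linarith) (by linarith)
    intro w h1 h2
    rcases h1.eq_or_lt with h3 | h3
    · rw [← h3]
      unfold dc
      rw [if_neg (by norm_num), if_pos le_rfl, pl_right (by norm_num)]
      ring
    · unfold dc
      rw [if_neg (by linarith), if_neg (by linarith), if_pos h2]
      unfold pl
      ring
  have p3 : M1cL (dc par) (-(3 / 2)) (5 / 2) (5 / 2) 4 := by
    refine m1c_lin (m := -(2 / 3 * par.d3)) (c := par.d3 + 5 / 3 * par.d3) ?_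
      (by linarith) (by linarith)
    intro w h1 h2
    rcases h1.eq_or_lt with h3 | h3
    · rw [← h3]
      unfold dc
      rw [if_neg (by norm_num), if_neg (by norm_num), if_pos le_rfl, pl_right (by norm_num)]
      ring
    · unfold dc
      rw [if_neg (by linarith), if_neg (by linarith), if_neg (by linarith), if_pos h2]
      unfold pl
      ring
  have p4 : M1cL (dc par) (-(3 / 2)) (5 / 2) 4 8 := by
    refine m1c_lin (m := 0) (c := 0) ?_ (by norm_num) (by norm_num)
    intro w h1 h2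
    rw [zero_mul, add_zero]
    rcases h1.eq_or_lt with h3 | h3
    · rw [← h3]
      unfold dc
      rw [if_neg (by norm_num), if_neg (by norm_num), if_neg (by norm_num), if_pos le_rfl,
        pl_right (by norm_num)]
    · unfold dc
      rw [if_neg (by linarith), if_neg (by linarith), if_neg (by linarith), if_neg (by linarith)]
  exact ((p1.chain p2).chain p3).chain p4

theorem m1c_xA (hs : 0 < s) (hs1 : s ≤ 11 / 400) :
    M1cL (xA par s) (-(86 / 100)) (86 / 100) 1 8 := by
  obtain ⟨a1, a2⟩ := x1_bd hs hs1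
  obtain ⟨b1, b2⟩ := xm_bd hs hs1
  have e : par.a1 = 319 / 250 := rfl
  have p1 : M1cL (xA par s) (-(86 / 100)) (86 / 100) 1 (3 / 2) := by
    refine m1c_lin (m := xm par s) (c := x1 s - xm par s) ?_ (by linarith) (by linarith)
    intro w h1 h2
    unfold xA x0
    rw [if_pos h2]
    rcases h1.eq_or_lt with h3 | h3
    · rw [← h3, if_pos le_rfl]
      ring
    · rw [if_neg (by linarith)]
      ring
  have p2 : M1cL (xA par s) (-(86 / 100)) (86 / 100) (3 / 2) (5 / 2) := by
    refine m1c_lin (m := 319 / 250 - (x1 s + xm par s / 2))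
      (c := x1 s + xm par s / 2 - 3 / 2 * (319 / 250 - (x1 s + xm par s / 2))) ?_
      (by linarith) (by linarith)
    intro w h1 h2
    rcases h1.eq_or_lt with h3 | h3
    · rw [← h3]
      unfold xA x0
      rw [if_pos le_rfl, if_neg (by norm_num)]
      ring
    · unfold xA
      rw [if_neg (by linarith), if_pos h2, e]
      unfold pl
      ring
  have p3 : M1cL (xA par s) (-(86 / 100)) (86 / 100) (5 / 2) 4 := by
    refine m1c_lin (m := -(319 / 375)) (c := 319 / 375 * 4) ?_ (by norm_num) (by norm_num)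
    intro w h1 h2
    rcases h1.eq_or_lt with h3 | h3
    · rw [← h3]
      unfold xA
      rw [if_neg (by norm_num), if_pos le_rfl, pl_right (by norm_num), e]
      norm_num
    · rw [xA_u4 h3 h2]
      ring
  have p4 : M1cL (xA par s) (-(86 / 100)) (86 / 100) 4 8 := by
    refine m1c_lin (m := 0) (c := 0) ?_ (by norm_num) (by norm_num)
    intro w h1 h2
    rw [xA_u5 h1]
    ring
  exact ((p1.chain p2).chain p3).chain p4

/-- The kernel is Lipschitz. -/
theorem m1c_RA {u v : ℝ} (hs : 0 < s) (hu : s ≤ u) (huv : u ≤ v) (hv : v ≤ 8 * s) :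
    0 ≤ RA par s u - RA par s v ∧ RA par s u - RA par s v ≤ 9 / 2 * (v - u) := by
  obtain ⟨a, b⟩ := m1c_dc (u / s) (v / s) (by rwa [le_div_iff₀ hs, one_mul])
    (by gcongr) (by rwa [div_le_iff₀ hs])
  have e : s * (v / s - u / s) = v - u := by field_simp
  have a' := mul_le_mul_of_nonneg_left a hs.le
  have b' := mul_le_mul_of_nonneg_left b hs.le
  have e1 : s * (-(3 / 2) * (v / s - u / s)) = -(3 / 2) * (v - u) := by rw [← e]; ring
  have e2 : s * (5 / 2 * (v / s - u / s)) = 5 / 2 * (v - u) := by rw [← e]; ring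
  rw [e1] at a'
  rw [e2] at b'
  unfold RA
  constructor <;> linarith

/-- The level is Lipschitz. -/
theorem m1c_lev {u v : ℝ} (hs : 0 < s) (hs1 : s ≤ 11 / 400) (hu : s ≤ u) (huv : u ≤ v)
    (hv : v ≤ 8 * s) :
    |s ^ 2 * xA par s (v / s) - s ^ 2 * xA par s (u / s)| ≤ 86 / 100 * (s * (v - u)) := by
  obtain ⟨a, b⟩ := m1c_xA hs hs1 (u / s) (v / s) (by rwa [le_div_iff₀ hs, one_mul])
    (by gcongr) (by rwa [div_le_iff₀ hs])
  have e : s ^ 2 * (v / s - u / s) = s * (v - u) := by field_simp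
  have s2 : 0 ≤ s ^ 2 := sq_nonneg s
  have a' := mul_le_mul_of_nonneg_left a s2
  have b' := mul_le_mul_of_nonneg_left b s2
  have e1 : s ^ 2 * (-(86 / 100) * (v / s - u / s)) = -(86 / 100) * (s * (v - u)) := by
    rw [← e]; ring
  have e2 : s ^ 2 * (86 / 100 * (v / s - u / s)) = 86 / 100 * (s * (v - u)) := by
    rw [← e]; ring
  rw [e1] at a'
  rw [e2] at b'
  rw [abs_le]
  constructor <;> linarith

theorem m1c_lvl {u v : ℝ} (hs : 0 < s) (hu : 2 * s ≤ u) (huv : u ≤ v) :
    |lvl s v - lvl s u| ≤ 26 / 100 * (s * (v - u)) := by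
  have p : 0 ≤ s * (v - u) := mul_nonneg hs.le (by linarith)
  rcases le_total v (5 * s) with h | h
  · rw [lvl_mid hs (hu.trans huv) h, lvl_mid hs hu (huv.trans h), abs_le]
    constructor <;> nlinarith
  · rw [lvl_far hs h]
    rcases le_total u (5 * s) with h1 | h1
    · have p1 : 0 ≤ s * (5 * s - u) := mul_nonneg hs.le (by linarith)
      have p2 : 0 ≤ s * (v - 5 * s) := mul_nonneg hs.le (by linarith)
      rw [lvl_mid hs hu h1, abs_le]
      constructor <;> nlinarith
    · rw [lvl_far hs h1, sub_self, abs_zero]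
      positivity

/-- The kernels at an almost horizontal edge between the unit circle and `W`. -/
theorem m1c_flat {X T : ℝ} (hT0 : 0 ≤ T) (hT : T < h0 / 2) (a : c1 T ≤ X) (b : X ≤ Wc T) :
    kA s X T = RA par s T ∧ kR s X T = r2 par s * taper (T / s) ∧
      kX s X T = s ^ 2 * xA par s (T / s) := by
  have hh := h0_pos
  have g2 := h0_lt
  refine ⟨?_, ?_, ?_⟩
  · unfold kA
    refine l3b4_flat (adm_vA par s) hT0 (by linarith) a b ?_ ?_ ?_
    · simp only [vA, Matrix.cons_val_zero]
      rw [if_pos (by linarith)]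
      unfold R1
      rw [if_pos hT]
    · simp only [vA, Matrix.cons_val_one, Matrix.cons_val_zero]
      rw [if_pos hT]
    · simp only [vA, Matrix.cons_val]
      rw [if_pos (by linarith)]
      unfold RW
      rw [if_pos hT]
  · unfold kR
    refine l3b4_flat (adm_vR s) hT0 (by linarith) a b ?_ ?_ ?_
    · simp only [vR, Matrix.cons_val_zero]
      rw [if_pos hT]
    · simp only [vR, Matrix.cons_val_one, Matrix.cons_val_zero]
      rw [if_pos hT]
    · simp only [vR, Matrix.cons_val]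
      rw [if_pos hT]
  · unfold kX
    refine l3b4_flat (adm_vX par s) hT0 (by linarith) a b ?_ ?_ ?_
    · simp only [vX, vx, Matrix.cons_val_zero]
      rw [if_pos (by linarith)]
      unfold X1
      rw [if_pos (by linarith)]
    · simp only [vX, vx, Matrix.cons_val_one, Matrix.cons_val_zero]
      rw [if_pos hT]
    · simp only [vX, vx, Matrix.cons_val]
      rw [if_pos hT]

/-- The correction at the near vertex. -/
theorem m1c_tap {u v : ℝ} (hs : 0 < s) (hu : s ≤ u) (huv : u ≤ v) (hv : 5 / 2 * s ≤ v) :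
    s ^ 2 * |taper (u / s)| ≤ 1 / 3 * (s * (v - u)) + 2 / 5 * (s ^ 2 * xA par s (v / s)) := by
  have h1 : 1 ≤ u / s := by rwa [le_div_iff₀ hs, one_mul]
  have p : 0 ≤ s * (v - u) := mul_nonneg hs.le (by linarith)
  have A : 0 ≤ s ^ 2 * xA par s (v / s) ∧ s * (4 * s - v) ≤ 6 / 5 * (s ^ 2 * xA par s (v / s)) := by
    rcases le_total (4 * s) v with h | h
    · rw [xA_far hs h, mul_zero]
      exact ⟨le_rfl, by nlinarith⟩
    · have e : s ^ 2 * xA par s (v / s) = 319 / 375 * (s * (4 * s - v)) := by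
        have h5 : 5 / 2 ≤ v / s := by rwa [le_div_iff₀ hs]
        have h4 : v / s ≤ 4 := by rwa [div_le_iff₀ hs]
        rcases h5.eq_or_lt with h6 | h6
        · have e1 : par.a1 = 319 / 250 := rfl
          have e2 : v = 5 / 2 * s := by
            rw [h6]
            field_simp
          rw [← h6]
          unfold xA
          rw [if_neg (by norm_num), if_pos le_rfl, pl_right (by norm_num), e1, e2]
          ring
        · rw [xA_u4 h6 h4]
          field_simp
      rw [e]
      have : 0 ≤ s * (4 * s - v) := mul_nonneg hs.le (by linarith)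
      constructor <;> linarith
  obtain ⟨A0, A1⟩ := A
  have T : s ^ 2 * |taper (u / s)| ≤ 1 / 3 * max 0 (s * (4 * s - u)) := by
    unfold taper
    rcases h1.eq_or_lt with h2 | h2
    · rw [if_pos h2.ge, ← h2, abs_one]
      have e2 : u = s := by
        have := h2
        field_simp at this
        linarith
      refine le_trans ?_ (mul_le_mul_of_nonneg_left (le_max_right _ _) (by norm_num))
      rw [e2]
      apply le_of_eq
      ring
    · rw [if_neg (by linarith)]
      split_ifs with h3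
      · have e : pl 1 1 4 0 (u / s) = (4 - u / s) / 3 := by
          unfold pl
          ring
        rw [e, abs_of_nonneg (by linarith)]
        refine le_trans ?_ (mul_le_mul_of_nonneg_left (le_max_right _ _) (by norm_num))
        apply le_of_eq
        field_simp
      · rw [abs_zero, mul_zero]
        exact mul_nonneg (by norm_num) (le_max_left _ _)
  have M : max 0 (s * (4 * s - u)) ≤ s * (v - u) + 6 / 5 * (s ^ 2 * xA par s (v / s)) := by
    refine max_le (by linarith) ?_
    linarith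
  linarith

/-! ### The main statement -/

/-- Side 23 on the unit circle, side 13 on the circle of radius `√3`. -/
theorem m1C (hs : 0 < s) (hs1 : s ≤ 11 / 400) (h : Rot C x) (h' : Rot C' x')
    (ho : x' ≤ x) (hx : x' ≤ 51 / 10 * s)
    (hq : (C - C') ^ 2 + (x - x') ^ 2 ≤ (22 / 10 * s) ^ 2)
    (hT : 28 / 25 * h0 ≤ h0 * C' + 3 / 2 * x')
    (hS : Sides (3 / 2 * C' - h0 * x' - (C / 2 - h0 * x)) (3 / 2 * C' - h0 * x')
      (h0 * C' + 3 / 2 * x' - (h0 * C + x / 2)) (h0 * C + x / 2))
    (hE : 84 / 100 * (x - x') ≤ exn (3 / 2 * C' - h0 * x' - (C / 2 - h0 * x))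
      (3 / 2 * C' - h0 * x') (h0 * C' + 3 / 2 * x' - (h0 * C + x / 2)) (h0 * C + x / 2)) :
    OK2 s (3 / 2 * C' - h0 * x' - (C / 2 - h0 * x)) (3 / 2 * C' - h0 * x')
      (h0 * C' + 3 / 2 * x' - (h0 * C + x / 2)) (h0 * C + x / 2) := by
  have hh := h0_pos
  have hq' := h0_sq'
  obtain ⟨b1, b2⟩ := h0_bd
  have C1' := h'.C1
  have Ch' := h'.Ch
  have Ch := h.Ch
  obtain ⟨q, q1, q2, q3, q4⟩ := mv h h'
  -- the quantities
  obtain ⟨a, ha⟩ : ∃ a, a = x - x' := ⟨_, rfl⟩
  have a0 : 0 ≤ a := by linarith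
  have a1 : a ≤ 22 / 10 * s := by
    refine le_of_sq2 (by positivity) ?_
    rw [ha]
    linarith [sq_nonneg (C - C')]
  have hxl : 6928 / 100000 ≤ x' := by
    have := mul_le_mul_of_nonneg_left C1' hh.le
    linarith
  have hx5 : 5 / 2 * s ≤ x' := by linarith
  have q0 : 0 ≤ q := by
    by_contra hc
    rw [not_le] at hc
    have := mul_neg_of_neg_of_pos hc (by linarith : 0 < C + C')
    linarith
  have q5 : q ≤ 1 / 5 := by
    rw [abs_of_nonneg q0, abs_of_nonneg (by linarith)] at q2
    have := mul_le_mul_of_nonneg_left (by linarith : 173204 / 100000 ≤ 2 * h0) q0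
    linarith
  rw [← ha] at q1 hE
  obtain ⟨δ, hδ⟩ : ∃ δ, δ = a * (1 / 2 - h0 * q) := ⟨_, rfl⟩
  have δ0 : 0 ≤ δ := by
    rw [hδ]
    refine mul_nonneg a0 ?_
    have := mul_le_mul_of_nonneg_left q5 hh.le
    linarith
  have δ1 : δ ≤ a / 2 := by
    rw [hδ]
    have m1 := mul_nonneg a0 (mul_nonneg hh.le q0)
    have e1 : a * (1 / 2 - h0 * q) = a / 2 - a * (h0 * q) := by ring
    rw [e1]
    linarith
  have et : h0 * C' + 3 / 2 * x' - (h0 * C + x / 2) = x' - δ := by
    rw [hδ]
    linear_combination h0 * q1 + 1 / 2 * ha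
  obtain ⟨e, he⟩ : ∃ e, e = a * (q / 2 + h0) := ⟨_, rfl⟩
  have e0 : 0 ≤ e := by
    rw [he]
    positivity
  have eX : 3 / 2 * C' - h0 * x' - (C / 2 - h0 * x) = C' + e := by
    rw [he]
    linear_combination 1 / 2 * q1 - h0 * ha
  have eT : x' - δ + (h0 * C + x / 2) = h0 * C' + 3 / 2 * x' := by linarith
  have hS' := hS
  rw [et, eX] at hS hE ⊢
  obtain ⟨t0, t1, s1, -, -, -, -, -⟩ := hS
  -- the position of the free node
  have tlow : s ≤ x' - δ := by linarith
  have thi : x' - δ < h0 / 2 := by linarith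
  have hc1 : c1 (x' - δ) ≤ C' + e := by
    refine le_of_sq2 (by linarith) ?_
    have := c1_sq t0 (by linarith : x' - δ ≤ 1)
    linarith
  have hW : C' + e ≤ Wc (x' - δ) := by
    obtain ⟨D, D0, eD, eW, -, -⟩ := low_sq t0 (by linarith : x' - δ < h0)
    rw [eW]
    have k1 : 1 - C' ≤ 536 / 1000 * x' ^ 2 := by
      have := (half_bd Ch' (by linarith) h'.sq).2.2.1
      linarith
    have k2 : e + 2 * h0 * δ = a * (2 * h0 - q) := by
      rw [he, hδ]
      linear_combination (-2 * a * q) * hq'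
    have k3 : e ^ 2 + δ ^ 2 = a ^ 2 * (1 + q ^ 2) := by
      rw [he, hδ]
      linear_combination (a ^ 2 * (1 + q ^ 2)) * hq'
    have k4 : a ^ 2 * (1 + q ^ 2) ≤ 63 / 1000 * a := by
      have q6 : q ^ 2 ≤ (1 / 5) ^ 2 := pow_le_pow_left₀ q0 q5 2
      have k5 : a * (1 + q ^ 2) ≤ 605 / 10000 * (104 / 100) :=
        mul_le_mul (by linarith) (by linarith) (by positivity) (by norm_num)
      have k5' := mul_le_mul_of_nonneg_left k5 a0
      have e1 : a ^ 2 * (1 + q ^ 2) = a * (a * (1 + q ^ 2)) := by ring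
      rw [e1]
      linarith
    have k6 : a * (2 * h0 - q) ≤ 17321 / 10000 * a := by
      have m1 := mul_nonneg a0 q0
      have m2 := mul_le_mul_of_nonneg_left b2.le a0
      have e1 : a * (2 * h0 - q) = 2 * (a * h0) - a * q := by ring
      rw [e1]
      linarith
    have k7 : C' ^ 2 + x' ^ 2 = 1 := h'.sq
    have k8 : 0 ≤ (2 - 2 * C') * e := mul_nonneg (by linarith) e0
    have k9 : 0 ≤ x' * δ := mul_nonneg (by linarith) δ0
    have k10 : x' ^ 2 ≤ 1403 / 10000 * x' := by
      have m1 := mul_le_mul_of_nonneg_right (by linarith : x' ≤ 1403 / 10000)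
        (by linarith : 0 ≤ x')
      have e1 : x' ^ 2 = x' * x' := by ring
      rw [e1]
      exact m1
    have key : (C' + e - 1 / 2) ^ 2 + (h0 - (x' - δ)) ^ 2 ≤ 1 := by
      have e1 : (C' + e - 1 / 2) ^ 2 + (h0 - (x' - δ)) ^ 2 =
          1 + (1 - C') + (e + 2 * h0 * δ) + (e ^ 2 + δ ^ 2) - (2 - 2 * C') * e - 2 * (x' * δ) -
            2 * h0 * x' := by
        linear_combination k7 + hq'
      rw [e1, k2, k3]
      have k11 : 173204 / 100000 * x' ≤ 2 * h0 * x' :=
        mul_le_mul_of_nonneg_right (by linarith) (by linarith)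
      linarith
    have : C' + e - 1 / 2 ≤ D := by
      refine le_of_sq2 D0 ?_
      linarith
    linarith
  obtain ⟨kA12, kR12, kX12⟩ := m1c_flat (s := s) t0 thi hc1 hW
  -- the reference
  have xp : 0 < x' := by linarith
  have R0 : 0 ≤ RA par s x' := RA_nonneg hs xp.le h'.hi
  have R1 : RA par s x' ≤ 9585 / 10000 := by
    have := RA_le9 hs xp.le
    linarith
  obtain ⟨k, hk⟩ : ∃ k, k = RA par s x' / x' := ⟨_, rfl⟩
  have kx : k * x' = RA par s x' := by
    rw [hk]
    field_simp
  have k0 : 0 ≤ k := by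
    rw [hk]
    positivity
  have k1 : k ≤ 1384 / 100 := by
    rw [hk, div_le_iff₀ xp]
    linarith
  obtain ⟨A, hA⟩ : ∃ A, A = s ^ 2 * xA par s (x' / s) := ⟨_, rfl⟩
  have A0 : 0 ≤ A := by
    rw [hA]
    exact mul_nonneg (sq_nonneg s) (xA_nonneg hs hs1 (by positivity))
  have l0 : 0 ≤ lvl s x' := lvl_nonneg hs xp.le
  have x8 : x ≤ 8 * s := by linarith
  -- the side 13
  have r13 : kA s (3 / 2 * C' - h0 * x') (h0 * C' + 3 / 2 * x') =
      k * tau (h0 * C' + 3 / 2 * x') := by
    rw [n30_kA hs hs1 h' xp.ne', abs_of_pos xp, hk]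
  have X13 := n30_kX_up (s := s) h' xp.le
  have R13 := n30_kR (s := s) h'
  -- the side 23
  have r23 : |kA s (C / 2 - h0 * x) (h0 * C + x / 2) - k * tau (h0 * C + x / 2)| ≤
      92 / 10 * a := by
    rw [n60_res hs hs1 h, abs_of_nonneg (by linarith : 0 ≤ x)]
    obtain ⟨u, hu, -, hu2, hu3, -⟩ := h.half
    rw [hu]
    have u0 := hu3 (by linarith)
    have u1 := (abs_le.1 hu2).2
    obtain ⟨L0, L1⟩ := m1c_RA hs (by linarith : s ≤ x') ho x8
    have e1 : RA par s x - k * x = -((RA par s x' - RA par s x) + k * a) := by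
      rw [← kx, ha]
      ring
    have ka0 : 0 ≤ k * a := mul_nonneg k0 a0
    have ka1 : k * a ≤ 1384 / 100 * a := mul_le_mul_of_nonneg_right k1 a0
    rw [e1, abs_neg, abs_of_nonneg (by linarith)]
    have p0 : 0 ≤ 1 / 2 - h0 * u := by
      have := mul_le_mul_of_nonneg_left u1 hh.le
      linarith
    have p1 : 1 / 2 - h0 * u ≤ 1 / 2 := by
      have := mul_nonneg hh.le u0
      linarith
    have := mul_le_mul (by linarith : RA par s x' - RA par s x + k * a ≤ 184 / 10 * a) p1 p0
      (by positivity)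
    linarith
  have X23 := n60_kX_up hs hs1 h (by linarith : 0 ≤ x)
  have R23 := n60_kR (s := s) h
  have l23 : |kX s (C / 2 - h0 * x) (h0 * C + x / 2) - (A - lvl s x')| ≤
      112 / 100 * (s * a) := by
    have e1 := m1c_lev hs hs1 (by linarith : s ≤ x') ho x8
    have e2 := m1c_lvl hs (by linarith : 2 * s ≤ x') ho
    rw [← ha, ← hA] at e1
    rw [← ha] at e2
    rw [X23]
    have e3 : s ^ 2 * xA par s (x / s) - lvl s x - (A - lvl s x') =
        (s ^ 2 * xA par s (x / s) - A) - (lvl s x - lvl s x') := by ring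
    rw [e3]
    refine (abs_sub _ _).trans ?_
    linarith
  -- the side 12
  have r12 : |kA s (C' + e) (x' - δ) - k * tau (x' - δ)| ≤ 92 / 10 * a := by
    rw [kA12, tau_lo thi]
    obtain ⟨L0, L1⟩ := m1c_RA hs tlow (by linarith : x' - δ ≤ x') (by linarith)
    have e1 : RA par s (x' - δ) - k * (x' - δ) = (RA par s (x' - δ) - RA par s x') + k * δ := by
      rw [← kx]
      ring
    have kd0 : 0 ≤ k * δ := mul_nonneg k0 δ0
    have kd1 : k * δ ≤ 1384 / 100 * δ := mul_le_mul_of_nonneg_right k1 δ0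
    rw [e1, abs_of_nonneg (by linarith)]
    linarith
  have l12 : |kX s (C' + e) (x' - δ) - A| ≤ 43 / 100 * (s * a) := by
    rw [kX12, abs_sub_comm]
    have e1 := m1c_lev hs hs1 tlow (by linarith : x' - δ ≤ x') (by linarith)
    rw [← hA] at e1
    have e2 : s * (x' - (x' - δ)) ≤ s * (a / 2) := mul_le_mul_of_nonneg_left (by linarith) hs.le
    linarith
  have sa0 : 0 ≤ s * a := mul_nonneg hs.le a0
  have sa1 : s * a ≤ 11 / 400 * a := mul_le_mul_of_nonneg_right hs1 a0
  have e23 : 3 / 2 * C' - h0 * x' - (C' + e) = C / 2 - h0 * x := by linarith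
  have cA : costA s k A (lvl s x') (C' + e) (3 / 2 * C' - h0 * x') (x' - δ) (h0 * C + x / 2) ≤
      33 / 100 * a := by
    unfold costA
    rw [e23, eT, r13, sub_self, abs_zero, X13, ← hA, sub_self, abs_zero]
    have m := mul_le_mul_of_nonneg_left (add_le_add r12 r23) hs.le
    linarith
  have hB : 1 / 2 * A ≤ (h0 * C + x / 2 - (x' - δ)) * A + (x' - δ) * lvl s x' := by
    have p1 : 1 / 2 ≤ h0 * C + x / 2 - (x' - δ) := by
      have := mul_le_mul_of_nonneg_left Ch hh.le
      linarith
    have p2 := mul_le_mul_of_nonneg_right p1 A0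
    have p3 := mul_nonneg t0 l0
    linarith
  rw [← et, ← eX]
  refine of_costA (k := k) (A := A) (b := lvl s x') hs hs1 ?_ hS' ?_ ?_
  · rw [et]
    linarith
  · rw [et, eX]
    linarith
  · rw [et, eX, e23, eT, R13, R23, kR12, abs_zero, add_zero, add_zero, abs_mul]
    have t1 := m1c_tap hs tlow (by linarith : x' - δ ≤ x') hx5
    rw [← hA] at t1
    have t2 := r2_b hs hs1
    have t3 : s ^ 2 * (|r2 par s| * |taper ((x' - δ) / s)|) ≤
        17 / 100 * (1 / 3 * (s * (x' - (x' - δ))) + 2 / 5 * A) := by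
      have e1 : s ^ 2 * (|r2 par s| * |taper ((x' - δ) / s)|) =
          |r2 par s| * (s ^ 2 * |taper ((x' - δ) / s)|) := by ring
      rw [e1]
      exact mul_le_mul t2 t1 (by positivity) (by norm_num)
    have t4 : s * (x' - (x' - δ)) ≤ s * a := mul_le_mul_of_nonneg_left (by linarith) hs.le
    have t5 : 28 / 100 * A ≤ ((h0 * C + x / 2 - (x' - δ)) * A + (x' - δ) * lvl s x') /
        (2 * h0) := by
      rw [le_div_iff₀ (by positivity)]
      have : 28 / 100 * A * (2 * h0) ≤ 1 / 2 * A := by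
        have := mul_le_mul_of_nonneg_left b2.le A0
        linarith
      linarith
    linarith

end Pool.Agent.Strip051.LC.E0.Out
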