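import Pool.Agent.Strip051.LC.E0.O3.StrA
import Pool.Agent.Strip051.LC.E0.O3.GeoB
import Pool.Agent.Strip051.LC.E0.O4.Zn4
import Pool.Agent.Strip051.LC.E0.O4.M1C

/-! # Small rests: the directions 120 and 150, sides 12 and 13 -/

namespace Pool.Agent.Strip051.LC.E0.Out

open Pool.Agent.StripNear Pool.Agent.StripSquare Pool.Agent.Strip051 Pool.Agent.Strip051.Sweep
open Pool.Agent.Strip051.LC.Line (tau)

variable {s C x C' x' : ℝ}

private theorem c22_one (h : Rot C x) : 1866 / 1000 * (1 - C) ≤ x ^ 2 := by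
  obtain ⟨b1, b2⟩ := h0_bd
  have a := h.Ch
  have b := h.C1
  have c : 0 ≤ (1 - C) * (C - 866 / 1000) := mul_nonneg (by linarith) (by linarith)
  linarith [h.sq]

private theorem c22_core {y y' : ℝ} (hs : 0 < s) (hs1 : s ≤ 11 / 400) (h : Rot C y)
    (h' : Rot C' y') (ho : y' ≤ y) (hq1 : (C - C') ^ 2 + (y - y') ^ 2 ≤ (22 / 10 * s) ^ 2)
    (hS : Sides (-(C / 2) + h0 * y) (-(3 / 2 * C') + h0 * y') (h0 * C + y / 2)
      (h0 * C' + 3 / 2 * y' - (h0 * C + y / 2)))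
    (hE : 84 / 100 * (y - y') ≤ exn (-(C / 2) + h0 * y) (-(3 / 2 * C') + h0 * y')
      (h0 * C + y / 2) (h0 * C' + 3 / 2 * y' - (h0 * C + y / 2))) :
    Fin3 s (-(C / 2) + h0 * y) (-(3 / 2 * C') + h0 * y') (h0 * C + y / 2)
      (h0 * C' + 3 / 2 * y' - (h0 * C + y / 2)) := by
  have hh := h0_pos
  have hq := h0_sq'
  obtain ⟨b1, b2⟩ := h0_bd
  have yy : y - y' ≤ 22 / 10 * s := by
    refine le_of_sq2 (by linarith) ?_
    nlinarith [sq_nonneg (C - C')]
  have t1 := hS.t1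
  -- the difference of the cosines
  obtain ⟨q, e1, e2, e3, e4⟩ := mv h h'
  by_cases hL : 5 * s ≤ y' ∧ 4 * s ≤ h0 * C' + 3 / 2 * y' - (h0 * C + y / 2)
  · left
    exact strip_L3B4 hs hs1 h h' hL.1 ho hq1 hL.2 hS hE
  have y5 : y' ≤ 51 / 10 * s := by
    by_contra hn
    rw [not_le] at hn
    have q0 : 0 ≤ q := by
      have a := h.Ch
      have a' := h'.Ch
      by_contra h0'
      rw [not_le] at h0'
      have : q * (C + C') < 0 := mul_neg_of_neg_of_pos h0' (by linarith)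
      linarith
    have e5 : 0 ≤ h0 * ((y - y') * q) := mul_nonneg hh.le (mul_nonneg (by linarith) q0)
    rw [← e1] at e5
    apply hL
    constructor <;> linarith
  rcases le_total (28 / 25 * h0) (h0 * C' + 3 / 2 * y') with hT | hT
  · left
    have g1 := h0_lt_one
    refine ok2_mir hs.le (by linarith) ?_
    have r1 : -(C / 2) + h0 * y - (-(3 / 2 * C') + h0 * y') =
        3 / 2 * C' - h0 * y' - (C / 2 - h0 * y) := by ring
    have r2 : -(-(3 / 2 * C') + h0 * y') = 3 / 2 * C' - h0 * y' := by ring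
    have s1 := sides_mir hS
    have s2 := exn_mir (-(C / 2) + h0 * y) (-(3 / 2 * C') + h0 * y')
      (h0 * C + y / 2) (h0 * C' + 3 / 2 * y' - (h0 * C + y / 2))
    rw [← s2] at hE
    rw [r1, r2] at s1 hE ⊢
    exact m1C hs hs1 h h' ho y5 hq1 hT s1 hE
  right
  refine Or.inr (Or.inl ?_)
  have q5 : |q| ≤ 2 / 10 + 3 * s ∨ True := Or.inr trivial
  have o1 := c22_one h
  have o2 := c22_one h'
  have p1 := h.C1
  have p2 := h'.C1
  have m1 : |h0 * (C' - C)| ≤ 111 / 100 * s := by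
    rw [e1, abs_mul, abs_of_pos hh, abs_mul, abs_of_nonneg (by linarith : 0 ≤ y - y')]
    have f1 : (y - y') * |q| ≤ 22 / 10 * s * (58 / 100) :=
      mul_le_mul yy (by linarith) (abs_nonneg _) (by linarith)
    have f2 : h0 * ((y - y') * |q|) ≤ 8661 / 10000 * (22 / 10 * s * (58 / 100)) :=
      mul_le_mul (by linarith) f1 (mul_nonneg (by linarith) (abs_nonneg _)) (by norm_num)
    linarith
  obtain ⟨m2, m3⟩ := abs_le.1 m1
  have y0 : -(12 / 10 * s) ≤ y' := by linarith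
  have k1 : y ^ 2 ≤ 14660 / 10000 * s := by
    have : y ^ 2 ≤ (73 / 10 * s) ^ 2 := by
      rw [sq_le_sq]
      rw [abs_of_nonneg (by linarith : 0 ≤ 73 / 10 * s), abs_le]
      constructor <;> linarith
    nlinarith
  have k2 : y' ^ 2 ≤ 7160 / 10000 * s := by
    have : y' ^ 2 ≤ (51 / 10 * s) ^ 2 := by
      rw [sq_le_sq]
      rw [abs_of_nonneg (by linarith : 0 ≤ 51 / 10 * s), abs_le]
      constructor <;> linarith
    nlinarith
  have g1 : 0 ≤ h0 * (1 - C) := mul_nonneg hh.le (by linarith)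
  have g2 : 0 ≤ h0 * (1 - C') := mul_nonneg hh.le (by linarith)
  have g3 : h0 * (1 - C) ≤ 70 / 100 * s := by nlinarith
  have g4 : h0 * (1 - C') ≤ 35 / 100 * s := by nlinarith
  unfold WH
  refine ⟨?_, ?_, ?_, ?_, ?_⟩
  · linarith
  · rw [abs_le]
    constructor <;> linarith
  · rw [abs_le]
    constructor <;> linarith
  · linarith
  · linarith

/-- The directions 120 and 150, sides 12 and 13. -/
theorem c22 (hs : 0 < s) (hs1 : s ≤ 11 / 400) (h : Rot C x) (h' : Rot C' x')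
    (hS : Sides (-(C / 2) - h0 * x) (-(3 / 2 * C') - h0 * x') (h0 * C - x / 2)
      (h0 * C' - 3 / 2 * x' - (h0 * C - x / 2)))
    (hc : 0 ≤ (-(C / 2) - h0 * x) * ((h0 * C - x / 2) + (h0 * C' - 3 / 2 * x' - (h0 * C - x / 2))) -
      (-(3 / 2 * C') - h0 * x') * (h0 * C - x / 2))
    (hE : exn (-(C / 2) - h0 * x) (-(3 / 2 * C') - h0 * x') (h0 * C - x / 2)
      (h0 * C' - 3 / 2 * x' - (h0 * C - x / 2)) < (174 / 100 + 3 * s) * s) :
    Fin3 s (-(C / 2) - h0 * x) (-(3 / 2 * C') - h0 * x') (h0 * C - x / 2)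
      (h0 * C' - 3 / 2 * x' - (h0 * C - x / 2)) := by
  have hh := h0_pos
  have hq := h0_sq'
  obtain ⟨b1, b2⟩ := h0_bd
  have eP : (-(C / 2) - h0 * x) * ((h0 * C - x / 2) + (h0 * C' - 3 / 2 * x' - (h0 * C - x / 2))) -
      (-(3 / 2 * C') - h0 * x') * (h0 * C - x / 2) =
      h0 * (C' * C + x' * x) + 3 / 2 * (x' * C - C' * x) := by
    linear_combination (x' * C - C' * x) * hq
  have eN : (-(3 / 2 * C') - h0 * x' - (-(C / 2) - h0 * x)) ^ 2 +
      (h0 * C' - 3 / 2 * x' - (h0 * C - x / 2)) ^ 2 =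
      4 - 3 * (C' * C + x' * x) + 2 * h0 * (x' * C - C' * x) := by
    linear_combination ((C' ^ 2 + x' ^ 2) + (C ^ 2 + x ^ 2) - 2 * (C' * C + x' * x)) * hq +
      3 * h'.sq + h.sq
  have ho : x ≤ x' := by
    refine geo_ord3 h' h ?_ ?_
    · have := hS.b1
      rw [eN] at this
      linarith
    · rwa [eP] at hc
  obtain ⟨q1, q2⟩ := geo_3 hs hs1 h' h ho (by unfold exn; rw [eP]) hE
  have r1 : -(C / 2) - h0 * x = -(C / 2) + h0 * -x := by ring
  have r2 : -(3 / 2 * C') - h0 * x' = -(3 / 2 * C') + h0 * -x' := by ring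
  have r3 : h0 * C - x / 2 = h0 * C + -x / 2 := by ring
  have r4 : h0 * C' - 3 / 2 * x' = h0 * C' + 3 / 2 * -x' := by ring
  rw [r1, r2, r3, r4] at hS q2 ⊢
  exact c22_core hs hs1 h.neg h'.neg (by linarith) (by nlinarith) hS (by linarith)

end Pool.Agent.Strip051.LC.E0.Out
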