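import Pool.Agent.Strip051.LC.E0.O4.C00
import Pool.Agent.Strip051.LC.E0.O4.C01
import Pool.Agent.Strip051.LC.E0.O4.C11
import Pool.Agent.Strip051.LC.E0.O4.C12
import Pool.Agent.Strip051.LC.E0.O4.C22

/-! # Small rests: the unit side 12 and the side 13 of length `√3` -/

namespace Pool.Agent.Strip051.LC.E0.Out

open Pool.Agent.StripNear Pool.Agent.StripSquare Pool.Agent.Strip051 Pool.Agent.Strip051.Sweep
open Pool.Agent.Strip051.LC.Line (tau)

section

variable {C x C' x' : ℝ}

private theorem famB13_key (h : Rot C x) (h' : Rot C' x')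
    (hc : h0 ≤ -(h0 * (C * C' + x * x')) - 3 / 2 * (x * C' - C * x')) :
    C = h0 ∧ C' = h0 ∧ x = -(1 / 2) ∧ x' = 1 / 2 := by
  have hh := h0_pos
  have hq := h0_sq'
  have d := geo_half h h'
  have q := geo_sq h h'
  have hD : C * C' + x * x' ≤ 1 / 2 := by
    generalize C * C' + x * x' = D at *
    generalize x * C' - C * x' = M at *
    by_contra hD
    rw [not_le] at hD
    have e : h0 * (1 + D) ≤ 3 / 2 * (-M) := by linarith
    have e2 : (h0 * (1 + D)) ^ 2 ≤ (3 / 2 * (-M)) ^ 2 :=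
      pow_le_pow_left₀ (mul_nonneg hh.le (by linarith)) e 2
    rw [mul_pow, hq] at e2
    nlinarith [mul_pos (by linarith : 0 < 1 + D) (by linarith : 0 < D - 1 / 2)]
  obtain ⟨a, a', ⟨b, b'⟩ | ⟨b, b'⟩⟩ := geo_ex h h' hD
  · exfalso
    rw [a, a', b, b'] at hc
    nlinarith
  · exact ⟨a, a', b, b'⟩

private theorem famB13_dot (h : Rot C x) (h' : Rot C' x')
    (hc : 1 / 2 ≤ -(3 / 2 * (C * C' + x * x')) + h0 * (x * C' - C * x')) : False := by
  have hh := h0_pos
  have hq := h0_sq'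
  have d := geo_half h h'
  have q := geo_sq h h'
  generalize C * C' + x * x' = D at *
  generalize x * C' - C * x' = M at *
  have m : M ≤ h0 := by
    refine le_of_sq2 hh.le ?_
    rw [hq]
    nlinarith
  have e := mul_le_mul_of_nonneg_left m hh.le
  nlinarith

private theorem famB13_neg (h : Rot C x) (h' : Rot C' x')
    (hc : h0 ≤ -(2 * h0 * (C * C' + x * x'))) : False := by
  have hh := h0_pos
  have d := geo_half h h'
  have e := mul_le_mul_of_nonneg_left d hh.le
  nlinarith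

private theorem famB13_far (h : Rot C x) (h' : Rot C' x') (hM : x * C' - C * x' ≤ 1 / 2)
    (hc : h0 ≤ -(h0 * (C * C' + x * x')) + 3 / 2 * (x * C' - C * x')) : False := by
  have g := h0_gt
  have hh := h0_pos
  have d := geo_half h h'
  have e := mul_le_mul_of_nonneg_left d hh.le
  nlinarith

end

private theorem famB13_exn {X12 X13 t t' : ℝ} (hS : Sides X12 X13 t t')
    (hc : 0 ≤ X12 * (t + t') - X13 * t) : 0 ≤ exn X12 X13 t t' := by
  have hh := h0_pos
  have c := cross_ge hS hc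
  unfold exn
  have : 1 / 2 ≤ (X12 * (t + t') - X13 * t) / (2 * h0) := by
    rw [le_div_iff₀ (by positivity)]
    linarith
  linarith

variable {s C x C' x' X12 X13 t t' : ℝ}

/-- The unit side 12 and the side 13 of length `√3`. -/
theorem famB13 (hs : 0 < s) (hs1 : s ≤ 11 / 400) (i : Fin 4) (j : Fin 3) (h : Rot C x)
    (h' : Rot C' x') (hS : Sides X12 X13 t t') (hc : 0 ≤ X12 * (t + t') - X13 * t)
    (hE : exn X12 X13 t t' < (174 / 100 + 3 * s) * s) (d : D1 i C x X12 t)
    (d' : D3 j C' x' X13 (t + t')) : Fin3 s X12 X13 t t' := by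
  have hh := h0_pos
  have hq := h0_sq'
  have hx := famB13_exn hS hc
  have cr := cross_ge hS hc
  have s0 : (0 : ℝ) ≤ 79 / 10 * s := by positivity
  have m0 := hS.t1
  have b3 := hS.b3
  match i, j, d, d' with
  | 0, 0, d, d' =>
    obtain ⟨k, l, l'⟩ := d
    obtain ⟨k', e⟩ := d'
    subst l l' k'
    obtain rfl : t' = h0 * C' + 3 / 2 * x' - t := by linarith
    exact c00 hs hs1 h h' k hS hc hE
  | 0, 1, d, d' =>
    obtain ⟨k, l, l'⟩ := d
    obtain ⟨k', e⟩ := d'
    subst l l' k'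
    obtain rfl : t' = 2 * h0 * C' - t := by linarith
    exact c01 hs hs1 h h' k hS hc hE
  | 0, 2, d, d' =>
    obtain ⟨k, l, l'⟩ := d
    obtain ⟨k', e⟩ := d'
    subst l l' k'
    obtain rfl : t' = h0 * C' - 3 / 2 * x' - t := by linarith
    refine (famB13_dot h h' ?_).elim
    have a := h.sq
    have a' := h'.sq
    nlinarith
  | 1, 0, d, d' =>
    obtain ⟨k, l⟩ := d
    obtain ⟨k', e⟩ := d'
    rw [e, k, k', l] at cr
    have ex : (C / 2 - h0 * x) * (h0 * C' + 3 / 2 * x') - (3 / 2 * C' - h0 * x') *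
        (h0 * C + x / 2) = -(h0 * (C * C' + x * x')) - 3 / 2 * (x * C' - C * x') := by
      linear_combination (C * x' - x * C') * hq
    rw [ex] at cr
    obtain ⟨rfl, rfl, rfl, rfl⟩ := famB13_key h h' cr
    have e1 : X12 = h0 := by rw [k]; ring
    have e2 : t = 1 / 2 := by rw [l]; linear_combination hq
    have e3 : X13 = h0 := by rw [k']; ring
    have e4 : t + t' = 3 / 2 := by rw [e]; linear_combination hq
    refine Or.inl (ok2_cross hs hs1 hS (znA hs hs1 (ann12 hS) le_rfl s0 ?_)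
      (znB hs hs1 (ann23 hS) le_rfl s0 ?_) (znC hs hs1 (ann13 hS) le_rfl s0 ?_) ?_)
    · rw [e1, e2]
      norm_num
    · rw [e1, e3, show t' = 1 by linarith]
      norm_num
    · rw [e3, e4]
      norm_num
    · linarith
  | 1, 1, d, d' =>
    obtain ⟨k, l⟩ := d
    obtain ⟨k', e⟩ := d'
    subst k l k'
    obtain rfl : t' = 2 * h0 * C' - (h0 * C + x / 2) := by linarith
    exact c11 hs hs1 h h' hS hc hE
  | 1, 2, d, d' =>
    obtain ⟨k, l⟩ := d
    obtain ⟨k', e⟩ := d'
    subst k l k'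
    obtain rfl : t' = h0 * C' - 3 / 2 * x' - (h0 * C + x / 2) := by linarith
    exact c12 hs hs1 h h' hS hc hE
  | 2, 0, d, d' =>
    obtain ⟨k, l⟩ := d
    obtain ⟨k', e⟩ := d'
    rw [e, k, k', l] at cr
    refine (famB13_neg h h' (cr.trans_eq ?_)).elim
    linear_combination (C * x' - x * C') * hq
  | 2, 1, d, d' =>
    obtain ⟨k, l⟩ := d
    obtain ⟨k', e⟩ := d'
    rw [e, k, k', l] at cr
    have ex : (-(C / 2) - h0 * x) * (2 * h0 * C') - -(2 * h0 * x') *
        (h0 * C - x / 2) = -(h0 * (C * C' + x * x')) - 3 / 2 * (x * C' - C * x') := by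
      linear_combination (2 * (C * x' - x * C')) * hq
    rw [ex] at cr
    obtain ⟨rfl, rfl, rfl, rfl⟩ := famB13_key h h' cr
    have e1 : X12 = 0 := by rw [k]; ring
    have e2 : t = 1 := by rw [l]; linear_combination hq
    have e3 : X13 = -h0 := by rw [k']; ring
    have e4 : t + t' = 3 / 2 := by rw [e]; linear_combination 2 * hq
    refine Or.inl (ok2_cross hs hs1 hS (znB hs hs1 (ann12 hS) le_rfl s0 ?_)
      (znA' hs hs1 (ann23 hS) le_rfl s0 ?_) (znC' hs hs1 (ann13 hS) le_rfl s0 ?_) ?_)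
    · rw [e1, e2]
      norm_num
    · rw [e1, e3, show t' = 1 / 2 by linarith]
      norm_num
    · rw [e3, e4]
      norm_num
    · linarith
  | 2, 2, d, d' =>
    obtain ⟨k, l⟩ := d
    obtain ⟨k', e⟩ := d'
    subst k l k'
    obtain rfl : t' = h0 * C' - 3 / 2 * x' - (h0 * C - x / 2) := by linarith
    exact c22 hs hs1 h h' hS hc hE
  | 3, 0, d, d' =>
    obtain ⟨k0, k, l⟩ := d
    obtain ⟨k', e⟩ := d'
    rw [e, k, k', l] at cr
    refine (famB13_far h h' ?_ (cr.trans_eq ?_)).elim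
    · nlinarith [mul_nonneg (neg_nonneg.2 k0) h'.C0, mul_nonneg h.C0 (by linarith [h'.lo] :
        0 ≤ x' + 1 / 2), h.C1]
    · ring
  | 3, 1, d, d' =>
    obtain ⟨k0, k, l⟩ := d
    obtain ⟨k', e⟩ := d'
    rw [e, k, k', l] at cr
    refine (famB13_neg h h' (cr.trans_eq ?_)).elim
    ring
  | 3, 2, d, d' =>
    obtain ⟨k0, k, l⟩ := d
    obtain ⟨k', e⟩ := d'
    exfalso
    rw [e, k, k', l] at cr
    have ex : -C * (h0 * C' - 3 / 2 * x') - (-(3 / 2 * C') - h0 * x') * -x =
        -(h0 * (C * C' + x * x')) - 3 / 2 * (x * C' - C * x') := by ring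
    rw [ex] at cr
    obtain ⟨rfl, rfl, rfl, rfl⟩ := famB13_key h h' cr
    nlinarith

end Pool.Agent.Strip051.LC.E0.Out
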