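import Pool.Agent.Strip051.LC.E0.O4.D01

/-! # Small rests: the side 12 of length `√3` and the unit side 13 -/

namespace Pool.Agent.Strip051.LC.E0.Out

open Pool.Agent.StripNear Pool.Agent.StripSquare Pool.Agent.Strip051 Pool.Agent.Strip051.Sweep
open Pool.Agent.Strip051.LC.Line (tau)

section

variable {C x C' x' : ℝ}

private theorem famB31_key (h : Rot C x) (h' : Rot C' x')
    (hc : h0 ≤ -(h0 * (C * C' + x * x')) - 3 / 2 * (x * C' - C * x')) :
    C = h0 ∧ C' = h0 ∧ x = -(1 / 2) ∧ x' = 1 / 2 := by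
  have hh := h0_pos
  have hq := h0_sq'
  have d := geo_half h h'
  have q := geo_sq h h'
  have hD : C * C' + x * x' ≤ 1 / 2 := by
    generalize C * C' + x * x' = D at *
    generalize x * C' - C * x' = M at *
    by_contra hD
    rw [not_le] at hD
    have e : h0 * (1 + D) ≤ 3 / 2 * (-M) := by linarith
    have e2 : (h0 * (1 + D)) ^ 2 ≤ (3 / 2 * (-M)) ^ 2 :=
      pow_le_pow_left₀ (mul_nonneg hh.le (by linarith)) e 2
    rw [mul_pow, hq] at e2
    nlinarith [mul_pos (by linarith : 0 < 1 + D) (by linarith : 0 < D - 1 / 2)]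
  obtain ⟨a, a', ⟨b, b'⟩ | ⟨b, b'⟩⟩ := geo_ex h h' hD
  · exfalso
    rw [a, a', b, b'] at hc
    nlinarith
  · exact ⟨a, a', b, b'⟩

private theorem famB31_dot (h : Rot C x) (h' : Rot C' x')
    (hc : 1 / 2 ≤ -(3 / 2 * (C * C' + x * x')) + h0 * (x * C' - C * x')) : False := by
  have hh := h0_pos
  have hq := h0_sq'
  have d := geo_half h h'
  have q := geo_sq h h'
  generalize C * C' + x * x' = D at *
  generalize x * C' - C * x' = M at *
  have m : M ≤ h0 := by
    refine le_of_sq2 hh.le ?_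
    rw [hq]
    nlinarith
  have e := mul_le_mul_of_nonneg_left m hh.le
  nlinarith

private theorem famB31_neg (h : Rot C x) (h' : Rot C' x')
    (hc : h0 ≤ -(2 * h0 * (C * C' + x * x'))) : False := by
  have hh := h0_pos
  have d := geo_half h h'
  have e := mul_le_mul_of_nonneg_left d hh.le
  nlinarith

private theorem famB31_far (h : Rot C x) (h' : Rot C' x') (hM : x * C' - C * x' ≤ 1 / 2)
    (hc : h0 ≤ -(h0 * (C * C' + x * x')) + 3 / 2 * (x * C' - C * x')) : False := by
  have g := h0_gt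
  have hh := h0_pos
  have d := geo_half h h'
  have e := mul_le_mul_of_nonneg_left d hh.le
  nlinarith

end

private theorem famB31_exn {X12 X13 t t' : ℝ} (hS : Sides X12 X13 t t')
    (hc : 0 ≤ X12 * (t + t') - X13 * t) : 0 ≤ exn X12 X13 t t' := by
  have hh := h0_pos
  have c := cross_ge hS hc
  unfold exn
  have : 1 / 2 ≤ (X12 * (t + t') - X13 * t) / (2 * h0) := by
    rw [le_div_iff₀ (by positivity)]
    linarith
  linarith

variable {s C x C' x' X12 X13 t t' : ℝ}

/-- The side 12 of length `√3` and the unit side 13. -/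
theorem famB31 (hs : 0 < s) (hs1 : s ≤ 11 / 400) (i : Fin 3) (j : Fin 4) (h : Rot C x)
    (h' : Rot C' x') (hS : Sides X12 X13 t t') (hc : 0 ≤ X12 * (t + t') - X13 * t)
    (hE : exn X12 X13 t t' < (174 / 100 + 3 * s) * s) (d : D3 i C x X12 t)
    (d' : D1 j C' x' X13 (t + t')) : Fin3 s X12 X13 t t' := by
  have hh := h0_pos
  have hq := h0_sq'
  have g1 := h0_gt
  have g2 := h0_lt
  have hx := famB31_exn hS hc
  have cr := cross_ge hS hc
  have s0 : (0 : ℝ) ≤ 79 / 10 * s := by positivity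
  have m0 := hS.t1
  have b3 := hS.b3
  have up : h0 * C' ≤ h0 := by nlinarith [h'.C1]
  have lo : 3 / 4 ≤ h0 * C := by nlinarith [h.Ch]
  have l1 := h'.lo
  have l2 := h'.hi
  match i, j, d, d' with
  | 0, 0, d, d' =>
    obtain ⟨k, l⟩ := d
    obtain ⟨k0, k', e⟩ := d'
    rw [e, k, k', l] at cr
    have ex : (3 / 2 * C - h0 * x) * x' - C' * (h0 * C + 3 / 2 * x) =
        -(h0 * (C * C' + x * x')) - 3 / 2 * (x * C' - C * x') := by ring
    rw [ex] at cr
    obtain ⟨rfl, rfl, rfl, rfl⟩ := famB31_key h h' cr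
    have e1 : X12 = 2 * h0 := by rw [k]; ring
    have e2 : t = 0 := by rw [l]; linear_combination hq
    have e3 : X13 = h0 := k'
    have e4 : t + t' = 1 / 2 := e
    refine Or.inl (ok2_cross hs hs1 hS (znD hs hs1 (ann12 hS) le_rfl s0 ?_)
      (znA' hs hs1 (ann23 hS) le_rfl s0 ?_) (znA hs hs1 (ann13 hS) le_rfl s0 ?_) ?_)
    · rw [e1, e2]
      norm_num
    · rw [e1, e3, show t' = 1 / 2 by linarith]
      ring_nf
      norm_num
    · rw [e3, e4]
      norm_num
    · linarith
  | 0, 1, d, d' =>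
    obtain ⟨k, l⟩ := d
    obtain ⟨k', e⟩ := d'
    subst k l k'
    obtain rfl : t' = h0 * C' + x' / 2 - (h0 * C + 3 / 2 * x) := by linarith
    exact d01 hs hs1 h h' hS hc hE
  | 0, 2, d, d' =>
    obtain ⟨k, l⟩ := d
    obtain ⟨k', e⟩ := d'
    exfalso
    have e' : t' = h0 * C' - x' / 2 - (h0 * C + 3 / 2 * x) := by linarith
    have ec : X12 * (t + t') - X13 * t = 2 * h0 * (C * C' + x * x') := by
      rw [e, k, k', l]
      linear_combination (C * x' - x * C') * hq
    have eE : exn X12 X13 t t' = C * C' + x * x' - 1 / 2 := by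
      unfold exn
      rw [ec]
      field_simp
    have dt : 1 / 2 ≤ 2 * h0 * (x * C' - C * x') := by
      rw [k, k', e'] at b3
      have e5 : (-(C' / 2) - h0 * x' - (3 / 2 * C - h0 * x)) ^ 2 +
          (h0 * C' - x' / 2 - (h0 * C + 3 / 2 * x)) ^ 2 =
          4 - 2 * (2 * h0 * (x * C' - C * x')) := by
        linear_combination 3 * h.sq + h'.sq + (C' ^ 2 + x' ^ 2 - 2 * C * C' -
          2 * x * x' + C ^ 2 + x ^ 2) * hq
      rw [e5] at b3
      linarith
    have ho : x' ≤ x := by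
      by_contra hlt
      have n := mul_neg_of_pos_of_neg hh (geo_neg h h' (not_le.1 hlt))
      linarith
    obtain ⟨p, p', p0, p0', p2, -, ps, -⟩ := geo_3c hs hs1 h h' ho eE hE
    have px : (x - 1 / 2) ^ 2 ≤ p ^ 2 := by nlinarith [sq_nonneg (C - h0)]
    have px' := abs_le_of_sq_le_sq' px p0
    linarith [px'.1]
  | 0, 3, d, d' =>
    obtain ⟨k, l⟩ := d
    obtain ⟨k0, k', e⟩ := d'
    exfalso
    have e' : t' = -x' - (h0 * C + 3 / 2 * x) := by linarith
    refine famB31_dot h h' ?_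
    rw [k, k', e'] at b3
    have a := h.sq
    have a' := h'.sq
    nlinarith
  | 1, 0, d, d' =>
    obtain ⟨k, l⟩ := d
    obtain ⟨k0, k', e⟩ := d'
    exfalso
    linarith
  | 1, 1, d, d' =>
    obtain ⟨k, l⟩ := d
    obtain ⟨k', e⟩ := d'
    exfalso
    linarith
  | 1, 2, d, d' =>
    obtain ⟨k, l⟩ := d
    obtain ⟨k', e⟩ := d'
    exfalso
    linarith
  | 1, 3, d, d' =>
    obtain ⟨k, l⟩ := d
    obtain ⟨k0, k', e⟩ := d'
    exfalso
    linarith
  | 2, 0, d, d' =>
    obtain ⟨k, l⟩ := d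
    obtain ⟨k0, k', e⟩ := d'
    rw [e, k, k', l] at cr
    refine (famB31_far h h' ?_ (cr.trans_eq ?_)).elim
    · nlinarith [mul_nonneg k0 h.C0, mul_nonneg h'.C0 (by linarith [h.hi] : 0 ≤ 1 / 2 - x),
        h'.C1]
    · ring
  | 2, 1, d, d' =>
    obtain ⟨k, l⟩ := d
    obtain ⟨k', e⟩ := d'
    rw [e, k, k', l] at cr
    refine (famB31_neg h h' (cr.trans_eq ?_)).elim
    linear_combination (C * x' - x * C') * hq
  | 2, 2, d, d' =>
    obtain ⟨k, l⟩ := d
    obtain ⟨k', e⟩ := d'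
    exfalso
    rw [e, k, k', l] at cr
    have ex : (-(3 / 2 * C) - h0 * x) * (h0 * C' - x' / 2) - (-(C' / 2) - h0 * x') *
        (h0 * C - 3 / 2 * x) = -(h0 * (C * C' + x * x')) - 3 / 2 * (x * C' - C * x') := by
      linear_combination (C * x' - x * C') * hq
    rw [ex] at cr
    obtain ⟨rfl, rfl, rfl, rfl⟩ := famB31_key h h' cr
    have e1 : t = 3 / 2 := by rw [l]; linear_combination hq
    have e2 : t + t' = 1 / 2 := by rw [e]; linear_combination hq
    linarith
  | 2, 3, d, d' =>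
    obtain ⟨k, l⟩ := d
    obtain ⟨k0, k', e⟩ := d'
    exfalso
    rw [e, k, k', l] at cr
    have d1 : C * C' + x * x' ≤ 1 := by nlinarith [geo_sq h h', sq_nonneg (x * C' - C * x')]
    have xl : 1 / 6 ≤ x := by linarith
    have m1 : 0 < x * C' := mul_pos (by linarith) (by linarith [h'.Ch])
    have m2 : 0 ≤ C * -x' := mul_nonneg h.C0 (by linarith)
    nlinarith

end Pool.Agent.Strip051.LC.E0.Out
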