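import Pool.Agent.Strip051.LC.E0.O4.Def

/-! # Small rests: triangles with an inner side above the windows -/

namespace Pool.Agent.Strip051.LC.E0.Out

open Pool.Agent.StripNear Pool.Agent.StripSquare Pool.Agent.Strip051 Pool.Agent.Strip051.Sweep
open Pool.Agent.Strip051.LC.Line (tau)

variable {s X12 X13 t t' : ℝ}

/-! ### The two thresholds -/

theorem m1_inner_thr (hs : 0 < s) (hs1 : s ≤ 11 / 400)
    (h : 9534 / 10000 ≤ X12 * (t + t') - X13 * t) : thr s ≤ exn X12 X13 t t' :=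
  thr_of_cross ((thr_le hs hs1).trans h)

theorem m1_inner_weak (hs : 0 < s) (hs1 : s ≤ 11 / 400)
    (h : 8947 / 10000 ≤ X12 * (t + t') - X13 * t) : 6 / 10 * s ≤ exn X12 X13 t t' := by
  obtain ⟨b1, b2⟩ := h0_bd
  have hh := h0_pos
  unfold exn
  have k : 1 / 2 + 6 / 10 * s ≤ (X12 * (t + t') - X13 * t) / (2 * h0) := by
    rw [le_div_iff₀ (by positivity)]
    have := mul_le_mul b2.le hs1 hs.le (by norm_num)
    linarith
  linarith

/-! ### The curves -/

/-- The curve `W` next to the horizontal direction. -/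
theorem m1_inner_low {T : ℝ} (hT : 0 ≤ T) (h1 : T ≤ 11 / 50) : 1 + 119 / 100 * T ≤ Wc T := by
  obtain ⟨b1, b2⟩ := h0_bd
  obtain ⟨C, C0, eC, eW, -, -⟩ := low_sq hT (by linarith)
  have hq := h0_sq'
  have : 1 / 2 + 119 / 100 * T ≤ C := by
    refine le_of_sq2 C0 ?_
    have e1 : C ^ 2 = 1 / 4 + 2 * h0 * T - T ^ 2 := by linear_combination eC - hq
    have e2 := mul_nonneg hT (by linarith : 0 ≤ h0 - 86602 / 100000)
    have e3 := mul_nonneg hT (by linarith : 0 ≤ 11 / 50 - T)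
    rw [e1]
    linarith
  linarith

/-- The curve `W` above `h0`. -/
theorem m1_inner_upp {T : ℝ} (h1 : h0 ≤ T) (h2 : T ≤ h0 + 11 / 50) :
    4754 / 10000 ≤ Wc T ∧ Wc T ≤ 1 / 2 := by
  obtain ⟨b1, b2⟩ := h0_bd
  have h3 : T ^ 2 ≤ 3 := by
    have := pow_le_pow_left₀ (by linarith : 0 ≤ T) (by linarith : T ≤ 11 / 10) 2
    linarith
  obtain ⟨C, C0, eC, eW, -, -⟩ := upp_sq h1 h3
  refine ⟨?_, (upp_bd h1 h3).2.1⟩
  have d := pow_le_pow_left₀ (by linarith : 0 ≤ T - h0) (by linarith : T - h0 ≤ 11 / 50) 2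
  have : 9754 / 10000 ≤ C := by
    refine le_of_sq2 C0 ?_
    linarith
  linarith

/-- An inner node above `h0`. -/
theorem m1_inner_node {x T : ℝ} (h2 : T ≤ h0 + 11 / 50) (h : NUpp x T ∨ NB x T) :
    h0 ≤ T ∧ 4754 / 10000 ≤ x ∧ x ≤ 65 / 100 := by
  rcases h with ⟨rfl, h1, -⟩ | h
  · obtain ⟨a, b⟩ := m1_inner_upp h1 h2
    exact ⟨h1, a, by linarith⟩
  · obtain ⟨-, a, -, b, -, -⟩ := nb_bd h
    have h1 : h0 ≤ T := h.2.1
    exact ⟨h1, (m1_inner_upp h1 h2).1.trans a, by linarith⟩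

/-- The values at a side, by the sign. -/
theorem m1_inner_sgn {X x : ℝ} (h : |X| = x) : X = x ∧ 0 ≤ X ∨ X = -x ∧ X < 0 := by
  rcases le_or_gt 0 X with h1 | h1
  · exact Or.inl ⟨by rw [← h, abs_of_nonneg h1], h1⟩
  · exact Or.inr ⟨by rw [← h, abs_of_neg h1, neg_neg], h1⟩

theorem m1_inner_cos {X t : ℝ} (hX : 0 ≤ X) (ht : 0 ≤ t) (ht1 : t ≤ 11 / 50)
    (h : 1 ≤ X ^ 2 + t ^ 2) : 1 - 52 / 100 * t ^ 2 ≤ X := by
  refine le_of_sq2 hX ?_
  have u1 : t ^ 2 ≤ 484 / 10000 := by nlinarith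
  have u2 := mul_nonneg (sq_nonneg t) (by linarith : 0 ≤ 484 / 10000 - t ^ 2)
  nlinarith [sq_nonneg t]

/-! ### The window at the horizontal direction -/

/-- The facts common to all cases. -/
theorem m1_inner_pre (hs1 : s ≤ 11 / 400) (hS : Sides X12 X13 t t')
    (hc : 0 ≤ X12 * (t + t') - X13 * t) (ht : t ≤ 8 * s) (hT : 28 / 25 * h0 ≤ t + t') :
    t ≤ 11 / 50 ∧ 96994 / 100000 ≤ t + t' ∧ -(14351 / 10000) ≤ X13 ∧ X13 ≤ 14351 / 10000 ∧
      0 < X12 ∧ 1 - 52 / 100 * t ^ 2 ≤ X12 ∧ 9748 / 10000 ≤ X12 := by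
  obtain ⟨b1, b2⟩ := h0_bd
  have t0 := hS.t0
  have t1 : t ≤ 11 / 50 := by linarith
  have T1 : 96994 / 100000 ≤ t + t' := by linarith
  have k1 := pow_le_pow_left₀ (by norm_num) T1 2
  have k2 : X13 ^ 2 ≤ (14351 / 10000) ^ 2 := by linarith [hS.c3]
  obtain ⟨u1, u2⟩ := abs_le.1 (abs_le_of_sq_le_sq k2 (by norm_num))
  have hg := cross_ge hS hc
  have k3 : -(14351 / 10000) * (11 / 50) ≤ X13 * t := by
    nlinarith [mul_nonneg (by linarith : 0 ≤ X13 + 14351 / 10000) t0]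
  have k4 : 0 < X12 := by
    by_contra hcon
    push Not at hcon
    have := mul_nonneg (by linarith : 0 ≤ -X12) (by linarith : 0 ≤ t + t')
    linarith
  have k5 := m1_inner_cos k4.le t0 t1 hS.a1
  refine ⟨t1, T1, u1, u2, k4, k5, ?_⟩
  nlinarith

/-- The side `12` is an inner node. -/
theorem m1_inner_12 (hs : 0 < s) (hs1 : s ≤ 11 / 400) (hS : Sides X12 X13 t t')
    (hc : 0 ≤ X12 * (t + t') - X13 * t) (ht : t ≤ 8 * s) (hT : 28 / 25 * h0 ≤ t + t')
    (hn : NLow |X12| t) : thr s ≤ exn X12 X13 t t' := by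
  obtain ⟨t1, T1, u1, u2, hX, -, -⟩ := m1_inner_pre hs1 hS hc ht hT
  have t0 := hS.t0
  have t0' := hS.t1
  refine m1_inner_thr hs hs1 ?_
  have w := m1_inner_low t0 t1
  obtain ⟨e, -, -⟩ := hn
  rw [abs_of_pos hX] at e
  rw [← e] at w
  rcases le_or_gt 0 (X13 - X12) with h23 | h23
  · -- to the right
    by_contra hcon
    push Not at hcon
    have k1 := mul_nonneg (by linarith : 0 ≤ X12 - (1 + 119 / 100 * t))
      (by linarith : 0 ≤ t + t')
    have k2 := mul_nonneg (by linarith : 0 ≤ 14351 / 10000 - X13) t0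
    have k3 := mul_nonneg t0 (by linarith : 0 ≤ t + t' - 96994 / 100000)
    have k4 : t + t' - 281 / 1000 * t ≤ 9534 / 10000 := by nlinarith
    have k5 : 588 / 10000 ≤ t := by linarith
    have k6 : t' ≤ 9113 / 10000 := by linarith
    have k7 : X13 - X12 ≤ 3652 / 10000 := by linarith
    have k8 := pow_le_pow_left₀ t0' k6 2
    have k9 := pow_le_pow_left₀ h23 k7 2
    linarith [hS.b1]
  · -- to the left
    rcases le_or_gt t' (99 / 100) with h | h
    · have k8 := pow_le_pow_left₀ t0' h 2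
      have k9 : 141 / 1000 ≤ X12 - X13 := by
        refine le_of_sq2 (by linarith) ?_
        have : (X12 - X13) ^ 2 = (X13 - X12) ^ 2 := by ring
        rw [this]
        linarith [hS.b1]
      have k1 := mul_nonneg (by linarith : 0 ≤ X12 - (1 + 119 / 100 * t)) t0'
      have k2 := mul_nonneg (by linarith : 0 ≤ X12 - X13 - 141 / 1000) t0
      have k3 := mul_nonneg t0 (by linarith : 0 ≤ t + t' - 96994 / 100000)
      have k4 := mul_nonneg t0 (by linarith : 0 ≤ 11 / 50 - t)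
      have e2 : X12 * (t + t') - X13 * t = X12 * t' + (X12 - X13) * t := by ring
      rw [e2]
      nlinarith
    · have k1 := mul_nonneg (by linarith : 0 ≤ X12 - (1 + 119 / 100 * t)) t0'
      have k2 := mul_nonneg (by linarith : 0 ≤ X12 - X13) t0
      have k4 := mul_nonneg t0 t0'
      have e2 : X12 * (t + t') - X13 * t = X12 * t' + (X12 - X13) * t := by ring
      rw [e2]
      nlinarith

/-- The side `23` is an inner node. -/
theorem m1_inner_23 (hs : 0 < s) (hs1 : s ≤ 11 / 400) (hS : Sides X12 X13 t t')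
    (hc : 0 ≤ X12 * (t + t') - X13 * t) (ht : t ≤ 8 * s) (ht' : |t' - h0| ≤ 8 * s)
    (hT : 28 / 25 * h0 ≤ t + t')
    (hn : NLow |X13 - X12| t' ∨ NUpp |X13 - X12| t' ∨ NB |X13 - X12| t') :
    thr s ≤ exn X12 X13 t t' ∨ (0 ≤ X13 ∧ X13 ≤ X12 ∧ 6 / 10 * s ≤ exn X12 X13 t t') := by
  obtain ⟨t1, T1, u1, u2, hX, hX1, hX2⟩ := m1_inner_pre hs1 hS hc ht hT
  obtain ⟨b1, b2⟩ := h0_bd
  have t0 := hS.t0
  have t0' := hS.t1
  obtain ⟨v1, v2⟩ := abs_le.1 ht'
  have e2 : X12 * (t + t') - X13 * t = X12 * t' + (X12 - X13) * t := by ring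
  have k1 := mul_nonneg (by linarith : 0 ≤ X12 - (1 - 52 / 100 * t ^ 2)) t0'
  have t2 : 0 ≤ t ^ 2 := sq_nonneg t
  have k4 := mul_nonneg t2 (by linarith : 0 ≤ 11 / 10 - t')
  have k5 := mul_nonneg t0 (by linarith : 0 ≤ 11 / 50 - t)
  rcases hn with hn | hn
  · -- `W` below `h0`
    obtain ⟨e, h1, h2⟩ := hn
    have w := (low_bd h1 h2).2.2.2
    have w1 : 14864 / 10000 ≤ Wc t' := by nlinarith
    rcases m1_inner_sgn e with ⟨e1, -⟩ | ⟨e1, -⟩
    · exfalso
      linarith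
    · left
      refine m1_inner_thr hs hs1 ?_
      rw [e2]
      have k6 := mul_nonneg (by linarith : 0 ≤ X12 - X13 - 14864 / 10000) t0
      nlinarith
  · obtain ⟨g1, g2, g3⟩ := m1_inner_node (by linarith) hn
    rcases m1_inner_sgn (rfl : |X13 - X12| = |X13 - X12|) with ⟨e1, -⟩ | ⟨e1, -⟩
    · exfalso
      linarith
    · right
      refine ⟨by linarith, by linarith, m1_inner_weak hs hs1 ?_⟩
      rw [e2]
      have k6 := mul_nonneg (by linarith : 0 ≤ X12 - X13 - 4754 / 10000) t0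
      rcases le_or_gt t (7 / 100) with h | h
      · nlinarith
      · have k7 := mul_nonneg (by linarith : 0 ≤ t - 7 / 100) (by linarith : 0 ≤ 11 / 50 - t)
        nlinarith

/-- The side `13` is an inner node. -/
theorem m1_inner_13 (hs : 0 < s) (hs1 : s ≤ 11 / 400) (hS : Sides X12 X13 t t')
    (hc : 0 ≤ X12 * (t + t') - X13 * t) (ht : t ≤ 8 * s)
    (hT : 28 / 25 * h0 ≤ t + t') (hT' : t + t' ≤ h0 + 8 * s)
    (hn : NUpp |X13| (t + t') ∨ NB |X13| (t + t')) :
    thr s ≤ exn X12 X13 t t' ∨ (0 ≤ X13 ∧ X13 ≤ X12 ∧ 6 / 10 * s ≤ exn X12 X13 t t') := by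
  obtain ⟨t1, T1, u1, u2, hX, hX1, hX2⟩ := m1_inner_pre hs1 hS hc ht hT
  obtain ⟨b1, b2⟩ := h0_bd
  have hq := h0_sq'
  have t0 := hS.t0
  have t0' := hS.t1
  obtain ⟨g1, g2, g3⟩ := m1_inner_node (by linarith) hn
  rcases m1_inner_sgn (rfl : |X13| = |X13|) with ⟨e1, e2⟩ | ⟨e1, e2⟩
  · right
    refine ⟨e2, by linarith, m1_inner_weak hs hs1 ?_⟩
    have p1 : 117 / 100 ≤ X13 ^ 2 + (t + t') ^ 2 := by
      rcases hn with hn | hn
      · obtain ⟨e, h1, h2⟩ := hn
        have h3 : (t + t') ^ 2 ≤ 3 := by linarith [hS.c3, sq_nonneg X13]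
        obtain ⟨C, C0, eC, -, e4, -⟩ := upp_sq h1 h3
        rw [← e, sq_abs] at e4
        rw [e4]
        have C1 : C ≤ 1 := by
          refine le_of_sq2 zero_le_one ?_
          linarith [sq_nonneg (t + t' - h0)]
        have k := mul_le_mul_of_nonneg_left (by linarith : 12 / 100 * h0 ≤ t + t' - h0)
          (by linarith : 0 ≤ 2 * h0)
        nlinarith
      · have := (nb_bd hn).2.2.2.2.1
        rwa [sq_abs] at this
    have p2 : X13 ^ 2 + (t + t') ^ 2 ≤ 283 / 100 := by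
      have k1 := pow_le_pow_left₀ (by linarith : 0 ≤ t + t') (by linarith : t + t' ≤ 11 / 10) 2
      have k2 := pow_le_pow_left₀ e2 (by linarith : X13 ≤ 65 / 100) 2
      linarith
    have k3 := side13 hS hc
    refine le_of_sq2 hc ?_
    nlinarith [mul_nonneg (sub_nonneg.2 p1) (sub_nonneg.2 p2)]
  · left
    refine m1_inner_thr hs hs1 ?_
    have k1 := mul_nonneg (by linarith : 0 ≤ X12 - (1 - 52 / 100 * t ^ 2))
      (by linarith : 0 ≤ t + t')
    have t2 : 0 ≤ t ^ 2 := sq_nonneg t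
    have k4 := mul_nonneg t2 (by linarith : 0 ≤ 11 / 10 - (t + t'))
    have k5 := mul_nonneg t0 (by linarith : 0 ≤ 11 / 50 - t)
    have k6 := mul_nonneg (by linarith : 0 ≤ -X13 - 4754 / 10000) t0
    nlinarith

/-- The window at the horizontal direction. -/
theorem m1_inner (hs : 0 < s) (hs1 : s ≤ 11 / 400) (hS : Sides X12 X13 t t')
    (hc : 0 ≤ X12 * (t + t') - X13 * t) (ht : t ≤ 8 * s) (ht' : |t' - h0| ≤ 8 * s)
    (hT : 28 / 25 * h0 ≤ t + t') (hT' : t + t' ≤ h0 + 8 * s)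
    (hn : NLow |X12| t ∨ (NLow |X13 - X12| t' ∨ NUpp |X13 - X12| t' ∨ NB |X13 - X12| t') ∨
      (NUpp |X13| (t + t') ∨ NB |X13| (t + t'))) :
    thr s ≤ exn X12 X13 t t' ∨ (0 ≤ X13 ∧ X13 ≤ X12 ∧ 6 / 10 * s ≤ exn X12 X13 t t') := by
  rcases hn with hn | hn | hn
  · exact Or.inl (m1_inner_12 hs hs1 hS hc ht hT hn)
  · exact m1_inner_23 hs hs1 hS hc ht ht' hT hn
  · exact m1_inner_13 hs hs1 hS hc ht hT hT' hn

/-! ### The window at the vertical direction -/

/-- The facts common to all cases. -/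
theorem vm_inner_pre (hs1 : s ≤ 11 / 400) (hS : Sides X12 X13 t t')
    (hc : 0 ≤ X12 * (t + t') - X13 * t) (ht : 28 / 25 * h0 ≤ t) (ht0 : t ≤ h0 + 8 * s)
    (ht' : |t' - h0| ≤ 8 * s) :
    96994 / 100000 ≤ t ∧ 64602 / 100000 ≤ t' ∧ t' ≤ 76217 / 100000 ∧
      161596 / 100000 ≤ t + t' ∧ X13 ≤ 62345 / 100000 ∧ 0 < X12 ∧
      14085 / 10000 - t' ≤ |X13 - X12| := by
  obtain ⟨b1, b2⟩ := h0_bd
  have t0 := hS.t0
  have t0' := hS.t1
  obtain ⟨v1, v2⟩ := abs_le.1 ht'
  have h1 : 96994 / 100000 ≤ t := by linarith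
  have h2 : 64602 / 100000 ≤ t' := by linarith
  have hT : t + t' ≤ 173206 / 100000 := by
    refine le_of_sq2 (by norm_num) ?_
    linarith [hS.c3, sq_nonneg X13]
  have h3 : t' ≤ 76217 / 100000 := by linarith
  have h4 : 161596 / 100000 ≤ t + t' := by linarith
  have k1 := pow_le_pow_left₀ (by norm_num) h4 2
  have k2 : X13 ^ 2 ≤ (62345 / 100000) ^ 2 := by linarith [hS.c3]
  obtain ⟨u1, u2⟩ := abs_le.1 (abs_le_of_sq_le_sq k2 (by norm_num))
  have hg := cross_ge hS hc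
  have k3 : -(62345 / 100000) * (10861 / 10000) ≤ X13 * t := by
    nlinarith [mul_nonneg (by linarith : 0 ≤ X13 + 62345 / 100000) t0]
  have k4 : 0 < X12 := by
    by_contra hcon
    push Not at hcon
    have := mul_nonneg (by linarith : 0 ≤ -X12) (by linarith : 0 ≤ t + t')
    linarith
  refine ⟨h1, h2, h3, h4, u2, k4, ?_⟩
  refine le_of_sq2 (abs_nonneg _) ?_
  rw [sq_abs]
  have k5 := mul_nonneg (by linarith : 0 ≤ t' - 64602 / 100000)
    (by linarith : 0 ≤ 76217 / 100000 - t')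
  nlinarith [hS.b1]

/-- The window at the vertical direction. -/
theorem vm_inner (hs : 0 < s) (hs1 : s ≤ 11 / 400) (hS : Sides X12 X13 t t')
    (hc : 0 ≤ X12 * (t + t') - X13 * t) (ht : 28 / 25 * h0 ≤ t) (ht0 : t ≤ h0 + 8 * s)
    (ht' : |t' - h0| ≤ 8 * s) (hT : |t + t' - 2 * h0| ≤ 8 * s)
    (hn : (NUpp |X12| t ∨ NB |X12| t) ∨
      (NLow |X13 - X12| t' ∨ NUpp |X13 - X12| t' ∨ NB |X13 - X12| t') ∨ NB |X13| (t + t')) :
    thr s ≤ exn X12 X13 t t' := by
  obtain ⟨h1, h2, h3, h4, hX13, hX, hq⟩ := vm_inner_pre hs1 hS hc ht ht0 ht'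
  obtain ⟨b1, b2⟩ := h0_bd
  have t0 := hS.t0
  have t0' := hS.t1
  have e2 : X12 * (t + t') - X13 * t = X12 * t' + (X12 - X13) * t := by ring
  have hlt : X13 - X12 < 0 := by
    by_contra hcon
    push Not at hcon
    rw [abs_of_nonneg hcon] at hq
    linarith
  rw [abs_of_neg hlt] at hq
  have hq' : 14085 / 10000 - t' ≤ X12 - X13 := by linarith
  have m1 := mul_nonneg (by linarith : 0 ≤ X12 - X13 - (14085 / 10000 - t')) t0
  have m2 := mul_nonneg (by linarith : 0 ≤ 14085 / 10000 - t')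
    (by linarith : 0 ≤ t - 96994 / 100000)
  refine m1_inner_thr hs hs1 ?_
  rw [e2]
  rcases hn with hn | hn | hn
  · -- the side `12`
    obtain ⟨-, g2, -⟩ := m1_inner_node (by linarith) hn
    rw [abs_of_pos hX] at g2
    have m3 := mul_nonneg (by linarith : 0 ≤ X12 - 4754 / 10000) t0'
    nlinarith
  · -- the side `23`
    rcases hn with hn | hn
    · obtain ⟨e, g1, g2⟩ := hn
      have w := (low_bd g1 g2).2.2.2
      have w1 : 145 / 100 ≤ Wc t' := by nlinarith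
      rw [abs_of_neg hlt] at e
      have m3 := mul_nonneg hX.le t0'
      have m4 := mul_nonneg (by linarith : 0 ≤ X12 - X13 - 145 / 100) t0
      nlinarith
    · exfalso
      have g : h0 ≤ t' := by
        rcases hn with ⟨-, g, -⟩ | ⟨-, g, -⟩ <;> exact g
      linarith
  · -- the side `13`
    rcases m1_inner_sgn (rfl : |X13| = |X13|) with ⟨e1, e3⟩ | ⟨e1, e3⟩
    · have m3 := mul_nonneg (by linarith : 0 ≤ X12 - (14085 / 10000 - t')) t0'
      nlinarith
    · obtain ⟨x, hx⟩ : ∃ x, x = |X13| := ⟨_, rfl⟩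
      rw [← hx] at hn e1
      have hc3 := hS.c3
      have hx2 : X13 ^ 2 = x ^ 2 := by rw [hx, sq_abs]
      have hx0 : 0 ≤ x := by rw [hx]; exact abs_nonneg _
      have m3 := mul_nonneg (by linarith : 0 ≤ X12 - (14085 / 10000 - t' - x)) t0'
      rcases le_or_gt t' (3 / 4) with h | h
      · have x1 : x ≤ 2309 / 10000 := by
          obtain ⟨e, g1, g2⟩ := hn
          obtain ⟨C, C0, eC, eW, -, -⟩ := upp_sq g1 g2
          have k1 := pow_le_pow_left₀ (by norm_num)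
            (by linarith : 74993 / 100000 ≤ t + t' - h0) 2
          have k2 : C ≤ 6616 / 10000 := by
            refine le_of_sq2 (by norm_num) ?_
            linarith
          have k3 := pow_le_pow_left₀ (by norm_num) h4 2
          have k4 : c3 (t + t') ≤ 62345 / 100000 := by
            refine le_of_sq2 (by norm_num) ?_
            rw [show c3 (t + t') ^ 2 = 3 - (t + t') ^ 2 by linarith [c3_sq g2]]
            linarith
          linarith
        have m4 := mul_nonneg (by linarith : 0 ≤ 2309 / 10000 - x) t0'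
        have m5 := mul_nonneg (by linarith : 0 ≤ 3 / 4 - t')
          (by linarith : 0 ≤ t' - 64602 / 100000)
        nlinarith
      · have k3 := pow_le_pow_left₀ (by norm_num)
          (by linarith : 171994 / 100000 ≤ t + t') 2
        have x1 : x ≤ 2046 / 10000 := by
          refine le_of_sq2 (by norm_num) ?_
          linarith
        have m4 := mul_nonneg (by linarith : 0 ≤ 2046 / 10000 - x) t0'
        have m5 := mul_nonneg (by linarith : 0 ≤ t' - 3 / 4)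
          (by linarith : 0 ≤ 76217 / 100000 - t')
        nlinarith

end Pool.Agent.Strip051.LC.E0.Out
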