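import Pool.Agent.Strip051.LC.E0.O4.Def

/-! # Small rests: the kinds of nodes -/

namespace Pool.Agent.Strip051.LC.E0.Out

open Pool.Agent.StripNear Pool.Agent.StripSquare Pool.Agent.Strip051 Pool.Agent.Strip051.Sweep
open Pool.Agent.Strip051.LC.Line (tau)

/-- The kinds of nodes. -/
def Ns (x T : ℝ) : Prop := NCir x T ∨ NLow x T ∨ NUpp x T ∨ NF x T ∨ NB x T ∨ NC3 x T

/-- A node on `W` or `b`. -/
def Inr (x T : ℝ) : Prop := NLow x T ∨ NUpp x T ∨ NB x T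

theorem ns_of {X T : ℝ} (hT : 0 ≤ T) (k : Fin 4) (h : pos.dm k T) (e : |X| = pos.cv k T) :
    Ns |X| T := by
  have hh := h0_pos
  match k with
  | 0 =>
    obtain ⟨h1, h2⟩ := dm_zero.1 h
    exact Or.inl ⟨by rw [e, cv_zero], hT, h1⟩
  | 1 =>
    obtain ⟨h1, h2, h3⟩ := dm_one.1 h
    rcases lt_or_gt_of_ne h3 with h4 | h4
    · exact Or.inr (Or.inr (Or.inr (Or.inl ⟨by rw [e, cv_one_low h4], h1, h4⟩)))
    · exact Or.inr (Or.inr (Or.inl ⟨by rw [e, cv_one_high h4.le], h4.le, h2.le⟩))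
  | 2 =>
    obtain ⟨h1, h2⟩ := dm_two.1 h
    rcases lt_or_ge T h0 with h4 | h4
    · exact Or.inr (Or.inl ⟨by rw [e, cv_two_low h4], hT, h4⟩)
    · exact Or.inr (Or.inr (Or.inr (Or.inr (Or.inl ⟨by rw [e, cv_two_high h4], h4, h1.le⟩))))
  | 3 =>
    have h1 := dm_three.1 h
    exact Or.inr (Or.inr (Or.inr (Or.inr (Or.inr ⟨by rw [e, cv_three], hT, h1⟩))))

end Pool.Agent.Strip051.LC.E0.Out
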