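import Pool.Agent.Strip051.LC.E0.O4.Big
import Pool.Agent.Strip051.LC.E0.O4.Ns
import Pool.Agent.Strip051.LC.E0.O4.M1T
import Pool.Agent.Strip051.LC.E0.O4.M1I
import Pool.Agent.Strip051.LC.E0.O4.FAny
import Pool.Agent.Strip051.LC.E0.O4.FA11
import Pool.Agent.Strip051.LC.E0.O4.FB11
import Pool.Agent.Strip051.LC.E0.O4.FB13
import Pool.Agent.Strip051.LC.E0.O4.FB31
import Pool.Agent.Strip051.LC.E0.O4.FA13
import Pool.Agent.Strip051.LC.E0.O4.BV
import Pool.Agent.Strip051.LC.E0.O2.A1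
import Pool.Agent.Strip051.LC.E0.O2.A2
import Pool.Agent.Strip051.LC.E0.O2.B1
import Pool.Agent.Strip051.LC.E0.O2.B2
import Pool.Agent.Strip051.LC.E0.O2.C1
import Pool.Agent.Strip051.LC.E0.O2.C2
import Pool.Agent.Strip051.LC.E0.O2.C3
import Pool.Agent.Strip051.LC.E0.O2.D1
import Pool.Agent.Strip051.LC.E0.O2.E1
import Pool.Agent.Strip051.LC.E0.O2.E2
import Pool.Agent.Strip051.LC.E0.O2.E3
import Pool.Agent.Strip051.LC.E0.O2.W1

/-! # Small rests: all pairs of nodes outside the windows -/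

namespace Pool.Agent.Strip051.LC.E0.Out

open Pool.Agent.StripNear Pool.Agent.StripSquare Pool.Agent.Strip051 Pool.Agent.Strip051.Sweep
open Pool.Agent.Strip051.LC.Line (tau)

/-! ### The rows -/

section

variable {s X12 X13 t t' : ℝ}

theorem sgn_abs (X : ℝ) : ∃ σ : ℝ, (σ = 1 ∨ σ = -1) ∧ σ * |X| = X := by
  rcases abs_cases X with ⟨h, -⟩ | ⟨h, -⟩
  · exact ⟨1, Or.inl rfl, by rw [h, one_mul]⟩
  · exact ⟨-1, Or.inr rfl, by rw [h]; ring⟩

theorem rowA_use {P Q : ℝ → ℝ → Prop} (hR : RowA P Q) (hs : 0 < s) (hs1 : s ≤ 11 / 400)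
    (hS : Sides X12 X13 t t') (hc : 0 ≤ X12 * (t + t') - X13 * t) (hP : P |X12| t)
    (hQ : Q |X13 - X12| t') : Win8 s t t' ∨ thr s ≤ exn X12 X13 t t' := by
  obtain ⟨σ, hσ, e⟩ := sgn_abs X12
  obtain ⟨σ', hσ', e'⟩ := sgn_abs (X13 - X12)
  have e3 : σ * |X12| + σ' * |X13 - X12| = X13 := by rw [e, e']; ring
  have := hR s |X12| |X13 - X12| t t' σ σ' hs hs1 hP hQ hσ hσ' (by rw [e3, e]; exact hS)
    (by rw [e, e']; linarith)
  rwa [e3, e] at this

theorem rowB_use {P Q : ℝ → ℝ → Prop} (hR : RowB P Q) (hs : 0 < s) (hs1 : s ≤ 11 / 400)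
    (hS : Sides X12 X13 t t') (hc : 0 ≤ X12 * (t + t') - X13 * t) (hP : P |X12| t)
    (hQ : Q |X13| (t + t')) : Win8 s t t' ∨ thr s ≤ exn X12 X13 t t' := by
  obtain ⟨σ, hσ, e⟩ := sgn_abs X12
  obtain ⟨σ', hσ', e'⟩ := sgn_abs X13
  have := hR s |X12| |X13| t t' σ σ' hs hs1 hP hQ hσ hσ' (by rw [e, e']; exact hS)
    (by rw [e, e']; exact hc)
  rwa [e, e'] at this

/-! ### The windows -/

theorem cr_mir (hc : 0 ≤ X12 * (t + t') - X13 * t) :
    0 ≤ (X12 - X13) * (t' + t) - -X13 * t' := by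
  linarith

/-- Above the first window. -/
theorem inn_H (hs : 0 < s) (hs1 : s ≤ 11 / 400) (hS : Sides X12 X13 t t')
    (hc : 0 ≤ X12 * (t + t') - X13 * t) (h1 : t ≤ 8 * s) (h2 : |t' - h0| ≤ 8 * s)
    (h3 : |t + t' - h0| ≤ 8 * s)
    (hi : Inr |X12| t ∨ Inr |X13 - X12| t' ∨ Inr |X13| (t + t')) : Fin3 s X12 X13 t t' := by
  obtain ⟨b1, b2⟩ := h0_bd
  have t0 := hS.t0
  obtain ⟨h3a, h3b⟩ := abs_le.1 h3
  rcases le_or_gt (t + t') (28 / 25 * h0) with h4 | h4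
  · exact Or.inr (Or.inl ⟨h1, h2, h3, by linarith, h4⟩)
  left
  have hn : NLow |X12| t ∨ (NLow |X13 - X12| t' ∨ NUpp |X13 - X12| t' ∨ NB |X13 - X12| t') ∨
      (NUpp |X13| (t + t') ∨ NB |X13| (t + t')) := by
    rcases hi with (h | h | h) | h | (h | h | h)
    · exact Or.inl h
    · have := h.2.1
      linarith
    · have := h.2.1
      linarith
    · exact Or.inr (Or.inl h)
    · have := h.2.2
      linarith
    · exact Or.inr (Or.inr (Or.inl h))
    · exact Or.inr (Or.inr (Or.inr h))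
  rcases m1_inner hs hs1 hS hc h1 h2 h4.le (by linarith) hn with h5 | ⟨h5, h6, h7⟩
  · exact triv_ok hs hs1 hS h5
  · rcases le_or_gt (thr s) (exn X12 X13 t t') with h8 | h8
    · exact triv_ok hs hs1 hS h8
    · exact ok2_of hs hs1 hS ⟨9 / 4, 0, le_rfl,
        m1T hs hs1 hS h1 h2 h4.le (by linarith) h5 h6 h7 h8⟩

/-- Above the window at the vertical direction. -/
theorem inn_V (hs : 0 < s) (hs1 : s ≤ 11 / 400) (hS : Sides X12 X13 t t')
    (hc : 0 ≤ X12 * (t + t') - X13 * t) (h1 : |t - h0| ≤ 8 * s) (h2 : |t' - h0| ≤ 8 * s)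
    (h3 : |t + t' - 2 * h0| ≤ 8 * s) (h4 : 28 / 25 * h0 ≤ t)
    (hi : Inr |X12| t ∨ Inr |X13 - X12| t' ∨ Inr |X13| (t + t')) : OK2 s X12 X13 t t' := by
  obtain ⟨b1, b2⟩ := h0_bd
  obtain ⟨h1a, h1b⟩ := abs_le.1 h1
  obtain ⟨h3a, h3b⟩ := abs_le.1 h3
  refine triv_ok hs hs1 hS (vm_inner hs hs1 hS hc h4 (by linarith) h2 h3 ?_)
  rcases hi with (h | h | h) | h | (h | h | h)
  · have := h.2.2
    linarith
  · exact Or.inl (Or.inl h)
  · exact Or.inl (Or.inr h)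
  · exact Or.inr (Or.inl h)
  · have := h.2.2
    linarith
  · have := h.2.2
    linarith
  · exact Or.inr (Or.inr h)

/-- A pair with an inner node in a window of size `8 s`, or a large excess. -/
theorem inn_fin (hs : 0 < s) (hs1 : s ≤ 11 / 400) (hS : Sides X12 X13 t t')
    (hc : 0 ≤ X12 * (t + t') - X13 * t) (hw : Win8 s t t' ∨ thr s ≤ exn X12 X13 t t')
    (hi : Inr |X12| t ∨ Inr |X13 - X12| t' ∨ Inr |X13| (t + t')) : Fin3 s X12 X13 t t' := by
  have g1 := h0_gt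
  have hi' : Inr |X12 - X13| t' ∨ Inr |-X13 - (X12 - X13)| t ∨ Inr |-X13| (t' + t) := by
    rw [abs_sub_comm, show -X13 - (X12 - X13) = -X12 by ring, abs_neg, abs_neg, add_comm t' t]
    rcases hi with h | h | h
    · exact Or.inr (Or.inl h)
    · exact Or.inl h
    · exact Or.inr (Or.inr h)
  rcases hw with (⟨h1, h2, h3⟩ | ⟨h1, h2, h3⟩ | ⟨h1, h2, h3⟩) | hw
  · exact inn_H hs hs1 hS hc h1 h2 h3 hi
  · refine fin3_mir hs.le (by linarith) (inn_H hs hs1 (sides_mir hS) (cr_mir hc) h2 h1 ?_ hi')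
    rwa [add_comm]
  · rcases le_or_gt (28 / 25 * h0) t with h4 | h4
    · exact Or.inl (inn_V hs hs1 hS hc h1 h2 h3 h4 hi)
    rcases le_or_gt (28 / 25 * h0) t' with h5 | h5
    · refine Or.inl (ok2_mir hs.le (by linarith) (inn_V hs hs1 (sides_mir hS) (cr_mir hc) h2 h1 ?_
        h5 hi'))
      rwa [add_comm]
    · exact Or.inr (Or.inr (Or.inr (Or.inl ⟨h1, h2, h3, h4.le, h5.le⟩)))
  · exact Or.inl (triv_ok hs hs1 hS hw)

/-! ### Two circle nodes -/

theorem cc_A (hs : 0 < s) (hs1 : s ≤ 11 / 400) (hS : Sides X12 X13 t t')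
    (hc : 0 ≤ X12 * (t + t') - X13 * t) (h : NCir |X12| t) (h' : NCir |X13 - X12| t') :
    Fin3 s X12 X13 t t' := by
  rcases le_or_gt ((174 / 100 + 3 * s) * s) (exn X12 X13 t t') with hE | hE
  · exact Or.inl (big_ok hs hs1 hS (Or.inl h) hE)
  obtain ⟨i, C, x, r, d⟩ := node_c1 h.2.1 h.2.2.le h.1
  obtain ⟨j, C', x', r', d'⟩ := node_c1 h'.2.1 h'.2.2.le h'.1
  exact famA11 hs hs1 i j r r' hS hc hE d d'

theorem cc_B (hs : 0 < s) (hs1 : s ≤ 11 / 400) (hS : Sides X12 X13 t t')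
    (hc : 0 ≤ X12 * (t + t') - X13 * t) (h : NCir |X12| t) (h' : NCir |X13| (t + t')) :
    Fin3 s X12 X13 t t' := by
  rcases le_or_gt ((174 / 100 + 3 * s) * s) (exn X12 X13 t t') with hE | hE
  · exact Or.inl (big_ok hs hs1 hS (Or.inl h) hE)
  obtain ⟨i, C, x, r, d⟩ := node_c1 h.2.1 h.2.2.le h.1
  obtain ⟨j, C', x', r', d'⟩ := node_c1 h'.2.1 h'.2.2.le h'.1
  exact famB11 hs hs1 i j r r' hS hc hE d d'

theorem c3_A (hs : 0 < s) (hs1 : s ≤ 11 / 400) (hS : Sides X12 X13 t t')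
    (hc : 0 ≤ X12 * (t + t') - X13 * t) (h : NCir |X12| t) (h' : NC3 |X13 - X12| t') :
    Fin3 s X12 X13 t t' := by
  rcases le_or_gt ((174 / 100 + 3 * s) * s) (exn X12 X13 t t') with hE | hE
  · exact Or.inl (big_ok hs hs1 hS (Or.inl h) hE)
  obtain ⟨i, C, x, r, d⟩ := node_c1 h.2.1 h.2.2.le h.1
  obtain ⟨j, C', x', r', d'⟩ := node_c3 h'.2.1 h'.2.2 h'.1
  exact famA13 hs hs1 i j r r' hS hc hE d d'

theorem c3_B (hs : 0 < s) (hs1 : s ≤ 11 / 400) (hS : Sides X12 X13 t t')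
    (hc : 0 ≤ X12 * (t + t') - X13 * t) (h : NCir |X12| t) (h' : NC3 |X13| (t + t')) :
    Fin3 s X12 X13 t t' := by
  rcases le_or_gt ((174 / 100 + 3 * s) * s) (exn X12 X13 t t') with hE | hE
  · exact Or.inl (big_ok hs hs1 hS (Or.inl h) hE)
  obtain ⟨i, C, x, r, d⟩ := node_c1 h.2.1 h.2.2.le h.1
  obtain ⟨j, C', x', r', d'⟩ := node_c3 h'.2.1 h'.2.2 h'.1
  exact famB13 hs hs1 i j r r' hS hc hE d d'

theorem cc_3B (hs : 0 < s) (hs1 : s ≤ 11 / 400) (hS : Sides X12 X13 t t')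
    (hc : 0 ≤ X12 * (t + t') - X13 * t) (h : NC3 |X12| t) (h' : NCir |X13| (t + t')) :
    Fin3 s X12 X13 t t' := by
  rcases le_or_gt ((174 / 100 + 3 * s) * s) (exn X12 X13 t t') with hE | hE
  · exact Or.inl (big_ok hs hs1 hS (Or.inr (Or.inr h')) hE)
  obtain ⟨i, C, x, r, d⟩ := node_c3 h.2.1 h.2.2 h.1
  obtain ⟨j, C', x', r', d'⟩ := node_c1 h'.2.1 h'.2.2.le h'.1
  exact famB31 hs hs1 i j r r' hS hc hE d d'

/-- The length of a long node. -/
theorem nc3_len {X T : ℝ} (h : NC3 |X| T) : X ^ 2 + T ^ 2 = 3 := by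
  obtain ⟨h1, -, h3⟩ := h
  rw [← sq_abs, h1, c3_sq h3]

theorem three_A (hs : 0 < s) (hs1 : s ≤ 11 / 400) (hS : Sides X12 X13 t t')
    (hc : 0 ≤ X12 * (t + t') - X13 * t) (h : NC3 |X12| t) (h' : NC3 |X13 - X12| t') :
    thr s ≤ exn X12 X13 t t' := by
  apply thr_of_cross
  have e1 := nc3_len h
  have e2 := nc3_len h'
  exact two_sides hs hs1 hc (by rw [e1]; norm_num) e1.le (by rw [e2]; norm_num) e2.le hS.c1 hS.c3
    (heron _ _ _ _)

theorem three_B (hs : 0 < s) (hs1 : s ≤ 11 / 400) (hS : Sides X12 X13 t t')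
    (hc : 0 ≤ X12 * (t + t') - X13 * t) (h : NC3 |X12| t) (h' : NC3 |X13| (t + t')) :
    thr s ≤ exn X12 X13 t t' := by
  apply thr_of_cross
  have e1 := nc3_len h
  have e2 := nc3_len h'
  exact two_sides hs hs1 hc (by rw [e1]; norm_num) e1.le (by rw [e2]; norm_num) e2.le hS.b1 hS.b3
    (by ring)

/-! ### All pairs -/

/-- Half of the pairs 12, 23. -/
theorem pair_half (hs : 0 < s) (hs1 : s ≤ 11 / 400) (hS : Sides X12 X13 t t')
    (hc : 0 ≤ X12 * (t + t') - X13 * t) (h : NCir |X12| t) (h' : Ns |X13 - X12| t') :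
    Fin3 s X12 X13 t t' := by
  rcases h' with h' | h' | h' | h' | h' | h'
  · exact cc_A hs hs1 hS hc h h'
  · exact inn_fin hs hs1 hS hc (rowA_use rowA_cir_low hs hs1 hS hc h h')
      (Or.inr (Or.inl (Or.inl h')))
  · exact inn_fin hs hs1 hS hc (rowA_use rowA_cir_upp hs hs1 hS hc h h')
      (Or.inr (Or.inl (Or.inr (Or.inl h'))))
  · exact Or.inl (f_any hs hs1 hS hc (Or.inr (Or.inl h')))
  · exact inn_fin hs hs1 hS hc (rowA_use rowA_cir_nb hs hs1 hS hc h h')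
      (Or.inr (Or.inl (Or.inr (Or.inr h'))))
  · exact c3_A hs hs1 hS hc h h'

theorem pair_mir (hs : 0 < s) (hs1 : s ≤ 11 / 400) (hS : Sides X12 X13 t t')
    (hc : 0 ≤ X12 * (t + t') - X13 * t) (h : Ns |X12| t) (h' : NCir |X13 - X12| t') :
    Fin3 s X12 X13 t t' := by
  have g1 := h0_gt
  refine fin3_mir hs.le (by linarith) (pair_half hs hs1 (sides_mir hS) (cr_mir hc) ?_ ?_)
  · rwa [abs_sub_comm]
  · rwa [show -X13 - (X12 - X13) = -X12 by ring, abs_neg]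

/-- The sides 12 and 23 are nodes. -/
theorem pairA (hs : 0 < s) (hs1 : s ≤ 11 / 400) (hS : Sides X12 X13 t t')
    (hc : 0 ≤ X12 * (t + t') - X13 * t) (h : Ns |X12| t) (h' : Ns |X13 - X12| t') :
    Fin3 s X12 X13 t t' := by
  have g1 := h0_gt
  have mir : ∀ {P Q : ℝ → ℝ → Prop}, RowA P Q → Q |X12| t → P |X13 - X12| t' →
      (Inr |X12| t ∨ Inr |X13 - X12| t') → Fin3 s X12 X13 t t' := by
    intro P Q hR a b c
    refine fin3_mir hs.le (by linarith) (inn_fin hs hs1 (sides_mir hS) (cr_mir hc)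
      (rowA_use hR hs hs1 (sides_mir hS) (cr_mir hc) ?_ ?_) ?_)
    · rwa [abs_sub_comm]
    · rwa [show -X13 - (X12 - X13) = -X12 by ring, abs_neg]
    · rw [abs_sub_comm, show -X13 - (X12 - X13) = -X12 by ring, abs_neg]
      rcases c with c | c
      · exact Or.inr (Or.inl c)
      · exact Or.inl c
  have dir : ∀ {P Q : ℝ → ℝ → Prop}, RowA P Q → P |X12| t → Q |X13 - X12| t' →
      (Inr |X12| t ∨ Inr |X13 - X12| t') → Fin3 s X12 X13 t t' := by
    intro P Q hR a b c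
    refine inn_fin hs hs1 hS hc (rowA_use hR hs hs1 hS hc a b) ?_
    rcases c with c | c
    · exact Or.inl c
    · exact Or.inr (Or.inl c)
  rcases h' with h' | h' | h' | h' | h' | h'
  · exact pair_mir hs hs1 hS hc h h'
  all_goals rcases h with h | h | h | h | h | h
  · exact pair_half hs hs1 hS hc h (Or.inr (Or.inl h'))
  · exact dir rowA_W_W (Or.inl h) (Or.inl h') (Or.inl (Or.inl h))
  · exact dir rowA_W_W (Or.inr h) (Or.inl h') (Or.inl (Or.inr (Or.inl h)))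
  · exact Or.inl (f_any hs hs1 hS hc (Or.inl h))
  · exact dir rowA_nb_low h h' (Or.inl (Or.inr (Or.inr h)))
  · exact mir rowA_W_c3 h (Or.inl h') (Or.inr (Or.inl h'))
  · exact pair_half hs hs1 hS hc h (Or.inr (Or.inr (Or.inl h')))
  · exact dir rowA_W_W (Or.inl h) (Or.inr h') (Or.inl (Or.inl h))
  · exact dir rowA_W_W (Or.inr h) (Or.inr h') (Or.inl (Or.inr (Or.inl h)))
  · exact Or.inl (f_any hs hs1 hS hc (Or.inl h))
  · exact mir rowA_upp_nb h h' (Or.inl (Or.inr (Or.inr h)))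
  · exact mir rowA_W_c3 h (Or.inr h') (Or.inr (Or.inr (Or.inl h')))
  all_goals try exact Or.inl (f_any hs hs1 hS hc (Or.inr (Or.inl h')))
  · exact pair_half hs hs1 hS hc h (Or.inr (Or.inr (Or.inr (Or.inr (Or.inl h')))))
  · exact dir rowA_low_nb h h' (Or.inl (Or.inl h))
  · exact dir rowA_upp_nb h h' (Or.inl (Or.inr (Or.inl h)))
  · exact Or.inl (f_any hs hs1 hS hc (Or.inl h))
  · exact dir rowA_long (Or.inr (Or.inl h)) (Or.inr (Or.inl h')) (Or.inl (Or.inr (Or.inr h)))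
  · exact dir rowA_long (Or.inr (Or.inr h)) (Or.inr (Or.inl h')) (Or.inr (Or.inr (Or.inr h')))
  · exact pair_half hs hs1 hS hc h (Or.inr (Or.inr (Or.inr (Or.inr (Or.inr h')))))
  · exact dir rowA_W_c3 (Or.inl h) h' (Or.inl (Or.inl h))
  · exact dir rowA_W_c3 (Or.inr h) h' (Or.inl (Or.inr (Or.inl h)))
  · exact Or.inl (f_any hs hs1 hS hc (Or.inl h))
  · exact dir rowA_long (Or.inr (Or.inl h)) (Or.inr (Or.inr h')) (Or.inl (Or.inr (Or.inr h)))
  · exact Or.inl (triv_ok hs hs1 hS (three_A hs hs1 hS hc h h'))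

/-- The sides 12 and 13 are nodes. -/
theorem pairB (hs : 0 < s) (hs1 : s ≤ 11 / 400) (hS : Sides X12 X13 t t')
    (hc : 0 ≤ X12 * (t + t') - X13 * t) (h : Ns |X12| t) (h' : Ns |X13| (t + t')) :
    Fin3 s X12 X13 t t' := by
  have t1 := hS.t1
  have dir : ∀ {P Q : ℝ → ℝ → Prop}, RowB P Q → P |X12| t → Q |X13| (t + t') →
      (Inr |X12| t ∨ Inr |X13| (t + t')) → Fin3 s X12 X13 t t' := by
    intro P Q hR a b c
    refine inn_fin hs hs1 hS hc (rowB_use hR hs hs1 hS hc a b) ?_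
    rcases c with c | c
    · exact Or.inl c
    · exact Or.inr (Or.inr c)
  rcases h with h | h | h | h | h | h
  all_goals rcases h' with h' | h' | h' | h' | h' | h'
  all_goals try exact Or.inl (f_any hs hs1 hS hc (Or.inr (Or.inr h')))
  all_goals try exact Or.inl (f_any hs hs1 hS hc (Or.inl h))
  · exact cc_B hs hs1 hS hc h h'
  · exact dir rowB_cir_low h h' (Or.inr (Or.inl h'))
  · exact dir rowB_cir_upp h h' (Or.inr (Or.inr (Or.inl h')))
  · -- c1, b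
    rcases le_or_gt (t + t') (1592 / 1000) with h1 | h1
    · obtain ⟨σ, hσ, e⟩ := sgn_abs X12
      obtain ⟨σ', hσ', e'⟩ := sgn_abs X13
      have := rowB_cir_nb hs hs1 h h' h1 hσ hσ' (by rw [e, e']; exact hS)
        (by rw [e, e']; exact hc)
      rw [e, e'] at this
      exact inn_fin hs hs1 hS hc this (Or.inr (Or.inr (Or.inr (Or.inr h'))))
    · rcases le_or_gt ((174 / 100 + 3 * s) * s) (exn X12 X13 t t') with hE | hE
      · exact Or.inl (big_ok hs hs1 hS (Or.inl h) hE)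
      rcases bv hs hs1 hS hc h h' h1 hE with h2 | h2
      · exact Or.inl h2
      · exact Or.inr (Or.inr (Or.inr (Or.inl h2)))
  · exact c3_B hs hs1 hS hc h h'
  · exact dir rowB_low_cir h h' (Or.inl (Or.inl h))
  · exact dir rowB_W_W (Or.inl h) (Or.inl h') (Or.inl (Or.inl h))
  · exact dir rowB_W_W (Or.inl h) (Or.inr h') (Or.inl (Or.inl h))
  · exact dir rowB_low_nb h h' (Or.inl (Or.inl h))
  · exact dir rowB_W_c3 (Or.inl h) h' (Or.inl (Or.inl h))
  · exact dir rowB_upp_cir h h' (Or.inl (Or.inr (Or.inl h)))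
  · exact dir rowB_W_W (Or.inr h) (Or.inl h') (Or.inl (Or.inr (Or.inl h)))
  · exact dir rowB_W_W (Or.inr h) (Or.inr h') (Or.inl (Or.inr (Or.inl h)))
  · exact dir rowB_upp_nb h h' (Or.inl (Or.inr (Or.inl h)))
  · exact dir rowB_W_c3 (Or.inr h) h' (Or.inl (Or.inr (Or.inl h)))
  · exact dir rowB_nb_cir h h' (Or.inl (Or.inr (Or.inr h)))
  · exfalso
    have := h.2.1
    have := h'.2.2
    linarith
  · exact dir rowB_nb_upp h h' (Or.inl (Or.inr (Or.inr h)))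
  · exact dir rowB_long (Or.inr (Or.inl h)) (Or.inr (Or.inl h')) (Or.inl (Or.inr (Or.inr h)))
  · exact dir rowB_long (Or.inr (Or.inl h)) (Or.inr (Or.inr h')) (Or.inl (Or.inr (Or.inr h)))
  · exact cc_3B hs hs1 hS hc h h'
  · exact dir rowB_c3_W h (Or.inl h') (Or.inr (Or.inl h'))
  · exact dir rowB_c3_W h (Or.inr h') (Or.inr (Or.inr (Or.inl h')))
  · exact dir rowB_long (Or.inr (Or.inr h)) (Or.inr (Or.inl h')) (Or.inr (Or.inr (Or.inr h')))
  · exact Or.inl (triv_ok hs hs1 hS (three_B hs hs1 hS hc h h'))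

end

end Pool.Agent.Strip051.LC.E0.Out
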