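import Pool.Agent.Strip051.LC.E0.O4.Def
import Pool.Agent.Strip051.LC.E0.O3.GeoB
import Pool.Agent.Strip051.LC.E0.O3.SecC
import Pool.Agent.Strip051.LC.E0.O3.Lev

/-! # Small rests: two unit sides, the third side longer, above the window -/

namespace Pool.Agent.Strip051.LC.E0.Out

open Pool.Agent.StripNear Pool.Agent.StripSquare Pool.Agent.Strip051 Pool.Agent.Strip051.Sweep
open Pool.Agent.Strip051.LC.Line (tau)

/-! ### The kernel on the unit circle from `5 s / 2` on -/

/-- The slope of the correction between `5 / 2` and `4`. -/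
noncomputable def m1aD : ℝ := -(2 / 3) * par.d3

theorem m1a_D : 23125 / 10000 ≤ m1aD ∧ m1aD ≤ 23128 / 10000 := by
  obtain ⟨a, b⟩ := par_d3
  unfold m1aD
  constructor <;> linarith

theorem m1a_dc_hi {w : ℝ} (h : 5 / 2 ≤ w) : dc par w = -(m1aD * max (4 - w) 0) := by
  rcases le_or_gt w 4 with h4 | h4
  · rw [max_eq_left (by linarith)]
    rcases h.eq_or_lt with h3 | h3
    · rw [← h3]
      unfold dc
      rw [if_neg (by norm_num), if_neg (by norm_num), if_pos le_rfl, pl_right (by norm_num)]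
      unfold m1aD
      ring
    · unfold dc
      rw [if_neg (by linarith), if_neg (by linarith), if_neg (by linarith), if_pos h4]
      unfold pl m1aD
      ring
  · rw [max_eq_right (by linarith)]
    unfold dc
    rw [if_neg (by linarith), if_neg (by linarith), if_neg (by linarith), if_neg (by linarith)]
    ring

theorem m1a_dc_ge {w : ℝ} (h : 0 ≤ w) (h4 : w ≤ 4) : -(m1aD * (4 - w)) ≤ dc par w := by
  have a := par_d0
  have b := par_d1
  have c := par_d2
  obtain ⟨d1, d2⟩ := m1a_D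
  rcases le_or_gt (5 / 2) w with h5 | h5
  · rw [m1a_dc_hi h5, max_eq_left (by linarith)]
  · have k := mul_le_mul_of_nonneg_right d1 (by linarith : 0 ≤ 4 - w)
    unfold dc
    split_ifs with h1 h2 h3
    · have h5 := mul_le_mul_of_nonneg_left a.1 h
      have h6 : 0 ≤ w * (par.d1 * w) := mul_nonneg h (mul_nonneg (by linarith [b.1]) h)
      linarith
    · have := le_pl_aff (a := 23125 / 10000) (b := -(23125 / 10000) * 4) (y0 := par.d0 + par.d1)
        (y1 := par.d2) (by norm_num : (1 : ℝ) < 3 / 2) (not_le.1 h1).le h2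
        (by linarith [b.1, a.1]) (by linarith [c.1])
      linarith
    · have := le_pl_aff (a := m1aD) (b := -m1aD * 4) (y0 := par.d2)
        (y1 := par.d3) (by norm_num : (3 / 2 : ℝ) < 5 / 2) (not_le.1 h2).le (by linarith)
        (by linarith [c.1]) (by unfold m1aD; linarith)
      linarith
    · exact absurd h5.le h3

theorem m1a_RA_hi {s σ : ℝ} (hs : 0 < s) (h : 5 / 2 * s ≤ σ) :
    RA par s σ = 1 - 2 * σ + m1aD * max (4 * s - σ) 0 := by
  have h1 : 5 / 2 ≤ σ / s := by rwa [le_div_iff₀ hs]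
  have e : s * max (4 - σ / s) 0 = max (4 * s - σ) 0 := by
    rw [mul_max_of_nonneg _ _ hs.le]
    congr 1
    · field_simp
    · ring
  unfold RA
  rw [m1a_dc_hi h1, ← e]
  ring

theorem m1a_RA_le {s σ : ℝ} (hs : 0 < s) (h : 0 ≤ σ) (h4 : σ ≤ 4 * s) :
    RA par s σ ≤ 1 - 2 * σ + m1aD * (4 * s - σ) := by
  have h1 : σ / s ≤ 4 := by rwa [div_le_iff₀ hs]
  have k := mul_le_mul_of_nonneg_left (m1a_dc_ge (div_nonneg h hs.le) h1) hs.le
  have e : s * -(m1aD * (4 - σ / s)) = -(m1aD * (4 * s - σ)) := by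
    field_simp
  rw [e] at k
  unfold RA
  linarith

/-- The kernel at `z`. -/
theorem m1a_K {s z : ℝ} (hs : 0 < s) (hs1 : s ≤ 11 / 400) (hz : 707 / 10000 ≤ z)
    (hz1 : z ≤ 1 / 2) :
    0 ≤ RA par s z ∧ RA par s z ≤ 96 / 100 ∧
      s * (RA par s z / z + (2 + m1aD)) ≤ 488 / 1000 := by
  obtain ⟨d1, d2⟩ := m1a_D
  have z0 : 0 < z := by linarith
  have e := m1a_RA_hi hs (by linarith : 5 / 2 * s ≤ z)
  have m0 := le_max_right (4 * s - z) 0
  have m1 : m1aD * max (4 * s - z) 0 ≤ 23128 / 10000 * max (4 * s - z) 0 :=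
    mul_le_mul_of_nonneg_right d2 m0
  have m2 : 0 ≤ m1aD * max (4 * s - z) 0 := mul_nonneg (by linarith) m0
  refine ⟨by linarith, ?_, ?_⟩
  · rcases le_or_gt z (4 * s) with h | h
    · rw [max_eq_left (by linarith)] at m1 e
      linarith
    · rw [max_eq_right (by linarith)] at m1 e
      linarith
  · have e1 : s * (RA par s z / z + (2 + m1aD)) = s * (RA par s z + (2 + m1aD) * z) / z := by
      field_simp
    rw [e1, div_le_iff₀ z0, e]
    rcases le_or_gt z (4 * s) with h | h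
    · rw [max_eq_left (by linarith)]
      have k1 : 1 - 2 * z + m1aD * (4 * s - z) + (2 + m1aD) * z = 1 + 4 * (m1aD * s) := by ring
      have k2 : m1aD * s ≤ 23128 / 10000 * (11 / 400) := mul_le_mul d2 hs1 hs.le (by norm_num)
      have k3 : s * (1 + 4 * (m1aD * s)) ≤ 11 / 400 * (1 + 4 * (23128 / 10000 * (11 / 400))) :=
        mul_le_mul hs1 (by linarith) (by
          have := mul_nonneg (by linarith : (0 : ℝ) ≤ m1aD) hs.le
          linarith) (by norm_num)
      rw [k1]
      linarith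
    · rw [max_eq_right (by linarith)]
      have k1 : s * (1 - 2 * z + m1aD * 0 + (2 + m1aD) * z) = s + m1aD * s * z := by ring
      have k2 : m1aD * s ≤ 23128 / 10000 * (11 / 400) := mul_le_mul d2 hs1 hs.le (by norm_num)
      have k3 := mul_le_mul_of_nonneg_right k2 z0.le
      rw [k1]
      linarith

/-- The residue below `z`. -/
theorem m1a_dn {s x z : ℝ} (hs : 0 < s) (hx : 0 ≤ x) (hx4 : x ≤ 4 * s) (ho : x ≤ z)
    (hz : 252 / 100 * s ≤ z) (hz1 : z ≤ 1 / 2) :
    |RA par s x - RA par s z / z * x| ≤ (z - x) * (RA par s z / z + (2 + m1aD)) := by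
  obtain ⟨d1, d2⟩ := m1a_D
  have z0 : 0 < z := by linarith
  have e := m1a_RA_hi hs (by linarith : 5 / 2 * s ≤ z)
  have eK : RA par s z / z * z = RA par s z := by field_simp
  have m0 := le_max_right (4 * s - z) 0
  have m1 := le_max_left (4 * s - z) 0
  have K0 : 0 ≤ RA par s z / z := by
    refine div_nonneg ?_ z0.le
    rw [e]
    have : 0 ≤ m1aD * max (4 * s - z) 0 := mul_nonneg (by linarith) m0
    linarith
  have k1 : RA par s z / z * x ≤ RA par s z / z * z := mul_le_mul_of_nonneg_left ho K0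
  have up : RA par s x ≤ RA par s z + (2 + m1aD) * (z - x) := by
    have a := m1a_RA_le hs hx hx4
    have b := mul_le_mul_of_nonneg_left m1 (by linarith : 0 ≤ m1aD)
    rw [e]
    linarith
  have lo : RA par s z ≤ RA par s x := by
    rcases le_or_gt x (5 / 2 * s) with h | h
    · have a := RA_ge6 hs hx h
      have b : m1aD * max (4 * s - z) 0 ≤ m1aD * (148 / 100 * s) :=
        mul_le_mul_of_nonneg_left (max_le (by linarith) (by linarith)) (by linarith)
      have c : m1aD * (148 / 100 * s) ≤ 23128 / 10000 * (148 / 100 * s) :=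
        mul_le_mul_of_nonneg_right d2 (by linarith)
      rw [e]
      linarith
    · rw [e, m1a_RA_hi hs h.le]
      have b : m1aD * max (4 * s - z) 0 ≤ m1aD * max (4 * s - x) 0 :=
        mul_le_mul_of_nonneg_left (max_le_max (by linarith) le_rfl) (by linarith)
      linarith
  rw [abs_of_nonneg (by linarith)]
  linarith

/-- The residue above `z`. -/
theorem m1a_up {s x z : ℝ} (hs : 0 < s) (ho : z ≤ x) (hz : 252 / 100 * s ≤ z)
    (hz1 : z ≤ 1 / 2) :
    |RA par s |x| - RA par s z / z * x| ≤ (x - z) * (RA par s z / z + (2 + m1aD)) := by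
  obtain ⟨d1, d2⟩ := m1a_D
  have z0 : 0 < z := by linarith
  rw [abs_of_nonneg (by linarith : 0 ≤ x)]
  have e := m1a_RA_hi hs (by linarith : 5 / 2 * s ≤ z)
  have e' := m1a_RA_hi hs (by linarith : 5 / 2 * s ≤ x)
  have eK : RA par s z / z * z = RA par s z := by field_simp
  have m0 := le_max_right (4 * s - z) 0
  have K0 : 0 ≤ RA par s z / z := by
    refine div_nonneg ?_ z0.le
    rw [e]
    have : 0 ≤ m1aD * max (4 * s - z) 0 := mul_nonneg (by linarith) m0
    linarith
  have k1 : RA par s z / z * z ≤ RA par s z / z * x := mul_le_mul_of_nonneg_left ho K0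
  have lo : RA par s x ≤ RA par s z := by
    rw [e, e']
    have b : m1aD * max (4 * s - x) 0 ≤ m1aD * max (4 * s - z) 0 :=
      mul_le_mul_of_nonneg_left (max_le_max (by linarith) le_rfl) (by linarith)
    linarith
  have up : RA par s z ≤ RA par s x + (2 + m1aD) * (x - z) := by
    have b : max (4 * s - z) 0 ≤ max (4 * s - x) 0 + (x - z) :=
      max_le (by linarith [le_max_left (4 * s - x) 0]) (by linarith [le_max_right (4 * s - x) 0])
    have c := mul_le_mul_of_nonneg_left b (by linarith : 0 ≤ m1aD)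
    rw [e, e']
    linarith
  rw [abs_of_nonpos (by linarith)]
  linarith

/-! ### The levels -/

theorem m1a_xA_hi {s w : ℝ} (hw : 5 / 2 < w) : xA par s w = 319 / 375 * max (4 - w) 0 := by
  rcases le_or_gt w 4 with h4 | h4
  · rw [max_eq_left (by linarith), xA_u4 hw h4]
  · rw [max_eq_right (by linarith), xA_u5 h4.le, mul_zero]

theorem m1a_xA_le {s w : ℝ} (hs : 0 < s) (hs1 : s ≤ 11 / 400) (hw : 0 ≤ w) (h4 : w ≤ 4) :
    xA par s w ≤ 319 / 375 * (4 - w) := by
  rcases le_or_gt w 1 with h1 | h1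
  · have := xA_u1 hs hs1 hw h1
    linarith
  rcases le_or_gt w (3 / 2) with h2 | h2
  · have := xA_u2 hs hs1 h1.le h2
    linarith
  rcases le_or_gt w (5 / 2) with h3 | h3
  · have := xA_u3 hs hs1 h2.le h3
    linarith
  · rw [xA_u4 h3 h4]

/-- Lower bounds of the level. -/
theorem m1a_xA_ge {s w : ℝ} (hs : 0 < s) (hs1 : s ≤ 11 / 400) (hw : 0 ≤ w) :
    (w ≤ 1 → 38 / 100 * w ≤ xA par s w) ∧ (1 ≤ w → w ≤ 3 / 2 → 49 / 100 ≤ xA par s w) ∧
      (3 / 2 ≤ w → w ≤ 5 / 2 → 74 / 100 + 536 / 1000 * (w - 3 / 2) ≤ xA par s w) := by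
  obtain ⟨a1, a2⟩ := x1_bd hs hs1
  obtain ⟨b1, b2⟩ := xm_bd hs hs1
  have f1 : ∀ w : ℝ, 0 ≤ w → w ≤ 1 → 38 / 100 * w ≤ xA par s w ∧ xA par s 1 = x1 s := by
    intro w hw h1
    have e1 : xA par s 1 = x1 s := by
      unfold xA x0
      rw [if_pos (by norm_num), if_pos le_rfl]
      ring
    refine ⟨?_, e1⟩
    unfold xA x0
    rw [if_pos (by linarith), if_pos h1]
    have : 38 / 100 ≤ 2 * x1 s - xm par s + (xm par s - x1 s) * w := by
      have := mul_nonneg (by linarith : 0 ≤ xm par s - x1 s) hw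
      linarith
    have := mul_le_mul_of_nonneg_left this hw
    linarith
  have f2 : ∀ w : ℝ, 1 ≤ w → w ≤ 3 / 2 → xA par s w = x1 s + xm par s * (w - 1) := by
    intro w h1 h2
    rcases h1.eq_or_lt with h3 | h3
    · rw [← h3, (f1 1 zero_le_one le_rfl).2]
      ring
    · unfold xA x0
      rw [if_pos h2, if_neg (by linarith)]
  refine ⟨fun h1 => (f1 w hw h1).1, fun h1 h2 => ?_, fun h1 h2 => ?_⟩
  · rw [f2 w h1 h2]
    have := mul_nonneg (by linarith : 0 ≤ xm par s) (by linarith : 0 ≤ w - 1)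
    linarith
  · rcases h1.eq_or_lt with h3 | h3
    · rw [← h3, f2 _ (by norm_num) le_rfl]
      linarith
    · unfold xA
      rw [if_neg (by linarith), if_pos h2]
      have e : par.a1 = 319 / 250 := rfl
      have := le_pl_aff (a := 536 / 1000) (b := 74 / 100 - 536 / 1000 * (3 / 2))
        (y0 := x1 s + xm par s / 2) (y1 := par.a1) (by norm_num : (3 / 2 : ℝ) < 5 / 2) h1 h2
        (by linarith) (by rw [e]; norm_num)
      linarith

theorem m1a_xA_ge' {s w : ℝ} (hs : 0 < s) (hs1 : s ≤ 11 / 400) (hw : 0 ≤ w) (h : w ≤ 5 / 2) :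
    319 / 375 * (w - 1) ≤ xA par s w := by
  obtain ⟨a, b, c⟩ := m1a_xA_ge hs hs1 hw
  rcases le_or_gt w 1 with h1 | h1
  · have := a h1
    linarith
  rcases le_or_gt w (3 / 2) with h2 | h2
  · have := b h1.le h2
    linarith
  · have := c h2.le h
    linarith

/-- The taper is dominated by the level. -/
theorem m1a_taper {s w : ℝ} (hs : 0 < s) (hs1 : s ≤ 11 / 400) (hw : 0 ≤ w) (h : w ≤ 4) :
    0 ≤ taper w ∧ 38 / 100 * taper w ≤ xA par s w := by
  obtain ⟨a, b, c⟩ := m1a_xA_ge hs hs1 hw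
  unfold taper pl
  split_ifs with h1
  · exact ⟨hw, a h1⟩
  · rcases le_or_gt w (3 / 2) with h2 | h2
    · have := b (by linarith) h2
      constructor <;> linarith
    rcases le_or_gt w (5 / 2) with h3 | h3
    · have := c h2.le h3
      constructor <;> linarith
    · rw [xA_u4 h3 h]
      constructor <;> linarith

/-- The level is Lipschitz. -/
theorem m1a_xA_dn {s w v : ℝ} (hs : 0 < s) (hs1 : s ≤ 11 / 400) (hw : 0 ≤ w) (h4 : w ≤ 4)
    (ho : w ≤ v) (hv : 5 / 2 < v) : |xA par s v - xA par s w| ≤ 319 / 375 * (v - w) := by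
  have e := m1a_xA_hi (s := s) hv
  have m0 := le_max_right (4 - v) 0
  have m1 := le_max_left (4 - v) 0
  have m2 : max (4 - v) 0 ≤ v - 1 := max_le (by linarith) (by linarith)
  have a := m1a_xA_le hs hs1 hw h4
  rw [e, abs_le]
  constructor
  · linarith
  · rcases le_or_gt w (5 / 2) with h | h
    · have := m1a_xA_ge' hs hs1 hw h
      linarith
    · rw [m1a_xA_hi h]
      have : max (4 - v) 0 ≤ max (4 - w) 0 := max_le_max (by linarith) le_rfl
      linarith

theorem m1a_xA_up {s w v : ℝ} (ho : v ≤ w) (hv : 5 / 2 < v) :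
    |xA par s v - xA par s w| ≤ 319 / 375 * (w - v) := by
  rw [m1a_xA_hi (s := s) hv, m1a_xA_hi (s := s) (by linarith : 5 / 2 < w)]
  have b : max (4 - v) 0 ≤ max (4 - w) 0 + (w - v) :=
    max_le (by linarith [le_max_left (4 - w) 0]) (by linarith [le_max_right (4 - w) 0])
  have c : max (4 - w) 0 ≤ max (4 - v) 0 := max_le_max (by linarith) le_rfl
  rw [abs_le]
  constructor <;> linarith

theorem m1a_xB_hi {w : ℝ} (hw : 2 ≤ w) : xB par (w / 2) = 571 / 2250 * max (5 - w) 0 := by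
  rcases le_or_gt w 5 with h | h
  · rw [max_eq_left (by linarith), xB_u2 (by linarith) (by linarith)]
    ring
  · rw [max_eq_right (by linarith), xB_u3 (by linarith), mul_zero]

theorem m1a_xB_up {w v : ℝ} (ho : v ≤ w) (hv : 2 ≤ v) :
    |xB par (v / 2) - xB par (w / 2)| ≤ 571 / 2250 * (w - v) := by
  rw [m1a_xB_hi hv, m1a_xB_hi (by linarith : 2 ≤ w)]
  have b : max (5 - v) 0 ≤ max (5 - w) 0 + (w - v) :=
    max_le (by linarith [le_max_left (5 - w) 0]) (by linarith [le_max_right (5 - w) 0])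
  have c : max (5 - w) 0 ≤ max (5 - v) 0 := max_le_max (by linarith) le_rfl
  rw [abs_le]
  constructor <;> linarith

/-! ### The third node -/

variable {s C x C' x' : ℝ}

/-- The third node and the node of the same height on the outer circle. -/
theorem m1a_geo (hs : 0 < s) (hs1 : s ≤ 11 / 400) (h : Rot C x) (h' : Rot C' x')
    (hx : 0 ≤ x) (hx4 : x ≤ 4 * s) (ho : x ≤ x')
    (hT : 28 / 25 * h0 ≤ x + (h0 * C' + x' / 2)) :
    ∃ Z z q : ℝ, Rot Z z ∧ x + (h0 * C' + x' / 2) = h0 * Z + 3 / 2 * z ∧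
      c3 (x + (h0 * C' + x' / 2)) = 3 / 2 * Z - h0 * z ∧ 707 / 10000 ≤ z ∧ x ≤ z ∧ z ≤ x' ∧
      0 ≤ q ∧ q ≤ 29 / 50 ∧ z - x = (x' - z) * (1 / 2 - h0 * q) ∧
      3 / 2 * Z - h0 * z - (C + (C' / 2 - h0 * x')) ≤ (x' - z) * (h0 + q / 2) := by
  have hh := h0_pos
  have hq := h0_sq'
  obtain ⟨b1, b2⟩ := h0_bd
  have c1 := mul_le_mul_of_nonneg_left h'.C1 hh.le
  have hT2 : x + (h0 * C' + x' / 2) ≤ 3 / 2 := by linarith [h'.hi]
  obtain ⟨Z, z, r, eT, eX, ez⟩ := secc_node (T := x + (h0 * C' + x' / 2)) (by linarith) hT2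
  obtain ⟨-, -, -, -, -, -, f⟩ := n30_facts r
  rw [← eT] at f
  have Zh := r.Ch
  have Z1 := r.C1
  have p0 : 0 < 3 / 2 - h0 * z / (1 + Z) := by
    have : h0 * z / (1 + Z) ≤ 1 / 2 := by
      rw [div_le_iff₀ (by linarith)]
      have := mul_le_mul_of_nonneg_left r.hi hh.le
      linarith
    linarith
  have z0 : 0 < z := by
    have : 0 < z * (3 / 2 - h0 * z / (1 + Z)) := by rw [← f]; linarith
    exact pos_of_mul_pos_left this p0.le
  have p1 : 43301 / 100000 * z ≤ h0 * z / (1 + Z) := by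
    rw [le_div_iff₀ (by linarith)]
    have k1 := mul_le_mul_of_nonneg_left Z1 z0.le
    have k2 := mul_le_mul_of_nonneg_right b1.le z0.le
    linarith
  have zl : 707 / 10000 ≤ z := by
    by_contra hc
    rw [not_le] at hc
    have k1 : z * (3 / 2 - h0 * z / (1 + Z)) ≤ z * (3 / 2 - 43301 / 100000 * z) :=
      mul_le_mul_of_nonneg_left (by linarith) z0.le
    have k2 : 0 ≤ (707 / 10000 - z) * (3 / 2 - 43301 / 100000 * (z + 707 / 10000)) :=
      mul_nonneg (by linarith) (by linarith)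
    nlinarith
  obtain ⟨q, q1, q2, q3, q4⟩ := mv r h'
  have x0' : 0 ≤ x' := by linarith
  have C'h := h'.Ch
  have q0 : 0 ≤ q := by
    by_contra hc
    rw [not_le] at hc
    have := mul_neg_of_neg_of_pos hc (by linarith : 0 < Z + C')
    linarith
  rw [abs_of_nonneg q0] at q2 q4
  rw [abs_of_nonneg (by linarith : 0 ≤ z + x')] at q2
  have hq2 : 0 ≤ 1 / 2 - h0 * q := by linarith [r.hi, h'.hi]
  have e1 : z - x = (x' - z) * (1 / 2 - h0 * q) := by
    linear_combination -eT + h0 * q1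
  have zx' : z ≤ x' := by
    by_contra hc
    rw [not_le] at hc
    have := mul_nonneg (by linarith : 0 ≤ z - x') hq2
    linarith
  have xz : x ≤ z := by
    have := mul_nonneg (by linarith : 0 ≤ x' - z) hq2
    linarith
  have ZC : Z ≤ C := by
    refine le_of_sq2 h.C0 ?_
    have := h.sq
    have := r.sq
    have := pow_le_pow_left₀ hx xz 2
    linarith
  refine ⟨Z, z, q, r, eT, eX, zl, xz, zx', q0, q4, e1, ?_⟩
  linarith

/-- The kernel at the inner node. -/
theorem m1a_v2 {T : ℝ} (hs : 0 < s) (hs1 : s ≤ 11 / 400) (h : 28 / 25 * h0 ≤ T)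
    (h1 : T ≤ 114 / 100) : 0 ≤ vA par s T 2 ∧ vA par s T 2 ≤ 144 / 100 := by
  have hh := h0_pos
  have hq := h0_sq'
  obtain ⟨b1, b2⟩ := h0_bd
  have hT3 : T ^ 2 ≤ 3 := by nlinarith
  obtain ⟨o1, o2, o3, o4, o5⟩ := order5 (by linarith : 0 ≤ T) hT3
  have oW : c1 T ≤ Wc T := by linarith
  have u3 := (c3_half (by linarith : 0 ≤ T) hT3).2 (by linarith : h0 ≤ T)
  obtain ⟨W0, W1, -⟩ := upp_bd (by linarith : h0 ≤ T) hT3
  have cp := c1_nonneg T
  have z : 2 < (T - h0) / s := by
    rw [lt_div_iff₀ hs]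
    linarith
  have e : slU par s ((T - h0) / s) = 4 * h0 - 3 := by
    unfold slU
    rw [if_neg (by linarith), if_neg (by linarith)]
  have v : vA par s T 2 = RW par s T + par.l1 * (3 / 20 * (c3 T - Wc T)) := by
    have : vA par s T 2 = if T < h0 then RW par s T
      else if T < 3 * h0 / 2 then RW par s T + par.l1 * (3 / 20 * (c3 T - Wc T))
      else (Wc T + 3 / 20 * (c3 T - Wc T)) / 2 := rfl
    rw [this, if_neg (by linarith), if_pos (by linarith)]
  have w : RW par s T = (if T < 1 then R1 par s T else 0) + (4 * h0 - 3) * (Wc T - c1 T) := by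
    unfold RW
    rw [if_neg (by linarith), if_neg (by linarith), e]
  have l : par.l1 = 353 / 500 := rfl
  have R : 0 ≤ (if T < 1 then R1 par s T else 0) ∧
      (if T < 1 then R1 par s T else 0) ≤ c1 T + s / 2 := by
    split_ifs with h2
    · have F := tu_facts (by linarith : h0 ≤ T) h2.le
      refine ⟨?_, (abs_le.1 (R1_le hs hs1 (by linarith) h2.le)).2⟩
      unfold R1
      rw [if_neg (by linarith), if_neg (by linarith), abs_of_nonneg F.x0]
      refine mul_nonneg ?_ ?_
      · have := RA_ge (s := s) hs F.x0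
        linarith [F.x1]
      · have : h0 * (T / 2 - h0 * c1 T) / (1 + (c1 T / 2 + h0 * T)) ≤ 1 / 2 := by
          rw [div_le_iff₀ (by linarith [F.C0])]
          have := mul_le_mul_of_nonneg_left F.x1 hh.le
          linarith [F.C0]
        linarith
    · exact ⟨le_rfl, by linarith⟩
  have m1 : 0 ≤ (4 * h0 - 3) * (Wc T - c1 T) := mul_nonneg (by linarith) (by linarith)
  have m2 : (4 * h0 - 3) * (Wc T - c1 T) ≤ 465 / 1000 * (1 / 2) :=
    mul_le_mul (by linarith) (by linarith) (by linarith) (by norm_num)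
  rw [v, w, l]
  constructor
  · linarith [R.1]
  · linarith [R.2]

/-- The level at the inner node. -/
theorem m1a_vX {T : ℝ} (hs : 0 < s) (hs1 : s ≤ 11 / 400) (h : 28 / 25 * h0 ≤ T)
    (h1 : T ≤ 114 / 100) : vX par s T 2 = 0 := by
  have hh := h0_pos
  obtain ⟨b1, b2⟩ := h0_bd
  have : vX par s T 2 = s ^ 2 * (if T < h0 / 2 then xA par s (T / s)
    else if T < h0 then xW par s ((h0 - T) / s)
    else if T < 3 * h0 / 2 then xW par s ((T - h0) / s)
    else XV par s (pos.cv 2 T)) := rfl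
  rw [this, if_neg (by linarith), if_neg (by linarith), if_pos (by linarith)]
  have z : 5 / 2 < (T - h0) / s := by
    rw [lt_div_iff₀ hs]
    linarith
  unfold xW
  rw [if_neg (by linarith), if_neg (by linarith), mul_zero]

/-- The correction at the inner node. -/
theorem m1a_vR {T : ℝ} (hs : 0 < s) (hs1 : s ≤ 11 / 400) (h : 28 / 25 * h0 ≤ T)
    (h1 : T ≤ 114 / 100) : |vR par s T 2| ≤ 2 := by
  have hh := h0_pos
  obtain ⟨b1, b2⟩ := h0_bd
  have : vR par s T 2 = if T < h0 / 2 then r2 par s * taper (T / s)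
    else if T < h0 then (r2 par s - r2d par s) * taper ((h0 - T) / s)
    else if T < 3 * h0 / 2 then (r2 par s + r2d par s) * taper ((T - h0) / s)
    else 0 := rfl
  rw [this, if_neg (by linarith), if_neg (by linarith), if_pos (by linarith), abs_mul]
  obtain ⟨r1, r2'⟩ := r2_bd hs hs1
  have t := taper_bd (div_nonneg (by linarith : 0 ≤ T - h0) hs.le)
  have a : |r2 par s + r2d par s| ≤ 2 := (abs_add_le _ _).trans (by linarith)
  have := mul_le_mul a t (abs_nonneg _) (by norm_num)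
  linarith

/-- The kernels at the third node. -/
theorem m1a_13 {Z z X T : ℝ} (hs : 0 < s) (hs1 : s ≤ 11 / 400) (r : Rot Z z)
    (hz : 707 / 10000 ≤ z) (eT : T = h0 * Z + 3 / 2 * z) (eX : c3 T = 3 / 2 * Z - h0 * z)
    (h : 28 / 25 * h0 ≤ T) (h1 : T ≤ 114 / 100) (hX : 1 ≤ X) (hXc : X ≤ c3 T) :
    |kA s X T - RA par s z / z * tau T| ≤ 212 / 100 * (c3 T - X) ∧
      |kR s X T| ≤ 3 * (c3 T - X) ∧
      |kX s X T - (2 * (s ^ 2 * xA par s (z / s)) - lvl s z)| ≤
        15 / 10 * (c3 T - X) * |2 * (s ^ 2 * xA par s (z / s)) - lvl s z| := by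
  have hh := h0_pos
  have hq := h0_sq'
  obtain ⟨b1, b2⟩ := h0_bd
  have z0 : 0 < z := by linarith
  have hT3 : T ^ 2 ≤ 3 := by nlinarith
  have e3 := c3_sq hT3
  have p3 := c3_nonneg T
  have l3 : 1303 / 1000 ≤ c3 T := by
    refine le_of_sq2 p3 ?_
    nlinarith
  have u3 := (c3_half (by linarith : 0 ≤ T) hT3).2 (by linarith : h0 ≤ T)
  obtain ⟨W0, W1, -⟩ := upp_bd (by linarith : h0 ≤ T) hT3
  have hSc : Wc T < c3 T := by linarith
  have lo : Wc T + 3 / 20 * (c3 T - Wc T) ≤ X := by linarith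
  have S0 : 0 < 17 / 20 * (c3 T - Wc T) := by linarith
  have g0 : 0 ≤ (c3 T - X) / (17 / 20 * (c3 T - Wc T)) := div_nonneg (by linarith) S0.le
  have g2 : (c3 T - X) / (17 / 20 * (c3 T - Wc T)) ≤ 1466 / 1000 * (c3 T - X) := by
    rw [div_le_iff₀ S0]
    have := mul_le_mul_of_nonneg_left
      (by linarith : 1 ≤ 1466 / 1000 * (17 / 20 * (c3 T - Wc T)))
      (by linarith : 0 ≤ c3 T - X)
    linarith
  have segv : ∀ v : ℝ → Fin 4 → ℝ, K.adm v → ker K.nodes v (fun _ _ => 0) X T =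
      v T 3 - (v T 3 - v T 2) * ((c3 T - X) / (17 / 20 * (c3 T - Wc T))) := fun v hv =>
    secc_seg hv (by linarith) hT3 lo hXc hSc
  generalize (c3 T - X) / (17 / 20 * (c3 T - Wc T)) = γ at g0 g2 segv
  refine ⟨?_, ?_, ?_⟩
  · obtain ⟨n1, n2, n3, n4, n5, n6, n7⟩ := n30_facts r
    have v3 : vA par s T 3 = RA par s z / z * tau T := by
      have a := n30_kA hs hs1 r z0.ne'
      rw [← eX, ← eT, abs_of_pos z0, kA_c3 (by linarith) hT3] at a
      exact a
    have t3 : RA par s z / z * tau T = RA par s z * (3 / 2 - h0 * z / (1 + Z)) := by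
      rw [tau_mi (by linarith) (by linarith), eT, n7]
      field_simp
    obtain ⟨k0, k1, -⟩ := m1a_K hs hs1 hz r.hi
    obtain ⟨v0, v1⟩ := m1a_v2 hs hs1 h h1
    have Zh := r.Ch
    have w0 : 0 ≤ h0 * z / (1 + Z) := div_nonneg (mul_nonneg hh.le z0.le) (by linarith)
    have w1 : h0 * z / (1 + Z) ≤ 1 / 2 := by
      rw [div_le_iff₀ (by linarith)]
      have := mul_le_mul_of_nonneg_left r.hi hh.le
      linarith
    have m0 : 0 ≤ RA par s z * (3 / 2 - h0 * z / (1 + Z)) := mul_nonneg k0 (by linarith)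
    have m1 : RA par s z * (3 / 2 - h0 * z / (1 + Z)) ≤ 96 / 100 * (3 / 2) :=
      mul_le_mul k1 (by linarith) (by linarith) (by norm_num)
    have e : kA s X T = vA par s T 3 - (vA par s T 3 - vA par s T 2) * γ := segv _ (adm_vA par s)
    rw [e, v3, sub_sub_cancel_left, abs_neg, abs_mul, abs_of_nonneg g0]
    have m2 : |RA par s z / z * tau T - vA par s T 2| ≤ 144 / 100 := by
      rw [t3, abs_le]
      constructor <;> linarith
    have := mul_le_mul m2 g2 g0 (by norm_num)
    linarith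
  · have e : kR s X T = vR par s T 3 - (vR par s T 3 - vR par s T 2) * γ := segv _ (adm_vR s)
    have v3 : vR par s T 3 = 0 := rfl
    rw [e, v3, zero_sub, zero_sub, neg_mul, neg_neg, abs_mul, abs_of_nonneg g0]
    have := mul_le_mul (m1a_vR hs hs1 h h1) g2 g0 (by norm_num)
    linarith
  · have e : kX s X T = vX par s T 3 - (vX par s T 3 - vX par s T 2) * γ :=
      segv _ (adm_vX par s)
    have v3 : vX par s T 3 = 2 * (s ^ 2 * xA par s (z / s)) - lvl s z := by
      have a := n30_kX_up (s := s) r z0.le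
      rw [← eX, ← eT] at a
      have b : kX s (c3 T) T = vX par s T 3 := by
        unfold kX
        exact ker_c3 (adm_vX par s) (by linarith) hT3
      rw [← b, a]
    rw [e, v3, m1a_vX hs hs1 h h1, sub_zero, sub_sub_cancel_left, abs_neg, abs_mul,
      abs_of_nonneg g0, mul_comm]
    exact mul_le_mul_of_nonneg_right (by linarith) (abs_nonneg _)

/-- The levels of the nodes. -/
theorem m1a_lev {z : ℝ} (hs : 0 < s) (hs1 : s ≤ 11 / 400) (hx : 0 ≤ x) (hx4 : x ≤ 4 * s)
    (ho : x ≤ z) (hz : 252 / 100 * s ≤ z) (ho' : z ≤ x') :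
    |(2 * (s ^ 2 * xA par s (z / s)) - lvl s z) - (s ^ 2 * xA par s (x / s) +
      (s ^ 2 * xA par s (x' / s) - lvl s x'))| ≤
        s * (319 / 375 * (x' - x) + 571 / 2250 * (x' - z)) ∧
      |2 * (s ^ 2 * xA par s (z / s)) - lvl s z| ≤ 256 / 100 * s ^ 2 := by
  obtain ⟨w, hw, hw1, -⟩ := scl hs x
  obtain ⟨v, hv, hv1, hv2⟩ := scl hs z
  obtain ⟨w', hw', hw1', hw2'⟩ := scl hs x'
  have w0 : 0 ≤ w := by
    rw [hw] at hx
    exact nonneg_of_mul_nonneg_right hx hs
  have w4 : w ≤ 4 := le_of_mul_le_mul_left (by linarith) hs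
  have wv : w ≤ v := le_of_mul_le_mul_left (by linarith) hs
  have v2 : 252 / 100 ≤ v := le_of_mul_le_mul_left (by linarith) hs
  have vw' : v ≤ w' := le_of_mul_le_mul_left (by linarith) hs
  have a := m1a_xA_dn hs hs1 w0 w4 wv (by linarith)
  have b := m1a_xA_up (s := s) vw' (by linarith)
  have c := m1a_xB_up vw' (by linarith)
  unfold lvl
  rw [hw1, hv1, hw1', hv2, hw2']
  constructor
  · have e : 2 * (s ^ 2 * xA par s v) - s ^ 2 * xB par (v / 2) - (s ^ 2 * xA par s w +
        (s ^ 2 * xA par s w' - s ^ 2 * xB par (w' / 2))) =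
        s ^ 2 * ((xA par s v - xA par s w) + (xA par s v - xA par s w') -
          (xB par (v / 2) - xB par (w' / 2))) := by ring
    rw [e]
    refine (abs_sc hs (B := 319 / 375 * (w' - w) + 571 / 2250 * (w' - v)) ?_).trans
      (le_of_eq ?_)
    · refine (abs_sub _ _).trans ?_
      have := abs_add_le (xA par s v - xA par s w) (xA par s v - xA par s w')
      linarith
    · rw [hw, hv, hw']
      ring
  · have e : 2 * (s ^ 2 * xA par s v) - s ^ 2 * xB par (v / 2) =
        s ^ 2 * (2 * xA par s v - xB par (v / 2)) := by ring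
    rw [e]
    refine (abs_sc hs (B := 256 / 100) ?_).trans (le_of_eq (by ring))
    have x1 := xA_nonneg hs hs1 (by linarith : 0 ≤ v)
    have x2 := (abs_le.1 (xA_bd hs hs1 (by linarith : 0 ≤ v))).2
    obtain ⟨y1, y2, -⟩ := u_B (by linarith : 0 ≤ v)
    rw [abs_le]
    constructor <;> linarith

/-- The correction at the first node and the bonus. -/
theorem m1a_bon {t' : ℝ} (hs : 0 < s) (hs1 : s ≤ 11 / 400) (hx : 0 ≤ x) (hx4 : x ≤ 4 * s)
    (ho : x ≤ x') (ht : 866 / 1000 ≤ t') (hxx : 1039 / 10000 ≤ x + x' / 2) :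
    20 / 100 * (s ^ 2 * taper (x / s)) ≤ t' * (s ^ 2 * xA par s (x / s)) -
      x * (s ^ 2 * xA par s (x' / s) - lvl s x') ∧ 0 ≤ s ^ 2 * taper (x / s) := by
  obtain ⟨w, hw, hw1, -⟩ := scl hs x
  obtain ⟨w', hw', hw1', hw2'⟩ := scl hs x'
  have w0 : 0 ≤ w := by
    rw [hw] at hx
    exact nonneg_of_mul_nonneg_right hx hs
  have w4 : w ≤ 4 := le_of_mul_le_mul_left (by linarith) hs
  have ww' : w ≤ w' := le_of_mul_le_mul_left (by linarith) hs
  have s2 : 0 ≤ s ^ 2 := sq_nonneg s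
  obtain ⟨t0, t1⟩ := m1a_taper hs hs1 w0 w4
  have l0 := lvl_nonneg hs (by linarith : 0 ≤ x')
  have A0 := xA_nonneg hs hs1 w0
  have A0' := xA_nonneg hs hs1 (by linarith : 0 ≤ w')
  rw [hw1, hw1']
  refine ⟨?_, mul_nonneg s2 t0⟩
  have k1 : 0 ≤ x * lvl s x' := mul_nonneg hx l0
  have key : x * xA par s w' ≤ 2 / 10 * xA par s w := by
    rcases le_or_gt 4 w' with h4 | h4
    · rw [xA_u5 h4, mul_zero]
      linarith
    · have g4 : x' < 4 * s := by
        rw [hw', mul_comm]
        exact mul_lt_mul_of_pos_right h4 hs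
      have g1 : 3 / 2 < w := by
        refine lt_of_mul_lt_mul_left ?_ hs.le
        linarith
      have hx' : x ≤ 11 / 100 := by linarith
      rcases le_or_gt w (5 / 2) with h5 | h5
      · have a := (m1a_xA_ge hs hs1 w0).2.2 g1.le h5
        have b := (abs_le.1 (xA_bd hs hs1 (by linarith : 0 ≤ w'))).2
        have := mul_le_mul hx' b A0' (by norm_num)
        linarith
      · have a : xA par s w' ≤ xA par s w := by
          rw [m1a_xA_hi h5, m1a_xA_hi (by linarith : 5 / 2 < w')]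
          have : max (4 - w') 0 ≤ max (4 - w) 0 := max_le_max (by linarith) le_rfl
          linarith
        have := mul_le_mul hx' a A0' (by norm_num)
        linarith
  have k2 := mul_le_mul_of_nonneg_left key s2
  have k3 := mul_le_mul_of_nonneg_right ht (mul_nonneg s2 A0)
  have k4 := mul_le_mul_of_nonneg_left t1 s2
  have k5 := mul_nonneg s2 t0
  linarith

/-- Sides 12 and 23 on the unit circle. -/
theorem m1A (hs : 0 < s) (hs1 : s ≤ 11 / 400) (h : Rot C x) (h' : Rot C' x')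
    (hx : 0 ≤ x) (hx4 : x ≤ 4 * s) (ho : x ≤ x')
    (hq : (C - C') ^ 2 + (x - x') ^ 2 ≤ (79 / 10 * s) ^ 2)
    (hT : 28 / 25 * h0 ≤ x + (h0 * C' + x' / 2))
    (hS : Sides C (C + (C' / 2 - h0 * x')) x (h0 * C' + x' / 2))
    (hE : E1 (x' - x) ≤ exn C (C + (C' / 2 - h0 * x')) x (h0 * C' + x' / 2)) :
    OK2 s C (C + (C' / 2 - h0 * x')) x (h0 * C' + x' / 2) := by
  have hh := h0_pos
  have hq' := h0_sq'
  obtain ⟨b1, b2⟩ := h0_bd
  obtain ⟨Z, z, q, r, eT, eX, zl, xz, zx', q0, q1, e1, e2⟩ :=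
    m1a_geo hs hs1 h h' hx hx4 ho hT
  have ha : x' - x ≤ 79 / 10 * s := by
    refine le_of_sq2 (by linarith) ?_
    nlinarith [sq_nonneg (C - C')]
  have z25 : 252 / 100 * s ≤ z := by linarith
  obtain ⟨-, -, -, -, -, f60⟩ := n60_facts h'
  have Ch := h.Ch
  have Ch' := h'.Ch
  have x0' : 0 ≤ x' := by linarith
  have u0 : 0 ≤ h0 * x' / (1 + C') := div_nonneg (mul_nonneg hh.le x0') (by linarith)
  have u1 : h0 * x' / (1 + C') ≤ 1 / 2 := by
    rw [div_le_iff₀ (by linarith)]
    have := mul_le_mul_of_nonneg_left h'.hi hh.le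
    linarith
  have ht' : h0 ≤ h0 * C' + x' / 2 := by
    have := mul_nonneg x0' (by linarith : 0 ≤ 1 / 2 - h0 * x' / (1 + C'))
    linarith
  have hT1 : x + (h0 * C' + x' / 2) ≤ 114 / 100 := by
    have := mul_le_mul_of_nonneg_left h'.C1 hh.le
    linarith
  have hxx : 1039 / 10000 ≤ x + x' / 2 := by
    have := mul_le_mul_of_nonneg_left h'.C1 hh.le
    linarith
  have hX1 : 1 ≤ C + (C' / 2 - h0 * x') := by
    have : h0 * x' ≤ 86603 / 100000 * (119 / 10 * (11 / 400)) :=
      mul_le_mul b2.le (by linarith) x0' (by norm_num)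
    linarith
  have hXc : C + (C' / 2 - h0 * x') ≤ c3 (x + (h0 * C' + x' / 2)) := by
    refine le_of_sq2 (c3_nonneg _) ?_
    have k := hS.c3
    have k1 := sq_nonneg (C + (C' / 2 - h0 * x'))
    have k2 := c3_sq (by linarith : (x + (h0 * C' + x' / 2)) ^ 2 ≤ 3)
    linarith
  obtain ⟨A13, R13, L13⟩ := m1a_13 hs hs1 r zl eT eX hT hT1 hX1 hXc
  obtain ⟨K0, K1, K2⟩ := m1a_K hs hs1 zl r.hi
  obtain ⟨L1, L2⟩ := m1a_lev hs hs1 hx hx4 xz z25 zx'
  obtain ⟨B1, B2⟩ := m1a_bon (t' := h0 * C' + x' / 2) hs hs1 hx hx4 ho (by linarith) hxx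
  have D0 : 0 ≤ RA par s z / z + (2 + m1aD) := by
    have := m1a_D.1
    have : 0 ≤ RA par s z / z := div_nonneg K0 (by linarith)
    linarith
  have A12 := (n0_res (s := s) h hx (RA par s z / z)).trans (m1a_dn hs hx hx4 xz z25 r.hi)
  have A23 := n60_res hs hs1 h' (RA par s z / z)
  rw [← mul_div_assoc] at A23
  have A23' := m1a_up hs zx' z25 r.hi
  -- the values
  have X12 : kX s C x = s ^ 2 * xA par s (x / s) := by
    have e := n0_facts h hx
    rw [← e, kX_c1 hx (by linarith [h.hi])]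
    unfold X1
    rw [if_pos h.hi]
  have X23 := n60_kX_up hs hs1 h' x0'
  have R12 : kR s C x = r2 par s * taper (x / s) := by
    have e := n0_facts h hx
    rw [← e]
    unfold kR
    rw [ker_c1 (adm_vR s) hx (by nlinarith [h.hi])]
    exact if_pos (by linarith)
  have R23 := n60_kR (s := s) h'
  have e23 : C + (C' / 2 - h0 * x') - C = C' / 2 - h0 * x' := by ring
  rw [eX] at A13 R13 L13
  generalize C + (C' / 2 - h0 * x') = X at *
  generalize RA par s z / z = κ at *
  have hξ : 0 ≤ 3 / 2 * Z - h0 * z - X := by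
    rw [← eX]
    linarith
  generalize 3 / 2 * Z - h0 * z - X = ξ at *
  generalize 2 * (s ^ 2 * xA par s (z / s)) - lvl s z = V at *
  generalize s ^ 2 * xA par s (x' / s) - lvl s x' = B at *
  generalize s ^ 2 * xA par s (x / s) = A at *
  -- the numbers
  have δ0 : 0 ≤ x' - z := by linarith
  have Q0 : 0 ≤ (x' - z) * q := mul_nonneg δ0 q0
  have h1δ := mul_le_mul_of_nonneg_right b1.le δ0
  have h2δ := mul_le_mul_of_nonneg_right b2.le δ0
  have h1Q := mul_le_mul_of_nonneg_right b1.le Q0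
  have h2Q := mul_le_mul_of_nonneg_right b2.le Q0
  have P12 : s * |kA s C x - κ * tau x| ≤ (z - x) * (488 / 1000) := by
    have k1 := mul_le_mul_of_nonneg_left A12 hs.le
    have k2 := mul_le_mul_of_nonneg_left K2 (by linarith : 0 ≤ z - x)
    linarith
  have P23 : s * |kA s (C' / 2 - h0 * x') (h0 * C' + x' / 2) - κ * tau (h0 * C' + x' / 2)| ≤
      (x' - z) * (488 / 1000) * (1 / 2) := by
    rw [A23]
    have k1 := mul_le_mul_of_nonneg_left A23' hs.le
    have k2 := mul_le_mul_of_nonneg_left K2 δ0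
    have k3 : s * |RA par s |x'| - κ * x'| ≤ (x' - z) * (488 / 1000) := by linarith
    rw [← mul_assoc]
    exact mul_le_mul k3 (by linarith) (by linarith) (by positivity)
  have P13 : s * |kA s X (x + (h0 * C' + x' / 2)) - κ * tau (x + (h0 * C' + x' / 2))| ≤
      11 / 400 * (212 / 100 * ξ) := by
    have k1 := mul_le_mul_of_nonneg_left A13 hs.le
    have k2 := mul_le_mul_of_nonneg_right hs1 (by linarith : 0 ≤ 212 / 100 * ξ)
    linarith
  have s2 : s ^ 2 ≤ 11 / 400 * (11 / 400) := by nlinarith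
  have P3 : |kX s X (x + (h0 * C' + x' / 2)) - (A + B)| ≤
      11 / 400 * (319 / 375 * (x' - x) + 571 / 2250 * (x' - z)) + 3 / 1000 * ξ := by
    have k0 : |kX s X (x + (h0 * C' + x' / 2)) - (A + B)| ≤
        |kX s X (x + (h0 * C' + x' / 2)) - V| + |V - (A + B)| := by
      have := abs_add_le (kX s X (x + (h0 * C' + x' / 2)) - V) (V - (A + B))
      rwa [sub_add_sub_cancel] at this
    have k1 := mul_le_mul_of_nonneg_right hs1
      (by linarith : 0 ≤ 319 / 375 * (x' - x) + 571 / 2250 * (x' - z))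
    have k2 := mul_le_mul_of_nonneg_left L2 (by linarith : 0 ≤ 15 / 10 * ξ)
    have k3 := mul_le_mul_of_nonneg_left s2 (by linarith : 0 ≤ 15 / 10 * ξ * (256 / 100))
    linarith
  have hBB : (h0 * C' + x' / 2 - x) * A + x * (A - B) = (h0 * C' + x' / 2) * A - x * B := by ring
  have cost1 : costA s κ A (A - B) C X x (h0 * C' + x' / 2) ≤
      E1 (x' - x) - 4 / 1000 * (x' - z) := by
    unfold costA
    rw [e23, X12, X23, sub_self, show B - (A - (A - B)) = 0 by ring,
      show 2 * A - (A - B) = A + B by ring, abs_zero]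
    have ea : 0 ≤ x' - x := by linarith
    have k1 : (x' - x) * (288 / 1000 - 26 / 100 * (79 / 10 * (11 / 400))) ≤ E1 (x' - x) := by
      unfold E1
      exact mul_le_mul_of_nonneg_left (by linarith) ea
    linarith
  have R2 := r2_b hs hs1
  refine of_costA (k := κ) (A := A) (b := A - B) hs hs1 ?_ hS (by linarith) ?_
  · rw [hBB]
    linarith
  · rw [e23, R12, R23, hBB, abs_zero, abs_mul]
    obtain ⟨t0, -⟩ := m1a_taper hs hs1 (div_nonneg hx hs.le) (by rwa [div_le_iff₀ hs] : x / s ≤ 4)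
    rw [abs_of_nonneg t0]
    have k1 : 101 / 1000 * s ^ 2 * (|r2 par s| * taper (x / s)) ≤
        101 / 1000 * (17 / 100 * (s ^ 2 * taper (x / s))) := by
      have := mul_le_mul_of_nonneg_right R2 B2
      linarith
    have k2 : 101 / 1000 * s ^ 2 * |kR s X (x + (h0 * C' + x' / 2))| ≤
        101 / 1000 * (11 / 400 * (11 / 400)) * (3 * ξ) :=
      mul_le_mul (by linarith) R13 (abs_nonneg _) (by norm_num)
    have k3 : 1 / 5 * (20 / 100 * (s ^ 2 * taper (x / s)) / (2 * h0)) ≤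
        1 / 5 * (((h0 * C' + x' / 2) * A - x * B) / (2 * h0)) :=
      mul_le_mul_of_nonneg_left (div_le_div_of_nonneg_right B1 (by positivity)) (by norm_num)
    have k4 : 115 / 1000 * (s ^ 2 * taper (x / s)) ≤
        20 / 100 * (s ^ 2 * taper (x / s)) / (2 * h0) := by
      rw [le_div_iff₀ (by positivity)]
      have := mul_le_mul_of_nonneg_right b2.le B2
      linarith
    linarith

end Pool.Agent.Strip051.LC.E0.Out
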