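import Pool.Agent.Strip051.LC.E0.O3.StrA
import Pool.Agent.Strip051.LC.E0.O3.GeoB
import Pool.Agent.Strip051.LC.E0.O4.Zn4
import Pool.Agent.Strip051.LC.E0.O4.M1A

/-! # Small rests: the directions 0 and 60, sides 12 and 23 -/

namespace Pool.Agent.Strip051.LC.E0.Out

open Pool.Agent.StripNear Pool.Agent.StripSquare Pool.Agent.Strip051 Pool.Agent.Strip051.Sweep
open Pool.Agent.Strip051.LC.Line (tau)

variable {s C x C' x' : ℝ}

/-- The sine is the square root of one minus the square of the cosine. -/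
theorem a01_cos (h : Rot C x) : x ^ 2 / 2 ≤ 1 - C ∧ 1 - C ≤ 54 / 100 * x ^ 2 := by
  have a := h.Ch
  have b := h.C1
  have e : (1 - C) * (1 + C) = x ^ 2 := by linear_combination -h.sq
  obtain ⟨b1, -⟩ := h0_bd
  have n : 0 ≤ 1 - C := by linarith
  constructor
  · have := mul_le_mul_of_nonneg_left (by linarith : 1 + C ≤ 2) n
    linarith
  · have := mul_le_mul_of_nonneg_left (by linarith : 186 / 100 ≤ 1 + C) n
    linarith

/-- The length of the third side. -/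
theorem a01_len {s a x x' C' : ℝ} (hs : 0 < s) (hs1 : s ≤ 11 / 400) (hx4 : x ≤ 4 * s)
    (ea : a = x' - x) (a0 : 0 ≤ a) (a1 : a ≤ 79 / 10 * s) (hx : 0 ≤ x)
    (hE : a * (288 / 1000 - 26 / 100 * a) ≤ (174 / 100 + 3 * s) * s)
    (hC : x' ^ 2 / 2 ≤ 1 - C') : x + (h0 * C' + x' / 2) - h0 ≤ 46 / 5 * s := by
  obtain ⟨b1, -⟩ := h0_bd
  have h1 : a ^ 2 ≤ x' ^ 2 := pow_le_pow_left₀ a0 (by linarith) 2
  have h2 : h0 * (a ^ 2 / 2) ≤ h0 * (1 - C') :=
    mul_le_mul_of_nonneg_left (by linarith) h0_pos.le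
  have h3 : 86602 / 100000 * (a ^ 2 / 2) ≤ h0 * (a ^ 2 / 2) :=
    mul_le_mul_of_nonneg_right b1.le (by positivity)
  have h4 : a ^ 2 ≤ (79 / 10 * s) ^ 2 := pow_le_pow_left₀ a0 a1 2
  have h5 : s * s ≤ 11 / 400 * s := mul_le_mul_of_nonneg_right hs1 hs.le
  have e : x + (h0 * C' + x' / 2) - h0 = 3 / 2 * x + a / 2 - h0 * (1 - C') := by
    rw [ea]
    ring
  rw [e]
  linarith only [h2, h3, h4, h5, hE, hx4, hs]

/-- The directions 0 and 60, sides 12 and 23: a strip or a small rotation. -/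
theorem a01_core (hs : 0 < s) (hs1 : s ≤ 11 / 400) (h : Rot C x) (h' : Rot C' x') (hx : 0 ≤ x)
    (hS : Sides C (C + (C' / 2 - h0 * x')) x
      (h0 * C' + x' / 2))
    (hc : 0 ≤ C * (x + (h0 * C' + x' / 2)) -
      (C + (C' / 2 - h0 * x')) * x)
    (hE : exn C (C + (C' / 2 - h0 * x')) x
      (h0 * C' + x' / 2) < (174 / 100 + 3 * s) * s) :
    OK2 s C (C + (C' / 2 - h0 * x')) x (h0 * C' + x' / 2) ∨
      (x < 4 * s ∧ x ≤ x' ∧ (C - C') ^ 2 + (x - x') ^ 2 ≤ (79 / 10 * s) ^ 2 ∧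
        E1 (x' - x) ≤ exn C (C + (C' / 2 - h0 * x')) x (h0 * C' + x' / 2)) := by
  have hh := h0_pos
  have hq := h0_sq'
  obtain ⟨b1, b2⟩ := h0_bd
  have ho : x ≤ x' := by
    refine geo_ord h' h ?_
    have c3 := hS.c3
    have e : (C + (C' / 2 - h0 * x')) ^ 2 + (x + (h0 * C' + x' / 2)) ^ 2 =
        2 + (C' * C + x' * x - 2 * h0 * (x' * C - C' * x)) := by
      linear_combination (C' ^ 2 + x' ^ 2) * hq + h.sq + h'.sq
    rw [e] at c3
    linarith
  have eE : exn C (C + (C' / 2 - h0 * x')) x (h0 * C' + x' / 2) =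
      (h0 * (C' * C + x' * x) + 1 / 2 * (x' * C - C' * x)) / (2 * h0) - 1 / 2 := by
    unfold exn
    congr 2
    ring
  rcases geo_S hs hs1 h' h ho eE hE with ⟨hn, hE1⟩ | ⟨p, p', p0, p0', -, hp', hpp, -⟩
  · have hn' : (C - C') ^ 2 + (x - x') ^ 2 ≤ (79 / 10 * s) ^ 2 := by
      refine le_trans (le_of_eq ?_) hn
      ring
    rcases le_or_gt (4 * s) x with h4 | h4
    · exact Or.inl (strip_LAp hs hs1 h h' h4 ho hn' hS hE1)
    exact Or.inr ⟨h4, ho, hn', hE1⟩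
  · exfalso
    have : 1 / 2 ≤ p' := by
      refine le_of_sq2 p0' ?_
      have := pow_le_pow_left₀ (by norm_num : (0 : ℝ) ≤ 1 / 2) (by linarith : 1 / 2 ≤ x + 1 / 2) 2
      linarith [sq_nonneg (C - h0)]
    linarith

/-- The directions 0 and 60, sides 12 and 23. -/
theorem a01 (hs : 0 < s) (hs1 : s ≤ 11 / 400) (h : Rot C x) (h' : Rot C' x') (hx : 0 ≤ x)
    (hS : Sides C (C + (C' / 2 - h0 * x')) x
      (h0 * C' + x' / 2))
    (hc : 0 ≤ C * (x + (h0 * C' + x' / 2)) -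
      (C + (C' / 2 - h0 * x')) * x)
    (hE : exn C (C + (C' / 2 - h0 * x')) x
      (h0 * C' + x' / 2) < (174 / 100 + 3 * s) * s) :
    Fin3 s C (C + (C' / 2 - h0 * x')) x
      (h0 * C' + x' / 2) := by
  have hh := h0_pos
  have hq := h0_sq'
  obtain ⟨b1, b2⟩ := h0_bd
  rcases a01_core hs hs1 h h' hx hS hc hE with h0' | ⟨h4, ho, hn', hE1⟩
  · exact Or.inl h0'
  rcases le_or_gt (28 / 25 * h0) (x + (h0 * C' + x' / 2)) with h5 | h5
  · exact Or.inl (m1A hs hs1 h h' hx h4.le ho hn' h5 hS hE1)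
  right
  -- the height of the side 23
  obtain ⟨f1, f2, f3, -, -, f6⟩ := n60_facts h'
  have t0 : h0 ≤ h0 * C' + x' / 2 := by
    have g1 : 0 ≤ 1 / 2 - h0 * x' / (1 + C') := by
      rw [sub_nonneg, div_le_iff₀ (by linarith [h'.Ch])]
      have := mul_le_mul_of_nonneg_left h'.hi hh.le
      linarith [h'.Ch]
    have := mul_nonneg (hx.trans ho) g1
    linarith
  rcases le_or_gt (x + (h0 * C' + x' / 2) - h0) (8 * s) with h6 | h6
  · left
    refine ⟨by linarith, ?_, ?_, by linarith, h5.le⟩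
    · rw [abs_le]
      constructor <;> linarith
    · rw [abs_le]
      constructor <;> linarith
  · right; right; right; left
    have a1 : x' - x ≤ 79 / 10 * s := by
      refine le_of_sq2 (by linarith) ?_
      linarith [sq_nonneg (C - C')]
    refine ⟨(n0_facts h hx).symm, by rw [n0_facts h hx, f1], h4.le, by linarith, h6.le, ?_, h5.le⟩
    exact a01_len hs hs1 h4.le rfl (by linarith) a1 hx (hE1.trans hE.le) (a01_cos h').1

end Pool.Agent.Strip051.LC.E0.Out
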