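import Pool.Agent.Strip051.LC.E0.O3.StrA
import Pool.Agent.Strip051.LC.E0.O3.GeoB
import Pool.Agent.Strip051.LC.E0.O4.Zn4
import Pool.Agent.Strip051.LC.E0.O4.M1T

/-! # Small rests: the directions 0 and 60, sides 12 and 13 -/

namespace Pool.Agent.Strip051.LC.E0.Out

open Pool.Agent.StripNear Pool.Agent.StripSquare Pool.Agent.Strip051 Pool.Agent.Strip051.Sweep
open Pool.Agent.Strip051.LC.Line (tau)

variable {s C x C' x' : ℝ}

theorem b01_core (hs : 0 < s) (hs1 : s ≤ 11 / 400) (h : Rot C x) (h' : Rot C' x') (hx : 0 ≤ x)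
    (hS : Sides C (C' / 2 - h0 * x') x (h0 * C' + x' / 2 - x))
    (hE : exn C (C' / 2 - h0 * x') x (h0 * C' + x' / 2 - x) < (174 / 100 + 3 * s) * s) :
    OK2 s C (C' / 2 - h0 * x') x (h0 * C' + x' / 2 - x) ∨
      (x < 5 * s ∧ x ≤ x' ∧ (C - C') ^ 2 + (x - x') ^ 2 ≤ (79 / 10 * s) ^ 2 ∧
        E1 (x' - x) ≤ exn C (C' / 2 - h0 * x') x (h0 * C' + x' / 2 - x)) := by
  have hh := h0_pos
  have hq := h0_sq'
  have ho : x ≤ x' := by
    refine geo_ord h' h ?_
    have k := hS.b1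
    have e : (C' / 2 - h0 * x' - C) ^ 2 + (h0 * C' + x' / 2 - x) ^ 2 =
        2 - (C' * C + x' * x) + 2 * h0 * (x' * C - C' * x) := by
      linear_combination (C' ^ 2 + x' ^ 2) * hq + h'.sq + h.sq
    rw [e] at k
    linarith
  rcases geo_S hs hs1 h' h ho (E := exn C (C' / 2 - h0 * x') x (h0 * C' + x' / 2 - x))
    (by unfold exn; ring) hE with h1 | h1
  · obtain ⟨h2, h3⟩ := h1
    have h2' : (C - C') ^ 2 + (x - x') ^ 2 ≤ (79 / 10 * s) ^ 2 := by
      have e : (C - C') ^ 2 + (x - x') ^ 2 = (C' - C) ^ 2 + (x' - x) ^ 2 := by ring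
      rw [e]
      exact h2
    rcases le_or_gt (5 * s) x with h5 | h5
    · exact Or.inl (strip_UB hs hs1 h h' h5 ho h2' hS h3)
    · exact Or.inr ⟨h5, ho, h2', h3⟩
  · exfalso
    obtain ⟨p, p', p0, p0', -, k2, k3, -⟩ := h1
    have : (1 / 2) ^ 2 ≤ p' ^ 2 := by nlinarith [sq_nonneg (C - h0)]
    have : 1 / 2 ≤ p' := le_of_sq2 p0' this
    linarith

/-- The directions 0 and 60, sides 12 and 13. -/
theorem b01 (hs : 0 < s) (hs1 : s ≤ 11 / 400) (h : Rot C x) (h' : Rot C' x') (hx : 0 ≤ x)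
    (hS : Sides C (C' / 2 - h0 * x') x
      (h0 * C' + x' / 2 - x))
    (hc : 0 ≤ C * (x + (h0 * C' + x' / 2 - x)) -
      (C' / 2 - h0 * x') * x)
    (hE : exn C (C' / 2 - h0 * x') x
      (h0 * C' + x' / 2 - x) < (174 / 100 + 3 * s) * s) :
    Fin3 s C (C' / 2 - h0 * x') x
      (h0 * C' + x' / 2 - x) := by
  obtain ⟨b1, b2⟩ := h0_bd
  have hh := h0_pos
  rcases b01_core hs hs1 h h' hx hS hE with k | ⟨h5, ho, h2, h3⟩
  · exact Or.inl k
  have aq : |x - x'| ≤ 79 / 10 * s :=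
    abs_le_of_sq_le_sq (by nlinarith [sq_nonneg (C - C')]) (by linarith)
  have a2 := (abs_le.1 aq).1
  obtain ⟨-, -, c3, c4⟩ := half_bd h'.Ch (by linarith) h'.sq
  have u := h'.hi
  have u0 : 0 ≤ x' := by linarith
  -- the height of the side 13
  have y1 : 0 ≤ h0 * (1 - C') := mul_nonneg hh.le (by linarith [h'.C1])
  have y2 : h0 * (1 - C') ≤ x' / 2 := by
    have k1 : h0 * (1 - C') ≤ h0 * (536 / 1000 * x' ^ 2) := mul_le_mul_of_nonneg_left (by linarith) hh.le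
    have k2 : x' ^ 2 ≤ 1 / 2 * x' := by nlinarith
    nlinarith
  have eT : x + (h0 * C' + x' / 2 - x) = h0 + x' / 2 - h0 * (1 - C') := by ring
  have hp : C' / 2 - h0 * x' ≤ C := by
    have := h.Ch
    have := h'.C1
    have := mul_nonneg hh.le u0
    linarith
  have hp0 : 0 ≤ C' / 2 - h0 * x' := by
    have := h'.Ch
    have := mul_le_mul_of_nonneg_left u hh.le
    linarith
  have w1 : |h0 * C' + x' / 2 - x - h0| ≤ 8 * s := by
    rw [abs_le]
    constructor <;> nlinarith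
  have w2 : x + (h0 * C' + x' / 2 - x) ≤ h0 + 8 * s := by
    rw [eT]
    linarith
  rcases le_or_gt (x + (h0 * C' + x' / 2 - x)) (28 / 25 * h0) with h6 | h6
  · refine Or.inr (Or.inl ⟨by linarith, w1, ?_, by linarith, h6⟩)
    rw [abs_le]
    constructor
    · rw [eT]
      linarith
    · linarith
  · rcases le_or_gt (thr s) (exn C (C' / 2 - h0 * x') x (h0 * C' + x' / 2 - x)) with h7 | h7
    · exact Or.inl ⟨far_triv hs hs1 hS h7, near_triv hs hs1 hS h7⟩
    refine Or.inl (ok2_of hs hs1 hS ⟨9 / 4, 0, le_rfl, m1T hs hs1 hS (by linarith) w1 h6.le w2 hp0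
      hp ?_ h7⟩)
    refine le_trans ?_ h3
    have k1 : 2078 / 10000 ≤ x' := by
      rw [eT] at h6
      linarith
    have k2 : 2078 / 10000 - 5 * s ≤ x' - x := by linarith
    unfold E1
    have k3 : 60 / 1000 ≤ x' - x := by linarith
    have k4 : x' - x ≤ 218 / 1000 := by linarith
    nlinarith

end Pool.Agent.Strip051.LC.E0.Out
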