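import Pool.Agent.Strip051.LC.E0.O4.Def

/-! # Small rests: the side 23 left of the curve `b` -/

namespace Pool.Agent.Strip051.LC.E0.Out

open Pool.Agent.StripNear Pool.Agent.StripSquare Pool.Agent.Strip051 Pool.Agent.Strip051.Sweep
open Pool.Agent.Strip051.LC.Line (tau)

variable {s X13 t t' : ℝ}

/-- The correction of the kernel is at most two. -/
theorem bp2_kR {X T : ℝ} (hs : 0 < s) (hs1 : s ≤ 11 / 400) (hT : 0 ≤ T)
    (h1 : 1 ≤ X ^ 2 + T ^ 2) (h3 : X ^ 2 + T ^ 2 ≤ 3) : |kR s X T| ≤ 2 := by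
  have h := (ker_bnd (adm_vR s) hT h1 h3 (β := 0) (a := 0) (b := 0) (γ := 2)
    ⟨fun j => by linarith [vR_abs hs hs1 hT j], fun j => by linarith [vR_abs hs hs1 hT j]⟩).1
  unfold kR
  linarith

/-- The level is at most `64 s ^ 2 / 25`. -/
theorem bp2_kX {X T : ℝ} (hs : 0 < s) (hs1 : s ≤ 11 / 400) (hT : 0 ≤ T)
    (h1 : 1 ≤ X ^ 2 + T ^ 2) (h3 : X ^ 2 + T ^ 2 ≤ 3) : |kX s X T| ≤ 64 / 25 * s ^ 2 := by
  have h := (ker_bnd (adm_vX par s) hT h1 h3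
    (bnd_vX hs hs1 hT (by nlinarith [sq_nonneg X]))).1
  unfold kX
  linarith

/-- The kernel is at most the abscissa plus `s / 2`. -/
theorem bp2_kA {X T : ℝ} (hs : 0 < s) (hs1 : s ≤ 11 / 400) (hT : 0 ≤ T)
    (h1 : 1 ≤ X ^ 2 + T ^ 2) (h3 : X ^ 2 + T ^ 2 ≤ 3) : |kA s X T| ≤ |X| + s / 2 := by
  have h := (ker_bnd (adm_vA par s) hT h1 h3
    (bnd_vA hs hs1 hT (by nlinarith [sq_nonneg X]))).1
  unfold kA
  linarith

/-- The height of the side 13. -/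
theorem bp2_D {t z c B : ℝ} (ht : 0 ≤ t) (hz : 0 ≤ z) (hD : t + z ≤ 104 / 1000)
    (hc1 : c ≤ 1) (hB : 13 / 20 - 152 / 1000 * z ≤ B) (hX0 : 0 ≤ c - B)
    (hX : 1 ≤ (c - B) ^ 2 + (h0 + (t + z)) ^ 2) :
    706 / 10000 ≤ t + 1062 / 1000 * z := by
  have hq := h0_sq'
  obtain ⟨b1, b2⟩ := h0_bd
  by_contra h
  rw [not_le] at h
  have h1 : c - B ≤ 35 / 100 + 152 / 1000 * z := by linarith
  have h2 : (c - B) ^ 2 ≤ (35 / 100 + 152 / 1000 * z) ^ 2 := pow_le_pow_left₀ hX0 h1 2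
  have hD0 : 0 ≤ t + z := by linarith
  have h3 : (h0 + (t + z)) ^ 2 ≤ 3 / 4 + 173206 / 100000 * (t + z) + (t + z) ^ 2 := by
    have := mul_le_mul_of_nonneg_right b2.le hD0
    nlinarith
  have h4 : t + z ≤ 706 / 10000 - 62 / 1000 * z := by linarith
  have h5 : (t + z) ^ 2 ≤ 706 / 10000 * (706 / 10000 - 62 / 1000 * z) := by
    have e1 : (t + z) * (t + z) ≤ (t + z) * (706 / 10000) :=
      mul_le_mul_of_nonneg_left (by linarith) hD0
    have e2 := mul_le_mul_of_nonneg_right h4 (by norm_num : (0 : ℝ) ≤ 706 / 10000)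
    linarith
  have h6 : z * z ≤ z * (104 / 1000) := mul_le_mul_of_nonneg_left (by linarith) hz
  linarith

/-- The inequality. -/
theorem bp2_num {t z c B G : ℝ} (ht : 0 ≤ t) (hz : 0 ≤ z) (hD : t + z ≤ 104 / 1000)
    (hc1 : c ≤ 1) (hc : 1 - 51 / 100 * t ^ 2 ≤ c) (hB : 13 / 20 - 152 / 1000 * z ≤ B)
    (hB1 : B ≤ 757 / 1000) (hX0 : 0 ≤ c - B)
    (hX : 1 ≤ (c - B) ^ 2 + (h0 + (t + z)) ^ 2) (hG : 2654 / 10000 ≤ G) (hG1 : G ≤ 268 / 1000) :
    27503 / 1000000 * (1 - 35 / 8 * t + (B + 4 * z) +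
      |G - 6 * (t + z) + (4 * h0 - 3) * (c - B)|) + 537 / 100000 ≤
      h0 * (c - 1) + c * z + B * t := by
  obtain ⟨b1, b2⟩ := h0_bd
  have hd := bp2_D ht hz hD hc1 hB hX0 hX
  have t2 : t * t ≤ 104 / 1000 * t := mul_le_mul_of_nonneg_right (by linarith) ht
  have k1 : -(4417 / 10000 * t ^ 2) ≤ h0 * (c - 1) := by
    have e1 : h0 * (1 - c) ≤ 86603 / 100000 * (51 / 100 * t ^ 2) :=
      mul_le_mul b2.le (by linarith) (by linarith) (by norm_num)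
    nlinarith [sq_nonneg t]
  have k2 : 9944 / 10000 * z ≤ c * z := by
    refine mul_le_mul_of_nonneg_right ?_ hz
    nlinarith
  have k3 : (4 * h0 - 3) * (c - B) ≤ 4642 / 10000 * (1 - B) :=
    mul_le_mul (by linarith) (by linarith) hX0 (by norm_num)
  have k4 : 46408 / 100000 * (c - B) ≤ (4 * h0 - 3) * (c - B) :=
    mul_le_mul_of_nonneg_right (by linarith) hX0
  have zt : z * t ≤ 104 / 1000 * z := by
    have := mul_le_mul_of_nonneg_left (by linarith : t ≤ 104 / 1000) hz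
    linarith
  have zt0 : 0 ≤ z * t := mul_nonneg hz ht
  rcases le_total 0 (G - 6 * (t + z) + (4 * h0 - 3) * (c - B)) with h1 | h1
  · rw [abs_of_nonneg h1]
    rcases le_or_gt (14736 / 1000000) t with h2 | h2
    · have h3 := mul_le_mul_of_nonneg_left hB (by linarith : 0 ≤ t - 14736 / 1000000)
      have h4 := mul_nonneg (by linarith : 0 ≤ t - 14736 / 1000000)
        (by linarith : 0 ≤ 104 / 1000 - t)
      nlinarith
    · have h3 := mul_le_mul_of_nonneg_left hB1 (by linarith : 0 ≤ 14736 / 1000000 - t)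
      nlinarith
  · rw [abs_of_nonpos h1]
    rcases le_or_gt (40267 / 1000000) t with h2 | h2
    · have h3 := mul_le_mul_of_nonneg_left hB (by linarith : 0 ≤ t - 40267 / 1000000)
      have h4 := mul_nonneg (by linarith : 0 ≤ t - 40267 / 1000000)
        (by linarith : 0 ≤ 104 / 1000 - t)
      nlinarith
    · have h3 := mul_le_mul_of_nonneg_left hB1 (by linarith : 0 ≤ 40267 / 1000000 - t)
      nlinarith

/-- The abscissa of the side 12. -/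
theorem bp2_c {t : ℝ} (t0 : 0 ≤ t) (ht1 : t ≤ 104 / 1000) :
    1 - 51 / 100 * t ^ 2 ≤ c1 t ∧ c1 t ≤ 1 := by
  have ec := c1_sq t0 (by linarith : t ≤ 1)
  have c0 := c1_nonneg t
  constructor
  · refine le_of_sq2 c0 ?_
    have t2 : t * t ≤ 104 / 1000 * (104 / 1000) := mul_le_mul ht1 ht1 t0 (by norm_num)
    have e1 : t ^ 2 * (t * t) ≤ t ^ 2 * (104 / 1000 * (104 / 1000)) :=
      mul_le_mul_of_nonneg_left t2 (sq_nonneg t)
    have e2 : (1 - 51 / 100 * t ^ 2) ^ 2 = 1 - 102 / 100 * t ^ 2 +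
        2601 / 10000 * (t ^ 2 * (t * t)) := by ring
    rw [e2]
    linarith [sq_nonneg t]
  · refine le_of_sq2 one_pos.le ?_
    linarith [sq_nonneg t]

/-- The abscissa of the side 23. -/
theorem bp2_b {t' B : ℝ} (ht' : h0 ≤ t') (hz1 : t' - h0 ≤ 104 / 1000)
    (hb : Wc t' + 3 / 20 * (c3 t' - Wc t') ≤ B) : 13 / 20 - 152 / 1000 * (t' - h0) ≤ B := by
  obtain ⟨b1, b2⟩ := h0_bd
  have h3 : t' ^ 2 ≤ 3 := by
    have : t' ^ 2 ≤ 1 ^ 2 := pow_le_pow_left₀ (by linarith) (by linarith) 2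
    linarith
  have hnb := nb_near (x := Wc t' + 3 / 20 * (c3 t' - Wc t')) (T := t') ⟨rfl, ht', h3⟩
    (by linarith)
  have : (t' - h0) * (t' - h0) ≤ 104 / 1000 * (t' - h0) :=
    mul_le_mul_of_nonneg_right hz1 (sub_nonneg.2 ht')
  linarith

/-- The abscissa of the side 13 from its height. -/
theorem bp2_X {X T : ℝ} (h0' : 0 ≤ X) (hT0 : 0 ≤ T) (hT : T ≤ 28 / 25 * h0)
    (h : 1 ≤ X ^ 2 + T ^ 2) : 243 / 1000 ≤ X := by
  have hq := h0_sq'
  refine le_of_sq2 h0' ?_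
  have h2 : T ^ 2 ≤ (28 / 25 * h0) ^ 2 := pow_le_pow_left₀ hT0 hT 2
  linarith

/-- The height of the side 13. -/
theorem bp2_T {X T : ℝ} (h0' : 0 ≤ X) (hX : X ≤ 37 / 100) (hT0 : 0 ≤ T)
    (h : 1 ≤ X ^ 2 + T ^ 2) : 929 / 1000 ≤ T := by
  refine le_of_sq2 hT0 ?_
  have h2 : X ^ 2 ≤ (37 / 100) ^ 2 := pow_le_pow_left₀ h0' hX 2
  linarith

/-- The kernel of the side 12. -/
theorem bp2_12 (hs : 0 < s) (t0 : 0 ≤ t) (ht1 : t ≤ 104 / 1000) :
    |kA s (c1 t) t - 4 * tau t| ≤ 1 - 35 / 8 * t := by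
  obtain ⟨b1, b2⟩ := h0_bd
  have e : kA s (c1 t) t = RA par s t := by
    rw [kA_c1 t0 (by linarith)]
    unfold R1
    rw [if_pos (by linarith)]
  rw [e, tau_lo (by linarith), abs_le]
  constructor
  · linarith [RA_ge hs t0]
  · linarith [RA_le2 hs t0]

/-- The kernel of the side 23. -/
theorem bp2_23 {B : ℝ} (hs : 0 < s) (hs1 : s ≤ 11 / 400) (ht' : h0 ≤ t')
    (hz1 : t' - h0 ≤ 104 / 1000) (h1 : 1 ≤ (-B) ^ 2 + t' ^ 2) (h3 : (-B) ^ 2 + t' ^ 2 ≤ 3)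
    (hB : 0 ≤ B) : |kA s (-B) t' - 4 * tau t'| ≤ B + s / 2 + 4 * (t' - h0) := by
  obtain ⟨b1, b2⟩ := h0_bd
  have h := bp2_kA hs hs1 (by linarith : 0 ≤ t') h1 h3
  rw [abs_neg, abs_of_nonneg hB] at h
  rw [tau_mi (by linarith) (by linarith)]
  obtain ⟨k1, k2⟩ := abs_le.1 h
  rw [abs_le]
  constructor <;> linarith

/-- The kernel of the side 13. -/
theorem bp2_13 {X T : ℝ} (hs : 0 < s) (hs1 : s ≤ 11 / 400) (hT : 929 / 1000 ≤ T)
    (hT1 : T ≤ 28 / 25 * h0) (hX0 : 0 ≤ X) (hX : X ≤ 37 / 100) (h : 1 ≤ X ^ 2 + T ^ 2) :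
    kA s X T - 4 * tau T = Gu T - 6 * (T - h0) + (4 * h0 - 3) * X := by
  have hh := h0_pos
  obtain ⟨b1, b2⟩ := h0_bd
  have hT' : T ≤ 1 := by linarith
  have hT3 : T ^ 2 ≤ 3 := by
    have : T ^ 2 ≤ 1 ^ 2 := pow_le_pow_left₀ (by linarith) hT' 2
    linarith
  have eT := c1_sq (by linarith : 0 ≤ T) hT'
  have c1T0 := c1_nonneg T
  have c1TX : c1 T ≤ X := by
    refine le_of_sq2 hX0 ?_
    linarith
  have hWT := (upp_bd (T := T) (by linarith) hT3).2.2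
  have hXW : X ≤ Wc T := by
    have : (T - h0) * (T - h0) ≤ 104 / 1000 * (104 / 1000) :=
      mul_le_mul (by linarith) (by linarith) (by linarith) (by norm_num)
    linarith
  have hx4 : 4 * s ≤ T / 2 - h0 * c1 T := by
    have : h0 * c1 T ≤ 86603 / 100000 * (37 / 100) :=
      mul_le_mul b2.le (by linarith) c1T0 (by norm_num)
    linarith
  have e : kA s X T = Gx T - 2 * (T - h0) + (4 * h0 - 3) * X := by
    unfold kA
    exact ker_c1W_aff hs (by linarith) (by linarith) (fun _ => hx4) c1TX hXW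
  have e2 : Gx T = Gu T := by
    unfold Gx
    rw [if_pos hT']
  rw [e, e2, tau_mi (by linarith) (by linarith)]
  ring

/-- The last step. -/
theorem bp2_fin {N R S : ℝ} (hs : 0 < s) (hs1 : s ≤ 11 / 400) (hS0 : 0 ≤ S)
    (hR : R ≤ 57736 / 100000 * s * S + 3806 / 1000 * s ^ 2)
    (hS : 27503 / 1000000 * (S - s / 2) + 537 / 100000 ≤ N) : R ≤ N / (2 * h0) := by
  have hh := h0_pos
  obtain ⟨b1, b2⟩ := h0_bd
  rw [le_div_iff₀ (by linarith)]
  have m1 : s * S ≤ 11 / 400 * S := mul_le_mul_of_nonneg_right hs1 hS0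
  have m2 : s * s ≤ 11 / 400 * (11 / 400) := mul_le_mul hs1 hs1 hs.le (by norm_num)
  have m0 : 0 ≤ s * S := mul_nonneg hs.le hS0
  have m3 : (57736 / 100000 * s * S + 3806 / 1000 * s ^ 2) * (2 * h0) ≤
      (57736 / 100000 * (11 / 400 * S) + 3806 / 1000 * (11 / 400 * (11 / 400))) *
      (173206 / 100000) :=
    mul_le_mul (by linarith) (by linarith) (by linarith) (by positivity)
  have m4 := mul_le_mul_of_nonneg_right hR (by linarith : 0 ≤ 2 * h0)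
  linarith

/-- The gauge `4`. -/
theorem bp2 (hs : 0 < s) (hs1 : s ≤ 11 / 400) (hS : Sides (c1 t) X13 t t') (ht : t ≤ 8 * s)
    (ht' : h0 ≤ t') (hT : |t + t' - h0| ≤ 8 * s) (hT1 : t + t' ≤ 28 / 25 * h0)
    (h0' : 0 ≤ X13)
    (hb : Wc t' + 3 / 20 * (c3 t' - Wc t') ≤ c1 t - X13)
    (hE : exn (c1 t) X13 t t' < (174 / 100 + 3 * s) * s) :
    cost s 4 0 (c1 t) X13 t t' ≤ exn (c1 t) X13 t t' := by
  clear hT hE ht
  have hh := h0_pos
  obtain ⟨b1, b2⟩ := h0_bd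
  have t0 := hS.t0
  have ht1 : t ≤ 104 / 1000 := by linarith
  have hz0 : 0 ≤ t' - h0 := by linarith
  have hD : t + (t' - h0) ≤ 104 / 1000 := by linarith
  have hz1 : t' - h0 ≤ 104 / 1000 := by linarith
  obtain ⟨hc, hc1⟩ := bp2_c t0 ht1
  have hB := bp2_b ht' hz1 hb
  have hXlo := bp2_X h0' (by linarith : 0 ≤ t + t') hT1 hS.c1
  have hB1 : c1 t - X13 ≤ 757 / 1000 := by linarith
  have hXhi : X13 ≤ 37 / 100 := by linarith
  have hTlo := bp2_T h0' hXhi (by linarith : 0 ≤ t + t') hS.c1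
  obtain ⟨G0, G1⟩ := Gu_bd (T := t + t') (by linarith) (by linarith)
  have B0 : 0 ≤ c1 t - X13 := by linarith
  have eB : X13 - c1 t = -(c1 t - X13) := by ring
  have A12 := bp2_12 hs t0 ht1
  have A23 : |kA s (X13 - c1 t) t' - 4 * tau t'| ≤ c1 t - X13 + s / 2 + 4 * (t' - h0) := by
    have h1 := hS.b1
    have h3 := hS.b3
    rw [eB] at h1 h3 ⊢
    exact bp2_23 hs hs1 ht' hz1 h1 h3 B0
  have A13 : kA s X13 (t + t') - 4 * tau (t + t') =
      Gu (t + t') - 6 * (t + (t' - h0)) + (4 * h0 - 3) * (c1 t - (c1 t - X13)) := by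
    rw [bp2_13 hs hs1 hTlo hT1 h0' hXhi hS.c1]
    ring
  have R12 := bp2_kR hs hs1 t0 hS.a1 hS.a3
  have R23 := bp2_kR hs hs1 hS.t1 hS.b1 hS.b3
  have R13 := bp2_kR hs hs1 (by linarith : 0 ≤ t + t') hS.c1 hS.c3
  have X12 : |kX s (c1 t) t| ≤ 32 / 25 * s ^ 2 :=
    lev_cir hs hs1 t0 (by linarith) (abs_of_nonneg (c1_nonneg t))
  have X23 := bp2_kX hs hs1 hS.t1 hS.b1 hS.b3
  have X13' := bp2_kX hs hs1 (by linarith : 0 ≤ t + t') hS.c1 hS.c3
  have hX : 1 ≤ (c1 t - (c1 t - X13)) ^ 2 + (h0 + (t + (t' - h0))) ^ 2 := by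
    have := hS.c1
    have e : (c1 t - (c1 t - X13)) ^ 2 + (h0 + (t + (t' - h0))) ^ 2 = X13 ^ 2 + (t + t') ^ 2 := by
      ring
    rw [e]
    exact this
  have key := bp2_num (G := Gu (t + t')) t0 hz0 hD hc1 hc hB hB1 (by linarith) hX G0
    (by linarith)
  rw [← A13] at key
  clear hX G0 G1 hTlo hXlo hb eB hXhi
  have eE : exn (c1 t) X13 t t' = (h0 * (c1 t - 1) + c1 t * (t' - h0) + (c1 t - X13) * t) /
      (2 * h0) := by
    unfold exn
    field_simp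
    ring
  rw [eE]
  have n12 := abs_nonneg (kA s (c1 t) t - 4 * tau t)
  have n23 := abs_nonneg (kA s (X13 - c1 t) t' - 4 * tau t')
  have n13 := abs_nonneg (kA s X13 (t + t') - 4 * tau (t + t'))
  refine bp2_fin (S := |kA s (c1 t) t - 4 * tau t| + |kA s (X13 - c1 t) t' - 4 * tau t'| +
    |kA s X13 (t + t') - 4 * tau (t + t')|) hs hs1 (by linarith) ?_ (by linarith)
  have r := mul_le_mul_of_nonneg_left (add_le_add (add_le_add R12 R23) R13)
    (by positivity : 0 ≤ 101 / 1000 * s ^ 2)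
  unfold cost
  rw [add_zero, add_zero]
  linarith

end Pool.Agent.Strip051.LC.E0.Out
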