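import Pool.Agent.Strip051.LC.E0.O4.Def
import Pool.Agent.Strip051.LC.E0.O3.GeoB
import Pool.Agent.Strip051.LC.E0.O3.SecA
import Pool.Agent.Strip051.LC.E0.O3.Lev

/-! # Small rests: a unit side and a side of length `√3`, above the window -/

namespace Pool.Agent.Strip051.LC.E0.Out

open Pool.Agent.StripNear Pool.Agent.StripSquare Pool.Agent.Strip051 Pool.Agent.Strip051.Sweep
open Pool.Agent.Strip051.LC.Line (tau)

/-! ### The profiles beyond `5 / 2` -/

theorem m1B_dc_hi {w : ℝ} (h : 5 / 2 ≤ w) : dc par w = par.d3 * (2 / 3) * max (4 - w) 0 := by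
  rcases h.eq_or_lt with h1 | h1
  · subst h1
    have e : dc par (5 / 2) = par.d3 := by
      unfold dc
      rw [if_neg (by norm_num), if_neg (by norm_num), if_pos le_rfl, pl_right (by norm_num)]
    rw [e, max_eq_left (by norm_num)]
    ring
  · rcases le_or_gt w 4 with h2 | h2
    · unfold dc
      rw [if_neg (by linarith), if_neg (by linarith), if_neg (by linarith), if_pos h2,
        max_eq_left (by linarith)]
      unfold pl
      ring
    · unfold dc
      rw [if_neg (by linarith), if_neg (by linarith), if_neg (by linarith),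
        if_neg (by linarith), max_eq_right (by linarith)]
      ring

theorem m1B_dc_lo {w : ℝ} (hw : 0 ≤ w) (h : w ≤ 5 / 2) :
    par.d3 ≤ dc par w ∧ dc par w ≤ par.d3 + 17 / 10 * (5 / 2 - w) := by
  have a := par_d0
  have b := par_d1
  have c := par_d2
  have d := par_d3
  unfold dc
  split_ifs with h1 h2
  · have h5 := mul_le_mul_of_nonneg_left a.2 hw
    have h5' := mul_le_mul_of_nonneg_left a.1 hw
    have h6 : 0 ≤ w * (par.d1 * w) := mul_nonneg hw (mul_nonneg (by linarith [b.1]) hw)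
    have h6' : par.d1 * w ≤ 1282 / 10000 * 1 := mul_le_mul b.2 h1 hw (by norm_num)
    have h7 := mul_le_mul_of_nonneg_left h6' hw
    constructor <;> linarith [d.1, d.2]
  · constructor
    · have := le_pl_aff (a := 0) (b := par.d3) (y0 := par.d0 + par.d1) (y1 := par.d2)
        (by norm_num : (1 : ℝ) < 3 / 2) (not_le.1 h1).le h2 (by linarith [a.1, b.1, d.2])
        (by linarith [c.1, d.2])
      linarith
    · have := pl_le_aff (a := -(17 / 10)) (b := par.d3 + 17 / 4) (y0 := par.d0 + par.d1)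
        (y1 := par.d2) (by norm_num : (1 : ℝ) < 3 / 2) (not_le.1 h1).le h2
        (by linarith [a.2, b.2, d.1]) (by linarith [c.2, d.1])
      linarith
  · constructor
    · have := le_pl_aff (a := 0) (b := par.d3) (y0 := par.d2) (y1 := par.d3)
        (by norm_num : (3 / 2 : ℝ) < 5 / 2) (not_le.1 h2).le h (by linarith [c.1, d.2])
        (by linarith)
      linarith
    · have := pl_le_aff (a := -(17 / 10)) (b := par.d3 + 17 / 4) (y0 := par.d2)
        (y1 := par.d3) (by norm_num : (3 / 2 : ℝ) < 5 / 2) (not_le.1 h2).le h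
        (by linarith [c.2, d.1]) (by linarith)
      linarith

/-- The kernel of the unit circle decreases with a bounded slope. -/
theorem m1B_RA {s y z : ℝ} (hs : 0 < s) (hy : 0 ≤ y) (hyz : y ≤ z) (hz : 5 / 2 * s ≤ z) :
    0 ≤ RA par s y - RA par s z ∧ RA par s y - RA par s z ≤ 4313 / 1000 * (z - y) := by
  obtain ⟨w, rfl⟩ : ∃ w, y = s * w := ⟨y / s, by field_simp⟩
  obtain ⟨v, rfl⟩ : ∃ v, z = s * v := ⟨z / s, by field_simp⟩
  have hw : 0 ≤ w := by
    by_contra h
    nlinarith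
  have hwv : w ≤ v := by
    by_contra h
    nlinarith
  have hv : 5 / 2 ≤ v := by
    by_contra h
    nlinarith
  have e1 : s * w / s = w := by field_simp
  have e2 : s * v / s = v := by field_simp
  have d := par_d3
  have ev := m1B_dc_hi hv
  have m0 : 0 ≤ max (4 - v) 0 := le_max_right _ _
  have m1 : 4 - v ≤ max (4 - v) 0 := le_max_left _ _
  have m2 : max (4 - v) 0 ≤ 3 / 2 := max_le (by linarith) (by norm_num)
  have key : -(2313 / 1000) * (v - w) ≤ dc par w - dc par v ∧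
      dc par w - dc par v ≤ 2 * (v - w) := by
    rcases le_or_gt (5 / 2) w with h | h
    · have ew := m1B_dc_hi h
      have n0 : max (4 - v) 0 ≤ max (4 - w) 0 := max_le_max (by linarith) le_rfl
      have n1 : max (4 - w) 0 ≤ max (4 - v) 0 + (v - w) :=
        max_le (by linarith) (by linarith)
      rw [ew, ev]
      constructor <;> nlinarith
    · obtain ⟨l1, l2⟩ := m1B_dc_lo hw h.le
      rw [ev]
      constructor
      · nlinarith
      · nlinarith
  have k1 := mul_le_mul_of_nonneg_left key.1 hs.le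
  have k2 := mul_le_mul_of_nonneg_left key.2 hs.le
  unfold RA
  rw [e1, e2]
  constructor <;> linarith

theorem m1B_xA_hi {s w : ℝ} (h : 5 / 2 ≤ w) : xA par s w = 319 / 375 * max (4 - w) 0 := by
  have e' : par.a1 = 319 / 250 := rfl
  rcases h.eq_or_lt with h1 | h1
  · subst h1
    unfold xA
    rw [if_neg (by norm_num), if_pos le_rfl, pl_right (by norm_num), e',
      max_eq_left (by norm_num)]
    norm_num
  · rcases le_or_gt w 4 with h2 | h2
    · unfold xA
      rw [if_neg (by linarith), if_neg (by linarith), if_pos h2, e', max_eq_left (by linarith)]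
      unfold pl
      ring
    · unfold xA
      rw [if_neg (by linarith), if_neg (by linarith), if_neg (by linarith),
        max_eq_right (by linarith), mul_zero]

theorem m1B_xA_lo {s w : ℝ} (hs : 0 < s) (hs1 : s ≤ 11 / 400) (hw : 0 ≤ w) (h : w ≤ 5 / 2) :
    319 / 250 * (w - 3 / 2) ≤ xA par s w ∧ xA par s w ≤ 319 / 375 * (4 - w) := by
  obtain ⟨a1, a2⟩ := x1_bd hs hs1
  obtain ⟨b1, b2⟩ := xm_bd hs hs1
  have e' : par.a1 = 319 / 250 := rfl
  have n := xA_nonneg hs hs1 hw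
  rcases le_or_gt w (3 / 2) with h2 | h2
  · refine ⟨by linarith, ?_⟩
    unfold xA x0
    rw [if_pos h2]
    split_ifs with h1
    · have k1 : w * (2 * x1 s - xm par s + (xm par s - x1 s) * w) ≤ 1 * 1 := by
        refine mul_le_mul h1 ?_ ?_ zero_le_one
        · nlinarith
        · nlinarith
      linarith
    · nlinarith
  · unfold xA
    rw [if_neg (by linarith), if_pos h]
    constructor
    · have := le_pl_aff (a := 319 / 250) (b := 319 / 250 * (-(3 / 2)))
        (y0 := x1 s + xm par s / 2) (y1 := par.a1) (by norm_num : (3 / 2 : ℝ) < 5 / 2) h2.le h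
        (by linarith) (by rw [e']; norm_num)
      linarith
    · have := pl_le_aff (a := -(319 / 375)) (b := 319 / 375 * 4)
        (y0 := x1 s + xm par s / 2) (y1 := par.a1) (by norm_num : (3 / 2 : ℝ) < 5 / 2) h2.le h
        (by linarith) (by rw [e']; norm_num)
      linarith

/-- The level profile of the unit circle. -/
theorem m1B_xA {s w v : ℝ} (hs : 0 < s) (hs1 : s ≤ 11 / 400) (hw : 0 ≤ w) (hwv : w ≤ v)
    (hv : 5 / 2 ≤ v) : |xA par s w - xA par s v| ≤ 319 / 250 * (v - w) := by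
  have m0 : 0 ≤ max (4 - v) 0 := le_max_right _ _
  have m1 : 4 - v ≤ max (4 - v) 0 := le_max_left _ _
  have m2 : max (4 - v) 0 ≤ 3 / 2 := max_le (by linarith) (by norm_num)
  rw [m1B_xA_hi hv, abs_le]
  rcases le_or_gt (5 / 2) w with h | h
  · have n0 : max (4 - v) 0 ≤ max (4 - w) 0 := max_le_max (by linarith) le_rfl
    have n1 : max (4 - w) 0 ≤ max (4 - v) 0 + (v - w) := max_le (by linarith) (by linarith)
    rw [m1B_xA_hi h]
    constructor <;> linarith
  · obtain ⟨l1, l2⟩ := m1B_xA_lo hs hs1 hw h.le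
    constructor
    · linarith
    · linarith

theorem m1B_xB {z : ℝ} (h : 1 ≤ z) : xB par z = 571 / 1125 * max (5 / 2 - z) 0 := by
  have e0 : par.b0 = 181 / 375 := rfl
  have e1 : par.b1 = 209 / 750 := rfl
  rcases h.eq_or_lt with h1 | h1
  · subst h1
    unfold xB
    rw [if_pos le_rfl, e0, e1, max_eq_left (by norm_num)]
    norm_num
  · unfold xB
    rw [if_neg (by linarith)]
    split_ifs with h2
    · rw [max_eq_left (by linarith), e0, e1]
      unfold pl
      ring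
    · rw [max_eq_right (by linarith), mul_zero]

/-- The level next to the unit circle. -/
theorem m1B_lev {s w v : ℝ} (hw : 5 / 2 ≤ w) (hwv : w ≤ v) :
    |(xA par s v - xB par (v / 2)) - (xA par s w - xB par (w / 2))| ≤ 111 / 100 * (v - w) ∧
      -(26 / 100) ≤ xA par s w - xB par (w / 2) ∧ xA par s w - xB par (w / 2) ≤ 65 / 100 := by
  have n0 : max (4 - v) 0 ≤ max (4 - w) 0 := max_le_max (by linarith) le_rfl
  have n1 : max (4 - w) 0 ≤ max (4 - v) 0 + (v - w) :=
    max_le (by linarith [le_max_left (4 - v) 0]) (by linarith [le_max_right (4 - v) 0])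
  have p0 : max (5 / 2 - v / 2) 0 ≤ max (5 / 2 - w / 2) 0 := max_le_max (by linarith) le_rfl
  have p1 : max (5 / 2 - w / 2) 0 ≤ max (5 / 2 - v / 2) 0 + (v - w) / 2 :=
    max_le (by linarith [le_max_left (5 / 2 - v / 2) 0])
      (by linarith [le_max_right (5 / 2 - v / 2) 0])
  rw [m1B_xA_hi hw, m1B_xA_hi (hw.trans hwv), m1B_xB (by linarith : 1 ≤ v / 2),
    m1B_xB (by linarith : 1 ≤ w / 2)]
  refine ⟨?_, ?_, ?_⟩
  · rw [abs_le]
    constructor <;> linarith
  · rcases le_or_gt w 4 with h | h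
    · rw [max_eq_left (by linarith), max_eq_left (by linarith)]
      linarith
    · have : max (5 / 2 - w / 2) 0 ≤ 1 / 2 := max_le (by linarith) (by norm_num)
      rw [max_eq_right (by linarith : 4 - w ≤ 0)]
      linarith
  · rcases le_or_gt w 4 with h | h
    · rw [max_eq_left (by linarith), max_eq_left (by linarith)]
      linarith
    · have : 0 ≤ max (5 / 2 - w / 2) 0 := le_max_right _ _
      rw [max_eq_right (by linarith : 4 - w ≤ 0)]
      linarith

/-- The level on `W`. -/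
theorem m1B_xW {s z : ℝ} (hs : 0 < s) (hs1 : s ≤ 11 / 400) (h : 1 ≤ z) :
    0 ≤ xW par s z ∧ xW par s z ≤ 4 / 5 := by
  obtain ⟨a1, a2⟩ := x1_bd hs hs1
  obtain ⟨b1, b2⟩ := xm_bd hs hs1
  rcases le_or_gt z (3 / 2) with h1 | h1
  · unfold xW x0
    rw [if_pos h1]
    split_ifs with h2
    · have : z = 1 := le_antisymm h2 h
      subst this
      constructor <;> linarith
    · constructor <;> nlinarith
  · rcases le_or_gt z (5 / 2) with h2 | h2
    · obtain ⟨k1, k2⟩ := seca_xWb hs hs1 h1 h2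
      exact ⟨k1, by linarith⟩
    · rw [seca_xW h2.le]
      norm_num

theorem m1B_tap {w : ℝ} (hw : 0 ≤ w) : 0 ≤ taper w ∧ taper w ≤ 1 ∧
    (w ≤ 4 → 3 * taper w ≤ 4 - w) := by
  unfold taper
  split_ifs with h1 h2
  · exact ⟨hw, h1, fun _ => by linarith⟩
  · unfold pl
    refine ⟨by linarith, by linarith, fun _ => by linarith⟩
  · exact ⟨le_rfl, zero_le_one, fun h => absurd h h2⟩

/-! ### The third side -/

theorem m1B_geo {s C x C' x' : ℝ} (hs : 0 < s) (hs1 : s ≤ 11 / 400) (h : Rot C x)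
    (h' : Rot C' x') (hx : 0 ≤ x) (ho : x ≤ x') (hx4 : x' ≤ 4 * s) (ha : x' - x ≤ 22 / 10 * s)
    (hT : 28 / 25 * h0 ≤ h0 * C' + 3 / 2 * x') :
    7 / 100 ≤ x' ∧ ∃ D σ : ℝ, Rot D σ ∧ c1 (h0 * C' + 3 / 2 * x' - x) = D / 2 - h0 * σ ∧
      h0 * C' + 3 / 2 * x' - x = h0 * D + σ / 2 ∧ x' ≤ σ ∧ σ - x' ≤ 34 / 10 * (x' - x) ∧
      (σ - x') * (1 / 2 - h0 * (σ / (1 + D))) ≤ 12 / 10 * (x' - x) ∧
      0 ≤ 1 / 2 - h0 * (σ / (1 + D)) ∧
      3 / 2 * C' - h0 * x' - C - (D / 2 - h0 * σ) ≤ 335 / 100 * (x' - x) ∧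
      h0 * C' + 3 / 2 * x' - x < 1 ∧ h0 + 112 / 100 * s ≤ h0 * C' + 3 / 2 * x' - x ∧
      3 / 2 * C' - h0 * x' - C ≤ Wc (h0 * C' + 3 / 2 * x' - x) ∧
      0 ≤ 3 / 2 * C' - h0 * x' - C := by
  have hh := h0_pos
  have hq' := h0_sq'
  obtain ⟨b1, b2⟩ := h0_bd
  have x0 : 0 ≤ x' := hx.trans ho
  have C1 := h.C1
  have C1' := h'.C1
  obtain ⟨k1, k2, k3, k4⟩ := half_bd h'.Ch x0 h'.sq
  have x7 : 7 / 100 ≤ x' := by
    by_contra hcon
    rw [not_le] at hcon
    have e1 : h0 * C' ≤ h0 * (1 - x' ^ 2 / 2) := mul_le_mul_of_nonneg_left k4 hh.le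
    have e3 : h0 / 2 * (7 / 100 + x') ≤ 1 * 1 := mul_le_mul (by linarith) (by linarith)
      (by linarith) zero_le_one
    have e2 : 0 ≤ (7 / 100 - x') * (3 / 2 - h0 / 2 * (7 / 100 + x')) :=
      mul_nonneg (by linarith) (by linarith)
    linarith
  refine ⟨x7, ?_⟩
  have hx11 : x' ≤ 11 / 100 := by linarith
  have ha' : x' - x ≤ 605 / 10000 := by linarith
  have sq' : x' ^ 2 ≤ (11 / 100) ^ 2 := pow_le_pow_left₀ x0 hx11 2
  have C9' : 9935 / 10000 ≤ C' := by linarith
  obtain ⟨T, hTd⟩ : ∃ T, T = h0 * C' + 3 / 2 * x' - x := ⟨_, rfl⟩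
  rw [← hTd]
  have e60 := (n60_facts h').2.2.2.2.2
  have hU : h0 * C' + x' / 2 ≤ T := by linarith
  have hTlow : h0 + 112 / 100 * s ≤ T := by
    have e1 : 448 / 1000 * x' ≤ x' * (1 / 2 - h0 * x' / (1 + C')) := by
      rw [mul_comm]
      exact mul_le_mul_of_nonneg_left (by linarith) x0
    linarith
  have hThi : T ≤ h0 + 1155 / 10000 := by
    have : h0 * C' ≤ h0 * 1 := mul_le_mul_of_nonneg_left C1' hh.le
    linarith
  have hT1 : T < 1 := by linarith
  have hT0 : 0 ≤ T := by linarith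
  have hTh : h0 ≤ T := by linarith
  obtain ⟨D, σ, hR, hc, hTe, hσ⟩ : ∃ D σ : ℝ, Rot D σ ∧ c1 T = D / 2 - h0 * σ ∧
      T = h0 * D + σ / 2 ∧ x' ≤ σ := by
    obtain ⟨r1, r2⟩ := c1_rot hT0 hT1.le
    have c0 := c1_nonneg T
    have ch := (c1_half hT0 hT1.le).2 hTh
    have e1 : h0 * c1 T ≤ h0 * (1 / 2) := mul_le_mul_of_nonneg_left ch hh.le
    have e2 : 0 ≤ h0 * c1 T := mul_nonneg hh.le c0
    refine ⟨c1 T / 2 + h0 * T, T / 2 - h0 * c1 T, ⟨by positivity, r1, by linarith, by linarith⟩,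
      r2, ?_, seca_sine h' hU hT1.le⟩
    linear_combination (-T) * hq'
  have s0 : 0 ≤ σ := x0.trans hσ
  obtain ⟨j1, j2, j3, j4⟩ := half_bd hR.Ch s0 hR.sq
  have sh := hR.hi
  have hd : 0 ≤ σ - x' := by linarith
  have s34 : σ ≤ 34 / 100 := by
    by_contra hcon
    rw [not_le] at hcon
    have e1 : h0 * (1 - 536 / 1000 * σ ^ 2) ≤ h0 * D := mul_le_mul_of_nonneg_left j3 hh.le
    have e2 : h0 * (536 / 1000 * σ ^ 2) ≤ 86603 / 100000 * (536 / 1000 * σ ^ 2) :=
      mul_le_mul_of_nonneg_right b2.le (by positivity)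
    have e3 : 0 ≤ (σ - 34 / 100) * (1 / 2 - σ) := mul_nonneg (by linarith) (by linarith)
    linarith
  have sσ : σ ^ 2 ≤ (34 / 100) ^ 2 := pow_le_pow_left₀ s0 s34 2
  have D9 : 938 / 1000 ≤ D := by linarith
  obtain ⟨q, q1, -, q2, -⟩ := mv h' hR
  have cd : 0 < C' + D := by linarith
  have q0 : 0 ≤ q := by
    by_contra hcon
    rw [not_le] at hcon
    have := mul_neg_of_neg_of_pos hcon cd
    linarith
  have q3 : q ≤ 234 / 1000 := by
    by_contra hcon
    rw [not_le] at hcon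
    have := mul_lt_mul_of_pos_right hcon cd
    linarith
  have hq3 : h0 * q ≤ 2027 / 10000 := by
    have := mul_le_mul b2.le q3 q0 (by norm_num)
    linarith
  have ea : x' - x = (σ - x') * (1 / 2 - h0 * q) := by
    linear_combination (-1) * hTd + hTe + h0 * q1
  have d1 : (σ - x') * (297 / 1000) ≤ x' - x := by
    rw [ea]
    exact mul_le_mul_of_nonneg_left (by linarith) hd
  have d2 : σ - x' ≤ 34 / 10 * (x' - x) := by linarith
  obtain ⟨u, hu, hu1, hu2, hu3, -⟩ := hR.half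
  have u0 := hu3 s0
  have u1 := (abs_le.1 hu2).2
  have P0 : 0 ≤ 1 / 2 - h0 * u := by
    have := mul_le_mul b2.le u1 u0 (by norm_num)
    linarith
  have P1 : 12 / 10 * q - u ≤ 115 / 1000 := by
    by_contra hcon
    rw [not_le] at hcon
    have e1 : u * (1 - C') ≤ 67 / 250 * (65 / 10000) :=
      mul_le_mul u1 (by linarith) (by linarith) (by norm_num)
    have e2 : 115 / 1000 * (C' + D) < (12 / 10 * q - u) * (C' + D) :=
      mul_lt_mul_of_pos_right hcon cd
    linarith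
  have P2 : 1 / 2 - h0 * u ≤ 12 / 10 * (1 / 2 - h0 * q) := by
    have e1 := mul_le_mul_of_nonneg_left P1 hh.le
    linarith
  have hC : C' ≤ C := by
    refine le_of_sq2 h.C0 ?_
    have e1 := h.sq
    have e2 := h'.sq
    have e3 : x ^ 2 ≤ x' ^ 2 := pow_le_pow_left₀ hx ho 2
    linarith
  refine ⟨D, σ, hR, hc, hTe, hσ, d2, ?_, ?_, ?_, hT1, hTlow, ?_, ?_⟩
  · rw [hu]
    calc (σ - x') * (1 / 2 - h0 * u) ≤ (σ - x') * (12 / 10 * (1 / 2 - h0 * q)) :=
          mul_le_mul_of_nonneg_left P2 hd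
      _ = 12 / 10 * (x' - x) := by rw [ea]; ring
  · rw [hu]
    exact P0
  · have e1 : (σ - x') * q ≤ (σ - x') * (234 / 1000) := mul_le_mul_of_nonneg_left q3 hd
    have e2 : h0 * (σ - x') ≤ 86603 / 100000 * (σ - x') := mul_le_mul_of_nonneg_right b2.le hd
    linarith
  · obtain ⟨w1, -⟩ := seca_Wc hTh (by linarith : T ≤ h0 + 27 / 100)
    have e1 : (T - h0) ^ 2 ≤ (1155 / 10000) ^ 2 :=
      pow_le_pow_left₀ (by linarith) (by linarith) 2
    have e2 : 86602 / 100000 * (7 / 100) ≤ h0 * x' := mul_le_mul b1.le x7 (by norm_num) hh.le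
    linarith
  · have e2 : h0 * x' ≤ 86603 / 100000 * (11 / 100) := mul_le_mul b2.le hx11 x0 (by norm_num)
    linarith

section

variable {s C x C' x' : ℝ}

/-- The bound of the kernel at the third side. -/
theorem m1B_k23 {s k T X D σ x' a : ℝ} (hs : 0 < s) (hs1 : s ≤ 11 / 400) (x0 : 0 < x')
    (h5 : 5 / 2 * s ≤ x') (hk : k * x' = RA par s x') (hk0 : 0 ≤ k) (hR : Rot D σ)
    (hc : c1 T = D / 2 - h0 * σ) (hTe : T = h0 * D + σ / 2) (hσ : x' ≤ σ)
    (g2 : (σ - x') * (1 / 2 - h0 * (σ / (1 + D))) ≤ 12 / 10 * a)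
    (g3 : 0 ≤ 1 / 2 - h0 * (σ / (1 + D))) (g4 : X - (D / 2 - h0 * σ) ≤ 335 / 100 * a)
    (g5 : T < 1) (g6 : h0 + 112 / 100 * s ≤ T) (g7 : X ≤ Wc T) (hX : c1 T ≤ X) :
    |kA s X T - k * tau T| ≤ 12 / 10 * (k + 4313 / 1000) * a + 335 / 100 * a := by
  have hh := h0_pos
  have gt := h0_gt
  obtain ⟨b1, b2⟩ := h0_bd
  have hTh : h0 ≤ T := by linarith
  have h32 : T < 3 * h0 / 2 := by linarith
  have e1 : kA s X T = R1x s T + slU par s ((T - h0) / s) * (X - c1 T) :=
    ker_c1W hTh h32 hX g7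
  have s0 : 0 ≤ σ := x0.le.trans hσ
  obtain ⟨-, -, -, f4, f5, f6⟩ := n60_facts hR
  have e2 : R1x s T = RA par s σ * (1 / 2 - h0 * (σ / (1 + D))) := by
    unfold R1x R1
    rw [if_pos g5, if_neg (by linarith), if_neg (by linarith)]
    have e3 : T / 2 - h0 * c1 T = σ := by
      rw [hc, hTe]
      exact f4
    have e4 : c1 T / 2 + h0 * T = D := by
      rw [hc, hTe]
      exact f5
    rw [e3, e4, abs_of_nonneg s0, mul_div_assoc]
  have e3 : tau T = σ * (1 / 2 - h0 * (σ / (1 + D))) := by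
    rw [tau_mi (by linarith) h32, hTe, f6, mul_div_assoc]
  obtain ⟨r1, r2⟩ := m1B_RA hs x0.le hσ (h5.trans hσ)
  have e4 : kA s X T - k * tau T =
      -((RA par s x' - RA par s σ + k * (σ - x')) * (1 / 2 - h0 * (σ / (1 + D)))) +
        slU par s ((T - h0) / s) * (X - c1 T) := by
    rw [e1, e2, e3]
    linear_combination (-(1 / 2 - h0 * (σ / (1 + D)))) * hk
  have hd : 0 ≤ σ - x' := by linarith
  have n0 : 0 ≤ X - c1 T := by linarith
  have sl := slU_one (z := (T - h0) / s) hs hs1 (div_nonneg (by linarith) hs.le)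
  have m1 : |slU par s ((T - h0) / s) * (X - c1 T)| ≤ 335 / 100 * a := by
    rw [abs_mul, abs_of_nonneg n0]
    have := mul_le_mul_of_nonneg_right sl n0
    rw [hc] at this ⊢
    linarith
  have q0 : 0 ≤ RA par s x' - RA par s σ + k * (σ - x') := by
    have := mul_nonneg hk0 hd
    linarith
  have q1 : RA par s x' - RA par s σ + k * (σ - x') ≤ (k + 4313 / 1000) * (σ - x') := by
    linarith
  have m2 : (RA par s x' - RA par s σ + k * (σ - x')) * (1 / 2 - h0 * (σ / (1 + D))) ≤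
      12 / 10 * (k + 4313 / 1000) * a := by
    have z1 := mul_le_mul_of_nonneg_right q1 g3
    have z2 := mul_le_mul_of_nonneg_left g2 (by linarith : 0 ≤ k + 4313 / 1000)
    linarith
  have m3 := mul_nonneg q0 g3
  have m4 := abs_le.1 m1
  rw [e4, abs_le]
  constructor
  · linarith [m4.1]
  · linarith [m4.2, mul_nonneg q0 g3, m2.trans' m3]

/-- Side 12 on the unit circle, side 13 on the circle of radius `√3`. -/
theorem m1B (hs : 0 < s) (hs1 : s ≤ 11 / 400) (h : Rot C x) (h' : Rot C' x')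
    (hx : 0 ≤ x) (ho : x ≤ x') (hx4 : x' ≤ 4 * s)
    (hq : (C - C') ^ 2 + (x - x') ^ 2 ≤ (22 / 10 * s) ^ 2)
    (hT : 28 / 25 * h0 ≤ h0 * C' + 3 / 2 * x')
    (hS : Sides C (3 / 2 * C' - h0 * x') x (h0 * C' + 3 / 2 * x' - x))
    (hE : 84 / 100 * (x' - x) ≤ exn C (3 / 2 * C' - h0 * x') x (h0 * C' + 3 / 2 * x' - x)) :
    OK2 s C (3 / 2 * C' - h0 * x') x (h0 * C' + 3 / 2 * x' - x) := by
  have hh := h0_pos
  obtain ⟨b1, b2⟩ := h0_bd
  have ha : x' - x ≤ 22 / 10 * s := by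
    refine le_of_sq2 (by positivity) ?_
    nlinarith [sq_nonneg (C - C')]
  obtain ⟨x7, D, σ, hR, hc, hTe, hσ, g1, g2, g3, g4, g5, g6, g7, g8⟩ :=
    m1B_geo hs hs1 h h' hx ho hx4 ha hT
  have a0 : 0 ≤ x' - x := by linarith
  have x0' : 0 < x' := by linarith
  have h5 : 5 / 2 * s ≤ x' := by linarith
  have xh : x' ≤ 1 / 2 := h'.hi
  have hX : c1 (h0 * C' + 3 / 2 * x' - x) ≤ 3 / 2 * C' - h0 * x' - C :=
    seca_adm ⟨hS.t1, hS.b1, hS.b3⟩ g8
  -- the gauge
  obtain ⟨k, hk⟩ : ∃ k : ℝ, k = RA par s x' / x' := ⟨_, rfl⟩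
  have hkx : k * x' = RA par s x' := by rw [hk, div_mul_cancel₀ _ x0'.ne']
  have RA0 := RA_nonneg hs x0'.le xh
  have hk0 : 0 ≤ k := by rw [hk]; exact div_nonneg RA0 x0'.le
  have sk : s * k ≤ 38 / 100 := by
    have r1 := RA_mid' hs h5 hx4
    have r2 : 0 ≤ 1 - 2 * x' + 2313 / 1000 * (4 * s - x') := RA0.trans r1
    have r3 := mul_le_mul_of_nonneg_right hs1 r2
    have r4 := mul_le_mul_of_nonneg_left r1 hs.le
    have r5 : s * (k * x') ≤ 38 / 100 * x' := by
      rw [hkx]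
      linarith
    by_contra hcon
    rw [not_le] at hcon
    nlinarith
  obtain ⟨A, hA⟩ : ∃ A : ℝ, A = s ^ 2 * xA par s (x' / s) := ⟨_, rfl⟩
  obtain ⟨b, hb⟩ : ∃ b : ℝ, b = lvl s x' := ⟨_, rfl⟩
  obtain ⟨T, hTd⟩ : ∃ T, T = h0 * C' + 3 / 2 * x' - x := ⟨_, rfl⟩
  obtain ⟨X, hXd⟩ : ∃ X, X = 3 / 2 * C' - h0 * x' - C := ⟨_, rfl⟩
  have k23 := m1B_k23 hs hs1 x0' h5 hkx hk0 hR hc hTe hσ g2 g3 g4 g5 g6 g7 hX
  have k12 : |kA s C x - k * tau x| ≤ (k + 4313 / 1000) * (x' - x) := by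
    refine (n0_res h hx k).trans ?_
    obtain ⟨r1, r2⟩ := m1B_RA hs hx ho h5
    have r3 := mul_nonneg hk0 a0
    have e : RA par s x - k * x = RA par s x - RA par s x' + k * (x' - x) := by
      linear_combination -hkx
    rw [e, abs_of_nonneg (by linarith)]
    linarith
  have k13 : kA s (3 / 2 * C' - h0 * x') (h0 * C' + 3 / 2 * x') -
      k * tau (h0 * C' + 3 / 2 * x') = 0 := by
    rw [n30_kA hs hs1 h' x0'.ne', abs_of_pos x0', hk, sub_self]
  -- scaled variables
  have w5 : 5 / 2 ≤ x' / s := by rwa [le_div_iff₀ hs]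
  have w4 : x' / s ≤ 4 := by rwa [div_le_iff₀ hs]
  have w0 : 0 ≤ x / s := div_nonneg hx hs.le
  have wx : x / s ≤ x' / s := div_le_div_of_nonneg_right ho hs.le
  have wσ : x' / s ≤ σ / s := div_le_div_of_nonneg_right hσ hs.le
  have s2 : 0 ≤ s ^ 2 := sq_nonneg s
  have ss : s ^ 2 ≤ 11 / 400 * s := by nlinarith
  -- the levels
  have L12 : |kX s C x - A| ≤ 319 / 250 * (s * (x' - x)) := by
    have e1 : kX s C x = s ^ 2 * xA par s (x / s) := by
      have e2 := kX_c1 (s := s) hx (by linarith : x < 1)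
      rw [n0_facts h hx] at e2
      rw [e2]
      unfold X1
      rw [if_pos (by linarith)]
    rw [e1, hA, ← mul_sub, abs_mul, abs_of_nonneg s2]
    have e3 := mul_le_mul_of_nonneg_left (m1B_xA hs hs1 w0 wx w5) s2
    have e4 : s ^ 2 * (319 / 250 * (x' / s - x / s)) = 319 / 250 * (s * (x' - x)) := by
      field_simp
    linarith
  have L13 : kX s (3 / 2 * C' - h0 * x') (h0 * C' + 3 / 2 * x') - (2 * A - b) = 0 := by
    rw [n30_kX_up h' x0'.le, hA, hb]
    ring
  obtain ⟨ρ, hρ⟩ : ∃ ρ : ℝ, ρ = (X - c1 T) / (Wc T - c1 T) := ⟨_, rfl⟩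
  have hTh : h0 ≤ T := by linarith
  have h32 : T < 3 * h0 / 2 := by linarith
  rw [← hTd] at hc hTe g5 g6 g7 hX k23
  rw [← hXd] at g4 g7 g8 hX k23
  have hW := seca_Wc1 hTh g5.le
  have hden : 193 / 100 * s ≤ Wc T - c1 T := by linarith
  have n0 : 0 ≤ X - c1 T := by linarith
  have n1 : X - c1 T ≤ 335 / 100 * (x' - x) := by rw [hc]; exact g4
  have ρ0 : 0 ≤ ρ := by rw [hρ]; exact div_nonneg n0 (by linarith)
  have ρ1 : ρ ≤ 1 := by
    rw [hρ]
    exact div_le_one_of_le₀ (by linarith) (by linarith)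
  have ρs : s * ρ ≤ 174 / 100 * (x' - x) := by
    have e1 : ρ * (Wc T - c1 T) = X - c1 T := by
      rw [hρ, div_mul_cancel₀ _ (by linarith)]
    have e2 := mul_le_mul_of_nonneg_left hden ρ0
    linarith
  obtain ⟨lR, lX⟩ := seca_left (s := s) hTh h32 hX g7
  rw [← hρ, if_pos g5] at lX
  rw [← hρ] at lR
  have z1 : 1 ≤ (T - h0) / s := by
    rw [le_div_iff₀ hs]
    linarith
  have eσ : T / 2 - h0 * c1 T = σ := by
    rw [hc, hTe]
    exact (n60_facts hR).2.2.2.1
  have eX1 : X1 par s T = xA par s (σ / s) - xB par (σ / s / 2) := by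
    unfold X1
    rw [if_neg (by linarith), if_neg hTh.not_gt, eσ]
    have : σ / (2 * s) = σ / s / 2 := by field_simp
    rw [this]
  have eAb : A - b = s ^ 2 * (xA par s (x' / s) - xB par (x' / s / 2)) := by
    rw [hA, hb]
    unfold lvl
    have : x' / (2 * s) = x' / s / 2 := by field_simp
    rw [this]
    ring
  obtain ⟨v1, v2, v3⟩ := m1B_lev (s := s) w5 wσ
  obtain ⟨y1, y2⟩ := m1B_xW hs hs1 z1
  have L23 : |kX s X T - (A - b)| ≤ 562 / 100 * (s * (x' - x)) := by
    obtain ⟨P, hP⟩ : ∃ P, P = xA par s (σ / s) - xB par (σ / s / 2) := ⟨_, rfl⟩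
    obtain ⟨Q, hQ⟩ : ∃ Q, Q = xA par s (x' / s) - xB par (x' / s / 2) := ⟨_, rfl⟩
    obtain ⟨W, hW'⟩ : ∃ W, W = xW par s ((T - h0) / s) := ⟨_, rfl⟩
    rw [← hP, ← hQ] at v1
    rw [← hQ] at v2 v3
    rw [← hW'] at y1 y2
    rw [lX, eX1, eAb, ← hP, ← hQ, ← hW']
    have e1 : s ^ 2 * (P + (W - P) * ρ) - s ^ 2 * Q =
        s ^ 2 * ((1 - ρ) * (P - Q)) + s * (s * ρ) * (W - Q) := by ring
    have t1 : |s ^ 2 * ((1 - ρ) * (P - Q))| ≤ 111 / 100 * (34 / 10) * (s * (x' - x)) := by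
      rw [abs_mul, abs_of_nonneg s2, abs_mul, abs_of_nonneg (by linarith : 0 ≤ 1 - ρ)]
      have e2 : (1 - ρ) * |P - Q| ≤ 1 * (111 / 100 * (σ / s - x' / s)) :=
        mul_le_mul (by linarith) v1 (abs_nonneg _) zero_le_one
      have e3 := mul_le_mul_of_nonneg_left e2 s2
      have e4 : s ^ 2 * (1 * (111 / 100 * (σ / s - x' / s))) = 111 / 100 * (s * (σ - x')) := by
        field_simp
      have e5 := mul_le_mul_of_nonneg_left g1 hs.le
      linarith
    have t2 : |s * (s * ρ) * (W - Q)| ≤ s * (174 / 100 * (x' - x)) * (106 / 100) := by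
      have sp : 0 ≤ s * (s * ρ) := by positivity
      rw [abs_mul, abs_of_nonneg sp]
      refine mul_le_mul (mul_le_mul_of_nonneg_left ρs hs.le) ?_ (abs_nonneg _) (by positivity)
      rw [abs_le]
      constructor <;> linarith
    rw [e1]
    refine (abs_add_le _ _).trans ?_
    have sa := mul_nonneg hs.le a0
    linarith
  -- the cost
  have eT : x + T = h0 * C' + 3 / 2 * x' := by rw [hTd]; ring
  have key : costA s k A b C (3 / 2 * C' - h0 * x') x T ≤ 79 / 100 * (x' - x) := by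
    unfold costA
    rw [eT, k13, L13, abs_zero, ← hXd]
    have e1 : s * (|kA s C x - k * tau x| + |kA s X T - k * tau T|) ≤
        s * ((22 / 10 * (k + 4313 / 1000) + 335 / 100) * (x' - x)) :=
      mul_le_mul_of_nonneg_left (by linarith) hs.le
    have e2 : s * k * (x' - x) ≤ 38 / 100 * (x' - x) := mul_le_mul_of_nonneg_right sk a0
    have e3 : s * (x' - x) ≤ 11 / 400 * (x' - x) := mul_le_mul_of_nonneg_right hs1 a0
    linarith
  have hTx : 3 / 4 ≤ T - x := by linarith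
  have xA0 : 0 ≤ xA par s (x' / s) := xA_nonneg hs hs1 (by linarith)
  have A0 : 0 ≤ A := by rw [hA]; exact mul_nonneg s2 xA0
  have b0 : 0 ≤ b := by rw [hb]; exact lvl_nonneg hs x0'.le
  have B1 : 3 / 4 * A ≤ (T - x) * A + x * b := by
    have := mul_le_mul_of_nonneg_right hTx A0
    have := mul_nonneg hx b0
    linarith
  rw [← hTd] at hS hE ⊢
  refine of_costA hs hs1 (k := k) (A := A) (b := b) (by linarith) hS ?_ ?_
  · linarith
  · have c12 : |kR s C x| ≤ 17 / 300 * (4 - x / s) := by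
      have hx8 : x < h0 / 2 := by linarith
      have e1 : kR s C x = r2 par s * taper (x / s) := by
        have e2 := ker_c1 (adm_vR s) hx (by nlinarith : x ^ 2 ≤ 3)
        rw [n0_facts h hx] at e2
        unfold kR
        rw [e2]
        simp only [vR, Matrix.cons_val_zero]
        rw [if_pos hx8]
      obtain ⟨t0, -, t1⟩ := m1B_tap w0
      rw [e1, abs_mul, abs_of_nonneg t0]
      have := mul_le_mul (r2_b hs hs1) (by linarith [t1 (wx.trans w4)] :
        taper (x / s) ≤ (4 - x / s) / 3) t0 (by norm_num)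
      linarith
    have c23 : |kR s X T| ≤ 51 / 500 * ρ := by
      obtain ⟨q0, q1⟩ := seca_rho hs hs1
      obtain ⟨t0, t1, -⟩ := m1B_tap (by linarith : 0 ≤ (T - h0) / s)
      rw [lR, abs_of_nonneg (by positivity)]
      refine mul_le_mul_of_nonneg_right ?_ ρ0
      have := mul_le_mul q1 t1 t0 (by norm_num)
      linarith
    have c13 : kR s (3 / 2 * C' - h0 * x') (h0 * C' + 3 / 2 * x') = 0 := n30_kR h'
    rw [eT, c13, abs_zero, ← hXd]
    have e1 : s ^ 2 * (|kR s C x| + |kR s X T|) ≤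
        s ^ 2 * (17 / 300 * (4 - x / s) + 51 / 500 * ρ) :=
      mul_le_mul_of_nonneg_left (by linarith) s2
    have e2 : s ^ 2 * (17 / 300 * (4 - x / s)) =
        17 / 300 * (s ^ 2 * (4 - x' / s)) + 17 / 300 * (s * (x' - x)) := by
      field_simp
      ring
    have e3 : s ^ 2 * (51 / 500 * ρ) ≤ 51 / 500 * (s * (174 / 100 * (x' - x))) := by
      have := mul_le_mul_of_nonneg_left ρs hs.le
      nlinarith
    have e4 : s * (x' - x) ≤ 11 / 400 * (x' - x) := mul_le_mul_of_nonneg_right hs1 a0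
    have e5 : A = 319 / 375 * (s ^ 2 * (4 - x' / s)) := by
      rw [hA, m1B_xA_hi w5, max_eq_left (by linarith)]
      ring
    have e6 : 3 / 4 * A / 2 ≤ ((T - x) * A + x * b) / (2 * h0) := by
      rw [div_le_div_iff₀ (by norm_num) (by positivity)]
      have := mul_le_mul_of_nonneg_left (by linarith : 2 * h0 ≤ 2) (by linarith : 0 ≤ A)
      nlinarith
    have e7 : 0 ≤ s ^ 2 * (4 - x' / s) := mul_nonneg s2 (by linarith)
    linarith

end

end Pool.Agent.Strip051.LC.E0.Out
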