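import Pool.Agent.Strip051.LC.E0.O3.StrA
import Pool.Agent.Strip051.LC.E0.O3.GeoB
import Pool.Agent.Strip051.LC.E0.O4.Zn4
import Pool.Agent.Strip051.LC.E0.O4.M1B

/-! # Small rests: the directions 0 and 30, sides 12 and 13 -/

namespace Pool.Agent.Strip051.LC.E0.Out

open Pool.Agent.StripNear Pool.Agent.StripSquare Pool.Agent.Strip051 Pool.Agent.Strip051.Sweep
open Pool.Agent.Strip051.LC.Line (tau)

variable {s C x C' x' : ℝ}

private theorem c00_one (h : Rot C x) : 1866 / 1000 * (1 - C) ≤ x ^ 2 := by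
  obtain ⟨b1, b2⟩ := h0_bd
  have a := h.Ch
  have b := h.C1
  have c : 0 ≤ (1 - C) * (C - 866 / 1000) := mul_nonneg (by linarith) (by linarith)
  linarith [h.sq]

/-- The directions 0 and 30, sides 12 and 13: all but the small rotations. -/
theorem c00_core (hs : 0 < s) (hs1 : s ≤ 11 / 400) (h : Rot C x) (h' : Rot C' x') (hx : 0 ≤ x)
    (hS : Sides C (3 / 2 * C' - h0 * x') x
      (h0 * C' + 3 / 2 * x' - x))
    (hc : 0 ≤ C * (x + (h0 * C' + 3 / 2 * x' - x)) -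
      (3 / 2 * C' - h0 * x') * x)
    (hE : exn C (3 / 2 * C' - h0 * x') x
      (h0 * C' + 3 / 2 * x' - x) < (174 / 100 + 3 * s) * s) :
    OK2 s C (3 / 2 * C' - h0 * x') x (h0 * C' + 3 / 2 * x' - x) ∨
      (x' < 4 * s ∧ x ≤ x' ∧ (C - C') ^ 2 + (x - x') ^ 2 ≤ (22 / 10 * s) ^ 2 ∧
        84 / 100 * (x' - x) ≤ exn C (3 / 2 * C' - h0 * x') x (h0 * C' + 3 / 2 * x' - x)) := by
  have eP : C * (x + (h0 * C' + 3 / 2 * x' - x)) - (3 / 2 * C' - h0 * x') * x =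
      h0 * (C' * C + x' * x) + 3 / 2 * (x' * C - C' * x) := by
    ring
  have eN : (3 / 2 * C' - h0 * x' - C) ^ 2 + (h0 * C' + 3 / 2 * x' - x) ^ 2 =
      4 - 3 * (C' * C + x' * x) + 2 * h0 * (x' * C - C' * x) := by
    linear_combination (C' ^ 2 + x' ^ 2) * h0_sq' + 3 * h'.sq + h.sq
  have ho : x ≤ x' := by
    refine geo_ord3 h' h ?_ ?_
    · have := hS.b1
      rw [eN] at this
      linarith
    · rwa [eP] at hc
  obtain ⟨q1, q2⟩ := geo_3 hs hs1 h' h ho (by unfold exn; rw [eP]) hE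
  have q1' : (C - C') ^ 2 + (x - x') ^ 2 ≤ (22 / 10 * s) ^ 2 := by nlinarith
  rcases le_or_gt (4 * s) x' with hx1 | hx1
  · left
    exact strip_L3B1 hs hs1 h h' hx hx1 ho q1' hS q2
  · exact Or.inr ⟨hx1, ho, q1', q2⟩

/-- The directions 0 and 30, sides 12 and 13. -/
theorem c00 (hs : 0 < s) (hs1 : s ≤ 11 / 400) (h : Rot C x) (h' : Rot C' x') (hx : 0 ≤ x)
    (hS : Sides C (3 / 2 * C' - h0 * x') x
      (h0 * C' + 3 / 2 * x' - x))
    (hc : 0 ≤ C * (x + (h0 * C' + 3 / 2 * x' - x)) -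
      (3 / 2 * C' - h0 * x') * x)
    (hE : exn C (3 / 2 * C' - h0 * x') x
      (h0 * C' + 3 / 2 * x' - x) < (174 / 100 + 3 * s) * s) :
    Fin3 s C (3 / 2 * C' - h0 * x') x
      (h0 * C' + 3 / 2 * x' - x) := by
  have hh := h0_pos
  obtain ⟨b1, b2⟩ := h0_bd
  rcases c00_core hs hs1 h h' hx hS hc hE with h1 | ⟨hx1, ho, q1', q2⟩
  · exact Or.inl h1
  rcases le_total (28 / 25 * h0) (h0 * C' + 3 / 2 * x') with hT | hT
  · left
    exact m1B hs hs1 h h' hx ho hx1.le q1' hT hS q2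
  right
  refine Or.inl ?_
  have o2 := c00_one h'
  have p2 := h'.C1
  have k2 : x' ^ 2 ≤ 44 / 100 * s := by
    have : x' ^ 2 ≤ (4 * s) ^ 2 := pow_le_pow_left₀ (by linarith) hx1.le 2
    nlinarith
  have g2 : 0 ≤ h0 * (1 - C') := mul_nonneg hh.le (by linarith)
  have g4 : h0 * (1 - C') ≤ 22 / 100 * s := by nlinarith
  unfold WH
  refine ⟨?_, ?_, ?_, ?_, ?_⟩
  · linarith
  · rw [abs_le]
    constructor <;> linarith
  · rw [abs_le]
    constructor <;> linarith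
  · linarith
  · linarith

end Pool.Agent.Strip051.LC.E0.Out
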