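import Pool.Agent.Strip051.LC.E0.O3.StrA
import Pool.Agent.Strip051.LC.E0.O3.GeoB
import Pool.Agent.Strip051.LC.E0.O4.Zn4
import Pool.Agent.Strip051.LC.E0.O3.StrB

/-! # Small rests: the directions 0 and 150, sides 12 and 23 -/

namespace Pool.Agent.Strip051.LC.E0.Out

open Pool.Agent.StripNear Pool.Agent.StripSquare Pool.Agent.Strip051 Pool.Agent.Strip051.Sweep
open Pool.Agent.Strip051.LC.Line (tau)

variable {s C x C' x' : ℝ}

theorem e02_core (hs : 0 < s) (hs1 : s ≤ 11 / 400) (h : Rot C x) (h' : Rot C' x')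
    (hS : Sides C (C + (-(3 / 2 * C') - h0 * x')) x (h0 * C' - 3 / 2 * x'))
    (hc : 0 ≤ C * (x + (h0 * C' - 3 / 2 * x')) - (C + (-(3 / 2 * C') - h0 * x')) * x)
    (hE : exn C (C + (-(3 / 2 * C') - h0 * x')) x (h0 * C' - 3 / 2 * x') <
      (174 / 100 + 3 * s) * s) :
    OK2 s C (C + (-(3 / 2 * C') - h0 * x')) x (h0 * C' - 3 / 2 * x') ∨
      (x < 4 * s ∧ x' ≤ x ∧ (C - C') ^ 2 + (x - x') ^ 2 ≤ (22 / 10 * s) ^ 2 ∧
        84 / 100 * (x - x') ≤ exn C (C + (-(3 / 2 * C') - h0 * x')) x (h0 * C' - 3 / 2 * x')) := by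
  have hh := h0_pos
  have hq := h0_sq'
  obtain ⟨b1, b2⟩ := h0_bd
  have cr : C * (x + (h0 * C' - 3 / 2 * x')) - (C + (-(3 / 2 * C') - h0 * x')) * x =
      h0 * (C * C' + x * x') + 3 / 2 * (x * C' - C * x') := by ring
  have ho : x' ≤ x := by
    refine geo_ord3 h h' ?_ (by rw [← cr]; exact hc)
    have e1 := hS.c1
    have e2 : (C + (-(3 / 2 * C') - h0 * x')) ^ 2 + (x + (h0 * C' - 3 / 2 * x')) ^ 2 =
        4 - 3 * (C * C' + x * x') + 2 * h0 * (x * C' - C * x') := by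
      linear_combination (C' ^ 2 + x' ^ 2) * hq + h.sq + 3 * h'.sq
    linarith
  obtain ⟨hd, ha⟩ := geo_3 hs hs1 h h' ho (E := exn C (C + (-(3 / 2 * C') - h0 * x')) x
    (h0 * C' - 3 / 2 * x')) (by unfold exn; rw [cr]) hE
  rcases le_or_gt (4 * s) x with h4 | h4
  · exact Or.inl (strip_L2A hs hs1 h h' h4 ho hd hS ha)
  · exact Or.inr ⟨h4, ho, hd, ha⟩

/-- The directions 0 and 150, sides 12 and 23. -/
theorem e02 (hs : 0 < s) (hs1 : s ≤ 11 / 400) (h : Rot C x) (h' : Rot C' x') (hx : 0 ≤ x)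
    (hS : Sides C (C + (-(3 / 2 * C') - h0 * x')) x
      (h0 * C' - 3 / 2 * x'))
    (hc : 0 ≤ C * (x + (h0 * C' - 3 / 2 * x')) -
      (C + (-(3 / 2 * C') - h0 * x')) * x)
    (hE : exn C (C + (-(3 / 2 * C') - h0 * x')) x
      (h0 * C' - 3 / 2 * x') < (174 / 100 + 3 * s) * s) :
    Fin3 s C (C + (-(3 / 2 * C') - h0 * x')) x
      (h0 * C' - 3 / 2 * x') := by
  have hh := h0_pos
  have hq := h0_sq'
  obtain ⟨b1, b2⟩ := h0_bd
  rcases e02_core hs hs1 h h' hS hc hE with h4 | ⟨h4, ho, hd, ha⟩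
  · exact Or.inl h4
  · refine Or.inr (Or.inl ?_)
    have ha22 : x - x' ≤ 22 / 10 * s := by
      refine le_of_sq2 (by linarith) ?_
      nlinarith [sq_nonneg (C - C')]
    have c0' := h'.Ch
    have c1' := h'.C1
    have k' : 1 - C' ≤ 86 / 10 * s ^ 2 := by
      have e1 : (1 - C') * (1 + C') = x' ^ 2 := by linear_combination -h'.sq
      have e2 : x' ^ 2 ≤ 16 * s ^ 2 := by nlinarith
      nlinarith
    have ks : 86 / 10 * s ^ 2 ≤ 24 / 100 * s := by nlinarith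
    have m2 : h0 * (1 - C') ≤ 22 / 100 * s := by nlinarith
    have n2 : 0 ≤ h0 * (1 - C') := mul_nonneg hh.le (by linarith)
    refine ⟨by linarith, abs_le.2 ⟨by linarith, by linarith⟩,
      abs_le.2 ⟨by linarith, by linarith⟩, by linarith, by linarith⟩

end Pool.Agent.Strip051.LC.E0.Out
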