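import Pool.Agent.Strip051.LC.E0.OutN
import Pool.Agent.Strip051.LC.E0.O3.SecD

/-! # Small rests: the first shape with a moderate excess -/

namespace Pool.Agent.Strip051.LC.E0.Out

open Pool.Agent.StripNear Pool.Agent.StripSquare Pool.Agent.Strip051 Pool.Agent.Strip051.Sweep
open Pool.Agent.Strip051.LC.Line (tau)

/-- The kernel is a mean of two node values. -/
theorem t1g_seg {v : ℝ → Fin 4 → ℝ} (hv : K.adm v) {X T : ℝ} (hT : 0 ≤ T)
    (hX : 0 ≤ X) (h1 : 1 ≤ X ^ 2 + T ^ 2) (h3 : X ^ 2 + T ^ 2 ≤ 3) :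
    ∃ (i : Fin 3) (l : ℝ), 0 ≤ l ∧ l ≤ 1 ∧
      X = (1 - l) * pos.cv i.castSucc T + l * pos.cv i.succ T ∧
      |ker K.nodes v (fun _ _ => 0) X T| ≤ (1 - l) * |v T i.castSucc| + l * |v T i.succ| := by
  have hT3 : T ^ 2 ≤ 3 := by nlinarith [sq_nonneg X]
  obtain ⟨i, g1, g2⟩ := K.seg_pos hT hX h1 h3
  rw [one_mul] at g1 g2
  refine ⟨i, ?_⟩
  rw [K.seg v hv i X T hT hT3 g1 g2]
  change ∃ l : ℝ, 0 ≤ l ∧ l ≤ 1 ∧
      X = (1 - l) * pos.cv i.castSucc T + l * pos.cv i.succ T ∧ |v T i.castSucc +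
    (v T i.succ - v T i.castSucc) *
    ((X - pos.cv i.castSucc T) / (pos.cv i.succ T - pos.cv i.castSucc T))| ≤ _
  change pos.cv i.castSucc T ≤ X at g1
  change X ≤ pos.cv i.succ T at g2
  generalize v T i.castSucc = y0 at *
  generalize v T i.succ = y1 at *
  generalize pos.cv i.castSucc T = q0 at *
  generalize pos.cv i.succ T = q1 at *
  have hl : ∃ l : ℝ, 0 ≤ l ∧ l ≤ 1 ∧ (X - q0) / (q1 - q0) = l ∧ X = (1 - l) * q0 + l * q1 := by
    rcases (g1.trans g2).eq_or_lt with h | h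
    · exact ⟨0, le_rfl, zero_le_one, by rw [h, sub_self, div_zero], by linarith⟩
    · have : 0 < q1 - q0 := by linarith
      refine ⟨(X - q0) / (q1 - q0), div_nonneg (by linarith) this.le, ?_, rfl, ?_⟩
      · rw [div_le_one this]
        linarith
      · field_simp
        ring
  obtain ⟨l, l0, l1, el, eX⟩ := hl
  refine ⟨l, l0, l1, eX, ?_⟩
  rw [el, show y0 + (y1 - y0) * l = (1 - l) * y0 + l * y1 by ring]
  refine (abs_add_le _ _).trans ?_
  rw [abs_mul, abs_mul, abs_of_nonneg l0, abs_of_nonneg (by linarith : 0 ≤ 1 - l)]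

/-- The level at the first three nodes. -/
theorem t1g_vX {s T : ℝ} (hs : 0 < s) (hs1 : s ≤ 11 / 400) (hT0 : 0 ≤ T) (hT1 : T ≤ 28 / 25 * h0)
    (j : Fin 4) (hj : j ≠ 3) : |vX par s T j| ≤ 32 / 25 * s ^ 2 := by
  have hh := h0_pos
  obtain ⟨b1, b2⟩ := h0_bd
  have key : |vx par s T j| ≤ 32 / 25 := by
    rcases lt_or_ge T h0 with k | k
    · exact secd_vx hs hs1 hT0 k j hj
    · have W := xW_bd hs hs1 (w := (T - h0) / s) (div_nonneg (by linarith) hs.le)
      have B := X1_128 hs hs1 hT0 (by linarith)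
      fin_cases j
      · change |vx par s T 0| ≤ _
        simp only [vx, Matrix.cons_val_zero]
        rw [if_pos (by linarith)]
        exact B
      · change |vx par s T 1| ≤ _
        simp only [vx, Matrix.cons_val_one, Matrix.cons_val_zero]
        rw [if_neg (by linarith), if_neg (by linarith), if_pos (by linarith)]
        linarith
      · change |vx par s T 2| ≤ _
        simp only [vx, Matrix.cons_val]
        rw [if_neg (by linarith), if_neg (by linarith), if_pos (by linarith)]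
        linarith
      · exact absurd rfl hj
  unfold vX
  rw [abs_mul, abs_of_nonneg (sq_nonneg s)]
  have := mul_le_mul_of_nonneg_left key (sq_nonneg s)
  linarith

theorem t1g_lev0 {s X T : ℝ} (hs : 0 < s) (hs1 : s ≤ 11 / 400) (hT : |T - h0| ≤ 8 * s)
    (hT1 : T ≤ 28 / 25 * h0) (hX : 0 ≤ X) (hX1 : X ≤ 757 / 1000) (h1 : 1 ≤ X ^ 2 + T ^ 2)
    (h3 : X ^ 2 + T ^ 2 ≤ 3) :
    |kX s X T| ≤ 3 / 2 * s ^ 2 ∧ (X ≤ 1 / 2 → |kX s X T| ≤ 32 / 25 * s ^ 2) := by
  have hh := h0_pos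
  obtain ⟨b1, b2⟩ := h0_bd
  obtain ⟨a, b⟩ := abs_le.1 hT
  have hT0 : 0 ≤ T := by linarith
  have hT3 : T ^ 2 ≤ 3 := by nlinarith [sq_nonneg X]
  have s2 := sq_nonneg s
  have N := t1g_vX hs hs1 hT0 hT1
  have N3 : |vX par s T 3| ≤ 64 / 25 * s ^ 2 := by
    unfold vX
    rw [abs_mul, abs_of_nonneg s2]
    have := mul_le_mul_of_nonneg_left (vx_256 hs hs1 hT0 hT3 3) s2
    linarith
  obtain ⟨i, l, l0, l1, eX, hk⟩ := t1g_seg (adm_vX par s) hT0 hX h1 h3
  change |kX s X T| ≤ _ at hk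
  have l2 : 0 ≤ 1 - l := by linarith
  have low : ∀ j k : Fin 4, j ≠ 3 → k ≠ 3 →
      |kX s X T| ≤ (1 - l) * |vX par s T j| + l * |vX par s T k| →
      |kX s X T| ≤ 32 / 25 * s ^ 2 := by
    intro j k hj hk h
    have m1 := mul_le_mul_of_nonneg_left (N j hj) l2
    have m2 := mul_le_mul_of_nonneg_left (N k hk) l0
    linarith
  fin_cases i
  · have := low 0 1 (by decide) (by decide) hk
    exact ⟨by linarith, fun _ => this⟩
  · have := low 1 2 (by decide) (by decide) hk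
    exact ⟨by linarith, fun _ => this⟩
  · change X = (1 - l) * pos.cv 2 T + l * pos.cv 3 T at eX
    change |kX s X T| ≤ (1 - l) * |vX par s T 2| + l * |vX par s T 3| at hk
    rw [cv_three] at eX
    obtain ⟨o1, o2, o3, o4, o5⟩ := order5 hT0 hT3
    rcases lt_or_ge T h0 with k | k
    · exfalso
      rw [cv_two_low k] at eX
      have w := (low_bd hT0 k).2.2.2
      have w2 : (h0 - T) ^ 2 ≤ 1 / 10 := by nlinarith
      have m := mul_nonneg l0 (by linarith : 0 ≤ c3 T - Wc T)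
      linarith
    · rw [cv_two_high k] at eX
      obtain ⟨w1, w2, w3⟩ := upp_bd k hT3
      have w4 : (T - h0) ^ 2 ≤ 11 / 1000 := by nlinarith
      have c0 := c3_nonneg T
      have e3 := c3_sq hT3
      have c1 : 143 / 100 ≤ c3 T := by
        refine le_of_sq2 c0 ?_
        nlinarith
      have m := mul_nonneg l0 (by linarith : 0 ≤ 17 / 20 * (c3 T - Wc T) - 79 / 100)
      have m2 : l ≤ 17 / 100 := by linarith
      have m3 := mul_le_mul_of_nonneg_left (N 2 (by decide)) l2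
      have m4 := mul_le_mul_of_nonneg_left N3 l0
      have m5 := mul_le_mul_of_nonneg_right m2 s2
      refine ⟨by linarith, fun hX2 => ?_⟩
      exfalso
      linarith

theorem t1g_lev {s X T : ℝ} (hs : 0 < s) (hs1 : s ≤ 11 / 400) (hT : |T - h0| ≤ 8 * s)
    (hT1 : T ≤ 28 / 25 * h0) (hX1 : |X| ≤ 757 / 1000) (h1 : 1 ≤ X ^ 2 + T ^ 2)
    (h3 : X ^ 2 + T ^ 2 ≤ 3) :
    |kX s X T| ≤ 3 / 2 * s ^ 2 ∧ (|X| ≤ 1 / 2 → |kX s X T| ≤ 32 / 25 * s ^ 2) := by
  rcases le_total 0 X with hX | hX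
  · rw [abs_of_nonneg hX] at hX1 ⊢
    exact t1g_lev0 hs hs1 hT hT1 hX hX1 h1 h3
  · rw [abs_of_nonpos hX] at hX1 ⊢
    have := t1g_lev0 hs hs1 hT hT1 (by linarith : 0 ≤ -X) hX1 (by rwa [neg_sq]) (by rwa [neg_sq])
    rwa [kX_neg, abs_neg] at this

/-- The correction. -/
theorem t1g_R {s X T : ℝ} (hs : 0 < s) (hs1 : s ≤ 11 / 400) (hT : 0 ≤ T)
    (h1 : 1 ≤ X ^ 2 + T ^ 2) (h3 : X ^ 2 + T ^ 2 ≤ 3) : |kR s X T| ≤ 2 := by
  have hB : Bnd (vR par s) T 0 0 0 2 :=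
    ⟨fun j => by linarith [vR_abs hs hs1 hT j], fun j => by linarith [vR_abs hs hs1 hT j]⟩
  have := (ker_bnd (adm_vR s) hT h1 h3 hB).1
  change |kR s X T| ≤ _ at this
  linarith

theorem t1g_R12 {s t : ℝ} (hs : 0 < s) (hs1 : s ≤ 11 / 400) (ht0 : 0 ≤ t) (ht : t ≤ 8 * s) :
    |kR s (c1 t) t| ≤ 3 / 10 := by
  obtain ⟨b1, b2⟩ := h0_bd
  have e : kR s (c1 t) t = r2 par s * taper (t / s) := by
    unfold kR
    rw [ker_c1 (adm_vR s) ht0 (by nlinarith)]
    exact if_pos (by linarith)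
  rw [e, abs_mul]
  have := mul_le_mul (secd_r2 hs hs1).1 (taper_bd (div_nonneg ht0 hs.le)) (abs_nonneg _)
    (by norm_num)
  linarith

variable {s X13 t t' : ℝ}

/-- The first shape in the window, without a gauge. -/
theorem t1_gen (hs : 0 < s) (hs1 : s ≤ 11 / 400) (hS : Sides (c1 t) X13 t t') (ht : t ≤ 8 * s)
    (ht' : |t' - h0| ≤ 8 * s) (hT : |t + t' - h0| ≤ 8 * s) (hT1 : t + t' ≤ 28 / 25 * h0)
    (h0' : 0 ≤ X13) (h1 : X13 ≤ c1 t) (hE : (116 / 100 + 3 * s) * s ≤ exn (c1 t) X13 t t') :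
    OK2 s (c1 t) X13 t t' := by
  have hh := h0_pos
  obtain ⟨b1, b2⟩ := h0_bd
  have t0 := hS.t0
  have t1 := hS.t1
  have T0 : 0 ≤ t + t' := by linarith
  have hk : ∀ T, 0 ≤ T → T ≤ 28 / 25 * h0 → 243 / 1000 ≤ c1 T := by
    intro T h h'
    have e := c1_sq h (by linarith)
    refine le_of_sq2 (c1_nonneg T) ?_
    nlinarith
  have c13 : c1 (t + t') ≤ X13 := by
    refine le_of_sq2 h0' ?_
    have e := c1_sq T0 (by linarith)
    have := hS.c1
    linarith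
  have c23 : c1 t' ≤ c1 t - X13 := by
    refine le_of_sq2 (by linarith) ?_
    have e := c1_sq t1 (by linarith)
    have := hS.b1
    nlinarith
  have c12 : c1 t ≤ 1 := by
    refine le_of_sq2 (by norm_num) ?_
    have e := c1_sq t0 (by linarith)
    nlinarith
  have k1 := hk _ T0 hT1
  have k2 := hk t' t1 (by linarith)
  have eX23 : |X13 - c1 t| = c1 t - X13 := by
    rw [abs_of_nonpos (by linarith)]
    ring
  have eX13 : |X13| = X13 := abs_of_nonneg h0'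
  have L12 : |kX s (c1 t) t| ≤ 32 / 25 * s ^ 2 :=
    lev_cir hs hs1 t0 (by linarith) (abs_of_nonneg (c1_nonneg t))
  have L23 := t1g_lev hs hs1 ht' (by linarith) (by rw [eX23]; linarith : |X13 - c1 t| ≤ 757 / 1000)
    hS.b1 hS.b3
  have L13 := t1g_lev hs hs1 hT hT1 (by rw [eX13]; linarith : |X13| ≤ 757 / 1000) hS.c1 hS.c3
  rw [eX23] at L23
  rw [eX13] at L13
  have L : |kX s (X13 - c1 t) t'| + |kX s X13 (t + t')| ≤ 139 / 50 * s ^ 2 := by
    rcases le_or_gt X13 (1 / 2) with h | h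
    · linarith [L13.2 h, L23.1]
    · linarith [L23.2 (by linarith), L13.1]
  have R12 := t1g_R12 hs hs1 t0 ht
  have R23 := t1g_R hs hs1 t1 hS.b1 hS.b3
  have R13 := t1g_R hs hs1 T0 hS.c1 hS.c3
  have A12 : |kA s (c1 t) t| ≤ 1 := by
    rw [kA_c1 t0 (by linarith)]
    have : R1 par s t = RA par s t := if_pos (by linarith)
    rw [this]
    exact RA_abs hs t0 (by linarith)
  have A23 := (ker_bnd (adm_vA par s) t1 hS.b1 hS.b3 (bnd_vA hs hs1 t1 (by nlinarith))).1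
  have A13 := (ker_bnd (adm_vA par s) T0 hS.c1 hS.c3 (bnd_vA hs hs1 T0 (by nlinarith))).1
  change |kA s (X13 - c1 t) t'| ≤ _ at A23
  change |kA s X13 (t + t')| ≤ _ at A13
  rw [eX23] at A23
  rw [eX13] at A13
  refine ok2_of hs hs1 hS ⟨0, 0, le_rfl, le_trans ?_ hE⟩
  unfold cost
  rw [zero_mul, zero_mul, zero_mul, sub_zero, sub_zero, sub_zero, add_zero, add_zero]
  have m1 := mul_le_mul_of_nonneg_left (by linarith :
    |kA s (c1 t) t| + |kA s (X13 - c1 t) t'| + |kA s X13 (t + t')| ≤ 2 + s)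
    (by positivity : 0 ≤ 57736 / 100000 * s)
  have m2 := mul_le_mul_of_nonneg_left (by linarith :
    |kR s (c1 t) t| + |kR s (X13 - c1 t) t'| + |kR s X13 (t + t')| ≤ 43 / 10)
    (by positivity : 0 ≤ 101 / 1000 * s ^ 2)
  have m3 : s ^ 2 ≤ 11 / 400 * s := by nlinarith
  linarith

end Pool.Agent.Strip051.LC.E0.Out
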