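import Pool.Agent.Strip051.LC.E0.O4.BP2
import Pool.Agent.Strip051.LC.E0.O4.T1Ga

/-! # Small rests: the side 13 right of the curve `b` -/

namespace Pool.Agent.Strip051.LC.E0.Out

open Pool.Agent.StripNear Pool.Agent.StripSquare Pool.Agent.Strip051 Pool.Agent.Strip051.Sweep
open Pool.Agent.Strip051.LC.Line (tau)

variable {s X13 t t' : ℝ}

/-- The side 13 right of the curve `b`: the excess is at least `.035`. -/
theorem bp1 (hs1 : s ≤ 11 / 400) (hS : Sides (c1 t) X13 t t') (ht : t ≤ 8 * s)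
    (hT : h0 ≤ t + t') (hT1 : t + t' ≤ 28 / 25 * h0) (h1 : X13 ≤ c1 t)
    (hb : Wc (t + t') + 3 / 20 * (c3 (t + t') - Wc (t + t')) ≤ X13) :
    35 / 1000 ≤ exn (c1 t) X13 t t' := by
  have hh := h0_pos
  obtain ⟨b1, b2⟩ := h0_bd
  have t0 := hS.t0
  have t1 := hS.t1
  have B := bp2_b hT (by linarith) hb
  have ec := c1_sq t0 (by linarith : t ≤ 1)
  have ec' := c1_sq t1 (by linarith : t' ≤ 1)
  have c0 := c1_nonneg t
  have c0' := c1_nonneg t'
  have k1 : c1 t' ≤ c1 t - X13 := by
    refine le_of_sq2 (by linarith) ?_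
    have := hS.b1
    nlinarith
  have k2 : c1 t ≤ 1 := by
    refine le_of_sq2 (by norm_num) ?_
    nlinarith
  have k3 : c1 t' ≤ 366 / 1000 := by linarith
  have k4 : 930 / 1000 ≤ t' := by
    refine le_of_sq2 t1 ?_
    nlinarith
  have k5 : 243 / 1000 ≤ c1 t' := by
    refine le_of_sq2 c0' ?_
    nlinarith
  have k6 : t ≤ 4 / 100 := by linarith
  have k7 := (bp2_c t0 (by linarith : t ≤ 104 / 1000)).1
  have k8 : t' ≤ c1 t * (t + t') - X13 * t := by
    have e : c1 t * (t + t') - X13 * t = c1 t * t' + (c1 t - X13) * t := by ring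
    have m1 := mul_le_mul_of_nonneg_right k7 t1
    have m2 := mul_le_mul_of_nonneg_right (k5.trans k1) t0
    have m3 : t ^ 2 * t' ≤ 4 / 100 * t := by
      have : t * t' ≤ 1 * (4 / 100) := by
        rw [mul_comm]
        exact mul_le_mul (by linarith) k6 t0 (by norm_num)
      nlinarith
    rw [e]
    linarith
  unfold exn
  rw [le_sub_iff_add_le, le_div_iff₀ (by positivity)]
  linarith

end Pool.Agent.Strip051.LC.E0.Out
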