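import Pool.Agent.Strip051.LC.E0.O4.Big
import Pool.Agent.Strip051.LC.E0.O4.FAny
import Pool.Agent.Strip051.LC.E0.O4.A01
import Pool.Agent.Strip051.LC.E0.O4.A02
import Pool.Agent.Strip051.LC.E0.O4.B01
import Pool.Agent.Strip051.LC.E0.O4.B02
import Pool.Agent.Strip051.LC.E0.O4.C00
import Pool.Agent.Strip051.LC.E0.O4.E02
import Pool.Agent.Strip051.LC.E0.O4.T1G
import Pool.Agent.Strip051.LC.E0.O4.BP2
import Pool.Agent.Strip051.LC.E0.O4.Ns

/-! # Small rests: the ring between the windows of size `6 s` and `8 s`, the side 12 on the unit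
circle -/

namespace Pool.Agent.Strip051.LC.E0.Out

open Pool.Agent.StripNear Pool.Agent.StripSquare Pool.Agent.Strip051 Pool.Agent.Strip051.Sweep
open Pool.Agent.Strip051.LC.Line (tau)

/-- The window of size `6 s`. -/
def W6 (s t t' : ℝ) : Prop := t ≤ 6 * s ∧ |t' - h0| ≤ 6 * s ∧ |t + t' - h0| ≤ 6 * s

/-- The window of size `8 s`. -/
def W8 (s t t' : ℝ) : Prop :=
  t ≤ 8 * s ∧ |t' - h0| ≤ 8 * s ∧ |t + t' - h0| ≤ 8 * s ∧ t + t' ≤ 28 / 25 * h0

/-- The excess bounds the difference of the rotations. -/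
theorem ring_E {s a : ℝ} (hs : 0 < s) (h7 : 7 * s ≤ a) (h8 : a ≤ 79 / 10 * s)
    (hE : E1 a < (174 / 100 + 3 * s) * s) (h6 : 6 * s ≤ 3 / 25 * h0) : False := by
  obtain ⟨b1, b2⟩ := h0_bd
  have h1 : s ≤ 17321 / 1000000 := by linarith
  unfold E1 at hE
  have h2 : 0 ≤ (a - 7 * s) * (288 / 1000 - 26 / 100 * (a + 7 * s)) :=
    mul_nonneg (by linarith) (by linarith)
  have h3 : 7 * s * (288 / 1000 - 26 / 100 * (7 * s)) < (174 / 100 + 3 * s) * s := by
    nlinarith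
  have h4 : 7 * (288 / 1000 - 26 / 100 * (7 * s)) < 174 / 100 + 3 * s := by
    have h5 : s * (7 * (288 / 1000 - 26 / 100 * (7 * s))) < s * (174 / 100 + 3 * s) := by
      linarith
    exact lt_of_mul_lt_mul_left h5 hs.le
  linarith

section

variable {s C x C' x' : ℝ}

/-- The cosine of a small rotation. -/
theorem ring_cos (h : Rot C x) : 0 ≤ h0 * (1 - C) ∧ h0 * (1 - C) ≤ 47 / 100 * x ^ 2 := by
  obtain ⟨c0, c1⟩ := a02_cos h
  obtain ⟨b1, b2⟩ := h0_bd
  have hh := h0_pos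
  refine ⟨mul_nonneg hh.le c0, ?_⟩
  have := mul_le_mul b2.le c1 c0 (by norm_num)
  nlinarith [sq_nonneg x]

theorem ring_cos' (h : Rot C x) (hx : |x| ≤ 11 / 100) : h0 * (1 - C) ≤ 44 / 100 * x ^ 2 := by
  obtain ⟨b1, b2⟩ := h0_bd
  obtain ⟨c0, c1⟩ := a02_cos h
  have e : (1 - C) * (1 + C) = x ^ 2 := by linear_combination -h.sq
  have x2 : x ^ 2 ≤ (11 / 100) ^ 2 := by
    rw [← sq_abs]
    exact pow_le_pow_left₀ (abs_nonneg x) hx 2
  have c2 : 99 / 100 ≤ C := by linarith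
  have c3 := mul_le_mul_of_nonneg_left (by linarith : 199 / 100 ≤ 1 + C) c0
  have c4 := mul_le_mul b2.le (by linarith : 1 - C ≤ x ^ 2 * (100 / 199)) c0 (by norm_num)
  nlinarith [sq_nonneg x]

theorem ring_dist {d : ℝ} (hd : 0 ≤ d) (hq : (C - C') ^ 2 + (x - x') ^ 2 ≤ d ^ 2) :
    |x - x'| ≤ d := by
  refine le_of_sq2 hd ?_
  rw [sq_abs]
  linarith [sq_nonneg (C - C')]

theorem ring_sq {x d : ℝ} (h : |x| ≤ d) : x ^ 2 ≤ d ^ 2 := by
  rw [← sq_abs]
  exact pow_le_pow_left₀ (abs_nonneg x) h 2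

/-- The directions 0 and 120, sides 12 and 23. -/
theorem r_a02 (hs : 0 < s) (hs1 : s ≤ 11 / 400) (h : Rot C x) (h' : Rot C' x') (hx : 0 ≤ x)
    (hS : Sides C (C + (-(C' / 2) - h0 * x')) x (h0 * C' - x' / 2))
    (hc : 0 ≤ C * (x + (h0 * C' - x' / 2)) - (C + (-(C' / 2) - h0 * x')) * x)
    (hE : exn C (C + (-(C' / 2) - h0 * x')) x (h0 * C' - x' / 2) < (174 / 100 + 3 * s) * s)
    (hT : x + (h0 * C' - x' / 2) ≤ 28 / 25 * h0) :
    OK2 s C (C + (-(C' / 2) - h0 * x')) x (h0 * C' - x' / 2) ∨ W6 s x (h0 * C' - x' / 2) := by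
  rcases a02_core hs hs1 h h' hx hS hc hE with h1 | ⟨h1, h2, h3, h4⟩
  · exact Or.inl h1
  right
  obtain ⟨c0, c1⟩ := ring_cos h'
  have a0 := abs_le.1 (ring_dist (by linarith) h3)
  have q := ring_sq (abs_le.2 ⟨by linarith, by linarith⟩ : |x'| ≤ 79 / 10 * s)
  have ss : s * s ≤ 11 / 400 * s := mul_le_mul_of_nonneg_right hs1 hs.le
  have c2 : h0 * (1 - C') ≤ 81 / 100 * s := by nlinarith
  have e1 : h0 * C' - x' / 2 = h0 - h0 * (1 - C') - x' / 2 := by ring
  have e2 : x + (h0 * C' - x' / 2) - h0 ≤ 6 * s := by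
    by_contra hn
    rw [not_le] at hn
    exact ring_E hs (by linarith : 7 * s ≤ x - x') a0.2 (h4.trans_lt hE) (by linarith)
  refine ⟨by linarith, abs_le.2 ⟨by linarith, by linarith⟩, abs_le.2 ⟨by linarith, by linarith⟩⟩

/-- The directions 0 and 60, sides 12 and 13. -/
theorem r_b01 (hs : 0 < s) (hs1 : s ≤ 11 / 400) (h : Rot C x) (h' : Rot C' x') (hx : 0 ≤ x)
    (hS : Sides C (C' / 2 - h0 * x') x (h0 * C' + x' / 2 - x))
    (hc : 0 ≤ C * (x + (h0 * C' + x' / 2 - x)) - (C' / 2 - h0 * x') * x)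
    (hE : exn C (C' / 2 - h0 * x') x (h0 * C' + x' / 2 - x) < (174 / 100 + 3 * s) * s)
    (hT : x + (h0 * C' + x' / 2 - x) ≤ 28 / 25 * h0) :
    OK2 s C (C' / 2 - h0 * x') x (h0 * C' + x' / 2 - x) ∨ W6 s x (h0 * C' + x' / 2 - x) := by
  rcases b01_core hs hs1 h h' hx hS hE with h1 | ⟨h1, h2, h3, h4⟩
  · exact Or.inl h1
  right
  obtain ⟨c0, c1⟩ := ring_cos h'
  have a0 := abs_le.1 (ring_dist (by linarith) h3)
  have q := ring_sq (abs_le.2 ⟨by linarith, by linarith⟩ : |x'| ≤ 129 / 10 * s)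
  have ss : s * s ≤ 11 / 400 * s := mul_le_mul_of_nonneg_right hs1 hs.le
  have c2 : h0 * (1 - C') ≤ 216 / 100 * s := by nlinarith
  have e2 : x + (h0 * C' + x' / 2 - x) - h0 ≤ 6 * s := by
    by_contra hn
    rw [not_le] at hn
    exact ring_E hs (by linarith : 7 * s ≤ x' - x) (by linarith [a0.1]) (h4.trans_lt hE)
      (by linarith)
  refine ⟨by linarith, abs_le.2 ⟨by linarith, by linarith⟩, abs_le.2 ⟨by linarith, by linarith⟩⟩

/-- The directions 0 and 120, sides 12 and 13. -/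
theorem r_b02 (hs : 0 < s) (hs1 : s ≤ 11 / 400) (h : Rot C x) (h' : Rot C' x') (hx : 0 ≤ x)
    (hS : Sides C (-(C' / 2) - h0 * x') x (h0 * C' - x' / 2 - x))
    (hc : 0 ≤ C * (x + (h0 * C' - x' / 2 - x)) - (-(C' / 2) - h0 * x') * x)
    (hE : exn C (-(C' / 2) - h0 * x') x (h0 * C' - x' / 2 - x) < (174 / 100 + 3 * s) * s)
    (hz : 4 * s < x ∨ h0 * C' - x' / 2 - x - h0 < -(31 / 5 * s) ∨
      -(6 * s) < h0 * C' - x' / 2 - x - h0) :
    OK2 s C (-(C' / 2) - h0 * x') x (h0 * C' - x' / 2 - x) ∨ W6 s x (h0 * C' - x' / 2 - x) := by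
  rcases b02_core hs hs1 h h' hS hE with h1 | ⟨h1, h2, h3, h4⟩
  · exact Or.inl h1
  right
  obtain ⟨c0, c1⟩ := ring_cos h'
  have a0 := abs_le.1 (ring_dist (by linarith) h3)
  have ss : s * s ≤ 11 / 400 * s := mul_le_mul_of_nonneg_right hs1 hs.le
  have hx6 : x < 6 * s := by
    rcases h1 with h1 | h1
    · linarith
    · exact h1.1
  have q := ring_sq (abs_le.2 ⟨by linarith, by linarith⟩ : |x'| ≤ 79 / 10 * s)
  have c2 : h0 * (1 - C') ≤ 81 / 100 * s := by nlinarith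
  have e1 : x + x' / 2 + h0 * (1 - C') < 6 * s := by
    rcases h1 with h1 | h1
    · by_contra hn
      rw [not_lt] at hn
      rcases hz with hz | hz | hz
      · linarith
      · rcases le_or_gt 0 x' with h5 | h5
        · have q2 := ring_sq (abs_le.2 ⟨by linarith, by linarith⟩ : |x'| ≤ 4 * s)
          have c3 := ring_cos' h' (abs_le.2 ⟨by linarith, by linarith⟩)
          have : 31 / 5 * s < x + x' / 2 + h0 * (1 - C') := by linarith
          nlinarith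
        · linarith
      · linarith
    · exact h1.2
  refine ⟨by linarith, abs_le.2 ⟨by linarith, by linarith⟩, abs_le.2 ⟨by linarith, by linarith⟩⟩

/-- The directions 0 and 30, sides 12 and 13. -/
theorem r_c00 (hs : 0 < s) (hs1 : s ≤ 11 / 400) (h : Rot C x) (h' : Rot C' x') (hx : 0 ≤ x)
    (hS : Sides C (3 / 2 * C' - h0 * x') x (h0 * C' + 3 / 2 * x' - x))
    (hc : 0 ≤ C * (x + (h0 * C' + 3 / 2 * x' - x)) - (3 / 2 * C' - h0 * x') * x)
    (hE : exn C (3 / 2 * C' - h0 * x') x (h0 * C' + 3 / 2 * x' - x) <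
      (174 / 100 + 3 * s) * s) :
    OK2 s C (3 / 2 * C' - h0 * x') x (h0 * C' + 3 / 2 * x' - x) ∨
      W6 s x (h0 * C' + 3 / 2 * x' - x) := by
  rcases c00_core hs hs1 h h' hx hS hc hE with h1 | ⟨h1, h2, h3, h4⟩
  · exact Or.inl h1
  right
  obtain ⟨c0, c1⟩ := ring_cos h'
  have a0 := abs_le.1 (ring_dist (by linarith) h3)
  have ss : s * s ≤ 11 / 400 * s := mul_le_mul_of_nonneg_right hs1 hs.le
  have q := ring_sq (abs_le.2 ⟨by linarith, by linarith⟩ : |x'| ≤ 4 * s)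
  have c2 : h0 * (1 - C') ≤ 21 / 100 * s := by nlinarith
  refine ⟨by linarith, abs_le.2 ⟨by linarith, by linarith⟩, abs_le.2 ⟨by linarith, by linarith⟩⟩

/-- The directions 0 and 150, sides 12 and 23. -/
theorem r_e02 (hs : 0 < s) (hs1 : s ≤ 11 / 400) (h : Rot C x) (h' : Rot C' x') (hx : 0 ≤ x)
    (hS : Sides C (C + (-(3 / 2 * C') - h0 * x')) x (h0 * C' - 3 / 2 * x'))
    (hc : 0 ≤ C * (x + (h0 * C' - 3 / 2 * x')) - (C + (-(3 / 2 * C') - h0 * x')) * x)
    (hE : exn C (C + (-(3 / 2 * C') - h0 * x')) x (h0 * C' - 3 / 2 * x') <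
      (174 / 100 + 3 * s) * s)
    (hz : 4 * s < x ∨ h0 * C' - 3 / 2 * x' - h0 < -(31 / 5 * s) ∨
      -(6 * s) < h0 * C' - 3 / 2 * x' - h0) :
    OK2 s C (C + (-(3 / 2 * C') - h0 * x')) x (h0 * C' - 3 / 2 * x') ∨
      W6 s x (h0 * C' - 3 / 2 * x') := by
  rcases e02_core hs hs1 h h' hS hc hE with h1 | ⟨h1, h2, h3, h4⟩
  · exact Or.inl h1
  right
  obtain ⟨c0, c1⟩ := ring_cos h'
  have a0 := abs_le.1 (ring_dist (by linarith) h3)
  have ss : s * s ≤ 11 / 400 * s := mul_le_mul_of_nonneg_right hs1 hs.le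
  have q := ring_sq (abs_le.2 ⟨by linarith, by linarith⟩ : |x'| ≤ 4 * s)
  have c2 : h0 * (1 - C') ≤ 21 / 100 * s := by nlinarith
  have e1 : -(6 * s) < h0 * C' - 3 / 2 * x' - h0 := by
    rcases hz with hz | hz | hz
    · linarith
    · rcases le_or_gt 0 x' with h5 | h5
      · have c3 := ring_cos' h' (abs_le.2 ⟨by linarith, by linarith⟩)
        have : 31 / 5 * s < 3 / 2 * x' + h0 * (1 - C') := by linarith
        nlinarith
      · linarith
    · exact hz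
  refine ⟨by linarith, abs_le.2 ⟨by linarith, by linarith⟩, abs_le.2 ⟨by linarith, by linarith⟩⟩

end

/-! ### The ring -/

section

variable {s X13 t t' : ℝ}

theorem w8_h (hs : 0 < s) (hs1 : s ≤ 11 / 400) (hw : W8 s t t') : 646 / 1000 ≤ t' ∧
    646 / 1000 ≤ t + t' ∧ t + t' ≤ 97 / 100 ∧ t ≤ 22 / 100 := by
  obtain ⟨b1, b2⟩ := h0_bd
  obtain ⟨h1, h2, h3, h4⟩ := hw
  obtain ⟨h5, -⟩ := abs_le.1 h2
  obtain ⟨h6, -⟩ := abs_le.1 h3
  exact ⟨by linarith, by linarith, by linarith, by linarith⟩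

theorem w8_c1 (ht : 0 ≤ t) (h : t ≤ 22 / 100) : 975 / 1000 ≤ c1 t ∧ c1 t ≤ 1 := by
  have e := c1_sq ht (by linarith)
  have c := c1_nonneg t
  constructor
  · refine le_of_sq2 c ?_
    nlinarith
  · refine le_of_sq2 (by norm_num) ?_
    nlinarith

theorem w8_rot (ht : 0 ≤ t) (h : t ≤ 22 / 100) : Rot (c1 t) t :=
  ⟨c1_nonneg t, c1_sq ht (by linarith), by linarith, by linarith⟩

theorem w8_cr (hs : 0 < s) (hs1 : s ≤ 11 / 400) (hS : Sides (c1 t) X13 t t') (hw : W8 s t t') :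
    0 ≤ c1 t * (t + t') - X13 * t := by
  obtain ⟨h1, h2, h3, h4⟩ := w8_h hs hs1 hw
  obtain ⟨c, -⟩ := w8_c1 hS.t0 h4
  have h5 : X13 ≤ 174 / 100 := by
    refine le_of_sq2 (by norm_num) ?_
    nlinarith [hS.c3, sq_nonneg (t + t')]
  have h6 := mul_le_mul c h2 (by norm_num) (by linarith)
  have h7 := mul_le_mul_of_nonneg_right h5 hS.t0
  linarith

/-- The side 23 is a node. -/
theorem ringA (hs : 0 < s) (hs1 : s ≤ 11 / 400) (hS : Sides (c1 t) X13 t t') (hw : W8 s t t')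
    (hn : Ns |X13 - c1 t| t') (h6 : ¬ W6 s t t') (hx : X13 - c1 t < 0 ∨ 4 * s < t)
    (hz : 4 * s < t ∨ t' - h0 < -(31 / 5 * s) ∨ -(6 * s) < t' - h0)
    (hW : |X13 - c1 t| ≠ Wc t') : OK2 s (c1 t) X13 t t' := by
  obtain ⟨u1, u2, u3, u4⟩ := w8_h hs hs1 hw
  obtain ⟨v1, v2⟩ := w8_c1 hS.t0 u4
  have hc := w8_cr hs hs1 hS hw
  have R := w8_rot hS.t0 u4
  have hh := h0_pos
  have t0 := hS.t0
  obtain ⟨b1, b2⟩ := h0_bd
  have N : NCir |c1 t| t := ⟨abs_of_nonneg (c1_nonneg t), hS.t0, by linarith⟩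
  rcases le_or_gt ((174 / 100 + 3 * s) * s) (exn (c1 t) X13 t t') with hE | hE
  · exact big_ok hs hs1 hS (Or.inl N) hE
  rcases hn with h | h | h | h | h | h
  · -- the unit circle
    obtain ⟨j, C', x', r', d'⟩ := node_c1 h.2.1 h.2.2.le h.1
    have r1 := r'.hi
    have r2 := r'.lo
    fin_cases j
    · obtain ⟨-, -, e⟩ := d'
      linarith
    · obtain ⟨e1, e2⟩ := d'
      have eX : X13 = c1 t + (C' / 2 - h0 * x') := by linarith
      subst eX
      subst e2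
      rcases a01_core hs hs1 R r' hS.t0 hS hc hE with h1 | ⟨h1, -, -, -⟩
      · exact h1
      · rcases hx with hx | hx
        · have := (n60_facts r').1
          have := c1_nonneg (h0 * C' + x' / 2)
          linarith
        · linarith
    · obtain ⟨e1, e2⟩ := d'
      have eX : X13 = c1 t + (-(C' / 2) - h0 * x') := by linarith
      subst eX
      subst e2
      rcases r_a02 hs hs1 R r' hS.t0 hS hc hE hw.2.2.2 with h1 | h1
      · exact h1
      · exact absurd h1 h6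
    · obtain ⟨-, -, e⟩ := d'
      linarith
  · exact absurd h.1 hW
  · exact absurd h.1 hW
  · exact f_any hs hs1 hS hc (Or.inr (Or.inl h))
  · -- the curve `b`
    obtain ⟨y0, -, -, y4, y5, -⟩ := nb_bd h
    have y6 : 478 / 1000 ≤ |X13 - c1 t| := by
      refine le_of_sq2 y0 ?_
      nlinarith
    rcases abs_cases (X13 - c1 t) with ⟨e, -⟩ | ⟨e, -⟩
    · exfalso
      rw [e] at y6 y5
      have h3 := hS.c3
      have e3 : X13 ^ 2 + (t + t') ^ 2 = (c1 t ^ 2 + t ^ 2) + ((X13 - c1 t) ^ 2 + t' ^ 2) +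
          2 * (c1 t * (X13 - c1 t) + t * t') := by ring
      have e4 := c1_sq hS.t0 (by linarith : t ≤ 1)
      have e5 := mul_le_mul v1 y6 (by norm_num) (by linarith)
      have e6 := mul_nonneg hS.t0 hS.t1
      rw [e3] at h3
      linarith
    · rw [e] at y4
      refine ok2_of hs hs1 hS ⟨4, 0, le_rfl, bp2 hs hs1 hS hw.1 h.2.1 hw.2.2.1 hw.2.2.2
        (by linarith) ?_ hE⟩
      rw [← h.1, e]
      linarith
  · -- the circle of radius `√3`
    obtain ⟨j, C', x', r', d'⟩ := node_c3 h.2.1 h.2.2 h.1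
    have r1 := r'.hi
    have r2 := r'.lo
    have r3 := r'.Ch
    fin_cases j
    · obtain ⟨e1, e2⟩ := d'
      exfalso
      have k1 := mul_le_mul_of_nonneg_left r1 hh.le
      have k2 : (18 : ℝ) / 10 ≤ X13 := by
        linarith
      have := hS.c3
      nlinarith [sq_nonneg (t + t')]
    · obtain ⟨e1, e2⟩ := d'
      exfalso
      have := mul_le_mul_of_nonneg_left r3 hh.le
      have := h0_sq'
      linarith
    · obtain ⟨e1, e2⟩ := d'
      have eX : X13 = c1 t + (-(3 / 2 * C') - h0 * x') := by linarith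
      subst eX
      subst e2
      rcases r_e02 hs hs1 R r' hS.t0 hS hc hE hz with h1 | h1
      · exact h1
      · exact absurd h1 h6

/-- The side 13 is right of the curve `b`. -/
theorem ring_b13 (hs : 0 < s) (hs1 : s ≤ 11 / 400) (hS : Sides (c1 t) X13 t t') (hw : W8 s t t')
    (hT : h0 ≤ t + t') (h1 : X13 ≤ c1 t)
    (hb : Wc (t + t') + 3 / 20 * (c3 (t + t') - Wc (t + t')) ≤ X13) : OK2 s (c1 t) X13 t t' := by
  obtain ⟨u1, u2, u3, u4⟩ := w8_h hs hs1 hw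
  have e := bp1 hs1 hS hw.1 hT hw.2.2.2 h1 hb
  obtain ⟨w0, -⟩ := upp_bd hT (by nlinarith : (t + t') ^ 2 ≤ 3)
  have c0 := c3_nonneg (t + t')
  refine t1_gen hs hs1 hS hw.1 hw.2.1 hw.2.2.1 hw.2.2.2 (by linarith) h1 (le_trans ?_ e)
  nlinarith

/-- The side 23 is left of the curve `b`. -/
theorem ring_b23 (hs : 0 < s) (hs1 : s ≤ 11 / 400) (hS : Sides (c1 t) X13 t t') (hw : W8 s t t')
    (hT : h0 ≤ t') (h0' : 0 ≤ X13) (hb : Wc t' + 3 / 20 * (c3 t' - Wc t') ≤ c1 t - X13) :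
    OK2 s (c1 t) X13 t t' := by
  obtain ⟨u1, u2, u3, u4⟩ := w8_h hs hs1 hw
  rcases le_or_gt ((174 / 100 + 3 * s) * s) (exn (c1 t) X13 t t') with hE | hE
  · exact big_ok hs hs1 hS (Or.inl ⟨abs_of_nonneg (c1_nonneg t), hS.t0, by linarith⟩) hE
  · exact ok2_of hs hs1 hS ⟨4, 0, le_rfl, bp2 hs hs1 hS hw.1 hT hw.2.2.1 hw.2.2.2 h0' hb hE⟩

/-- The side 13 is a node. -/
theorem ringB (hs : 0 < s) (hs1 : s ≤ 11 / 400) (hS : Sides (c1 t) X13 t t') (hw : W8 s t t')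
    (hn : Ns |X13| (t + t')) (h6 : ¬ W6 s t t')
    (hz : 4 * s < t ∨ t' - h0 < -(31 / 5 * s) ∨ -(6 * s) < t' - h0)
    (hW : |X13| ≠ Wc (t + t')) : OK2 s (c1 t) X13 t t' := by
  obtain ⟨u1, u2, u3, u4⟩ := w8_h hs hs1 hw
  obtain ⟨v1, v2⟩ := w8_c1 hS.t0 u4
  have hc := w8_cr hs hs1 hS hw
  have R := w8_rot hS.t0 u4
  have hh := h0_pos
  have t0 := hS.t0
  obtain ⟨b1, b2⟩ := h0_bd
  have N : NCir |c1 t| t := ⟨abs_of_nonneg (c1_nonneg t), hS.t0, by linarith⟩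
  have e4 := c1_sq hS.t0 (by linarith : t ≤ 1)
  rcases le_or_gt ((174 / 100 + 3 * s) * s) (exn (c1 t) X13 t t') with hE | hE
  · exact big_ok hs hs1 hS (Or.inl N) hE
  rcases hn with h | h | h | h | h | h
  · -- the unit circle
    obtain ⟨j, C', x', r', d'⟩ := node_c1 h.2.1 h.2.2.le h.1
    have r1 := r'.hi
    have r2 := r'.lo
    fin_cases j
    · obtain ⟨-, -, e⟩ := d'
      linarith
    · obtain ⟨e1, e2⟩ := d'
      have et : t' = h0 * C' + x' / 2 - t := by linarith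
      subst e1
      subst et
      rcases r_b01 hs hs1 R r' hS.t0 hS hc hE hw.2.2.2 with h1 | h1
      · exact h1
      · exact absurd h1 h6
    · obtain ⟨e1, e2⟩ := d'
      have et : t' = h0 * C' - x' / 2 - t := by linarith
      subst e1
      subst et
      rcases r_b02 hs hs1 R r' hS.t0 hS hc hE hz with h1 | h1
      · exact h1
      · exact absurd h1 h6
    · obtain ⟨-, -, e⟩ := d'
      linarith
  · exact absurd h.1 hW
  · exact absurd h.1 hW
  · exact f_any hs hs1 hS hc (Or.inr (Or.inr h))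
  · -- the curve `b`
    obtain ⟨y0, -, -, y4, y5, -⟩ := nb_bd h
    rcases abs_cases X13 with ⟨e, -⟩ | ⟨e, -⟩
    · refine ring_b13 hs hs1 hS hw h.2.1 (by rw [← e]; linarith) ?_
      rw [← h.1, e]
    · exfalso
      have y6 := nb_near h (by linarith)
      rw [e] at y4 y5 y6
      have hT := h.2.1
      obtain ⟨δ, hδ⟩ : ∃ δ, t + t' = h0 + δ := ⟨t + t' - h0, by ring⟩
      have d0 : 0 ≤ δ := by linarith
      have d1 : δ ≤ 104 / 1000 := by linarith
      have d2 := mul_nonneg d0 (by linarith : 0 ≤ 104 / 1000 - δ)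
      rw [hδ, show h0 + δ - h0 = δ by ring] at y6
      have y7 : 65 / 100 - 152 / 1000 * δ ≤ -X13 := by nlinarith
      have h3 := hS.b3
      have e3 : (X13 - c1 t) ^ 2 + t' ^ 2 = (c1 t ^ 2 + t ^ 2) + (X13 ^ 2 + (t + t') ^ 2) +
          2 * (c1 t * -X13 - t * (t + t')) := by ring
      rw [e3, e4, hδ] at h3
      have e5 := mul_le_mul v1 y7 (by linarith) (by linarith)
      have e6 := mul_le_mul_of_nonneg_right u4 (by linarith : 0 ≤ h0 + δ)
      have e7 : (65 / 100 - 152 / 1000 * δ) ^ 2 ≤ (-X13) ^ 2 :=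
        pow_le_pow_left₀ (by linarith) y7 2
      have hq := h0_sq'
      nlinarith
  · -- the circle of radius `√3`
    obtain ⟨j, C', x', r', d'⟩ := node_c3 h.2.1 h.2.2 h.1
    have r1 := r'.hi
    have r2 := r'.lo
    have r3 := r'.Ch
    fin_cases j
    · obtain ⟨e1, e2⟩ := d'
      have et : t' = h0 * C' + 3 / 2 * x' - t := by linarith
      subst e1
      subst et
      rcases r_c00 hs hs1 R r' hS.t0 hS hc hE with h1 | h1
      · exact h1
      · exact absurd h1 h6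
    · obtain ⟨e1, e2⟩ := d'
      exfalso
      have := mul_le_mul_of_nonneg_left r3 hh.le
      have := h0_sq'
      linarith
    · obtain ⟨e1, e2⟩ := d'
      exfalso
      have k1 := mul_le_mul_of_nonneg_left r2 hh.le
      have k2 : (18 : ℝ) / 10 ≤ -(X13 - c1 t) := by
        linarith
      have := hS.b3
      nlinarith [sq_nonneg t']

end

end Pool.Agent.Strip051.LC.E0.Out
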