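import Pool.Agent.Strip051.LC.E0.O4.Def

/-! # Small rests: large excesses with one side on the unit circle -/

namespace Pool.Agent.Strip051.LC.E0.Out

open Pool.Agent.StripNear Pool.Agent.StripSquare Pool.Agent.Strip051 Pool.Agent.Strip051.Sweep
open Pool.Agent.Strip051.LC.Exact (kE)
open Pool.Agent.Strip051.LC.Line (tau)

/-- Large excesses with small levels. -/
theorem big_of_lev {s X12 X13 t t' : ℝ} (hs : 0 < s) (hs1 : s ≤ 11 / 400)
    (h : Sides X12 X13 t t')
    (hL : |(K.valK X12 X13 t t' (vX par s)).1| + |(K.valK X12 X13 t t' (vX par s)).2.1| +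
      |(K.valK X12 X13 t t' (vX par s)).2.2| ≤ 32 / 5 * s ^ 2)
    (hE : (174 / 100 + 3 * s) * s ≤ exn X12 X13 t t') : OK2 s X12 X13 t t' := by
  have g1 := h0_gt
  have hv : K.adm (vA par s) := adm_vA par s
  have hw : K.adm (vB par s) := adm_vB par s
  obtain ⟨w0, w1⟩ := we_up hs hs1
  constructor
  · refine far_crude hs.le (by linarith) (kE_nonneg hs hs1) ?_
    rw [amp_kE hs hs1]
    have S := h.sum hv (fun T hT hT3 => bnd_vA hs hs1 hT hT3)
    have L : |farXV (K.valK X12 X13 t t' (vX par s))| ≤ 16 / 5 * s ^ 2 := by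
      have a := abs_le.1 (le_refl |(K.valK X12 X13 t t' (vX par s)).1|)
      have b := abs_le.1 (le_refl |(K.valK X12 X13 t t' (vX par s)).2.1|)
      have c := abs_le.1 (le_refl |(K.valK X12 X13 t t' (vX par s)).2.2|)
      unfold farXV
      rw [abs_le]
      constructor <;> linarith [a.1, a.2, b.1, b.2, c.1, c.2]
    have k := mul_le_mul_of_nonneg_left S w0.le
    have k2 := mul_le_mul_of_nonneg_right w1
      (by linarith : 0 ≤ 1 * (3 + 5 / 4 * s + 2 * (s / 2)) + 3 * 0)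
    have k3 : 0 ≤ s ^ 3 := by positivity
    nlinarith
  · refine near_crude hs.le (by linarith) (kE_nonneg hs hs1) ?_
    rw [amp_kE hs hs1]
    have S := h.sum hw (fun T hT hT3 => bnd_vB hs hs1 hT hT3)
    obtain ⟨lam0, lam1⟩ := lam_up hs hs1
    have h3 : (t + t') ^ 2 ≤ 3 := by nlinarith [sq_nonneg X13, h.c3]
    have L1 := abs_le.1 (lev_abs3 (x := K.valK X12 X13 t t' (vX par s)) hs hs1 h.t0 h.t1 h3)
    have L2 := abs_le.1 (lev_abs3 (x := (-(K.valK X12 X13 t t' (vX par s)).2.1,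
      -(K.valK X12 X13 t t' (vX par s)).1, -(K.valK X12 X13 t t' (vX par s)).2.2)) hs hs1 h.t1 h.t0
      (by rwa [add_comm]))
    simp only [abs_neg] at L2
    have L : -(305 / 1000 * (32 / 5 * s ^ 2)) ≤
        min (levXV 3 s 0 t t' (K.valK X12 X13 t t' (vX par s)))
          (levXV 3 s 0 t' t (-(K.valK X12 X13 t t' (vX par s)).2.1,
            -(K.valK X12 X13 t t' (vX par s)).1, -(K.valK X12 X13 t t' (vX par s)).2.2)) :=
      le_min (by linarith [L1.1]) (by linarith [L2.1])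
    have k := mul_le_mul_of_nonneg_left S w0.le
    have e : we s * ((we s + mu 3 s * wq s) / we s * (3 + 5 / 4 * s + 2 * (s / 2)) +
        3 * (2 * (mu 3 s * wq s) / we s)) =
        we s * (3 + 9 / 4 * s) + mu 3 s * wq s * (9 + 9 / 4 * s) := by
      field_simp
      ring
    rw [e] at k
    have k2 := mul_le_mul_of_nonneg_right w1 (by linarith : 0 ≤ 3 + 9 / 4 * s)
    have k3 := mul_le_mul_of_nonneg_right lam1 (by linarith : 0 ≤ 9 + 9 / 4 * s)
    have k4 : 0 ≤ s ^ 3 := by positivity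
    have k5 : s ^ 3 ≤ 11 / 400 * s ^ 2 := by nlinarith [sq_nonneg s]
    nlinarith

/-- **Large excesses**, one side on the unit circle. -/
theorem big_ok {s X12 X13 t t' : ℝ} (hs : 0 < s) (hs1 : s ≤ 11 / 400)
    (h : Sides X12 X13 t t')
    (hn : NCir |X12| t ∨ NCir |X13 - X12| t' ∨ NCir |X13| (t + t'))
    (hE : (174 / 100 + 3 * s) * s ≤ exn X12 X13 t t') : OK2 s X12 X13 t t' := by
  refine big_of_lev hs hs1 h ?_ hE
  obtain ⟨l1, l2, l3⟩ := h.lev hs hs1
  rcases hn with ⟨h1, h2, h3⟩ | ⟨h1, h2, h3⟩ | ⟨h1, h2, h3⟩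
  · have l : |(K.valK X12 X13 t t' (vX par s)).1| ≤ 32 / 25 * s ^ 2 := lev_cir hs hs1 h2 h3 h1
    linarith
  · have l : |(K.valK X12 X13 t t' (vX par s)).2.1| ≤ 32 / 25 * s ^ 2 := lev_cir hs hs1 h2 h3 h1
    linarith
  · have l : |(K.valK X12 X13 t t' (vX par s)).2.2| ≤ 32 / 25 * s ^ 2 := lev_cir hs hs1 h2 h3 h1
    linarith

/-- **Very large excesses**, any triangle. -/
theorem triv_ok {s X12 X13 t t' : ℝ} (hs : 0 < s) (hs1 : s ≤ 11 / 400)
    (h : Sides X12 X13 t t') (hE : thr s ≤ exn X12 X13 t t') : OK2 s X12 X13 t t' :=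
  ⟨far_triv hs hs1 h hE, near_triv hs hs1 h hE⟩

end Pool.Agent.Strip051.LC.E0.Out
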