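import Pool.Agent.Strip051.LC.E0.O3.StrA
import Pool.Agent.Strip051.LC.E0.O3.GeoB
import Pool.Agent.Strip051.LC.E0.O4.Zn4
import Pool.Agent.Strip051.LC.E0.O3.StrE

/-! # Small rests: the directions 30 and 60, sides 12 and 13 -/

namespace Pool.Agent.Strip051.LC.E0.Out

open Pool.Agent.StripNear Pool.Agent.StripSquare Pool.Agent.Strip051 Pool.Agent.Strip051.Sweep
open Pool.Agent.Strip051.LC.Line (tau)

variable {s C x C' x' : ℝ}

/-- The difference of the cosines. -/
private theorem d01_cos (h : Rot C x) (h' : Rot C' x') (ho : x ≤ x') :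
    2 * h0 * |C' - C| ≤ x' - x := by
  have hh := h0_pos
  have a := h.Ch
  have a' := h'.Ch
  have l := h.lo
  have u := h.hi
  have l' := h'.lo
  have u' := h'.hi
  have e : (C' - C) * (C' + C) = -((x' - x) * (x' + x)) := by
    linear_combination h'.sq - h.sq
  have e1 : |C' - C| * (C' + C) = (x' - x) * |x' + x| := by
    have e2 : |(C' - C) * (C' + C)| = |(x' - x) * (x' + x)| := by rw [e, abs_neg]
    rwa [abs_mul, abs_mul, abs_of_nonneg (by linarith : 0 ≤ C' + C),
      abs_of_nonneg (by linarith : 0 ≤ x' - x)] at e2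
  have e3 : |x' + x| ≤ 1 := abs_le.2 ⟨by linarith, by linarith⟩
  have e4 := mul_le_mul_of_nonneg_left e3 (by linarith : 0 ≤ x' - x)
  have e5 := mul_le_mul_of_nonneg_left (by linarith : 2 * h0 ≤ C' + C) (abs_nonneg (C' - C))
  linarith

/-- Next to the end of the range. -/
private theorem d01_end (h : Rot C x) :
    0 ≤ C - h0 ∧ 2 * h0 * (C - h0) ≤ x + 1 / 2 ∧ 3 * (C - h0) ^ 2 ≤ (x + 1 / 2) ^ 2 := by
  have hh := h0_pos
  have hq := h0_sq'
  have a := h.Ch
  have l := h.lo
  have u := h.hi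
  have e : (C - h0) * (C + h0) = (x + 1 / 2) * (1 / 2 - x) := by
    linear_combination h.sq - hq
  have e1 : (x + 1 / 2) * (1 / 2 - x) ≤ (x + 1 / 2) * 1 :=
    mul_le_mul_of_nonneg_left (by linarith) (by linarith)
  have e2 : (C - h0) * (2 * h0) ≤ (C - h0) * (C + h0) :=
    mul_le_mul_of_nonneg_left (by linarith) (by linarith)
  have e3 : 2 * h0 * (C - h0) ≤ x + 1 / 2 := by linarith
  refine ⟨by linarith, e3, ?_⟩
  have e4 := mul_le_mul e3 e3 (mul_nonneg (by linarith) (by linarith)) (by linarith)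
  have e5 : 2 * h0 * (C - h0) * (2 * h0 * (C - h0)) = 3 * (C - h0) ^ 2 := by
    linear_combination 4 * (C - h0) ^ 2 * hq
  linarith

/-- The directions 30 and 60, sides 12 and 13. -/
theorem d01 (hs : 0 < s) (hs1 : s ≤ 11 / 400) (h : Rot C x) (h' : Rot C' x')
    (hS : Sides (3 / 2 * C - h0 * x) (C' / 2 - h0 * x') (h0 * C + 3 / 2 * x)
      (h0 * C' + x' / 2 - (h0 * C + 3 / 2 * x)))
    (hc : 0 ≤ (3 / 2 * C - h0 * x) *
      ((h0 * C + 3 / 2 * x) + (h0 * C' + x' / 2 - (h0 * C + 3 / 2 * x))) -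
      (C' / 2 - h0 * x') * (h0 * C + 3 / 2 * x))
    (hE : exn (3 / 2 * C - h0 * x) (C' / 2 - h0 * x') (h0 * C + 3 / 2 * x)
      (h0 * C' + x' / 2 - (h0 * C + 3 / 2 * x)) < (174 / 100 + 3 * s) * s) :
    Fin3 s (3 / 2 * C - h0 * x) (C' / 2 - h0 * x') (h0 * C + 3 / 2 * x)
      (h0 * C' + x' / 2 - (h0 * C + 3 / 2 * x)) := by
  have hh := h0_pos
  have hq := h0_sq'
  obtain ⟨b1, b2⟩ := h0_bd
  have cr : (3 / 2 * C - h0 * x) *
      ((h0 * C + 3 / 2 * x) + (h0 * C' + x' / 2 - (h0 * C + 3 / 2 * x))) -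
      (C' / 2 - h0 * x') * (h0 * C + 3 / 2 * x) =
      h0 * (C' * C + x' * x) + 3 / 2 * (x' * C - C' * x) := by
    linear_combination (x' * C - x * C') * hq
  have ho : x ≤ x' := by
    refine geo_ord3 h' h ?_ (by rw [← cr]; exact hc)
    have e1 := hS.b1
    have e2 : (C' / 2 - h0 * x' - (3 / 2 * C - h0 * x)) ^ 2 +
        (h0 * C' + x' / 2 - (h0 * C + 3 / 2 * x)) ^ 2 =
        4 - 3 * (C' * C + x' * x) + 2 * h0 * (x' * C - C' * x) := by
      linear_combination ((C' - C) ^ 2 + (x' - x) ^ 2) * hq + h'.sq + 3 * h.sq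
    linarith
  obtain ⟨hd, ha⟩ := geo_3 hs hs1 h' h ho (E := exn (3 / 2 * C - h0 * x) (C' / 2 - h0 * x')
    (h0 * C + 3 / 2 * x) (h0 * C' + x' / 2 - (h0 * C + 3 / 2 * x)))
    (by unfold exn; rw [cr]) hE
  have hcos := d01_cos h h' ho
  have ha22 : x' - x ≤ 22 / 10 * s := by
    refine le_of_sq2 (by linarith) ?_
    nlinarith [sq_nonneg (C' - C)]
  have cc := abs_le.1 (le_refl |C' - C|)
  have t0 := hS.t0
  have t1 := hS.t1
  rcases lt_or_ge (h0 * C' + x' / 2 - (h0 * C + 3 / 2 * x)) (5 * s) with ht | ht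
  · -- the window
    refine Or.inr (Or.inr (Or.inl ?_))
    have hd1 : h0 * (C' - C) ≤ (x' - x) / 2 := by
      have := mul_le_mul_of_nonneg_left cc.2 hh.le
      linarith
    have hd2 : -((x' - x) / 2) ≤ h0 * (C' - C) := by
      have := mul_le_mul_of_nonneg_left cc.1 hh.le
      linarith
    have x0 : -(5 * s) ≤ x := by linarith
    have x1 : x ≤ 22 / 10 * s := by linarith
    have c0 := h.Ch
    have c0' := h'.Ch
    have c1 := h.C1
    have c1' := h'.C1
    have k : 1 - C ≤ 134 / 10 * s ^ 2 := by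
      have e1 : (1 - C) * (1 + C) = x ^ 2 := by linear_combination -h.sq
      have e2 : x ^ 2 ≤ 25 * s ^ 2 := by
        have := mul_nonneg (show 0 ≤ x + 5 * s by linarith) (show 0 ≤ 5 * s - x by linarith)
        linarith
      have e3 : (1 - C) * (1866 / 1000) ≤ (1 - C) * (1 + C) :=
        mul_le_mul_of_nonneg_left (by linarith) (by linarith)
      linarith [sq_nonneg s]
    have k' : 1 - C' ≤ 134 / 10 * s ^ 2 := by
      have e1 : (1 - C') * (1 + C') = x' ^ 2 := by linear_combination -h'.sq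
      have e2 : x' ^ 2 ≤ 25 * s ^ 2 := by
        have := mul_nonneg (show 0 ≤ x' + 5 * s by linarith) (show 0 ≤ 5 * s - x' by linarith)
        linarith
      have e3 : (1 - C') * (1866 / 1000) ≤ (1 - C') * (1 + C') :=
        mul_le_mul_of_nonneg_left (by linarith) (by linarith)
      linarith [sq_nonneg s]
    have ks : 134 / 10 * s ^ 2 ≤ 37 / 100 * s := by
      have := mul_le_mul_of_nonneg_left hs1 hs.le
      linarith
    have m1 : h0 * (1 - C) ≤ 33 / 100 * s := by
      have := mul_le_mul_of_nonneg_right b2.le (show 0 ≤ 1 - C by linarith)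
      linarith
    have m2 : h0 * (1 - C') ≤ 33 / 100 * s := by
      have := mul_le_mul_of_nonneg_right b2.le (show 0 ≤ 1 - C' by linarith)
      linarith
    have n1 : 0 ≤ h0 * (1 - C) := mul_nonneg hh.le (by linarith)
    have n2 : 0 ≤ h0 * (1 - C') := mul_nonneg hh.le (by linarith)
    refine ⟨by linarith, abs_le.2 ⟨by linarith, by linarith⟩,
      abs_le.2 ⟨by linarith, by linarith⟩, by linarith, by linarith⟩
  rcases le_or_gt (h0 * C' + x' / 2 - (h0 * C + 3 / 2 * x)) (1 / 2) with ht' | ht'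
  · -- the strip
    refine Or.inl ?_
    have e1 : 3 / 2 * C + h0 * -x = 3 / 2 * C - h0 * x := by ring
    have e2 : C' / 2 + h0 * -x' = C' / 2 - h0 * x' := by ring
    have e3 : h0 * C - 3 / 2 * -x = h0 * C + 3 / 2 * x := by ring
    have e4 : h0 * C' - -x' / 2 - (h0 * C + 3 / 2 * x) =
      h0 * C' + x' / 2 - (h0 * C + 3 / 2 * x) := by ring
    have k := strip_L1B (s := s) (C := C) (x := -x) (C' := C') (x' := -x') hs hs1 h.neg h'.neg
      (by linarith) (by
        have : (C - C') ^ 2 + (-x - -x') ^ 2 = (C' - C) ^ 2 + (x' - x) ^ 2 := by ring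
        rw [this]
        exact hd) (by rw [e3, e4]; exact ht) (by rw [e3, e4]; exact ht')
      (by rw [e1, e2, e3, e4]; exact hS)
      (by
        rw [e1, e2, e3, e4, show -x - -x' = x' - x by ring]
        exact ha)
    rw [e1, e2, e3, e4] at k
    exact k
  · -- the crossing
    refine Or.inl ?_
    obtain ⟨u0, u1, u2⟩ := d01_end h
    obtain ⟨v0, v1, v2⟩ := d01_end h'
    have l := h.lo
    have l' := h'.lo
    have hd1 : h0 * (C' - C) ≤ (x' - x) / 2 := by
      have := mul_le_mul_of_nonneg_left cc.2 hh.le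
      linarith
    have x1 : x + 1 / 2 ≤ x' - x := by linarith
    have a0 : 0 ≤ x' - x := by linarith
    have p0 : 0 ≤ h0 * (x' - x) := mul_nonneg hh.le a0
    have x2 := mul_le_mul x1 x1 (by linarith) a0
    refine ok2_cross hs hs1 hS (d12 := 2 * (x' - x)) (d23 := 2 * (x' - x))
      (d13 := 231 / 100 * (x' - x)) ?_ ?_ ?_ (by linarith)
    · refine znD hs hs1 (ann12 hS) (by linarith) (by linarith) ?_
      have e : (3 / 2 * C - h0 * x - 2 * h0) ^ 2 + (h0 * C + 3 / 2 * x) ^ 2 =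
          3 * ((C - h0) ^ 2 + (x + 1 / 2) ^ 2) := by
        linear_combination (C ^ 2 + x ^ 2 + 4 * x - 3 + 4) * hq
      rw [e]
      linarith
    · refine znA' hs hs1 (ann23 hS) (by linarith) (by linarith) ?_
      have e1 : C' / 2 - h0 * x' - (3 / 2 * C - h0 * x) + h0 =
          (C' - h0) / 2 - 3 / 2 * (C - h0) - h0 * (x' - x) := by ring
      have e2 : h0 * C' + x' / 2 - (h0 * C + 3 / 2 * x) - 1 / 2 =
          h0 * (C' - C) + (x' - x) / 2 - (x + 1 / 2) := by ring
      have f1 : h0 * (3 / 2 * (C - h0)) ≤ 3 / 4 * (x + 1 / 2) := by linarith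
      have f2 : 3 / 2 * (C - h0) ≤ h0 * (x + 1 / 2) := by
        refine le_of_mul_le_mul_left ?_ hh
        have : h0 * (h0 * (x + 1 / 2)) = 3 / 4 * (x + 1 / 2) := by
          linear_combination (x + 1 / 2) * hq
        linarith
      have f3 : h0 * (x + 1 / 2) ≤ h0 * (x' - x) := mul_le_mul_of_nonneg_left x1 hh.le
      have f4 : C' - h0 ≤ 2 * h0 * (x' - x) := by
        refine le_of_mul_le_mul_left ?_ (by positivity : 0 < 2 * h0)
        have : 2 * h0 * (2 * h0 * (x' - x)) = 3 * (x' - x) := by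
          linear_combination 4 * (x' - x) * hq
        linarith
      have g1 : (C' / 2 - h0 * x' - (3 / 2 * C - h0 * x) + h0) ^ 2 ≤ (2 * h0 * (x' - x)) ^ 2 := by
        rw [e1]
        refine sq_le_sq' ?_ ?_ <;> linarith
      have g2 : (h0 * C' + x' / 2 - (h0 * C + 3 / 2 * x) - 1 / 2) ^ 2 ≤ (x' - x) ^ 2 := by
        refine sq_le_sq' ?_ ?_
        · linarith
        · rw [e2]
          linarith
      have g3 : (2 * h0 * (x' - x)) ^ 2 = 3 * (x' - x) ^ 2 := by
        linear_combination 4 * (x' - x) ^ 2 * hq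
      linarith
    · refine znA hs hs1 (ann13 hS) (by linarith) (by linarith) ?_
      have e : (C' / 2 - h0 * x' - h0) ^ 2 + (h0 * C + 3 / 2 * x +
          (h0 * C' + x' / 2 - (h0 * C + 3 / 2 * x)) - 1 / 2) ^ 2 =
          (C' - h0) ^ 2 + (x' + 1 / 2) ^ 2 := by
        linear_combination (C' ^ 2 + x' ^ 2 + 2 * x' - 1 + 1) * hq
      rw [e]
      have g : (x' + 1 / 2) ^ 2 ≤ (2 * (x' - x)) ^ 2 := by
        refine sq_le_sq' ?_ ?_ <;> linarith
      linarith [sq_nonneg (x' - x)]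

end Pool.Agent.Strip051.LC.E0.Out
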