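import Pool.Agent.Strip051.LC.E0.OutN

/-! # Small rests: the windows, the criterion with two levels -/

namespace Pool.Agent.Strip051.LC.E0.Out

open Pool.Agent.StripNear Pool.Agent.StripSquare Pool.Agent.Strip051 Pool.Agent.Strip051.Sweep
open Pool.Agent.Strip051.LC.Exact (kE)
open Pool.Agent.Strip051.LC.Line (tau)

/-- The window at the horizontal direction. -/
def WH (s t t' : ℝ) : Prop :=
  t ≤ 8 * s ∧ |t' - h0| ≤ 8 * s ∧ |t + t' - h0| ≤ 8 * s ∧ t' ≤ 28 / 25 * h0 ∧
    t + t' ≤ 28 / 25 * h0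

/-- The window at the vertical direction. -/
def WV (s t t' : ℝ) : Prop :=
  |t - h0| ≤ 8 * s ∧ |t' - h0| ≤ 8 * s ∧ |t + t' - 2 * h0| ≤ 8 * s ∧ t ≤ 28 / 25 * h0 ∧
    t' ≤ 28 / 25 * h0

/-- The pairs of unit sides next to the window. -/
def WX (s X12 X13 t t' : ℝ) : Prop :=
  X12 = c1 t ∧ X13 = c1 t + c1 t' ∧ t ≤ 4 * s ∧ t' < 1 ∧ 8 * s ≤ t + t' - h0 ∧
    t + t' - h0 ≤ 46 / 5 * s ∧ t + t' ≤ 28 / 25 * h0

/-- The triangle is in one of the windows. -/
def Inn (s X12 X13 t t' : ℝ) : Prop :=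
  WH s t t' ∨ WH s t' t ∨ WV s t t' ∨ WX s X12 X13 t t' ∨ WX s (X12 - X13) (-X13) t' t

/-- The conclusion of the families. -/
def Fin3 (s X12 X13 t t' : ℝ) : Prop := OK2 s X12 X13 t t' ∨ Inn s X12 X13 t t'

theorem inn_mir {s X12 X13 t t' : ℝ} (h : Inn s (X12 - X13) (-X13) t' t) :
    Inn s X12 X13 t t' := by
  unfold Inn at h ⊢
  rcases h with h | h | h | h | h
  · exact Or.inr (Or.inl h)
  · exact Or.inl h
  · refine Or.inr (Or.inr (Or.inl ?_))
    obtain ⟨a, b, c, d, e⟩ := h
    exact ⟨b, a, by rwa [add_comm], e, d⟩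
  · exact Or.inr (Or.inr (Or.inr (Or.inr h)))
  · refine Or.inr (Or.inr (Or.inr (Or.inl ?_)))
    rwa [show X12 - X13 - -X13 = X12 by ring, neg_neg] at h

theorem fin3_mir {s X12 X13 t t' : ℝ} (hs0 : 0 ≤ s) (hs1 : s < h0)
    (h : Fin3 s (X12 - X13) (-X13) t' t) : Fin3 s X12 X13 t t' := by
  rcases h with h | h
  · exact Or.inl (ok2_mir hs0 hs1 h)
  · exact Or.inr (inn_mir h)

/-! ### The criterion with two levels -/

/-- The cost after subtracting the gauge `k`, with the levels `A`, `A - b`, `2 A - b`, without the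
correction at the near vertex. -/
noncomputable def costA (s k A b X12 X13 t t' : ℝ) : ℝ :=
  57736 / 100000 * s * (|kA s X12 t - k * tau t| + |kA s (X13 - X12) t' - k * tau t'| +
    |kA s X13 (t + t') - k * tau (t + t')|) +
  1 / 2 * (|kX s X12 t - A| + |kX s (X13 - X12) t' - (A - b)| +
    |kX s X13 (t + t') - (2 * A - b)|)

/-- **The gauge criterion with two levels.** -/
theorem of_costA {s k A b X12 X13 t t' : ℝ} (hs : 0 < s) (hs1 : s ≤ 11 / 400)
    (hB : 0 ≤ (t' - t) * A + t * b) (h : Sides X12 X13 t t')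
    (hE : costA s k A b X12 X13 t t' ≤ exn X12 X13 t t')
    (hN : costA s k A b X12 X13 t t' +
      101 / 1000 * s ^ 2 * (|kR s X12 t| + |kR s (X13 - X12) t'| + |kR s X13 (t + t')|) ≤
      exn X12 X13 t t' + 1 / 5 * (((t' - t) * A + t * b) / (2 * h0))) :
    OK2 s X12 X13 t t' := by
  have g1 := h0_gt
  have hh := h0_pos
  obtain ⟨w0, w1⟩ := we_up hs hs1
  obtain ⟨lam0, lam1⟩ := lam_up hs hs1
  obtain ⟨m0, -⟩ := mu_bd hs hs1
  have m5 : 1 / 5 ≤ mu 3 s := by
    obtain ⟨-, g0, g1', g2'⟩ := g_facts hs hs1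
    unfold mu
    push_cast
    rw [div_le_div_iff₀ (by norm_num) (by linarith)]
    linarith
  have s2 : 0 ≤ s ^ 2 := sq_nonneg s
  have wl : we s + mu 3 s * wq s ≤ 57736 / 100000 * s := by linarith
  have h3 : (t + t') ^ 2 ≤ 3 := by nlinarith [sq_nonneg X13, h.c3]
  have hT : 0 ≤ t + t' := add_nonneg h.t0 h.t1
  have ht := h.t0
  have b12 := kB_eq hs hs1 h.t0 h.a1 h.a3
  have b23 := kB_eq hs hs1 h.t1 h.b1 h.b3
  have b13 := kB_eq hs hs1 hT h.c1 h.c3
  unfold costA at hE hN
  set p12 := kA s X12 t - k * tau t with hp12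
  set p23 := kA s (X13 - X12) t' - k * tau t' with hp23
  set p13 := kA s X13 (t + t') - k * tau (t + t') with hp13
  have q1 := abs_nonneg p12
  have q2 := abs_nonneg p23
  have q3 := abs_nonneg p13
  have r1 := abs_nonneg (kR s X12 t)
  have r2 := abs_nonneg (kR s (X13 - X12) t')
  have r3 := abs_nonneg (kR s X13 (t + t'))
  have x1 := abs_nonneg (kX s X12 t - A)
  have x2 := abs_nonneg (kX s (X13 - X12) t' - (A - b))
  have x3 := abs_nonneg (kX s X13 (t + t') - (2 * A - b))
  have m1 := mul_le_mul_of_nonneg_right wl (by positivity : 0 ≤ |p12| + |p23| + |p13|)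
  have m2 := mul_le_mul_of_nonneg_right lam1
    (by positivity : 0 ≤ |kR s X12 t| + |kR s (X13 - X12) t'| + |kR s X13 (t + t')|)
  have m3 := mul_le_mul_of_nonneg_right (by linarith : we s ≤ we s + mu 3 s * wq s)
    (by positivity : 0 ≤ |p12| + |p23| + |p13|)
  have m4 := mul_nonneg lam0
    (by positivity : 0 ≤ |kR s X12 t| + |kR s (X13 - X12) t'| + |kR s X13 (t + t')|)
  constructor
  · refine far_crude_gauge hs.le (by linarith) (kE_nonneg hs hs1) k ?_
    rw [amp_kE hs hs1]
    have L : |farXV (K.valK X12 X13 t t' (vX par s))| ≤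
        1 / 2 * (|kX s X12 t - A| + |kX s (X13 - X12) t' - (A - b)| +
          |kX s X13 (t + t') - (2 * A - b)|) := by
      unfold farXV Cur.valK
      simp only
      have a := abs_le.1 (le_refl |kX s X12 t - A|)
      have b' := abs_le.1 (le_refl |kX s (X13 - X12) t' - (A - b)|)
      have c := abs_le.1 (le_refl |kX s X13 (t + t') - (2 * A - b)|)
      unfold kX at a b' c ⊢
      rw [abs_le]
      constructor <;> linarith [a.1, a.2, b'.1, b'.2, c.1, c.2]
    have e : we s * (|(K.valK X12 X13 t t' (vA par s)).1 - k * tau t| +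
        |(K.valK X12 X13 t t' (vA par s)).2.1 - k * tau t'| +
        |(K.valK X12 X13 t t' (vA par s)).2.2 - k * tau (t + t')|) =
        we s * (|p12| + |p23| + |p13|) := rfl
    rw [e]
    linarith
  · refine near_crude_gauge hs.le (by linarith) (kE_nonneg hs hs1)
      ((we s + mu 3 s * wq s) / we s * k) ?_
    rw [amp_kE hs hs1]
    have L1 := abs_le.1 (lev_abs3 (x := (kX s X12 t - A, kX s (X13 - X12) t' - (A - b),
      kX s X13 (t + t') - (2 * A - b))) hs hs1 h.t0 h.t1 h3)
    have L2 := abs_le.1 (lev_abs3 (x := (-(kX s (X13 - X12) t' - (A - b)),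
      -(kX s X12 t - A), -(kX s X13 (t + t') - (2 * A - b)))) hs hs1 h.t1
      h.t0 (by rwa [add_comm]))
    simp only [abs_neg] at L1 L2
    have tb0 : 0 ≤ ((t' - t) * A + t * b) / (2 * h0) := div_nonneg hB (by positivity)
    have tb := mul_le_mul_of_nonneg_right m5 tb0
    have eA : levXV 3 s 0 t t' (K.valK X12 X13 t t' (vX par s)) =
        levXV 3 s 0 t t' (kX s X12 t - A, kX s (X13 - X12) t' - (A - b),
          kX s X13 (t + t') - (2 * A - b)) +
          mu 3 s * (((t' - t) * A + t * b) / (2 * h0)) := by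
      unfold levXV Cur.valK kX
      simp only
      field_simp
      ring
    have eB : levXV 3 s 0 t' t (-(K.valK X12 X13 t t' (vX par s)).2.1,
        -(K.valK X12 X13 t t' (vX par s)).1, -(K.valK X12 X13 t t' (vX par s)).2.2) =
        levXV 3 s 0 t' t (-(kX s (X13 - X12) t' - (A - b)), -(kX s X12 t - A),
          -(kX s X13 (t + t') - (2 * A - b))) +
          mu 3 s * (((t' - t) * A + t * b) / (2 * h0)) := by
      unfold levXV Cur.valK kX
      simp only
      field_simp
      ring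
    have L : -(1 / 2 * (|kX s X12 t - A| + |kX s (X13 - X12) t' - (A - b)| +
        |kX s X13 (t + t') - (2 * A - b)|)) + 1 / 5 * (((t' - t) * A + t * b) / (2 * h0)) ≤
        min (levXV 3 s 0 t t' (K.valK X12 X13 t t' (vX par s)))
          (levXV 3 s 0 t' t (-(K.valK X12 X13 t t' (vX par s)).2.1,
            -(K.valK X12 X13 t t' (vX par s)).1, -(K.valK X12 X13 t t' (vX par s)).2.2)) := by
      rw [eA, eB]
      exact le_min (by linarith [L1.1]) (by linarith [L2.1])
    have key : ∀ B A R τ : ℝ, we s * B = (we s + mu 3 s * wq s) * A + mu 3 s * wq s * R →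
        we s * |B - (we s + mu 3 s * wq s) / we s * k * τ| ≤
          (we s + mu 3 s * wq s) * |A - k * τ| + mu 3 s * wq s * |R| := by
      intro B A R τ hB
      have e1 : we s * (B - (we s + mu 3 s * wq s) / we s * k * τ) =
          (we s + mu 3 s * wq s) * (A - k * τ) + mu 3 s * wq s * R := by
        have e2 : we s * ((we s + mu 3 s * wq s) / we s * k * τ) =
            (we s + mu 3 s * wq s) * (k * τ) := by
          field_simp
        rw [mul_sub, e2, hB]
        ring
      rw [← abs_of_pos w0, ← abs_mul, abs_of_pos w0, e1]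
      refine (abs_add_le _ _).trans ?_
      rw [abs_mul, abs_mul, abs_of_nonneg lam0,
        abs_of_nonneg (by linarith : 0 ≤ we s + mu 3 s * wq s)]
    have c1 := key _ _ _ (tau t) b12
    have c2 := key _ _ _ (tau t') b23
    have c3 := key _ _ _ (tau (t + t')) b13
    have e : ∀ c, we s * (|(K.valK X12 X13 t t' (vB par s)).1 - c * tau t| +
        |(K.valK X12 X13 t t' (vB par s)).2.1 - c * tau t'| +
        |(K.valK X12 X13 t t' (vB par s)).2.2 - c * tau (t + t')|) =
        we s * |ker K.nodes (vB par s) (fun _ _ => 0) X12 t - c * tau t| +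
        we s * |ker K.nodes (vB par s) (fun _ _ => 0) (X13 - X12) t' - c * tau t'| +
        we s * |ker K.nodes (vB par s) (fun _ _ => 0) X13 (t + t') - c * tau (t + t')| := by
      intro c
      unfold Cur.valK
      ring
    rw [e]
    linarith

end Pool.Agent.Strip051.LC.E0.Out
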